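import Mathlib

/-!
The weights and the weighted degrees along a thread. The thread is entered with the weight `β`; the weights
at the even positions are large at the upper part; `yl` and `yh` are the numbers of the pairs of small and
large values, `f`, `f + 1` is the pair of middle values.
-/

set_option autoImplicit false

namespace Pool.Agent.H.MP_936c16_co

open Finset

/-- the weight above the vertex at the position `i` -/
def E (m f β : ℕ) (yl yh : ℕ → ℕ) (i : ℕ) : ℕ :=
  if i % 2 = 0 then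
    (if i = 0 then β else if i / 2 ≤ m then yl (i / 2) - (f - β) else β + (i / 2) % 2)
  else (if i / 2 ≤ m then (f - β) + (i / 2) % 2 else yh (i / 2 + 1) - β)

/-- the weighted degree of the vertex at the position `i` -/
def Va (m f : ℕ) (yl yh : ℕ → ℕ) (i : ℕ) : ℕ :=
  if i = 1 then f else if i = 2 * m + 2 then f + 1 else
  if i ≤ 2 * m + 1 then
    (if i % 2 = 0 then yl (i / 2) + (i / 2 + 1) % 2 else yl (i / 2) + (i / 2) % 2)
  else (if i % 2 = 0 then yh (i / 2) + (i / 2) % 2 else yh (i / 2 + 1) + (i / 2) % 2)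

theorem E_zero (m f β : ℕ) (yl yh : ℕ → ℕ) : E m f β yl yh 0 = β := by
  simp [E]

theorem E_succ {m f β P : ℕ} {yl yh : ℕ → ℕ} (hf : β ≤ f)
    (hl : ∀ q, 1 ≤ q → q ≤ m → f - β ≤ yl q) (hh : ∀ j, m + 2 ≤ j → j ≤ P → β ≤ yh j) {i : ℕ}
    (hi : i + 1 ≤ 2 * P) : E m f β yl yh (i + 1) = Va m f yl yh (i + 1) - E m f β yl yh i := by
  obtain ⟨j, rfl | rfl⟩ : ∃ j, i = 2 * j ∨ i = 2 * j + 1 := ⟨i / 2, by omega⟩
  · have e1 : 2 * j % 2 = 0 := by omega
    have e2 : (2 * j + 1) % 2 = 1 := by omega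
    have e3 : 2 * j / 2 = j := by omega
    have e4 : (2 * j + 1) / 2 = j := by omega
    rcases Nat.eq_zero_or_pos j with rfl | hj
    · simp [E, Va]
    · by_cases hjm : j ≤ m
      · have h1 := hl j hj hjm
        have g1 : E m f β yl yh (2 * j + 1) = (f - β) + j % 2 := by
          rw [E, e2, e4, if_neg (by omega), if_pos hjm]
        have g2 : E m f β yl yh (2 * j) = yl j - (f - β) := by
          rw [E, e1, e3, if_pos rfl, if_neg (by omega), if_pos hjm]
        have g3 : Va m f yl yh (2 * j + 1) = yl j + j % 2 := by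
          rw [Va, e2, e4, if_neg (by omega), if_neg (by omega), if_pos (by omega),
            if_neg (by omega)]
        rw [g1, g2, g3]
        omega
      · have h1 := hh (j + 1) (by omega) (by omega)
        have g1 : E m f β yl yh (2 * j + 1) = yh (j + 1) - β := by
          rw [E, e2, e4, if_neg (by omega), if_neg hjm]
        have g2 : E m f β yl yh (2 * j) = β + j % 2 := by
          rw [E, e1, e3, if_pos rfl, if_neg (by omega), if_neg hjm]
        have g3 : Va m f yl yh (2 * j + 1) = yh (j + 1) + j % 2 := by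
          rw [Va, e2, e4, if_neg (by omega), if_neg (by omega), if_neg (by omega),
            if_neg (by omega)]
        rw [g1, g2, g3]
        omega
  · have e1 : (2 * j + 1 + 1) % 2 = 0 := by omega
    have e2 : (2 * j + 1) % 2 = 1 := by omega
    have e3 : (2 * j + 1 + 1) / 2 = j + 1 := by omega
    have e4 : (2 * j + 1) / 2 = j := by omega
    by_cases hjm : j ≤ m
    · have g2 : E m f β yl yh (2 * j + 1) = (f - β) + j % 2 := by
        rw [E, e2, e4, if_neg (by omega), if_pos hjm]
      by_cases hjm' : j + 1 ≤ m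
      · have h1 := hl (j + 1) (by omega) hjm'
        have g1 : E m f β yl yh (2 * j + 1 + 1) = yl (j + 1) - (f - β) := by
          rw [E, e1, e3, if_pos rfl, if_neg (by omega), if_pos hjm']
        have g3 : Va m f yl yh (2 * j + 1 + 1) = yl (j + 1) + (j + 1 + 1) % 2 := by
          rw [Va, e1, e3, if_neg (by omega), if_neg (by omega), if_pos (by omega), if_pos rfl]
        rw [g1, g2, g3]
        omega
      · have g1 : E m f β yl yh (2 * j + 1 + 1) = β + (j + 1) % 2 := by
          rw [E, e1, e3, if_pos rfl, if_neg (by omega), if_neg hjm']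
        have g3 : Va m f yl yh (2 * j + 1 + 1) = f + 1 := by
          rw [Va, if_neg (by omega), if_pos (by omega)]
        rw [g1, g2, g3]
        omega
    · have h1 := hh (j + 1) (by omega) (by omega)
      have g1 : E m f β yl yh (2 * j + 1 + 1) = β + (j + 1) % 2 := by
        rw [E, e1, e3, if_pos rfl, if_neg (by omega), if_neg (by omega)]
      have g2 : E m f β yl yh (2 * j + 1) = yh (j + 1) - β := by
        rw [E, e2, e4, if_neg (by omega), if_neg hjm]
      have g3 : Va m f yl yh (2 * j + 1 + 1) = yh (j + 1) + (j + 1) % 2 := by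
        rw [Va, e1, e3, if_neg (by omega), if_neg (by omega), if_neg (by omega), if_pos rfl]
      rw [g1, g2, g3]
      omega

/-- the bounds of the weights -/
theorem E_mem {m f β P s l : ℕ} {yl yh : ℕ → ℕ} (hβ1 : s ≤ β + l) (hβ2 : β + 1 ≤ s)
    (hf1 : s + 1 ≤ f) (hf2 : f + 3 ≤ s + 4 * l) (hs : 7 * l ≤ s + 1)
    (hl : ∀ q, 1 ≤ q → q ≤ m → 5 * l ≤ yl q + 2 ∧ yl q + 1 ≤ s)
    (hh : ∀ j, m + 2 ≤ j → j ≤ P → s + 4 * l ≤ yh j ∧ yh j + 3 * l ≤ 2 * s) {i : ℕ}
    (hi : i ≤ 2 * P) : 1 ≤ E m f β yl yh i ∧ E m f β yl yh i ≤ s := by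
  obtain ⟨j, rfl | rfl⟩ : ∃ j, i = 2 * j ∨ i = 2 * j + 1 := ⟨i / 2, by omega⟩
  · have e1 : 2 * j % 2 = 0 := by omega
    have e3 : 2 * j / 2 = j := by omega
    rcases Nat.eq_zero_or_pos j with rfl | hj
    · rw [mul_zero, E_zero]
      omega
    · by_cases hjm : j ≤ m
      · have h1 := hl j hj hjm
        have g2 : E m f β yl yh (2 * j) = yl j - (f - β) := by
          rw [E, e1, e3, if_pos rfl, if_neg (by omega), if_pos hjm]
        omega
      · have g2 : E m f β yl yh (2 * j) = β + j % 2 := by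
          rw [E, e1, e3, if_pos rfl, if_neg (by omega), if_neg hjm]
        omega
  · have e2 : (2 * j + 1) % 2 = 1 := by omega
    have e4 : (2 * j + 1) / 2 = j := by omega
    by_cases hjm : j ≤ m
    · have g1 : E m f β yl yh (2 * j + 1) = (f - β) + j % 2 := by
        rw [E, e2, e4, if_neg (by omega), if_pos hjm]
      omega
    · have h1 := hh (j + 1) (by omega) (by omega)
      have g1 : E m f β yl yh (2 * j + 1) = yh (j + 1) - β := by
        rw [E, e2, e4, if_neg (by omega), if_neg hjm]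
      omega

theorem E_top {m f β P : ℕ} {yl yh : ℕ → ℕ} (hm : m = P / 2) :
    E m f β yl yh (2 * P) = β + P % 2 := by
  have e1 : 2 * P % 2 = 0 := by omega
  have e3 : 2 * P / 2 = P := by omega
  rcases Nat.eq_zero_or_pos P with rfl | hP
  · rw [mul_zero, E_zero, Nat.zero_mod, add_zero]
  · rw [E, e1, e3, if_pos rfl, if_neg (by omega), if_neg (by omega)]

/-- the kind of the value -/
theorem Va_cases {m f P : ℕ} {yl yh : ℕ → ℕ} (hm : m = P / 2) {i : ℕ} (h1 : 1 ≤ i)
    (h2 : i ≤ 2 * P) :
    (∃ ε, ε < 2 ∧ Va m f yl yh i = f + ε ∧ i = if ε = 0 then 1 else 2 * m + 2) ∨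
    (∃ q ε, 1 ≤ q ∧ q ≤ m ∧ ε < 2 ∧ Va m f yl yh i = yl q + ε ∧
      i = if ε = q % 2 then 2 * q + 1 else 2 * q) ∨
    (∃ j ε, m + 2 ≤ j ∧ j ≤ P ∧ ε < 2 ∧ Va m f yl yh i = yh j + ε ∧
      i = if ε = j % 2 then 2 * j else 2 * j - 1) := by
  by_cases c1 : i = 1
  · left
    exact ⟨0, by omega, by rw [Va, if_pos c1, add_zero], by rw [if_pos rfl, c1]⟩
  by_cases c2 : i = 2 * m + 2
  · left
    exact ⟨1, by omega, by rw [Va, if_neg c1, if_pos c2], by rw [if_neg (by omega), c2]⟩
  by_cases c3 : i ≤ 2 * m + 1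
  · right
    left
    by_cases c4 : i % 2 = 0
    · refine ⟨i / 2, (i / 2 + 1) % 2, by omega, by omega, by omega, ?_, ?_⟩
      · rw [Va, if_neg c1, if_neg c2, if_pos c3, if_pos c4]
      · rw [if_neg (by omega)]
        omega
    · refine ⟨i / 2, (i / 2) % 2, by omega, by omega, by omega, ?_, ?_⟩
      · rw [Va, if_neg c1, if_neg c2, if_pos c3, if_neg c4]
      · rw [if_pos rfl]
        omega
  · right
    right
    by_cases c4 : i % 2 = 0
    · refine ⟨i / 2, (i / 2) % 2, by omega, by omega, by omega, ?_, ?_⟩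
      · rw [Va, if_neg c1, if_neg c2, if_neg c3, if_pos c4]
      · rw [if_pos rfl]
        omega
    · refine ⟨i / 2 + 1, (i / 2) % 2, by omega, by omega, by omega, ?_, ?_⟩
      · rw [Va, if_neg c1, if_neg c2, if_neg c3, if_neg c4]
      · rw [if_neg (by omega)]
        omega

/-- a numbering of a finite set -/
theorem exists_num {α : Type} [DecidableEq α] (S : Finset α) :
    ∃ f : α → ℕ, (∀ x ∈ S, f x < #S) ∧ (∀ x ∈ S, ∀ y ∈ S, f x = f y → x = y) := by
  refine ⟨fun x => if h : x ∈ S then (S.equivFin ⟨x, h⟩ : ℕ) else 0, ?_, ?_⟩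
  · intro x hx
    simp only [dif_pos hx]
    exact (S.equivFin ⟨x, hx⟩).2
  · intro x hx y hy hxy
    simp only [dif_pos hx, dif_pos hy] at hxy
    have h1 := S.equivFin.injective (Fin.ext hxy)
    exact congrArg Subtype.val h1

end Pool.Agent.H.MP_936c16_co
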