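import Pool.Agent.H.MP_936c16_co.Num
import Pool.Agent.H.MP_936c16_co.Seq

/-!
The weights in the threads.
-/

set_option autoImplicit false

namespace Pool.Agent.H.MP_936c16_co

open Finset

variable {V : Type} [DecidableEq V]

theorem Num.ud_range {s a k t n S SP : ℕ} (h : Num s a k t n S SP) {j : ℕ}
    (hj : j < hJ s a k t ∨ j < SP - 2 * hM s a - k) :
    hR s a < ud s a k t j ∧ (ud s a k t j + 1 < hz s a k t ∨
      (hz s a k t + t ≤ ud s a k t j ∧ ud s a k t j + 1 ≤ 2 * s)) := by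
  have h1 := h.ud_ge j
  refine ⟨by omega, ?_⟩
  have h2 := h.J_ge
  have h3 := h.ha
  by_cases h4 : j < hJ s a k t
  · left
    rw [ud, if_pos h4, hz]
    split_ifs <;> omega
  · right
    refine ⟨?_, h.ud_top (by omega)⟩
    rw [ud, if_neg h4, if_neg (show ¬ j < 2 by omega), hz]
    omega

theorem Num.ud_f {s a k t n S SP : ℕ} (h : Num s a k t n S SP) {j f : ℕ}
    (hf : hR s a + 5 ≤ f) (hf' : f ≤ hR s a + 3 + 2 * k) :
    ud s a k t j + 1 < f ∨ f + 1 < ud s a k t j := by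
  have h2 := h.J_ge
  have h3 := h.ha
  by_cases h4 : j < 2
  · left
    rw [ud, if_pos h4, if_pos (show j < hJ s a k t by omega)]
    omega
  · right
    rw [ud, if_neg h4]
    split_ifs <;> omega

/-- the sets of the weighted degrees in the threads -/
theorem exists_sets (N : Finset V) (P β : V → ℕ) (s a k t : ℕ)
    (hk : k = #(N.filter fun b => 7 ≤ P b)) (ht : t ≤ #N) (hN : #N + 3 ≤ 2 * a) (ha : 3 ≤ a)
    (hs : a + t + 2 * ∑ b ∈ N, P b + 2 ≤ 2 * s) (hs' : 2 * s ≤ a + t + 2 * ∑ b ∈ N, P b + 3)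
    (hC : 70 * a ≤ t + 2 * ∑ b ∈ N, P b)
    (hβ : ∀ b ∈ N, hR s a ≤ β b + 2 * a ∧ β b ≤ hR s a) :
    ∃ W : V → Finset ℕ, (∀ b ∈ N, Fill s (2 * P b) (β b) (W b) (β b - P b % 2) ∧
        #(W b) = 2 * P b ∧ ∀ v ∈ W b, v + a < hR s a ∨ (hR s a < v ∧ v < hz s a k t) ∨
          (hz s a k t + t ≤ v ∧ v ≤ 2 * s)) ∧
      ∀ b ∈ N, ∀ b' ∈ N, b ≠ b' → Disjoint (W b) (W b') := by
  obtain ⟨H, hH⟩ : ∃ H, H = N.filter fun b => 7 ≤ P b := ⟨_, rfl⟩
  obtain ⟨c, hc⟩ : ∃ c : V → ℕ, c = fun b => if 7 ≤ P b then 2 else P b := ⟨_, rfl⟩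
  obtain ⟨S, hS⟩ : ∃ S, S = ∑ b ∈ N, c b := ⟨_, rfl⟩
  obtain ⟨SP, hSP⟩ : ∃ SP, SP = ∑ b ∈ N, P b := ⟨_, rfl⟩
  rw [← hSP] at hs hs' hC
  rw [← hH] at hk
  have memH : ∀ b, b ∈ H ↔ b ∈ N ∧ 7 ≤ P b := by
    intro b
    rw [hH, mem_filter]
  have hS1 : S + 4 * k ≤ 6 * #N := by
    have h1 : ∑ b ∈ N, (c b + if 7 ≤ P b then 4 else 0) ≤ ∑ _b ∈ N, 6 := by
      refine sum_le_sum fun b _ => ?_
      rw [hc]
      simp only
      split_ifs <;> omega
    rw [sum_add_distrib, ← sum_filter, sum_const, sum_const, ← hS, ← hH, ← hk, smul_eq_mul,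
      smul_eq_mul] at h1
    omega
  have hS2 : 2 * k ≤ S := by
    have h1 : ∑ b ∈ N, (if 7 ≤ P b then 2 else 0) ≤ ∑ b ∈ N, c b := by
      refine sum_le_sum fun b _ => ?_
      rw [hc]
      simp only
      split_ifs <;> omega
    rw [← sum_filter, sum_const, ← hS, ← hH, ← hk, smul_eq_mul] at h1
    omega
  have hS3 : S + ∑ b ∈ H, (P b - 2) = SP := by
    rw [hS, hSP, hH, sum_filter, ← sum_add_distrib]
    refine sum_congr rfl fun b _ => ?_
    rw [hc]
    simp only
    split_ifs <;> omega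
  have hS4 : SP ≤ 2 * ∑ b ∈ H, ((P b - 5) / 2) + 6 * #N := by
    have h1 : ∑ b ∈ N, P b ≤ ∑ b ∈ N, ((if 7 ≤ P b then 2 * ((P b - 5) / 2) else 0) + 6) := by
      refine sum_le_sum fun b _ => ?_
      split_ifs <;> omega
    rw [sum_add_distrib, ← sum_filter, sum_const, ← hSP, ← hH, smul_eq_mul, ← mul_sum] at h1
    omega
  have hk1 : 1 ≤ k := by
    by_contra hcon
    have h1 : H = ∅ := by
      rw [← card_eq_zero]
      omega
    rw [h1, sum_empty] at hS4
    omega
  have h : Num s a k t (#N) S SP := by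
    refine ⟨?_, ht, hN, ha, hs, hs', hC, hS1, hS2, hk1⟩
    rw [hk, hH]
    exact card_filter_le _ _
  have e1 := h.s_ge
  have e2 := h.R_le
  have e3 := h.J_ge
  have e4 := h.hk
  have hMk : k ≤ hM s a := by
    rw [hM]
    omega
  have hM1 : hM s a ≤ ∑ b ∈ H, ((P b - 5) / 2) := by
    have : 4 * hM s a ≤ s - a - 6 := by
      rw [hM]
      omega
    omega
  obtain ⟨m, hm1, hm2⟩ := exists_sum_eq H (fun _ => 1) (fun b => (P b - 5) / 2) (hM s a) (by
    intro b hb
    have := (memH b).1 hb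
    omega) (by
    rw [sum_const, smul_eq_mul, mul_one, ← hk]
    exact hMk) hM1
  have hm3 : ∀ b ∈ H, 1 ≤ m b ∧ 2 * m b + 5 ≤ P b := by
    intro b hb
    have h1 := hm1 b hb
    have := (memH b).1 hb
    omega
  obtain ⟨O, hO1, hO2⟩ := exists_parts N c (range S) (by rw [card_range, hS])
  obtain ⟨iH, hi1, hi2⟩ := exists_num H
  rw [← hk] at hi1
  obtain ⟨f, hf⟩ : ∃ f : V → ℕ, f = fun b => hR s a + 5 + 2 * iH b := ⟨_, rfl⟩
  have hf1 : ∀ b ∈ H, hR s a + 5 ≤ f b ∧ f b ≤ hR s a + 3 + 2 * k := by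
    intro b hb
    have := hi1 b hb
    rw [hf]
    simp only
    omega
  obtain ⟨d1, hd1⟩ : ∃ d1 : V → ℕ, d1 = fun b => dl s (P b) (β b) (f b) / 2 := ⟨_, rfl⟩
  obtain ⟨d2, hd2⟩ : ∃ d2 : V → ℕ, d2 = fun b => dh s (P b) (β b) / 2 := ⟨_, rfl⟩
  have hHN : ∀ b ∈ H, b ∈ N := fun b hb => ((memH b).1 hb).1
  have hd1' : ∀ b ∈ H, 1 ≤ d1 b ∧ d1 b ≤ k + a + 2 := by
    intro b hb
    have h1 := hβ b (hHN b hb)
    have h2 := hf1 b hb
    have h3 := h.dl_bd (p := P b) h1.1 h1.2 h2.1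
    rw [hd1]
    simp only
    omega
  have hd2' : ∀ b ∈ H, 1 ≤ d2 b ∧ d2 b ≤ a + 4 := by
    intro b hb
    have h1 := hβ b (hHN b hb)
    have h3 := h.dh_bd (p := P b) h1.1 h1.2
    rw [hd2]
    simp only
    omega
  obtain ⟨j1, hj1, hj1'⟩ := exists_doubles H d1 1 fun b hb => (hd1' b hb).1
  obtain ⟨j2, hj2, hj2'⟩ := exists_doubles H d2 S fun b hb => (hd2' b hb).1
  rw [← hk] at hj1 hj2
  have hsum1 : ∑ b ∈ H, (2 * m b - 2) + 2 * k = 2 * hM s a := by
    have h1 : ∑ b ∈ H, ((2 * m b - 2) + 2) = ∑ b ∈ H, 2 * m b := by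
      refine sum_congr rfl fun b hb => ?_
      have := hm3 b hb
      omega
    rw [sum_add_distrib, sum_const, smul_eq_mul, ← mul_sum, hm2, ← hk] at h1
    omega
  have hsum2 : ∑ b ∈ H, (P b - 5 - 2 * m b) + (3 * k + 2 * hM s a) + S = SP := by
    have h1 : ∑ b ∈ H, ((P b - 5 - 2 * m b) + (3 + 2 * m b)) = ∑ b ∈ H, (P b - 2) := by
      refine sum_congr rfl fun b hb => ?_
      have := hm3 b hb
      omega
    rw [sum_add_distrib, sum_add_distrib, sum_const, smul_eq_mul, ← mul_sum, hm2, ← hk] at h1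
    omega
  obtain ⟨U1, hU1⟩ : ∃ U1 : Finset ℕ, U1 = H.biUnion fun b => {j1 b, j1 b + d1 b} := ⟨_, rfl⟩
  obtain ⟨U2, hU2⟩ : ∃ U2 : Finset ℕ, U2 = H.biUnion fun b => {j2 b, j2 b + d2 b} := ⟨_, rfl⟩
  have hU1c : #U1 ≤ 2 * k := by
    rw [hU1]
    refine card_biUnion_le.trans ?_
    refine (sum_le_sum (fun b _ => card_le_two)).trans ?_
    rw [sum_const, smul_eq_mul, ← hk]
    omega
  have hU2c : #U2 ≤ 2 * k := by
    rw [hU2]
    refine card_biUnion_le.trans ?_
    refine (sum_le_sum (fun b _ => card_le_two)).trans ?_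
    rw [sum_const, smul_eq_mul, ← hk]
    omega
  obtain ⟨LS, hL1, hL2⟩ := exists_parts H (fun b => 2 * m b - 2) (range (2 * hM s a) \ U1) (by
    have h1 := le_card_sdiff U1 (range (2 * hM s a))
    rw [card_range] at h1
    omega)
  obtain ⟨HS, hH1, hH2⟩ := exists_parts H (fun b => P b - 5 - 2 * m b)
    (Ico S (SP - 2 * hM s a - k) \ U2) (by
    have h1 := le_card_sdiff U2 (Ico S (SP - 2 * hM s a - k))
    rw [Nat.card_Ico] at h1
    omega)
  obtain ⟨U, hU⟩ : ∃ U : V → Finset ℕ, U = fun b =>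
    if b ∈ H then O b ∪ {j2 b, j2 b + d2 b} ∪ HS b else O b := ⟨_, rfl⟩
  obtain ⟨Lo, hLo⟩ : ∃ Lo : V → Finset ℕ, Lo = fun b =>
    if b ∈ H then {j1 b, j1 b + d1 b} ∪ LS b else ∅ := ⟨_, rfl⟩
  obtain ⟨F, hF⟩ : ∃ F : V → Finset ℕ, F = fun b =>
    if b ∈ H then {f b, f b + 1} else ∅ := ⟨_, rfl⟩
  have hOS : ∀ b ∈ N, ∀ j ∈ O b, j < S := fun b hb j hj => mem_range.1 ((hO1 b hb).2 hj)
  have hLS : ∀ b ∈ H, ∀ j ∈ LS b, j < 2 * hM s a ∧ j ∉ U1 := by
    intro b hb j hj
    have h1 := (hL1 b hb).2 hj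
    rw [mem_sdiff, mem_range] at h1
    exact h1
  have hHS : ∀ b ∈ H, ∀ j ∈ HS b, S ≤ j ∧ j < SP - 2 * hM s a - k ∧ j ∉ U2 := by
    intro b hb j hj
    have h1 := (hH1 b hb).2 hj
    rw [mem_sdiff, mem_Ico] at h1
    exact ⟨h1.1.1, h1.1.2, h1.2⟩
  have memU1 : ∀ b ∈ H, ∀ j, (j = j1 b ∨ j = j1 b + d1 b) → j ∈ U1 := by
    intro b hb j hj
    rw [hU1, mem_biUnion]
    exact ⟨b, hb, by rw [mem_insert, mem_singleton]; exact hj⟩
  have memU2 : ∀ b ∈ H, ∀ j, (j = j2 b ∨ j = j2 b + d2 b) → j ∈ U2 := by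
    intro b hb j hj
    rw [hU2, mem_biUnion]
    exact ⟨b, hb, by rw [mem_insert, mem_singleton]; exact hj⟩
  have hUm : ∀ b, ∀ j ∈ U b, j ∈ O b ∨ (b ∈ H ∧ (j = j2 b ∨ j = j2 b + d2 b)) ∨
      (b ∈ H ∧ j ∈ HS b) := by
    intro b j hj
    rw [hU] at hj
    simp only at hj
    by_cases hb : b ∈ H
    · rw [if_pos hb, mem_union, mem_union, mem_insert, mem_singleton] at hj
      rcases hj with (hj | hj) | hj
      · exact Or.inl hj
      · exact Or.inr (Or.inl ⟨hb, hj⟩)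
      · exact Or.inr (Or.inr ⟨hb, hj⟩)
    · rw [if_neg hb] at hj
      exact Or.inl hj
  have hLm : ∀ b, ∀ j ∈ Lo b, b ∈ H ∧ ((j = j1 b ∨ j = j1 b + d1 b) ∨ j ∈ LS b) := by
    intro b j hj
    rw [hLo] at hj
    simp only at hj
    by_cases hb : b ∈ H
    · rw [if_pos hb, mem_union, mem_insert, mem_singleton] at hj
      exact ⟨hb, hj⟩
    · rw [if_neg hb] at hj
      exact absurd hj (notMem_empty _)
  have hFm : ∀ b, ∀ v ∈ F b, b ∈ H ∧ (v = f b ∨ v = f b + 1) := by
    intro b j hj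
    rw [hF] at hj
    simp only at hj
    by_cases hb : b ∈ H
    · rw [if_pos hb, mem_insert, mem_singleton] at hj
      exact ⟨hb, hj⟩
    · rw [if_neg hb] at hj
      exact absurd hj (notMem_empty _)
  have j2S : ∀ b ∈ H, ∀ j, (j = j2 b ∨ j = j2 b + d2 b) → S ≤ j ∧ j < hJ s a k t := by
    intro b hb j hj
    have h1 := hj2 b hb
    have h2 := hd2' b hb
    omega
  have hUr : ∀ b ∈ N, ∀ j ∈ U b, j < hJ s a k t ∨ j < SP - 2 * hM s a - k := by
    intro b hb j hj
    rcases hUm b j hj with h1 | ⟨h1, h2⟩ | ⟨h1, h2⟩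
    · right
      have := hOS b hb j h1
      omega
    · exact Or.inl (j2S b h1 j h2).2
    · exact Or.inr (hHS b h1 j h2).2.1
  have hLr : ∀ b, ∀ j ∈ Lo b, j < 2 * hM s a := by
    intro b j hj
    obtain ⟨h1, h2 | h2⟩ := hLm b j hj
    · have h3 := hj1 b h1
      have h4 := hd1' b h1
      have h5 : s - a - 6 < 4 * hM s a + 4 := by
        rw [hM]
        omega
      omega
    · exact (hLS b h1 j h2).1
  have hUd : ∀ b ∈ N, ∀ b' ∈ N, b ≠ b' → Disjoint (U b) (U b') := by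
    intro b hb b' hb' hne
    rw [disjoint_left]
    intro j hj hj'
    rcases hUm b j hj with h1 | ⟨h1, h2⟩ | ⟨h1, h2⟩
    · rcases hUm b' j hj' with g1 | ⟨g1, g2⟩ | ⟨g1, g2⟩
      · exact disjoint_left.1 (hO2 b hb b' hb' hne) h1 g1
      · have := hOS b hb j h1
        have := j2S b' g1 j g2
        omega
      · have := hOS b hb j h1
        have := hHS b' g1 j g2
        omega
    · rcases hUm b' j hj' with g1 | ⟨g1, g2⟩ | ⟨g1, g2⟩
      · have := hOS b' hb' j g1
        have := j2S b h1 j h2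
        omega
      · have w1 : j ∈ ({j2 b, j2 b + d2 b} : Finset ℕ) := by
          rw [mem_insert, mem_singleton]
          exact h2
        have w2 : j ∈ ({j2 b', j2 b' + d2 b'} : Finset ℕ) := by
          rw [mem_insert, mem_singleton]
          exact g2
        exact disjoint_left.1 (hj2' b h1 b' g1 hne) w1 w2
      · exact (hHS b' g1 j g2).2.2 (memU2 b h1 j h2)
    · rcases hUm b' j hj' with g1 | ⟨g1, g2⟩ | ⟨g1, g2⟩
      · have := hOS b' hb' j g1
        have := hHS b h1 j h2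
        omega
      · exact (hHS b h1 j h2).2.2 (memU2 b' g1 j g2)
      · exact disjoint_left.1 (hH2 b h1 b' g1 hne) h2 g2
  have hLd : ∀ b b', b ≠ b' → Disjoint (Lo b) (Lo b') := by
    intro b b' hne
    rw [disjoint_left]
    intro j hj hj'
    obtain ⟨h1, h2 | h2⟩ := hLm b j hj
    · obtain ⟨g1, g2 | g2⟩ := hLm b' j hj'
      · have w1 : j ∈ ({j1 b, j1 b + d1 b} : Finset ℕ) := by
          rw [mem_insert, mem_singleton]
          exact h2
        have w2 : j ∈ ({j1 b', j1 b' + d1 b'} : Finset ℕ) := by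
          rw [mem_insert, mem_singleton]
          exact g2
        exact disjoint_left.1 (hj1' b h1 b' g1 hne) w1 w2
      · exact (hLS b' g1 j g2).2 (memU1 b h1 j h2)
    · obtain ⟨g1, g2 | g2⟩ := hLm b' j hj'
      · exact (hLS b h1 j h2).2 (memU1 b' g1 j g2)
      · exact disjoint_left.1 (hL2 b h1 b' g1 hne) h2 g2
  have hFd : ∀ b b', b ≠ b' → Disjoint (F b) (F b') := by
    intro b b' hne
    rw [disjoint_left]
    intro v hv hv'
    obtain ⟨h1, h2⟩ := hFm b v hv
    obtain ⟨g1, g2⟩ := hFm b' v hv'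
    have h3 : iH b ≠ iH b' := fun h4 => hne (hi2 b h1 b' g1 h4)
    rw [hf] at h2 g2
    simp only at h2 g2
    omega
  have x1 : ∀ b ∈ N, ∀ b', Disjoint (dom (ud s a k t) (U b)) (dom ld (Lo b')) := by
    intro b hb b'
    rw [disjoint_left]
    intro v hv hv'
    obtain ⟨j, hj, h1⟩ := mem_dom.1 hv
    obtain ⟨j', hj', h2⟩ := mem_dom.1 hv'
    have h3 := (h.ud_range (hUr b hb j hj)).1
    have h4 := h.ld_top (hLr b' j' hj')
    omega
  have x2 : ∀ b ∈ N, ∀ b', Disjoint (dom (ud s a k t) (U b)) (F b') := by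
    intro b hb b'
    rw [disjoint_left]
    intro v hv hv'
    obtain ⟨j, hj, h1⟩ := mem_dom.1 hv
    obtain ⟨g1, g2⟩ := hFm b' v hv'
    have h3 := hf1 b' g1
    have h4 := h.ud_f (j := j) h3.1 h3.2
    omega
  have x3 : ∀ b b', Disjoint (dom ld (Lo b)) (F b') := by
    intro b b'
    rw [disjoint_left]
    intro v hv hv'
    obtain ⟨j, hj, h1⟩ := mem_dom.1 hv
    obtain ⟨g1, g2⟩ := hFm b' v hv'
    have h3 := hf1 b' g1
    have h4 := h.ld_top (hLr b j hj)
    omega
  have hudlt := ud_lt s a k t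
  refine ⟨fun b => dom (ud s a k t) (U b) ∪ dom ld (Lo b) ∪ F b, ?_, ?_⟩
  · intro b hb
    have hβb := hβ b hb
    refine ⟨?_, ?_, ?_⟩
    · show Fill s (2 * P b) (β b) (dom (ud s a k t) (U b) ∪ dom ld (Lo b) ∪ F b) (β b - P b % 2)
      by_cases hbH : b ∈ H
      · have q1 := hm3 b hbH
        have q2 := hf1 b hbH
        have q3 := hj1 b hbH
        have q4 := hj2 b hbH
        have q5 : #(O b) = 2 := by
          rw [(hO1 b hb).1, hc]
          exact if_pos ((memH b).1 hbH).2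
        have q6 : U b = O b ∪ {j2 b, j2 b + dh s (P b) (β b) / 2} ∪ HS b := by
          rw [hU, hd2]
          exact if_pos hbH
        have q7 : Lo b = {j1 b, j1 b + dl s (P b) (β b) (f b) / 2} ∪ LS b := by
          rw [hLo, hd1]
          exact if_pos hbH
        have q8 : F b = {f b, f b + 1} := by
          rw [hF]
          exact if_pos hbH
        rw [q6, q7, q8]
        exact h.fill_thread hβb.1 hβb.2 q1.2 q1.1 q2.1 q2.2 q5 (hOS b hb) q3.1 q3.2 q4.1 q4.2
          (hL1 b hbH).1 (fun j hj => (hLS b hbH j hj).1) (hH1 b hbH).1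
          (fun j hj => ⟨(hHS b hbH j hj).1, (hHS b hbH j hj).2.1⟩)
      · have q5 : #(O b) = P b := by
          rw [(hO1 b hb).1, hc]
          exact if_neg fun h7 => hbH ((memH b).2 ⟨hb, h7⟩)
        have q6 : U b = O b := by
          rw [hU]
          exact if_neg hbH
        have q7 : Lo b = ∅ := by
          rw [hLo]
          exact if_neg hbH
        have q8 : F b = ∅ := by
          rw [hF]
          exact if_neg hbH
        have q9 : dom ld ∅ = ∅ := rfl
        rw [q6, q7, q8, q9, union_empty, union_empty]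
        exact h.fill_short hβb.1 hβb.2 q5 (hOS b hb)
    · rw [card_union_of_disjoint (disjoint_union_left.2 ⟨x2 b hb b, x3 b b⟩),
        card_union_of_disjoint (x1 b hb b), card_dom hudlt, card_dom ld_lt]
      by_cases hbH : b ∈ H
      · have q1 := hm3 b hbH
        have q5 : #(O b) = 2 := by
          rw [(hO1 b hb).1, hc]
          exact if_pos ((memH b).1 hbH).2
        have q6 : U b = O b ∪ {j2 b, j2 b + d2 b} ∪ HS b := by
          rw [hU]
          exact if_pos hbH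
        have q7 : Lo b = {j1 b, j1 b + d1 b} ∪ LS b := by
          rw [hLo]
          exact if_pos hbH
        have q8 : F b = {f b, f b + 1} := by
          rw [hF]
          exact if_pos hbH
        have r1 : #(U b) = 2 + 2 + (P b - 5 - 2 * m b) := by
          rw [q6, card_union_of_disjoint, card_union_of_disjoint, q5, card_pair, (hH1 b hbH).1]
          · have := (hd2' b hbH).1
            omega
          · rw [disjoint_left]
            intro j hj hj'
            rw [mem_insert, mem_singleton] at hj'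
            have := hOS b hb j hj
            have := j2S b hbH j hj'
            omega
          · rw [disjoint_left]
            intro j hj hj'
            rw [mem_union, mem_insert, mem_singleton] at hj
            have h5 := hHS b hbH j hj'
            rcases hj with hj | hj
            · have := hOS b hb j hj
              omega
            · exact h5.2.2 (memU2 b hbH j hj)
        have r2 : #(Lo b) = 2 + (2 * m b - 2) := by
          rw [q7, card_union_of_disjoint, card_pair, (hL1 b hbH).1]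
          · have := (hd1' b hbH).1
            omega
          · rw [disjoint_left]
            intro j hj hj'
            rw [mem_insert, mem_singleton] at hj
            exact (hLS b hbH j hj').2 (memU1 b hbH j hj)
        have r3 : #(F b) = 2 := by
          rw [q8, card_pair]
          omega
        rw [r1, r2, r3]
        omega
      · have q5 : #(O b) = P b := by
          rw [(hO1 b hb).1, hc]
          exact if_neg fun h7 => hbH ((memH b).2 ⟨hb, h7⟩)
        have q6 : U b = O b := by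
          rw [hU]
          exact if_neg hbH
        have q7 : Lo b = ∅ := by
          rw [hLo]
          exact if_neg hbH
        have q8 : F b = ∅ := by
          rw [hF]
          exact if_neg hbH
        rw [q6, q7, q8, q5, card_empty]
        omega
    · intro v hv
      rw [mem_union, mem_union] at hv
      rcases hv with (hv | hv) | hv
      · obtain ⟨j, hj, h1⟩ := mem_dom.1 hv
        have h3 := h.ud_range (hUr b hb j hj)
        omega
      · obtain ⟨j, hj, h1⟩ := mem_dom.1 hv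
        have h4 := h.ld_top (hLr b j hj)
        omega
      · obtain ⟨g1, g2⟩ := hFm b v hv
        have h3 := hf1 b g1
        have h5 : hz s a k t = hR s a + 1 + 2 * hJ s a k t + 2 * k := rfl
        omega
  · intro b hb b' hb' hne
    simp only [disjoint_union_left, disjoint_union_right]
    exact ⟨⟨⟨⟨disjoint_dom hudlt (hUd b hb b' hb' hne), (x1 b' hb' b).symm⟩,
      (x2 b' hb' b).symm⟩, ⟨⟨x1 b hb b', disjoint_dom ld_lt (hLd b b' hne)⟩,
      (x3 b' b).symm⟩⟩, ⟨⟨x2 b hb b', x3 b b'⟩, hFd b b' hne⟩⟩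

/-- The weights in the threads. `N` is the set of the threads, `P b` the number of the pairs in the thread `b`,
`β b` the weight at its lower end. -/
theorem exists_fills (N : Finset V) (P β : V → ℕ) (s a k t : ℕ)
    (hk : k = #(N.filter fun b => 7 ≤ P b)) (ht : t ≤ #N) (hN : #N + 3 ≤ 2 * a) (ha : 3 ≤ a)
    (hs : a + t + 2 * ∑ b ∈ N, P b + 2 ≤ 2 * s) (hs' : 2 * s ≤ a + t + 2 * ∑ b ∈ N, P b + 3)
    (hC : 70 * a ≤ t + 2 * ∑ b ∈ N, P b)
    (hβ : ∀ b ∈ N, hR s a ≤ β b + 2 * a ∧ β b ≤ hR s a) :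
    ∃ x : V → ℕ → ℕ, (∀ b ∈ N, x b 0 = β b ∧ x b (2 * P b) = β b - P b % 2 ∧
        (∀ i < 2 * P b, 1 ≤ x b (i + 1) ∧ x b (i + 1) ≤ s) ∧
        ∀ i < 2 * P b, x b i + x b (i + 1) + a < hR s a ∨
          (hR s a < x b i + x b (i + 1) ∧ x b i + x b (i + 1) < hz s a k t) ∨
          (hz s a k t + t ≤ x b i + x b (i + 1) ∧ x b i + x b (i + 1) ≤ 2 * s)) ∧
      ∀ b ∈ N, ∀ i < 2 * P b, ∀ b' ∈ N, ∀ i' < 2 * P b',
        x b i + x b (i + 1) = x b' i' + x b' (i' + 1) → b = b' ∧ i = i' := by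
  obtain ⟨W, hW1, hW2⟩ := exists_sets N P β s a k t hk ht hN ha hs hs' hC hβ
  have key : ∀ b, ∃ x : ℕ → ℕ, b ∈ N → x 0 = β b ∧ x (2 * P b) = β b - P b % 2 ∧
      (∀ i < 2 * P b, 1 ≤ x (i + 1) ∧ x (i + 1) ≤ s ∧ x i + x (i + 1) ∈ W b) ∧
      ∀ i < 2 * P b, ∀ j < 2 * P b, x i + x (i + 1) = x j + x (j + 1) → i = j := by
    intro b
    by_cases hb : b ∈ N
    · obtain ⟨x, hx⟩ := (hW1 b hb).1.exists_inj (hW1 b hb).2.1
      exact ⟨x, fun _ => hx⟩
    · exact ⟨fun _ => 0, fun h => absurd h hb⟩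
  choose x hx using key
  refine ⟨x, ?_, ?_⟩
  · intro b hb
    obtain ⟨h1, h2, h3, -⟩ := hx b hb
    exact ⟨h1, h2, fun i hi => ⟨(h3 i hi).1, (h3 i hi).2.1⟩,
      fun i hi => (hW1 b hb).2.2 _ (h3 i hi).2.2⟩
  · intro b hb i hi b' hb' i' hi' heq
    have h1 := ((hx b hb).2.2.1 i hi).2.2
    have h2 := ((hx b' hb').2.2.1 i' hi').2.2
    have h3 : b = b' := by
      by_contra hne
      rw [← heq] at h2
      exact disjoint_left.1 (hW2 b hb b' hb' hne) h1 h2
    subst h3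
    exact ⟨rfl, (hx b hb).2.2.2 i hi i' hi' heq⟩

end Pool.Agent.H.MP_936c16_co
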