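import Pool.Agent.H.MP_936c16_co.Ph2

/-!
The threads which start with weights near `s`, and the weights above the vertices with at least two children.
-/

set_option autoImplicit false

namespace Pool.Agent.H.MP_936c16_co

open Finset

namespace RT

variable {V : Type} [Fintype V] [DecidableEq V] (T : RT V)

/-- the choice of the threads -/
theorem exists_reserved (hr : 3 ≤ #(T.ch T.r)) {us : V} (hus : us ∈ T.ch T.r) :
    ∃ Y : Finset V, Y ⊆ T.N ∧ T.B ⊆ Y ∧ T.bot us ∈ Y ∧ #Y ≤ 3 * (#T.B + 1) ∧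
      (∀ v ∈ T.B, 2 ≤ #((T.ch v).filter fun u => T.bot u ∈ Y)) ∧
      3 ≤ #((T.ch T.r).filter fun u => T.bot u ∈ Y) := by
  have h1 : ∀ v : V, ∃ C : Finset V, C ⊆ T.ch v ∧ #C ≤ 2 ∧ (v ∈ T.B → #C = 2) := by
    intro v
    by_cases hv : v ∈ T.B
    · obtain ⟨C, hC1, hC2⟩ := exists_subset_card_eq (T.mem_B.1 hv).2
      exact ⟨C, hC1, hC2.le, fun _ => hC2⟩
    · exact ⟨∅, empty_subset _, by simp, fun h => absurd h hv⟩
  choose C hC1 hC2 hC3 using h1
  obtain ⟨R, hR1, hR2, hR3⟩ := exists_subsuperset_card_eq (s := {us}) (t := T.ch T.r) (n := 3)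
    (singleton_subset_iff.2 hus) (by simp) hr
  have hb : ∀ v, ∀ u ∈ T.ch v, T.bot u ∈ T.N := fun v u hu => T.bot_mem_N (T.mem_ch.1 hu).1
  refine ⟨T.B ∪ (T.B.biUnion C).image T.bot ∪ R.image T.bot, ?_, ?_, ?_, ?_, ?_, ?_⟩
  · refine union_subset (union_subset ?_ ?_) ?_
    · rw [T.N_eq]
      exact subset_union_right
    · intro x hx
      obtain ⟨u, hu, rfl⟩ := mem_image.1 hx
      obtain ⟨v, hv, huv⟩ := mem_biUnion.1 hu
      exact hb v u (hC1 v huv)
    · intro x hx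
      obtain ⟨u, hu, rfl⟩ := mem_image.1 hx
      exact hb T.r u (hR2 hu)
  · exact subset_union_left.trans subset_union_left
  · exact mem_union_right _ (mem_image_of_mem _ (hR1 (mem_singleton_self us)))
  · have e1 : #(T.B.biUnion C) ≤ #T.B * 2 := card_biUnion_le_card_mul _ _ _ fun v _ => hC2 v
    have e2 : #((T.B.biUnion C).image T.bot) ≤ #(T.B.biUnion C) := card_image_le
    have e3 : #(R.image T.bot) ≤ #R := card_image_le
    have e4 := card_union_le (T.B ∪ (T.B.biUnion C).image T.bot) (R.image T.bot)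
    have e5 := card_union_le T.B ((T.B.biUnion C).image T.bot)
    omega
  · intro v hv
    rw [← hC3 v hv]
    refine card_le_card fun u hu => mem_filter.2 ⟨hC1 v hu, ?_⟩
    exact mem_union_left _ (mem_union_right _ (mem_image_of_mem _ (mem_biUnion.2 ⟨v, hv, hu⟩)))
  · rw [← hR3]
    refine card_le_card fun u hu => mem_filter.2 ⟨hR2 hu, ?_⟩
    exact mem_union_right _ (mem_image_of_mem _ hu)

/-- The weights above the vertices with at least two children are in `[R - 2 l, R]`, the weight above the leaf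
`T.bot us` in `[c, c + #T.B]`. -/
theorem exists_beta4 (t : V → ℕ → ℕ) (β₀ : V → ℕ) {R l c : ℕ} (hR : 2 * l ≤ R)
    (hB : #T.B ≤ 2 * l + 1) {us : V} (hus : us ∈ T.ch T.r) (hx : T.bot us ∈ T.L)
    (ht : ∀ β β', c ≤ β → β ≤ c + #T.B → c ≤ β' → β' ≤ c + #T.B →
      t (T.bot us) β = t (T.bot us) β' → β = β') :
    ∃ β : V → ℕ, (∀ v, v ∉ T.B → v ≠ T.bot us → β v = β₀ v) ∧
      (∀ b ∈ T.B, R ≤ β b + 2 * l ∧ β b ≤ R) ∧
      (c ≤ β (T.bot us) ∧ β (T.bot us) ≤ c + #T.B) ∧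
      (∀ b ∈ T.B, ∀ b' ∈ T.B, β b + T.cs t β b = β b' + T.cs t β b' → b = b') ∧
      ∀ b ∈ T.B, β b + T.cs t β b ≠ T.cs t β T.r := by
  obtain ⟨β₁, hβ1, hβ2, hβ3⟩ := T.Ph1_greedy t β₀ (R := R) (l := l) hR _ T.B rfl hB
  have hus' := T.mem_ch.1 hus
  have hxB : T.bot us ∉ T.B := fun h => disjoint_left.1 T.disjoint_L_B hx h
  have htop : ∀ b, b ∉ T.D → ∀ u ∈ T.ch b, T.bot u = T.bot us → u = us := by
    intro b hb u hu h
    have h1 := T.mem_ch.1 hu
    refine T.top_inj h1.1 hus'.1 ?_ ?_ h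
    · rw [h1.2]
      exact hb
    · rw [hus'.2]
      exact T.r_notMem_D1
  have hBne : ∀ b ∈ T.B, ∀ u ∈ T.ch b, T.bot u ≠ T.bot us := by
    intro b hb u hu h
    have h1 := htop b (T.B_notMem_D hb) u hu h
    have h2 := (T.mem_ch.1 hu).2
    rw [h1, hus'.2] at h2
    exact (T.mem_B.1 hb).1 h2.symm
  obtain ⟨K, hK⟩ : ∃ K, K = ∑ u ∈ (T.ch T.r).erase us, t (T.bot u) (β₁ (T.bot u)) := ⟨_, rfl⟩
  obtain ⟨S, hS⟩ : ∃ S : Finset ℕ, S = T.B.image fun b => β₁ b + T.cs t β₁ b := ⟨_, rfl⟩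
  obtain ⟨z, hz1, hz2, hz3⟩ : ∃ z, c ≤ z ∧ z ≤ c + #T.B ∧ t (T.bot us) z + K ∉ S := by
    by_contra hcon
    push Not at hcon
    have h1 : #(Icc c (c + #T.B)) ≤ #S := by
      refine card_le_card_of_injOn (fun z => t (T.bot us) z + K) ?_ ?_
      · intro z hz
        rw [mem_coe, mem_Icc] at hz
        exact hcon z hz.1 hz.2
      · intro z hz z' hz' h
        rw [mem_coe, mem_Icc] at hz hz'
        have h2 : t (T.bot us) z + K = t (T.bot us) z' + K := h
        exact ht z z' hz.1 hz.2 hz'.1 hz'.2 (by omega)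
    have h2 : #S ≤ #T.B := by
      rw [hS]
      exact card_image_le
    rw [Nat.card_Icc] at h1
    omega
  have hcs : ∀ b ∈ T.B, T.cs t (Function.update β₁ (T.bot us) z) b = T.cs t β₁ b := fun b hb =>
    T.cs_update t β₁ z (hBne b hb)
  have hcr : T.cs t (Function.update β₁ (T.bot us) z) T.r = t (T.bot us) z + K := by
    rw [cs, ← add_sum_erase _ _ hus, Function.update_self, hK]
    congr 1
    refine sum_congr rfl fun u hu => ?_
    rw [mem_erase] at hu
    rw [Function.update_of_ne]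
    intro h
    exact hu.1 (htop T.r T.r_notMem_D1 u hu.2 h)
  have hne : ∀ b ∈ T.B, b ≠ T.bot us := fun b hb h => hxB (h ▸ hb)
  refine ⟨Function.update β₁ (T.bot us) z, ?_, ?_, ?_, ?_, ?_⟩
  · intro v hv hv'
    rw [Function.update_of_ne hv']
    exact hβ1 v hv
  · intro b hb
    rw [Function.update_of_ne (hne b hb)]
    exact hβ2 b hb
  · rw [Function.update_self]
    exact ⟨hz1, hz2⟩
  · intro b hb b' hb' h
    rw [hcs b hb, hcs b' hb', Function.update_of_ne (hne b hb),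
      Function.update_of_ne (hne b' hb')] at h
    exact hβ3 b hb b' hb' h
  · intro b hb h
    rw [hcs b hb, hcr, Function.update_of_ne (hne b hb)] at h
    apply hz3
    rw [hS, mem_image]
    exact ⟨b, hb, h⟩

end RT

end Pool.Agent.H.MP_936c16_co
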