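import Pool.Agent.H.MP_936c16_co.Greedy

/-!
The greedy choice of the weights of some edges of a rooted tree in given intervals, the others are given by
a rule.
-/

set_option autoImplicit false

namespace Pool.Agent.H.MP_936c16_co

open Finset

/-- a free number in an interval -/
theorem exists_free {S : Finset ℕ} {lo hi : ℕ} (h : #S < hi + 1 - lo) :
    ∃ z, lo ≤ z ∧ z ≤ hi ∧ z ∉ S := by
  by_contra hcon
  push Not at hcon
  have h1 : Icc lo hi ⊆ S := fun z hz => by
    rw [mem_Icc] at hz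
    exact hcon z hz.1 hz.2
  have h2 := card_le_card h1
  rw [Nat.card_Icc] at h2
  omega

namespace RT

variable {V : Type} [Fintype V] [DecidableEq V] (T : RT V)

theorem c_update {e : V → ℕ} {v₀ v : V} (z : ℕ) (h : v₀ ∉ T.ch v) :
    T.c (Function.update e v₀ z) v = T.c e v := by
  refine sum_congr rfl fun u hu => ?_
  rw [Function.update_of_ne]
  rintro rfl
  exact h hu

theorem exists_greedy_aux (X : Finset V) (g : V → ℕ → ℕ) (cls : V → ℕ)
    (F : V → Finset ℕ) (lo hi : V → ℕ)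
    (hc : ∀ v ∈ X, #(X.filter fun x => cls x = cls v) + #(F v) ≤ hi v + 1 - lo v) (k : ℕ) :
    ∀ P : Finset V, #P = k → (∀ v ∈ P, ∀ u ∈ T.ch v, u ∈ P) →
    ∃ e : V → ℕ, (∀ v, v ∉ P → e v = 0) ∧ (∀ v ∈ P, v ∉ X → e v = g v (T.c e v)) ∧
      (∀ v ∈ P, v ∈ X → lo v ≤ e v ∧ e v ≤ hi v ∧ e v ∉ F v) ∧
      (∀ u ∈ P, u ∈ X → ∀ v ∈ P, v ∈ X → cls u = cls v → T.w e u = T.w e v → u = v) := by
  induction k with
  | zero =>
    intro P hP _
    rw [card_eq_zero] at hP
    subst hP
    exact ⟨fun _ => 0, fun _ _ => rfl, fun v hv => absurd hv (notMem_empty v),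
      fun v hv => absurd hv (notMem_empty v), fun v hv => absurd hv (notMem_empty v)⟩
  | succ k ih =>
    intro P hP hcl
    obtain ⟨v₀, hv₀, hmin⟩ := exists_min_image P T.ht (card_pos.1 (by omega))
    have hnot : ∀ v ∈ P, v₀ ∉ T.ch v := by
      intro v hv hcon
      have h1 := T.mem_ch.1 hcon
      have h2 := T.lt v₀ h1.1
      have h3 := hmin v hv
      rw [h1.2] at h2
      omega
    obtain ⟨e', h1, h2, h3, h4⟩ := ih (P.erase v₀) (by rw [card_erase_of_mem hv₀]; omega) (by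
      intro v hv u hu
      rw [mem_erase] at hv ⊢
      refine ⟨?_, hcl v hv.2 u hu⟩
      rintro rfl
      exact hnot v hv.2 hu)
    obtain ⟨z, hz1, hz2⟩ : ∃ z, (v₀ ∉ X → z = g v₀ (T.c e' v₀)) ∧ (v₀ ∈ X → lo v₀ ≤ z ∧ z ≤ hi v₀ ∧
        z ∉ F v₀ ∧ ∀ x ∈ P.erase v₀, x ∈ X → cls x = cls v₀ → T.w e' x ≠ T.c e' v₀ + z) := by
      by_cases hX : v₀ ∈ X
      · obtain ⟨S, hS⟩ : ∃ S : Finset V,
            S = (X.filter fun x => cls x = cls v₀).erase v₀ := ⟨_, rfl⟩
        have hSc : #S + 1 = #(X.filter fun x => cls x = cls v₀) := by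
          rw [hS]
          exact card_erase_add_one (mem_filter.2 ⟨hX, rfl⟩)
        have h5 := hc v₀ hX
        have h6 : #(F v₀ ∪ S.image fun x => T.w e' x - T.c e' v₀) ≤ #(F v₀) + #S :=
          (card_union_le _ _).trans (Nat.add_le_add_left card_image_le _)
        obtain ⟨z, hz1, hz2, hz3⟩ := exists_free (S := F v₀ ∪ S.image fun x => T.w e' x - T.c e' v₀)
          (lo := lo v₀) (hi := hi v₀) (by omega)
        refine ⟨z, fun h => absurd hX h, fun _ => ⟨hz1, hz2, ?_, ?_⟩⟩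
        · exact fun h => hz3 (mem_union_left _ h)
        · intro x hx hxX hxc hcon
          refine hz3 (mem_union_right _ (mem_image.2 ⟨x, ?_, by omega⟩))
          rw [hS, mem_erase, mem_filter]
          exact ⟨(mem_erase.1 hx).1, hxX, hxc⟩
      · exact ⟨_, fun _ => rfl, fun h => absurd h hX⟩
    have hw₀ : T.w (Function.update e' v₀ z) v₀ = T.c e' v₀ + z := by
      rw [w, T.c_update z (hnot v₀ hv₀), Function.update_self]
    have hw : ∀ v ∈ P, v ≠ v₀ → T.w (Function.update e' v₀ z) v = T.w e' v := by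
      intro v hv hne
      rw [w, T.c_update z (hnot v hv), Function.update_of_ne hne, w]
    refine ⟨Function.update e' v₀ z, ?_, ?_, ?_, ?_⟩
    · intro v hv
      rw [Function.update_of_ne]
      · exact h1 v fun h => hv (mem_of_mem_erase h)
      · rintro rfl
        exact hv hv₀
    · intro v hv hvX
      rw [T.c_update z (hnot v hv)]
      by_cases hne : v = v₀
      · rw [hne] at hvX ⊢
        rw [Function.update_self]
        exact hz1 hvX
      · rw [Function.update_of_ne hne]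
        exact h2 v (mem_erase.2 ⟨hne, hv⟩) hvX
    · intro v hv hvX
      by_cases hne : v = v₀
      · rw [hne] at hvX ⊢
        rw [Function.update_self]
        exact ⟨(hz2 hvX).1, (hz2 hvX).2.1, (hz2 hvX).2.2.1⟩
      · rw [Function.update_of_ne hne]
        exact h3 v (mem_erase.2 ⟨hne, hv⟩) hvX
    · intro u hu huX v hv hvX huv hw'
      by_cases hne : u = v₀
      · by_cases hne' : v = v₀
        · rw [hne, hne']
        · exfalso
          rw [hne, hw₀, hw v hv hne'] at hw'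
          rw [hne] at huX huv
          exact (hz2 huX).2.2.2 v (mem_erase.2 ⟨hne', hv⟩) hvX huv.symm hw'.symm
      · by_cases hne' : v = v₀
        · exfalso
          rw [hne', hw₀, hw u hu hne] at hw'
          rw [hne'] at hvX huv
          exact (hz2 hvX).2.2.2 u (mem_erase.2 ⟨hne, hu⟩) huX huv hw'
        · rw [hw u hu hne, hw v hv hne'] at hw'
          exact h4 u (mem_erase.2 ⟨hne, hu⟩) huX v (mem_erase.2 ⟨hne', hv⟩) hvX huv hw'

/-- The greedy choice. -/
theorem exists_greedy (X : Finset V) (hX : T.r ∉ X) (g : V → ℕ → ℕ) (cls : V → ℕ)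
    (F : V → Finset ℕ) (lo hi : V → ℕ)
    (hc : ∀ v ∈ X, #(X.filter fun x => cls x = cls v) + #(F v) ≤ hi v + 1 - lo v) :
    ∃ e : V → ℕ, e T.r = 0 ∧ (∀ v, v ≠ T.r → v ∉ X → e v = g v (T.c e v)) ∧
      (∀ v ∈ X, lo v ≤ e v ∧ e v ≤ hi v ∧ e v ∉ F v) ∧
      (∀ u ∈ X, ∀ v ∈ X, cls u = cls v → T.w e u = T.w e v → u = v) := by
  obtain ⟨e, h1, h2, h3, h4⟩ := T.exists_greedy_aux X g cls F lo hi hc _ (univ.erase T.r) rfl (by
    intro v _ u hu
    rw [mem_erase]
    exact ⟨(T.mem_ch.1 hu).1, mem_univ u⟩)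
  have h5 : ∀ v ∈ X, v ∈ univ.erase T.r := by
    intro v hv
    rw [mem_erase]
    refine ⟨?_, mem_univ v⟩
    rintro rfl
    exact hX hv
  exact ⟨e, h1 _ (notMem_erase _ _), fun v hv => h2 v (mem_erase.2 ⟨hv, mem_univ v⟩),
    fun v hv => h3 v (h5 v hv) hv, fun u hu v hv => h4 u (h5 u hu) hu v (h5 v hv) hv⟩

end RT

end Pool.Agent.H.MP_936c16_co
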