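import Pool.Agent.H.MP_936c16_co.Ph2
import Pool.Agent.H.MP_936c16_co.Par2
import Pool.Agent.H.MP_936c16_co.Exact

/-!
The weighting of a rooted tree with many vertices with exactly one child, exact version. The numbers `o v` are
added to the weighted degrees.
-/

set_option autoImplicit false

namespace Pool.Agent.H.MP_936c16_co

open Finset

namespace RT

variable {V : Type} [Fintype V] [DecidableEq V] (T : RT V)

/-- the weight at the upper end of the thread above `b`; `c` is the special thread -/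
def tw2 (P z : V → ℕ) (len : V → ℕ) (c : V) (σ : ℕ) (b : V) (β : ℕ) : ℕ :=
  if len b % 2 = 1 then z b - (β - P b % 2 - (if b = c then 2 * σ else 0))
  else β - P b % 2 - (if b = c then 2 * σ else 0)

/-- The weighting of a rooted tree with many vertices with exactly one child. -/
theorem exists_exact2 (o : V → ℕ) (ho : ∀ v, o v ≤ 1) (hoD : ∀ v ∈ T.D, o v = 0) {us : V}
    (hus : us ∈ T.ch T.r) (hlen : 14 ≤ T.len (T.bot us)) (hr : 3 ≤ #(T.ch T.r)) {s : ℕ}
    (hs : #T.L + #T.D + 1 ≤ 2 * s) (hs' : 2 * s ≤ #T.L + #T.D + 2)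
    (hC : 69 * #T.L ≤ #T.D) :
    ∃ e : V → ℕ, e T.r = 0 ∧ (∀ v, v ≠ T.r → 1 ≤ e v ∧ e v ≤ s) ∧
      Function.Injective (fun v => T.w e v + o v) ∧ ∀ v, 2 ≤ T.w e v + o v := by
  obtain ⟨a, ha⟩ : ∃ a, a = #T.L := ⟨_, rfl⟩
  have hBL := T.card_B_ch
  have hNc : #T.N = #T.L + #T.B := by rw [T.N_eq, card_union_of_disjoint T.disjoint_L_B]
  obtain ⟨P, hP⟩ : ∃ P : V → ℕ, P = fun b => T.len b / 2 := ⟨_, rfl⟩
  have hP' : ∀ b, P b = T.len b / 2 := fun b => by rw [hP]
  obtain ⟨O, hO⟩ : ∃ O : Finset V, O = T.N.filter fun b => T.len b % 2 = 1 := ⟨_, rfl⟩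
  obtain ⟨t, ht⟩ : ∃ t, t = #O := ⟨_, rfl⟩
  obtain ⟨k, hk⟩ : ∃ k, k = #(T.N.filter fun b => 7 ≤ P b) := ⟨_, rfl⟩
  have htN : t ≤ #T.N := by
    rw [ht, hO]
    exact card_filter_le _ _
  have hkN : k ≤ #T.N := by
    rw [hk]
    exact card_filter_le _ _
  have hsum : t + 2 * ∑ b ∈ T.N, P b = #T.D := by
    rw [← T.sum_len, mul_sum, ht, hO, card_filter, ← sum_add_distrib]
    refine sum_congr rfl fun b _ => ?_
    have := hP' b
    split_ifs <;> omega
  obtain ⟨R, hRd⟩ : ∃ R, R = gR s a := ⟨_, rfl⟩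
  obtain ⟨z₀, hzd⟩ : ∃ z₀, z₀ = gz s a k t := ⟨_, rfl⟩
  have hR1 : s ≤ R + 7 ∧ R + 4 ≤ s ∧ a + 1 ≤ R := by
    rw [hRd, gR, gM]
    omega
  have hz1 : R + 1 ≤ z₀ ∧ z₀ + t + 2 * a + 2 ≤ s + R ∧ s + R ≤ z₀ + t + 2 * a + 3 := by
    rw [hzd, gz, gJ, ← hRd]
    omega
  obtain ⟨iO, hi1, hi2⟩ := Ph1_num O
  rw [← ht] at hi1
  obtain ⟨z, hzf⟩ : ∃ z : V → ℕ, z = fun b => z₀ + iO b := ⟨_, rfl⟩
  have hzb : ∀ b, z b = z₀ + iO b := fun b => by rw [hzf]
  obtain ⟨c, hc⟩ : ∃ c, c = T.bot us := ⟨_, rfl⟩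
  have hPc : 7 ≤ P c := by
    rw [hP', hc]
    omega
  -- the weights at the lower ends
  obtain ⟨sg, hsg, β, hβL, hβLi, hβB, hβBi, hβr⟩ := T.exists_beta2
    (fun σ => tw2 P z T.len c (min σ 1)) o ho R hus (by omega) (by omega) (by
      intro σ b _
      have h3 := hzb b
      have h4 : min σ 1 ≤ 1 := min_le_right _ _
      by_cases h : T.len b % 2 = 1
      · right
        refine ⟨z b + P b % 2 + (if b = c then 2 * min σ 1 else 0), fun β h1 h2 => ?_⟩
        rw [tw2, if_pos h]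
        split_ifs <;> omega
      · left
        refine ⟨P b % 2 + (if b = c then 2 * min σ 1 else 0), fun β h1 h2 => ?_⟩
        rw [tw2, if_neg h]
        split_ifs <;> omega) (by
      intro b _ hb β
      rw [← hc] at hb
      rw [tw2, tw2, if_neg hb, if_neg hb]) (by
      intro β h1 h2
      rw [← hc]
      have h3 := hzb c
      have e0 : min 0 1 = 0 := rfl
      have e1 : min 1 1 = 1 := rfl
      simp only [e0, e1]
      rw [tw2, tw2, if_pos rfl, if_pos rfl]
      split_ifs <;> omega)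
  have hm : min sg 1 = sg := min_eq_left hsg
  simp only [hm] at hβBi hβr
  rw [← ha] at hβL hβB
  have hβN : ∀ b ∈ T.N, R ≤ β b + 2 * a ∧ β b ≤ R := by
    intro b hb
    rw [T.N_eq, mem_union] at hb
    rcases hb with hb | hb
    · have h1 := hβL b hb
      have h2 := ho b
      omega
    · exact hβB b hb
  obtain ⟨σ, hσd⟩ : ∃ σ : V → ℕ, σ = fun b => if b = c then sg else 0 := ⟨_, rfl⟩
  have hσb : ∀ b, 2 * σ b = if b = c then 2 * sg else 0 := by
    intro b
    rw [hσd]
    simp only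
    split_ifs <;> rfl
  have hσ1 : ∀ b, σ b ≤ 1 := by
    intro b
    rw [hσd]
    simp only
    split_ifs
    · exact hsg
    · exact Nat.zero_le 1
  have hσ2 : ∀ b ∈ T.N, σ b ≤ 1 ∧ (σ b = 1 → 7 ≤ P b) := by
    intro b _
    refine ⟨hσ1 b, fun h => ?_⟩
    have h1 := hσb b
    by_cases h2 : b = c
    · rw [h2]
      exact hPc
    · rw [if_neg h2] at h1
      omega
  have htwd : ∀ b β, tw2 P z T.len c sg b β =
      if T.len b % 2 = 1 then z b - (β - P b % 2 - 2 * σ b) else β - P b % 2 - 2 * σ b := by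
    intro b β
    rw [tw2, hσb]
  obtain ⟨x, hx1, hx2⟩ := exists_fills2 T.N P β σ s a k t hk htN (by omega) (by omega) (by omega)
    (by omega) (by omega) (by rw [← hRd]; exact hβN) hσ2
  rw [← hRd, ← hzd] at hx1
  -- the weights
  obtain ⟨e, he⟩ : ∃ e : V → ℕ, e = fun v => if v = T.r then 0 else
      if T.dn v ≤ 2 * P (T.bot v) then x (T.bot v) (T.dn v) else
      z (T.bot v) - (β (T.bot v) - P (T.bot v) % 2 - 2 * σ (T.bot v)) := ⟨_, rfl⟩
  have er : e T.r = 0 := by
    rw [he]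
    exact if_pos rfl
  have e1 : ∀ v, v ≠ T.r → T.dn v ≤ 2 * P (T.bot v) → e v = x (T.bot v) (T.dn v) := by
    intro v hv h
    rw [he]
    simp only
    rw [if_neg hv, if_pos h]
  have e2 : ∀ v, v ≠ T.r → 2 * P (T.bot v) < T.dn v →
      e v = z (T.bot v) - (β (T.bot v) - P (T.bot v) % 2 - 2 * σ (T.bot v)) := by
    intro v hv h
    rw [he]
    simp only
    rw [if_neg hv, if_neg (by omega)]
  have eN : ∀ b ∈ T.N, e b = β b := by
    intro b hb
    have h1 := T.mem_N.1 hb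
    have h2 := T.dn_of_notMem h1.2
    rw [e1 b h1.1 (by omega), h2, T.bot_of_notMem h1.2]
    exact (hx1 b hb).1
  have hdn : ∀ v ∈ T.D, T.dn v ≤ 2 * P (T.bot v) + 1 ∧
      (2 * P (T.bot v) < T.dn v → T.bot v ∈ O) := by
    intro v hv
    have h1 := T.dn_le_len hv
    have h2 := hP' (T.bot v)
    refine ⟨by omega, fun h3 => ?_⟩
    rw [hO, mem_filter]
    exact ⟨T.bot_mem_N (T.mem_D.1 hv).1, by omega⟩
  have etop : ∀ v, v ≠ T.r → T.par v ∉ T.D →
      e v = tw2 P z T.len c sg (T.bot v) (β (T.bot v)) := by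
    intro v hv hp
    have h1 := T.dn_of_par hv hp
    have h2 := hP' (T.bot v)
    have h3 := (hx1 _ (T.bot_mem_N hv)).2.1
    rw [htwd]
    by_cases h : T.len (T.bot v) % 2 = 1
    · rw [if_pos h, e2 v hv (by omega)]
    · rw [if_neg h, e1 v hv (by omega), h1, ← h3]
      congr 1
      omega
  have hcs : ∀ y, y ∉ T.D → T.c e y = T.cs (tw2 P z T.len c sg) β y := by
    intro y hy
    refine sum_congr rfl fun u hu => ?_
    have h1 := T.mem_ch.1 hu
    exact etop u h1.1 (by rw [h1.2]; exact hy)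
  have htw : ∀ b ∈ T.N, s - 4 * a - 6 ≤ tw2 P z T.len c sg b (β b) := by
    intro b hb
    have h1 := hβN b hb
    have h2 := hzb b
    have h3 := hσ1 b
    rw [htwd]
    split_ifs with h <;> omega
  have hcsl : ∀ y, #(T.ch y) * (s - 4 * a - 6) ≤ T.cs (tw2 P z T.len c sg) β y := by
    intro y
    rw [← smul_eq_mul]
    exact card_nsmul_le_sum _ _ _ fun u hu => htw _ (T.bot_mem_N (T.mem_ch.1 hu).1)
  -- the weighted degrees
  have wL : ∀ v ∈ T.L, T.w e v = β v := by
    intro v hv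
    rw [RT.w, RT.c, (T.mem_L.1 hv).2, sum_empty, zero_add]
    exact eN v (by rw [T.N_eq]; exact mem_union_left _ hv)
  have wB : ∀ v ∈ T.B, T.w e v = β v + T.cs (tw2 P z T.len c sg) β v := by
    intro v hv
    rw [RT.w, hcs v (T.B_notMem_D hv), eN v (by rw [T.N_eq]; exact mem_union_right _ hv),
      add_comm]
  have wr : T.w e T.r = T.cs (tw2 P z T.len c sg) β T.r := by
    rw [RT.w, hcs T.r T.r_notMem_D1, er, add_zero]
  have wD : ∀ v ∈ T.D, T.w e v = e (T.chi v) + e v := by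
    intro v hv
    rw [RT.w, RT.c, T.ch_eq hv, sum_singleton]
  have wP : ∀ v ∈ T.D, T.dn v ≤ 2 * P (T.bot v) → T.dn v - 1 < 2 * P (T.bot v) ∧
      0 < T.dn v ∧ T.w e v = x (T.bot v) (T.dn v - 1) + x (T.bot v) (T.dn v - 1 + 1) := by
    intro v hv h
    have h1 := T.dn_eq hv
    have h2 := T.bot_eq hv
    have h3 : T.dn v - 1 = T.dn (T.chi v) := by omega
    have h4 : T.dn v - 1 + 1 = T.dn v := by omega
    refine ⟨by omega, by omega, ?_⟩
    rw [wD v hv, e1 v (T.mem_D.1 hv).1 h, e1 (T.chi v) (T.chi_ne hv) (by rw [← h2]; omega), ← h2,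
      h4, h3]
  have wS : ∀ v ∈ T.D, 2 * P (T.bot v) < T.dn v → T.w e v = z (T.bot v) := by
    intro v hv h
    have h1 := T.dn_eq hv
    have h2 := T.bot_eq hv
    have h3 := (hdn v hv).1
    have hbN := T.bot_mem_N (T.mem_D.1 hv).1
    have h4 := (hx1 _ hbN).2.1
    have h5 := hβN _ hbN
    have h6 := hzb (T.bot v)
    have h8 := hσ1 (T.bot v)
    have h7 : T.dn (T.chi v) = 2 * P (T.bot v) := by omega
    rw [wD v hv, e2 v (T.mem_D.1 hv).1 h, e1 (T.chi v) (T.chi_ne hv) (by rw [← h2]; omega), ← h2,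
      h7, h4]
    omega
  -- the classes of the values
  have VB : ∀ v, v = T.r ∨ v ∈ T.B → 2 * s < T.w e v := by
    rintro v (hv | hv)
    · rw [hv, wr]
      have h1 := hcsl T.r
      have h2 : 3 * (s - 4 * a - 6) ≤ #(T.ch T.r) * (s - 4 * a - 6) := Nat.mul_le_mul_right _ hr
      omega
    · rw [wB v hv]
      have h1 := hcsl v
      have h2 : 2 * (s - 4 * a - 6) ≤ #(T.ch v) * (s - 4 * a - 6) :=
        Nat.mul_le_mul_right _ (T.mem_B.1 hv).2
      have h3 := hβB v hv
      omega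
  have VL : ∀ v ∈ T.L, R + 1 ≤ T.w e v + o v + a ∧ T.w e v + o v ≤ R := by
    intro v hv
    rw [wL v hv]
    exact hβL v hv
  have VP : ∀ v ∈ T.D, T.dn v ≤ 2 * P (T.bot v) → T.w e v + a ≤ R ∨
      (R < T.w e v ∧ T.w e v < z₀) ∨ (z₀ + t ≤ T.w e v ∧ T.w e v ≤ 2 * s) := by
    intro v hv h
    obtain ⟨h1, -, h2⟩ := wP v hv h
    rw [h2]
    exact (hx1 _ (T.bot_mem_N (T.mem_D.1 hv).1)).2.2.2 _ h1
  have VS : ∀ v ∈ T.D, 2 * P (T.bot v) < T.dn v → z₀ ≤ T.w e v ∧ T.w e v < z₀ + t := by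
    intro v hv h
    rw [wS v hv h, hzb]
    have h1 := hi1 _ ((hdn v hv).2 h)
    omega
  have kinds : ∀ v, v ∈ T.L ∨ (v = T.r ∨ v ∈ T.B) ∨
      (v ∈ T.D ∧ T.dn v ≤ 2 * P (T.bot v)) ∨ (v ∈ T.D ∧ 2 * P (T.bot v) < T.dn v) := by
    intro v
    by_cases hv : v = T.r
    · exact Or.inr (Or.inl (Or.inl hv))
    by_cases hD : v ∈ T.D
    · rcases le_or_gt (T.dn v) (2 * P (T.bot v)) with h2 | h2
      · exact Or.inr (Or.inr (Or.inl ⟨hD, h2⟩))
      · exact Or.inr (Or.inr (Or.inr ⟨hD, h2⟩))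
    · have h1 : v ∈ T.N := T.mem_N.2 ⟨hv, hD⟩
      rw [T.N_eq, mem_union] at h1
      rcases h1 with h1 | h1
      · exact Or.inl h1
      · exact Or.inr (Or.inl (Or.inr h1))
  refine ⟨e, er, ?_, ?_, ?_⟩
  · intro v hv
    by_cases hD : v ∈ T.D
    · have hbN := T.bot_mem_N hv
      rcases le_or_gt (T.dn v) (2 * P (T.bot v)) with h2 | h2
      · obtain ⟨h3, h4, -⟩ := wP v hD h2
        have h5 := (hx1 _ hbN).2.2.1 _ h3
        have h6 : T.dn v - 1 + 1 = T.dn v := by omega
        rw [h6] at h5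
        rw [e1 v hv h2]
        exact h5
      · rw [e2 v hv h2]
        have h3 := hβN _ hbN
        have h4 := hzb (T.bot v)
        have h5 := hi1 _ ((hdn v hD).2 h2)
        have h6 := hσ1 (T.bot v)
        omega
    · have hN : v ∈ T.N := T.mem_N.2 ⟨hv, hD⟩
      rw [eN v hN]
      have h3 := hβN v hN
      omega
  · intro u v huv
    have huv' : T.w e u + o u = T.w e v + o v := huv
    have hou : u ∈ T.D → o u = 0 := hoD u
    have hov : v ∈ T.D → o v = 0 := hoD v
    rcases kinds u with h1 | h1 | ⟨h1, h2⟩ | ⟨h1, h2⟩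
    · have k1 := VL u h1
      rcases kinds v with g1 | g1 | ⟨g1, g2⟩ | ⟨g1, g2⟩
      · rw [wL u h1, wL v g1] at huv'
        exact hβLi u h1 v g1 huv'
      · have k2 := VB v g1
        omega
      · have k2 := VP v g1 g2
        have k3 := hov g1
        omega
      · have k2 := VS v g1 g2
        have k3 := hov g1
        omega
    · have k1 := VB u h1
      rcases kinds v with g1 | g1 | ⟨g1, g2⟩ | ⟨g1, g2⟩
      · have k2 := VL v g1
        omega
      · rcases h1 with h1 | h1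
        · rcases g1 with g1 | g1
          · rw [h1, g1]
          · exfalso
            rw [h1, wr, wB v g1] at huv'
            exact hβr v g1 huv'.symm
        · rcases g1 with g1 | g1
          · exfalso
            rw [g1, wr, wB u h1] at huv'
            exact hβr u h1 huv'
          · rw [wB u h1, wB v g1] at huv'
            exact hβBi u h1 v g1 huv'
      · have k2 := VP v g1 g2
        have k3 := hov g1
        omega
      · have k2 := VS v g1 g2
        have k3 := hov g1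
        omega
    · have k1 := VP u h1 h2
      have k4 := hou h1
      rcases kinds v with g1 | g1 | ⟨g1, g2⟩ | ⟨g1, g2⟩
      · have k2 := VL v g1
        omega
      · have k2 := VB v g1
        omega
      · have k3 := hov g1
        obtain ⟨h3, h4, h5⟩ := wP u h1 h2
        obtain ⟨g3, g4, g5⟩ := wP v g1 g2
        rw [k3, k4, add_zero, add_zero, h5, g5] at huv'
        obtain ⟨h6, h7⟩ := hx2 _ (T.bot_mem_N (T.mem_D.1 h1).1) _ h3 _
          (T.bot_mem_N (T.mem_D.1 g1).1) _ g3 huv'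
        exact T.dn_bot_inj h1 g1 h6 (by omega)
      · have k2 := VS v g1 g2
        have k3 := hov g1
        omega
    · have k1 := VS u h1 h2
      have k4 := hou h1
      rcases kinds v with g1 | g1 | ⟨g1, g2⟩ | ⟨g1, g2⟩
      · have k2 := VL v g1
        omega
      · have k2 := VB v g1
        omega
      · have k2 := VP v g1 g2
        have k3 := hov g1
        omega
      · have k3 := hov g1
        rw [k3, k4, add_zero, add_zero, wS u h1 h2, wS v g1 g2, hzb, hzb] at huv'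
        have h3 := hdn u h1
        have g3 := hdn v g1
        have h4 := hi2 _ (h3.2 h2) _ (g3.2 g2) (by omega)
        refine T.dn_bot_inj h1 g1 h4 ?_
        rw [h4] at h3 h2
        omega
  · intro v
    rcases kinds v with g1 | g1 | ⟨g1, g2⟩ | ⟨g1, g2⟩
    · have k1 := VL v g1
      omega
    · have k1 := VB v g1
      omega
    · obtain ⟨g3, g4, g5⟩ := wP v g1 g2
      have hbN := T.bot_mem_N (T.mem_D.1 g1).1
      have k1 := ((hx1 _ hbN).2.2.1 _ g3).1
      have k2 : 1 ≤ x (T.bot v) (T.dn v - 1) := by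
        rcases Nat.eq_zero_or_pos (T.dn v - 1) with k3 | k3
        · rw [k3, (hx1 _ hbN).1]
          have k4 := hβN _ hbN
          omega
        · have k4 := ((hx1 _ hbN).2.2.1 (T.dn v - 1 - 1) (by omega)).1
          rwa [show T.dn v - 1 - 1 + 1 = T.dn v - 1 by omega] at k4
      rw [g5]
      omega
    · have k1 := VS v g1 g2
      omega

end RT

end Pool.Agent.H.MP_936c16_co
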