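import Pool.Agent.H.MP_936c16_co.Fil3
import Pool.Agent.H.MP_936c16_co.Par2

/-!
The weights in the threads, if the thread above `q` starts with the weight `s`.
-/

set_option autoImplicit false

namespace Pool.Agent.H.MP_936c16_co

open Finset

variable {V : Type} [DecidableEq V]

/-- disjoint parts of `C`, the part of `q` avoids `Z` -/
theorem Par3_parts (H : Finset V) (c : V → ℕ) (C Z : Finset ℕ) (q : V) (h : ∑ b ∈ H, c b ≤ #C)
    (hq : q ∈ H → c q + #Z ≤ #C) :
    ∃ P : V → Finset ℕ, (∀ b ∈ H, #(P b) = c b ∧ P b ⊆ C) ∧ (q ∈ H → Disjoint (P q) Z) ∧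
      ∀ b ∈ H, ∀ b' ∈ H, b ≠ b' → Disjoint (P b) (P b') := by
  by_cases hqH : q ∈ H
  · have h1 : c q ≤ #(C \ Z) := by
      have h2 := le_card_sdiff Z C
      have h3 := hq hqH
      omega
    obtain ⟨X, hX1, hX2⟩ := exists_subset_card_eq h1
    have h2 : ∑ b ∈ H.erase q, c b + c q = ∑ b ∈ H, c b := sum_erase_add _ _ hqH
    have hXC : X ⊆ C := hX1.trans sdiff_subset
    have h3 : #(C \ X) = #C - #X := card_sdiff_of_subset hXC
    obtain ⟨P, hP1, hP2⟩ := exists_parts (H.erase q) c (C \ X) (by omega)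
    refine ⟨fun b => if b = q then X else P b, ?_, ?_, ?_⟩
    · intro b hb
      by_cases hbq : b = q
      · simp only
        rw [if_pos hbq, hbq]
        exact ⟨hX2, hXC⟩
      · simp only
        rw [if_neg hbq]
        have h4 := hP1 b (mem_erase.2 ⟨hbq, hb⟩)
        exact ⟨h4.1, h4.2.trans sdiff_subset⟩
    · intro _
      show Disjoint (if q = q then X else P q) Z
      rw [if_pos rfl]
      exact (subset_sdiff.1 hX1).2
    · intro b hb b' hb' hne
      simp only
      by_cases hbq : b = q
      · rw [if_pos hbq, if_neg (fun h => hne (hbq.trans h.symm))]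
        have h4 := (hP1 b' (mem_erase.2 ⟨fun h => hne (hbq.trans h.symm), hb'⟩)).2
        exact (subset_sdiff.1 h4).2.symm
      · rw [if_neg hbq]
        by_cases hbq' : b' = q
        · rw [if_pos hbq']
          exact (subset_sdiff.1 (hP1 b (mem_erase.2 ⟨hbq, hb⟩)).2).2
        · rw [if_neg hbq']
          exact hP2 b (mem_erase.2 ⟨hbq, hb⟩) b' (mem_erase.2 ⟨hbq', hb'⟩) hne
  · obtain ⟨P, hP1, hP2⟩ := exists_parts H c C h
    exact ⟨P, hP1, fun h => absurd h hqH, hP2⟩

/-- numbering, `q` is the first one -/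
theorem Par3_num (H : Finset V) (q : V) :
    ∃ f : V → ℕ, (∀ x ∈ H, f x < #H) ∧ (∀ x ∈ H, ∀ y ∈ H, f x = f y → x = y) ∧
      (q ∈ H → f q = 0) := by
  by_cases hqH : q ∈ H
  · obtain ⟨i, h1, h2⟩ := exists_num (H.erase q)
    rw [card_erase_of_mem hqH] at h1
    have h3 : 0 < #H := card_pos.2 ⟨q, hqH⟩
    refine ⟨fun b => if b = q then 0 else i b + 1, ?_, ?_, ?_⟩
    · intro x hx
      by_cases hxq : x = q
      · simp only
        rw [if_pos hxq]
        exact h3
      · simp only
        rw [if_neg hxq]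
        have := h1 x (mem_erase.2 ⟨hxq, hx⟩)
        omega
    · intro x hx y hy h
      simp only at h
      by_cases hxq : x = q
      · by_cases hyq : y = q
        · rw [hxq, hyq]
        · rw [if_pos hxq, if_neg hyq] at h
          omega
      · by_cases hyq : y = q
        · rw [if_neg hxq, if_pos hyq] at h
          omega
        · rw [if_neg hxq, if_neg hyq] at h
          exact h2 x (mem_erase.2 ⟨hxq, hx⟩) y (mem_erase.2 ⟨hyq, hy⟩) (by omega)
    · intro _
      exact if_pos rfl
  · obtain ⟨i, h1, h2⟩ := exists_num H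
    exact ⟨i, h1, h2, fun h => absurd h hqH⟩

theorem Qun.v_range {s a k t n S SP : ℕ} (h : Qun s a k t n S SP) {j : ℕ}
    (hj : j < qJ s a k t ∨ j < SP - 2 * qM s a - k) :
    qR s a < qv s a k t j ∧ (qv s a k t j + 1 < qz s a k t ∨
      (qz s a k t + t ≤ qv s a k t j ∧ qv s a k t j + 1 ≤ 2 * s)) ∧
      (qv s a k t j + 2 + qd s a ≤ s ∨ s + qd s a + 1 + 2 * k ≤ qv s a k t j) := by
  have h1 := h.v_ge j
  have h2 := h.J_ge
  have h3 := h.ha
  have h5 := h.s_eq
  refine ⟨by omega, ?_, ?_⟩
  · by_cases h4 : j < qJ s a k t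
    · left
      rw [qv, if_pos h4, qz]
      split_ifs <;> omega
    · right
      refine ⟨?_, h.v_top (by omega)⟩
      rw [qv, if_neg h4, if_neg (show ¬ j < 2 + qe s a by omega), qz]
      omega
  · by_cases h4 : j < 2 + qe s a
    · exact Or.inl (h.v_low h4)
    · exact Or.inr (h.v_big (by omega))

/-- the sets of the weighted degrees in the threads -/
theorem exists_sets3 (N : Finset V) (P P' β σ : V → ℕ) (s a k t : ℕ) {c q : V}
    (hc : c ∈ N) (hq : q ∈ N) (hcq : c ≠ q) (hPc : 17 ≤ P c)
    (hP : ∀ b ∈ N, P b = P' b + if b = c then qd s a else 0)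
    (hk : k = #(N.filter fun b => 7 ≤ P' b)) (ht : t ≤ #N) (hN : #N + 3 ≤ 2 * a) (ha : 3 ≤ a)
    (hs : a + t + 2 * ∑ b ∈ N, P b + 1 = 2 * s)
    (hC : 70 * a + 2 ≤ t + 2 * ∑ b ∈ N, P b)
    (hβ : ∀ b ∈ N, b ≠ q → qR s a ≤ β b + 2 * a ∧ β b ≤ qR s a) (hβq : β q = s)
    (hσ : ∀ b ∈ N, σ b ≤ 1 ∧ (σ b = 1 → b = c)) :
    ∃ W : V → Finset ℕ, (∀ b ∈ N, Fill s (2 * P b) (β b) (W b) (β b - P' b % 2 - 2 * σ b) ∧
        #(W b) = 2 * P b ∧ ∀ v ∈ W b, v ≠ s ∧ (v + a ≤ qR s a + 1 ∨
          (qR s a < v ∧ v < qz s a k t) ∨ (qz s a k t + t ≤ v ∧ v ≤ 2 * s))) ∧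
      ∀ b ∈ N, ∀ b' ∈ N, b ≠ b' → Disjoint (W b) (W b') := by
  have hd01 : qd s a ≤ 1 := by
    rw [qd]
    omega
  have hPc' : 16 ≤ P' c := by
    have := hP c hc
    rw [if_pos rfl] at this
    omega
  obtain ⟨H, hH⟩ : ∃ H, H = N.filter fun b => 7 ≤ P' b := ⟨_, rfl⟩
  obtain ⟨cs, hcs⟩ : ∃ cs : V → ℕ, cs = fun b => if b = c then 4 else if 7 ≤ P' b then 2 else P' b :=
    ⟨_, rfl⟩
  obtain ⟨S, hS⟩ : ∃ S, S = ∑ b ∈ N, cs b := ⟨_, rfl⟩
  obtain ⟨SP, hSP⟩ : ∃ SP, SP = ∑ b ∈ N, P' b := ⟨_, rfl⟩
  have hSPd : ∑ b ∈ N, P b = SP + qd s a := by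
    rw [sum_congr rfl hP, sum_add_distrib, ← hSP, sum_ite_eq' N c, if_pos hc]
  rw [hSPd] at hs hC
  rw [← hH] at hk
  have memH : ∀ b, b ∈ H ↔ b ∈ N ∧ 7 ≤ P' b := by
    intro b
    rw [hH, mem_filter]
  have hcH : c ∈ H := (memH c).2 ⟨hc, by omega⟩
  have hone : ∑ b ∈ N, (if b = c then 2 else 0) = 2 := by
    rw [sum_ite_eq' N c, if_pos hc]
  have hoH : ∑ b ∈ H, (if b = c then 2 else 0) = 2 := by
    rw [sum_ite_eq' H c, if_pos hcH]
  have hoH1 : ∑ b ∈ H, (if b = c then 1 else 0) = 1 := by
    rw [sum_ite_eq' H c, if_pos hcH]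
  have hS1 : S + 4 * k ≤ 6 * #N + 2 := by
    have h1 : ∑ b ∈ N, (cs b + if 7 ≤ P' b then 4 else 0) ≤
        ∑ b ∈ N, (6 + if b = c then 2 else 0) := by
      refine sum_le_sum fun b _ => ?_
      rw [hcs]
      simp only
      split_ifs <;> omega
    rw [sum_add_distrib, sum_add_distrib, hone, ← sum_filter, sum_const, sum_const, ← hS, ← hH,
      ← hk, smul_eq_mul, smul_eq_mul] at h1
    omega
  have hS2 : 2 * k + 2 ≤ S := by
    have h1 : ∑ b ∈ N, ((if 7 ≤ P' b then 2 else 0) + if b = c then 2 else 0) ≤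
        ∑ b ∈ N, cs b := by
      refine sum_le_sum fun b hb => ?_
      rw [hcs]
      simp only
      split_ifs <;> omega
    rw [sum_add_distrib, hone, ← sum_filter, sum_const, ← hS, ← hH, ← hk, smul_eq_mul] at h1
    omega
  have hS3 : S + ∑ b ∈ H, (P' b - if b = c then 4 else 2) = SP := by
    rw [hS, hSP, hH, sum_filter, ← sum_add_distrib]
    refine sum_congr rfl fun b _ => ?_
    rw [hcs]
    simp only
    by_cases hbc : b = c
    · rw [if_pos hbc, if_pos hbc, hbc, if_pos (show 7 ≤ P' c by omega)]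
      omega
    · rw [if_neg hbc, if_neg hbc]
      split_ifs <;> omega
  have hS4 : SP ≤ 2 * ∑ b ∈ H, ((P' b - if b = c then 7 else 5) / 2) + 6 * #N + 2 := by
    have h1 : ∑ b ∈ N, P' b ≤ ∑ b ∈ N,
        ((if 7 ≤ P' b then 2 * ((P' b - if b = c then 7 else 5) / 2) else 0) +
          (6 + if b = c then 2 else 0)) := by
      refine sum_le_sum fun b _ => ?_
      split_ifs <;> omega
    rw [sum_add_distrib, sum_add_distrib, hone, ← sum_filter, sum_const, ← hSP, ← hH, smul_eq_mul,
      ← mul_sum] at h1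
    omega
  have hk1 : 1 ≤ k := by
    rw [hk]
    exact card_pos.2 ⟨c, hcH⟩
  have h : Qun s a k t (#N) S SP := by
    refine ⟨?_, ht, hN, ha, by omega, by omega, hS1, hS2, hk1⟩
    rw [hk, hH]
    exact card_filter_le _ _
  have e1 := h.s_ge
  have e2 := h.s_eq
  have e3 := h.J_ge
  have e4 := h.hk
  have hM4 : 4 * qM s a + a + 9 ≥ s ∧ 4 * qM s a + a + 5 ≤ s := by
    have : qR s a = 4 * qM s a + a := rfl
    omega
  have hMk : k + 1 ≤ qM s a := by omega
  have hM1 : qM s a ≤ ∑ b ∈ H, ((P' b - if b = c then 7 else 5) / 2) := by omega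
  obtain ⟨m, hm1, hm2⟩ := exists_sum_eq H (fun b => 1 + if b = c then 1 else 0)
    (fun b => (P' b - if b = c then 7 else 5) / 2) (qM s a) (by
    intro b hb
    have := (memH b).1 hb
    by_cases hbc : b = c
    · rw [if_pos hbc, if_pos hbc, hbc]
      omega
    · rw [if_neg hbc, if_neg hbc]
      omega) (by
    rw [sum_add_distrib, hoH1, sum_const, smul_eq_mul, mul_one, ← hk]
    exact hMk) hM1
  have hm3 : ∀ b ∈ H, 1 ≤ m b ∧ 2 * m b + (if b = c then 7 else 5) ≤ P' b := by
    intro b hb
    have h1 := hm1 b hb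
    have := (memH b).1 hb
    by_cases hbc : b = c
    · rw [if_pos hbc, if_pos hbc] at h1
      rw [if_pos hbc]
      rw [hbc] at h1 ⊢
      omega
    · rw [if_neg hbc, if_neg hbc] at h1
      rw [if_neg hbc]
      omega
  have hmc : 2 ≤ m c := by
    have h1 := (hm1 c hcH).1
    rw [if_pos rfl] at h1
    exact h1
  have hcsq : cs q + 4 ≤ S := by
    have h1 : cs q + cs c ≤ ∑ b ∈ N, cs b := by
      rw [← sum_pair hcq.symm]
      refine sum_le_sum_of_subset ?_
      intro b hb
      rw [mem_insert, mem_singleton] at hb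
      rcases hb with rfl | rfl
      · exact hq
      · exact hc
    have h2 : cs c = 4 := by
      rw [hcs]
      exact if_pos rfl
    omega
  obtain ⟨O, hO1, hOq, hO2⟩ := Par3_parts N cs (range S) {0, 1, 2} q (by rw [card_range, hS])
    (by
      intro _
      have h1 : #({0, 1, 2} : Finset ℕ) = 3 := rfl
      rw [h1, card_range]
      omega)
  have hOq' : ∀ j ∈ O q, 3 ≤ j := by
    intro j hj
    have h1 := disjoint_left.1 (hOq hq) hj
    simp only [mem_insert, mem_singleton, not_or] at h1
    omega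
  obtain ⟨iH, hi1, hi2, hiq⟩ := Par3_num H q
  rw [← hk] at hi1
  obtain ⟨f, hf⟩ : ∃ f : V → ℕ, f = fun b => s + 1 + qd s a + 2 * iH b := ⟨_, rfl⟩
  have hf1 : ∀ b ∈ H, s + 1 + qd s a ≤ f b ∧ f b + 1 ≤ s + qd s a + 2 * k := by
    intro b hb
    have := hi1 b hb
    rw [hf]
    simp only
    omega
  have hfq : q ∈ H → f q = s + 1 + qd s a := by
    intro h1
    rw [hf]
    simp only
    rw [hiq h1]
    rfl
  obtain ⟨g, hg⟩ : ∃ g : V → ℕ, g = fun b => β b - 2 * σ b := ⟨_, rfl⟩
  have hgβ : ∀ b ∈ N, b ≠ q → β b = g b + 2 * σ b ∧ qR s a ≤ g b + 2 * a + 2 := by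
    intro b hb hbq
    have g1 := hβ b hb hbq
    have g2 := (hσ b hb).1
    have g3 := h.ha
    rw [hg]
    simp only
    omega
  obtain ⟨d1, hd1⟩ : ∃ d1 : V → ℕ,
    d1 = fun b => if b = q then 1 else dl s (P' b) (g b) (f b) / 2 := ⟨_, rfl⟩
  obtain ⟨d2, hd2⟩ : ∃ d2 : V → ℕ,
    d2 = fun b => if b = q then 1 else dh s (P' b) (g b) / 2 := ⟨_, rfl⟩
  have hHN : ∀ b ∈ H, b ∈ N := fun b hb => ((memH b).1 hb).1
  have hd1' : ∀ b ∈ H, 1 ≤ d1 b ∧ d1 b ≤ k + a + 5 := by
    intro b hb
    by_cases hbq : b = q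
    · rw [hd1]
      simp only
      rw [if_pos hbq]
      omega
    · have h1 := hβ b (hHN b hb) hbq
      have h4 := hgβ b (hHN b hb) hbq
      have h2 := hf1 b hb
      have h3 := h.dl_bd (p := P' b) (show g b ≤ qR s a by omega)
        (show qR s a + 5 ≤ f b by omega)
      rw [hd1]
      simp only
      rw [if_neg hbq]
      omega
  have hd2' : ∀ b ∈ H, 1 ≤ d2 b ∧ d2 b ≤ a + 5 := by
    intro b hb
    by_cases hbq : b = q
    · rw [hd2]
      simp only
      rw [if_pos hbq]
      omega
    · have h1 := hβ b (hHN b hb) hbq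
      have h4 := hgβ b (hHN b hb) hbq
      have h3 := h.dh_bd (p := P' b) h4.2 (show g b ≤ qR s a by omega)
      rw [hd2]
      simp only
      rw [if_neg hbq]
      omega
  obtain ⟨j1, hj1, hj1'⟩ := exists_doubles H d1 1 fun b hb => (hd1' b hb).1
  obtain ⟨j2, hj2, hj2'⟩ := exists_doubles H d2 S fun b hb => (hd2' b hb).1
  rw [← hk] at hj1 hj2
  have hsum1 : ∑ b ∈ H, (2 * m b - 2) + 2 * k = 2 * qM s a := by
    have h1 : ∑ b ∈ H, ((2 * m b - 2) + 2) = ∑ b ∈ H, 2 * m b := by
      refine sum_congr rfl fun b hb => ?_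
      have := hm3 b hb
      omega
    rw [sum_add_distrib, sum_const, smul_eq_mul, ← mul_sum, hm2, ← hk] at h1
    omega
  have hsum2 : ∑ b ∈ H, (P' b - (if b = c then 7 else 5) - 2 * m b) + (3 * k + 2 * qM s a) + S =
      SP := by
    have h1 : ∑ b ∈ H, ((P' b - (if b = c then 7 else 5) - 2 * m b) + (3 + 2 * m b)) =
        ∑ b ∈ H, (P' b - if b = c then 4 else 2) := by
      refine sum_congr rfl fun b hb => ?_
      have := hm3 b hb
      by_cases hbc : b = c
      · rw [if_pos hbc] at this
        rw [if_pos hbc, if_pos hbc]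
        omega
      · rw [if_neg hbc] at this
        rw [if_neg hbc, if_neg hbc]
        omega
    rw [sum_add_distrib, sum_add_distrib, sum_const, smul_eq_mul, ← mul_sum, hm2, ← hk] at h1
    omega
  obtain ⟨U1, hU1⟩ : ∃ U1 : Finset ℕ, U1 = H.biUnion fun b => {j1 b, j1 b + d1 b} := ⟨_, rfl⟩
  obtain ⟨U2, hU2⟩ : ∃ U2 : Finset ℕ, U2 = H.biUnion fun b => {j2 b, j2 b + d2 b} := ⟨_, rfl⟩
  have hU1c : #U1 ≤ 2 * k := by
    rw [hU1]
    refine card_biUnion_le.trans ?_
    refine (sum_le_sum (fun b _ => card_le_two)).trans ?_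
    rw [sum_const, smul_eq_mul, ← hk]
    omega
  have hU2c : #U2 ≤ 2 * k := by
    rw [hU2]
    refine card_biUnion_le.trans ?_
    refine (sum_le_sum (fun b _ => card_le_two)).trans ?_
    rw [sum_const, smul_eq_mul, ← hk]
    omega
  obtain ⟨LS, hL1, hLq, hL2⟩ := Par3_parts H (fun b => 2 * m b - 2) (range (2 * qM s a) \ U1)
    {0} q (by
      have h1 := le_card_sdiff U1 (range (2 * qM s a))
      rw [card_range] at h1
      omega) (by
      intro hqH
      have h1 := le_card_sdiff U1 (range (2 * qM s a))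
      rw [card_range] at h1
      have h2 : (2 * m q - 2) + (2 * m c - 2) ≤ ∑ b ∈ H, (2 * m b - 2) := by
        rw [← sum_pair (f := fun b => 2 * m b - 2) hcq.symm]
        refine sum_le_sum_of_subset ?_
        intro b hb
        rw [mem_insert, mem_singleton] at hb
        rcases hb with rfl | rfl
        · exact hqH
        · exact hcH
      rw [card_singleton]
      omega)
  obtain ⟨HS, hH1, hH2⟩ := exists_parts H (fun b => P' b - (if b = c then 7 else 5) - 2 * m b)
    (Ico S (SP - 2 * qM s a - k) \ U2) (by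
    have h1 := le_card_sdiff U2 (Ico S (SP - 2 * qM s a - k))
    rw [Nat.card_Ico] at h1
    omega)
  obtain ⟨U, hU⟩ : ∃ U : V → Finset ℕ, U = fun b =>
    if b ∈ H then O b ∪ {j2 b, j2 b + d2 b} ∪ HS b else O b := ⟨_, rfl⟩
  obtain ⟨Lo, hLo⟩ : ∃ Lo : V → Finset ℕ, Lo = fun b =>
    if b ∈ H then {j1 b, j1 b + d1 b} ∪ LS b else ∅ := ⟨_, rfl⟩
  obtain ⟨F, hF⟩ : ∃ F : V → Finset ℕ, F = fun b =>
    if b ∈ H then {f b, f b + 1} else ∅ := ⟨_, rfl⟩
  obtain ⟨B, hB⟩ : ∃ B : V → Finset ℕ, B = fun b =>
    if b = c then brk s a else ∅ := ⟨_, rfl⟩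
  have hOS : ∀ b ∈ N, ∀ j ∈ O b, j < S := fun b hb j hj => mem_range.1 ((hO1 b hb).2 hj)
  have hLS : ∀ b ∈ H, ∀ j ∈ LS b, j < 2 * qM s a ∧ j ∉ U1 := by
    intro b hb j hj
    have h1 := (hL1 b hb).2 hj
    rw [mem_sdiff, mem_range] at h1
    exact h1
  have hHS : ∀ b ∈ H, ∀ j ∈ HS b, S ≤ j ∧ j < SP - 2 * qM s a - k ∧ j ∉ U2 := by
    intro b hb j hj
    have h1 := (hH1 b hb).2 hj
    rw [mem_sdiff, mem_Ico] at h1
    exact ⟨h1.1.1, h1.1.2, h1.2⟩
  have memU1 : ∀ b ∈ H, ∀ j, (j = j1 b ∨ j = j1 b + d1 b) → j ∈ U1 := by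
    intro b hb j hj
    rw [hU1, mem_biUnion]
    exact ⟨b, hb, by rw [mem_insert, mem_singleton]; exact hj⟩
  have memU2 : ∀ b ∈ H, ∀ j, (j = j2 b ∨ j = j2 b + d2 b) → j ∈ U2 := by
    intro b hb j hj
    rw [hU2, mem_biUnion]
    exact ⟨b, hb, by rw [mem_insert, mem_singleton]; exact hj⟩
  have hUm : ∀ b, ∀ j ∈ U b, j ∈ O b ∨ (b ∈ H ∧ (j = j2 b ∨ j = j2 b + d2 b)) ∨
      (b ∈ H ∧ j ∈ HS b) := by
    intro b j hj
    rw [hU] at hj
    simp only at hj
    by_cases hb : b ∈ H
    · rw [if_pos hb, mem_union, mem_union, mem_insert, mem_singleton] at hj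
      rcases hj with (hj | hj) | hj
      · exact Or.inl hj
      · exact Or.inr (Or.inl ⟨hb, hj⟩)
      · exact Or.inr (Or.inr ⟨hb, hj⟩)
    · rw [if_neg hb] at hj
      exact Or.inl hj
  have hLm : ∀ b, ∀ j ∈ Lo b, b ∈ H ∧ ((j = j1 b ∨ j = j1 b + d1 b) ∨ j ∈ LS b) := by
    intro b j hj
    rw [hLo] at hj
    simp only at hj
    by_cases hb : b ∈ H
    · rw [if_pos hb, mem_union, mem_insert, mem_singleton] at hj
      exact ⟨hb, hj⟩
    · rw [if_neg hb] at hj
      exact absurd hj (notMem_empty _)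
  have hFm : ∀ b, ∀ v ∈ F b, b ∈ H ∧ (v = f b ∨ v = f b + 1) := by
    intro b j hj
    rw [hF] at hj
    simp only at hj
    by_cases hb : b ∈ H
    · rw [if_pos hb, mem_insert, mem_singleton] at hj
      exact ⟨hb, hj⟩
    · rw [if_neg hb] at hj
      exact absurd hj (notMem_empty _)
  have hBm : ∀ b, ∀ v ∈ B b, b = c ∧ qd s a = 1 ∧ (v = s - 1 ∨ v = s + 1) := by
    intro b v hv
    rw [hB] at hv
    simp only at hv
    by_cases hb : b = c
    · rw [if_pos hb, brk] at hv
      by_cases hd : qd s a = 1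
      · rw [if_pos hd, mem_insert, mem_singleton] at hv
        exact ⟨hb, hd, hv⟩
      · rw [if_neg hd] at hv
        exact absurd hv (notMem_empty _)
    · rw [if_neg hb] at hv
      exact absurd hv (notMem_empty _)
  have j2S : ∀ b ∈ H, ∀ j, (j = j2 b ∨ j = j2 b + d2 b) → S ≤ j ∧ j < qJ s a k t ∧
      j < 13 * a := by
    intro b hb j hj
    have h1 := hj2 b hb
    have h2 := hd2' b hb
    omega
  have hUr : ∀ b ∈ N, ∀ j ∈ U b, j < qJ s a k t ∨ j < SP - 2 * qM s a - k := by
    intro b hb j hj
    rcases hUm b j hj with h1 | ⟨h1, h2⟩ | ⟨h1, h2⟩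
    · left
      have := hOS b hb j h1
      omega
    · exact Or.inl (j2S b h1 j h2).2.1
    · exact Or.inr (hHS b h1 j h2).2.1
  have hLr : ∀ b, ∀ j ∈ Lo b, j < 2 * qM s a := by
    intro b j hj
    obtain ⟨h1, h2 | h2⟩ := hLm b j hj
    · have h3 := hj1 b h1
      have h4 := hd1' b h1
      omega
    · exact (hLS b h1 j h2).1
  have hUd : ∀ b ∈ N, ∀ b' ∈ N, b ≠ b' → Disjoint (U b) (U b') := by
    intro b hb b' hb' hne
    rw [disjoint_left]
    intro j hj hj'
    rcases hUm b j hj with h1 | ⟨h1, h2⟩ | ⟨h1, h2⟩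
    · rcases hUm b' j hj' with g1 | ⟨g1, g2⟩ | ⟨g1, g2⟩
      · exact disjoint_left.1 (hO2 b hb b' hb' hne) h1 g1
      · have := hOS b hb j h1
        have := j2S b' g1 j g2
        omega
      · have := hOS b hb j h1
        have := hHS b' g1 j g2
        omega
    · rcases hUm b' j hj' with g1 | ⟨g1, g2⟩ | ⟨g1, g2⟩
      · have := hOS b' hb' j g1
        have := j2S b h1 j h2
        omega
      · have w1 : j ∈ ({j2 b, j2 b + d2 b} : Finset ℕ) := by
          rw [mem_insert, mem_singleton]
          exact h2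
        have w2 : j ∈ ({j2 b', j2 b' + d2 b'} : Finset ℕ) := by
          rw [mem_insert, mem_singleton]
          exact g2
        exact disjoint_left.1 (hj2' b h1 b' g1 hne) w1 w2
      · exact (hHS b' g1 j g2).2.2 (memU2 b h1 j h2)
    · rcases hUm b' j hj' with g1 | ⟨g1, g2⟩ | ⟨g1, g2⟩
      · have := hOS b' hb' j g1
        have := hHS b h1 j h2
        omega
      · exact (hHS b h1 j h2).2.2 (memU2 b' g1 j g2)
      · exact disjoint_left.1 (hH2 b h1 b' g1 hne) h2 g2
  have hLd : ∀ b b', b ≠ b' → Disjoint (Lo b) (Lo b') := by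
    intro b b' hne
    rw [disjoint_left]
    intro j hj hj'
    obtain ⟨h1, h2 | h2⟩ := hLm b j hj
    · obtain ⟨g1, g2 | g2⟩ := hLm b' j hj'
      · have w1 : j ∈ ({j1 b, j1 b + d1 b} : Finset ℕ) := by
          rw [mem_insert, mem_singleton]
          exact h2
        have w2 : j ∈ ({j1 b', j1 b' + d1 b'} : Finset ℕ) := by
          rw [mem_insert, mem_singleton]
          exact g2
        exact disjoint_left.1 (hj1' b h1 b' g1 hne) w1 w2
      · exact (hLS b' g1 j g2).2 (memU1 b h1 j h2)
    · obtain ⟨g1, g2 | g2⟩ := hLm b' j hj'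
      · exact (hLS b h1 j h2).2 (memU1 b' g1 j g2)
      · exact disjoint_left.1 (hL2 b h1 b' g1 hne) h2 g2
  have hFd : ∀ b b', b ≠ b' → Disjoint (F b) (F b') := by
    intro b b' hne
    rw [disjoint_left]
    intro v hv hv'
    obtain ⟨h1, h2⟩ := hFm b v hv
    obtain ⟨g1, g2⟩ := hFm b' v hv'
    have h3 : iH b ≠ iH b' := fun h4 => hne (hi2 b h1 b' g1 h4)
    rw [hf] at h2 g2
    simp only at h2 g2
    omega
  have hBd : ∀ b b', b ≠ b' → Disjoint (B b) (B b') := by
    intro b b' hne
    rw [disjoint_left]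
    intro v hv hv'
    exact hne ((hBm b v hv).1.trans (hBm b' v hv').1.symm)
  have x1 : ∀ b ∈ N, ∀ b', Disjoint (dom (qv s a k t) (U b)) (dom ld (Lo b')) := by
    intro b hb b'
    rw [disjoint_left]
    intro v hv hv'
    obtain ⟨j, hj, h1⟩ := mem_dom.1 hv
    obtain ⟨j', hj', h2⟩ := mem_dom.1 hv'
    have h3 := (h.v_range (hUr b hb j hj)).1
    have h4 := h.ld_top (hLr b' j' hj')
    omega
  have x2 : ∀ b ∈ N, ∀ b', Disjoint (dom (qv s a k t) (U b)) (F b') := by
    intro b hb b'
    rw [disjoint_left]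
    intro v hv hv'
    obtain ⟨j, hj, h1⟩ := mem_dom.1 hv
    obtain ⟨g1, g2⟩ := hFm b' v hv'
    have h3 := hf1 b' g1
    have h4 := (h.v_range (hUr b hb j hj)).2.2
    omega
  have x3 : ∀ b b', Disjoint (dom ld (Lo b)) (F b') := by
    intro b b'
    rw [disjoint_left]
    intro v hv hv'
    obtain ⟨j, hj, h1⟩ := mem_dom.1 hv
    obtain ⟨g1, g2⟩ := hFm b' v hv'
    have h3 := hf1 b' g1
    have h4 := h.ld_top (hLr b j hj)
    omega
  have x4 : ∀ b ∈ N, ∀ b', Disjoint (dom (qv s a k t) (U b)) (B b') := by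
    intro b hb b'
    rw [disjoint_left]
    intro v hv hv'
    obtain ⟨j, hj, h1⟩ := mem_dom.1 hv
    obtain ⟨g1, g2, g3⟩ := hBm b' v hv'
    have h4 := (h.v_range (hUr b hb j hj)).2.2
    omega
  have x5 : ∀ b b', Disjoint (dom ld (Lo b)) (B b') := by
    intro b b'
    rw [disjoint_left]
    intro v hv hv'
    obtain ⟨j, hj, h1⟩ := mem_dom.1 hv
    obtain ⟨g1, g2, g3⟩ := hBm b' v hv'
    have h4 := h.ld_top (hLr b j hj)
    omega
  have x6 : ∀ b b', Disjoint (F b) (B b') := by
    intro b b'
    rw [disjoint_left]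
    intro v hv hv'
    obtain ⟨h1, h2⟩ := hFm b v hv
    obtain ⟨g1, g2, g3⟩ := hBm b' v hv'
    have h3 := hf1 b h1
    omega
  have hvlt := qv_lt s a k t
  refine ⟨fun b => dom (qv s a k t) (U b) ∪ dom ld (Lo b) ∪ F b ∪ B b, ?_, ?_⟩
  · intro b hb
    refine ⟨?_, ?_, ?_⟩
    · show Fill s (2 * P b) (β b) (dom (qv s a k t) (U b) ∪ dom ld (Lo b) ∪ F b ∪ B b)
        (β b - P' b % 2 - 2 * σ b)
      have hσb := hσ b hb
      have hPb := hP b hb
      by_cases hbq : b = q
      · have p1 : σ b = 0 := by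
          by_contra hcon
          exact hcq ((hσb.2 (by omega)).symm.trans hbq)
        have p2 : b ≠ c := fun h7 => hcq (h7.symm.trans hbq)
        have p3 : B b = ∅ := by
          rw [hB]
          exact if_neg p2
        rw [if_neg p2] at hPb
        have p4 : P b = P' b := by omega
        rw [p1, p3, union_empty, p4, hbq, hβq, show s - P' q % 2 - 2 * 0 = s - P' q % 2 by omega]
        by_cases hbH : q ∈ H
        · have q1 := hm3 q hbH
          rw [if_neg hcq.symm] at q1
          have q5 : #(O q) = 2 := by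
            rw [(hO1 q hq).1, hcs]
            simp only
            rw [if_neg hcq.symm, if_pos ((memH q).1 hbH).2]
          have q6 : U q = O q ∪ {j2 q, j2 q + d2 q} ∪ HS q := by
            rw [hU]
            exact if_pos hbH
          have q7 : Lo q = {j1 q, j1 q + d1 q} ∪ LS q := by
            rw [hLo]
            exact if_pos hbH
          have q8 : F q = {s + 1 + qd s a, s + 2 + qd s a} := by
            rw [hF]
            simp only
            rw [if_pos hbH, hfq hbH]
            congr 1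
            rw [singleton_inj]
            omega
          have q9 := (hd1' q hbH).1
          have q10 := (hd2' q hbH).1
          have q11 := (hH1 q hbH).1
          rw [if_neg hcq.symm] at q11
          rw [q6, q7, q8]
          refine h.fill_q_long q1.1 (by omega) ?_ ?_ ?_ ?_
          · rw [card_union_of_disjoint, card_union_of_disjoint, q5, card_pair, q11]
            · omega
            · omega
            · rw [disjoint_left]
              intro j hj hj'
              rw [mem_insert, mem_singleton] at hj'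
              have := hOS q hq j hj
              have := j2S q hbH j hj'
              omega
            · rw [disjoint_left]
              intro j hj hj'
              rw [mem_union, mem_insert, mem_singleton] at hj
              have h5 := hHS q hbH j hj'
              rcases hj with hj | hj
              · have := hOS q hq j hj
                omega
              · exact h5.2.2 (memU2 q hbH j hj)
          · intro j hj
            rw [mem_union, mem_union, mem_insert, mem_singleton] at hj
            rcases hj with (hj | hj) | hj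
            · have := hOS q hq j hj
              exact ⟨hOq' j hj, Or.inl (by omega)⟩
            · have h5 := j2S q hbH j hj
              exact ⟨by omega, Or.inl h5.2.2⟩
            · have h5 := hHS q hbH j hj
              exact ⟨by omega, Or.inr h5.2.1⟩
          · rw [card_union_of_disjoint, card_pair, (hL1 q hbH).1]
            · omega
            · omega
            · rw [disjoint_left]
              intro j hj hj'
              rw [mem_insert, mem_singleton] at hj
              exact (hLS q hbH j hj').2 (memU1 q hbH j hj)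
          · intro j hj
            refine ⟨?_, hLr q j (by rw [q7]; exact hj)⟩
            rw [mem_union, mem_insert, mem_singleton] at hj
            rcases hj with hj | hj
            · have := hj1 q hbH
              omega
            · have h5 := disjoint_left.1 (hLq hbH) hj
              rw [mem_singleton] at h5
              omega
        · have q5 : #(O q) = P' q := by
            rw [(hO1 q hq).1, hcs]
            simp only
            rw [if_neg hcq.symm, if_neg fun h7 => hbH ((memH q).2 ⟨hq, h7⟩)]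
          have q6 : U q = O q := by
            rw [hU]
            exact if_neg hbH
          have q7 : Lo q = ∅ := by
            rw [hLo]
            exact if_neg hbH
          have q8 : F q = ∅ := by
            rw [hF]
            exact if_neg hbH
          have q9 : dom ld ∅ = ∅ := rfl
          rw [q6, q7, q8, q9, union_empty, union_empty]
          exact h.fill_q_short q5 fun j hj => ⟨hOq' j hj, Or.inl (hOS q hq j hj)⟩
      · have hβb := hβ b hb hbq
        have hgb := hgβ b hb hbq
        by_cases hbH : b ∈ H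
        · have q1 := hm3 b hbH
          have q2 := hf1 b hbH
          have q3 := hj1 b hbH
          have q4 := hj2 b hbH
          have q6 : U b = O b ∪ {j2 b, j2 b + dh s (P' b) (g b) / 2} ∪ HS b := by
            rw [hU, hd2]
            simp only
            rw [if_pos hbH, if_neg hbq]
          have q7 : Lo b = {j1 b, j1 b + dl s (P' b) (g b) (f b) / 2} ∪ LS b := by
            rw [hLo, hd1]
            simp only
            rw [if_pos hbH, if_neg hbq]
          have q8 : F b = {f b, f b + 1} := by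
            rw [hF]
            exact if_pos hbH
          have q9 : β b - P' b % 2 - 2 * σ b = g b - P' b % 2 := by omega
          have q11 := (hH1 b hbH).1
          have q12 := (hL1 b hbH).1
          rw [q6, q7, q8, q9]
          have key : ∀ (nO : ℕ) (SO : Finset ℕ), Fill s nO (β b) SO (g b) →
              (P' b + 1) % 2 = #(HS b) % 2 →
              Fill s (nO + 2 * #(LS b) + 2 * #(HS b) + 10) (β b)
                (SO ∪ dom (qv s a k t) ({j2 b, j2 b + dh s (P' b) (g b) / 2} ∪ HS b) ∪
                  dom ld ({j1 b, j1 b + dl s (P' b) (g b) (f b) / 2} ∪ LS b) ∪ {f b, f b + 1})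
                (g b - P' b % 2) := by
            intro nO SO h0 h00
            exact h.fill_thread h0 hgb.2 (by omega) q1.1 (by omega) (by omega) q3.1 q3.2 q4.1 q4.2
              q12 (fun j hj => (hLS b hbH j hj).1) h00
              (fun j hj => ⟨(hHS b hbH j hj).1, (hHS b hbH j hj).2.1⟩)
          by_cases hbc : b = c
          · rw [if_pos hbc] at q1 q11 hPb
            have q5 : #(O b) = 4 := by
              rw [(hO1 b hb).1, hcs]
              exact if_pos hbc
            have q13 : B b = brk s a := by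
              rw [hB]
              exact if_pos hbc
            have h0 := h.fill_first (σ := σ b) hgb.2 (by omega) hσb.1 q5 (hOS b hb)
            rw [← hgb.1] at h0
            have h00 := key _ _ h0 (by omega)
            rw [show 8 + 2 * qd s a + 2 * #(LS b) + 2 * #(HS b) + 10 = 2 * P b by omega] at h00
            rw [q13]
            have e5 : dom (qv s a k t) (O b ∪ {j2 b, j2 b + dh s (P' b) (g b) / 2} ∪ HS b) ∪
                dom ld ({j1 b, j1 b + dl s (P' b) (g b) (f b) / 2} ∪ LS b) ∪ {f b, f b + 1} ∪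
                brk s a = dom (qv s a k t) (O b) ∪ brk s a ∪
                dom (qv s a k t) ({j2 b, j2 b + dh s (P' b) (g b) / 2} ∪ HS b) ∪
                dom ld ({j1 b, j1 b + dl s (P' b) (g b) (f b) / 2} ∪ LS b) ∪ {f b, f b + 1} := by
              rw [union_assoc (O b), dom_union _ (O b)]
              ac_rfl
            rw [e5]
            exact h00
          · rw [if_neg hbc] at q1 q11 hPb
            have q5 : #(O b) = 2 := by
              rw [(hO1 b hb).1, hcs]
              simp only
              rw [if_neg hbc, if_pos ((memH b).1 hbH).2]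
            have q13 : B b = ∅ := by
              rw [hB]
              exact if_neg hbc
            have q14 : σ b = 0 := by
              by_contra hcon
              exact hbc (hσb.2 (by omega))
            have q15 : g b = β b := by omega
            have h0 := h.fill_short hgb.2 (by omega) q5 (hOS b hb)
            rw [show g b - 2 % 2 = g b by omega] at h0
            have h00 := key (2 * 2) (dom (qv s a k t) (O b)) (by rw [← q15]; exact h0) (by omega)
            rw [show 2 * 2 + 2 * #(LS b) + 2 * #(HS b) + 10 = 2 * P b by omega] at h00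
            rw [q13, union_empty, union_assoc (O b), dom_union _ (O b)]
            exact h00
        · have hbc : b ≠ c := fun h7 => hbH (h7 ▸ hcH)
          rw [if_neg hbc] at hPb
          have q5 : #(O b) = P' b := by
            rw [(hO1 b hb).1, hcs]
            simp only
            rw [if_neg hbc, if_neg fun h7 => hbH ((memH b).2 ⟨hb, h7⟩)]
          have q6 : U b = O b := by
            rw [hU]
            exact if_neg hbH
          have q7 : Lo b = ∅ := by
            rw [hLo]
            exact if_neg hbH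
          have q8 : F b = ∅ := by
            rw [hF]
            exact if_neg hbH
          have q13 : B b = ∅ := by
            rw [hB]
            exact if_neg hbc
          have q9 : dom ld ∅ = ∅ := rfl
          have q10 : σ b = 0 := by
            by_contra hcon
            exact hbc (hσb.2 (by omega))
          rw [q6, q7, q8, q9, q13, union_empty, union_empty, union_empty, q10,
            show β b - P' b % 2 - 2 * 0 = β b - P' b % 2 by omega,
            show P b = P' b by omega]
          exact h.fill_short (by omega) hβb.2 q5 (hOS b hb)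
    · have hPb := hP b hb
      rw [card_union_of_disjoint (disjoint_union_left.2 ⟨disjoint_union_left.2
          ⟨x4 b hb b, x5 b b⟩, x6 b b⟩),
        card_union_of_disjoint (disjoint_union_left.2 ⟨x2 b hb b, x3 b b⟩),
        card_union_of_disjoint (x1 b hb b), card_dom hvlt, card_dom ld_lt]
      have r4 : #(B b) = 2 * if b = c then qd s a else 0 := by
        rw [hB]
        simp only
        by_cases hbc : b = c
        · rw [if_pos hbc, if_pos hbc, brk]
          by_cases hd : qd s a = 1
          · rw [if_pos hd, hd, card_pair (by omega)]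
          · rw [if_neg hd, card_empty]
            omega
        · rw [if_neg hbc, if_neg hbc]
          rfl
      by_cases hbH : b ∈ H
      · have q1 := hm3 b hbH
        have q5 : #(O b) = if b = c then 4 else 2 := by
          rw [(hO1 b hb).1, hcs]
          simp only
          by_cases hbc : b = c
          · rw [if_pos hbc, if_pos hbc]
          · rw [if_neg hbc, if_neg hbc, if_pos ((memH b).1 hbH).2]
        have q6 : U b = O b ∪ {j2 b, j2 b + d2 b} ∪ HS b := by
          rw [hU]
          exact if_pos hbH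
        have q7 : Lo b = {j1 b, j1 b + d1 b} ∪ LS b := by
          rw [hLo]
          exact if_pos hbH
        have q8 : F b = {f b, f b + 1} := by
          rw [hF]
          exact if_pos hbH
        have r1 : #(U b) = #(O b) + 2 + #(HS b) := by
          rw [q6, card_union_of_disjoint, card_union_of_disjoint, card_pair]
          · have := (hd2' b hbH).1
            omega
          · rw [disjoint_left]
            intro j hj hj'
            rw [mem_insert, mem_singleton] at hj'
            have := hOS b hb j hj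
            have := j2S b hbH j hj'
            omega
          · rw [disjoint_left]
            intro j hj hj'
            rw [mem_union, mem_insert, mem_singleton] at hj
            have h5 := hHS b hbH j hj'
            rcases hj with hj | hj
            · have := hOS b hb j hj
              omega
            · exact h5.2.2 (memU2 b hbH j hj)
        have r2 : #(Lo b) = 2 + (2 * m b - 2) := by
          rw [q7, card_union_of_disjoint, card_pair, (hL1 b hbH).1]
          · have := (hd1' b hbH).1
            omega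
          · rw [disjoint_left]
            intro j hj hj'
            rw [mem_insert, mem_singleton] at hj
            exact (hLS b hbH j hj').2 (memU1 b hbH j hj)
        have r3 : #(F b) = 2 := by
          rw [q8, card_pair]
          omega
        have r5 := (hH1 b hbH).1
        rw [r1, r2, r3, r4, q5, r5]
        by_cases hbc : b = c
        · rw [if_pos hbc] at q1 hPb
          rw [if_pos hbc, if_pos hbc, if_pos hbc]
          omega
        · rw [if_neg hbc] at q1 hPb
          rw [if_neg hbc, if_neg hbc, if_neg hbc]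
          omega
      · have hbc : b ≠ c := fun h7 => hbH (h7 ▸ hcH)
        rw [if_neg hbc] at hPb r4
        have q5 : #(O b) = P' b := by
          rw [(hO1 b hb).1, hcs]
          simp only
          rw [if_neg hbc, if_neg fun h7 => hbH ((memH b).2 ⟨hb, h7⟩)]
        have q6 : U b = O b := by
          rw [hU]
          exact if_neg hbH
        have q7 : Lo b = ∅ := by
          rw [hLo]
          exact if_neg hbH
        have q8 : F b = ∅ := by
          rw [hF]
          exact if_neg hbH
        rw [q6, q7, q8, q5, r4, card_empty]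
        omega
    · intro v hv
      rw [mem_union, mem_union, mem_union] at hv
      rcases hv with ((hv | hv) | hv) | hv
      · obtain ⟨j, hj, h1⟩ := mem_dom.1 hv
        have h3 := h.v_range (hUr b hb j hj)
        omega
      · obtain ⟨j, hj, h1⟩ := mem_dom.1 hv
        have h4 := h.ld_top (hLr b j hj)
        omega
      · obtain ⟨g1, g2⟩ := hFm b v hv
        have h3 := hf1 b g1
        have h5 : qz s a k t = qR s a + 2 + 2 * qd s a + 2 * qJ s a k t + 2 * k := rfl
        omega
      · obtain ⟨g1, g2, g3⟩ := hBm b v hv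
        have h5 : qz s a k t = qR s a + 2 + 2 * qd s a + 2 * qJ s a k t + 2 * k := rfl
        omega
  · intro b hb b' hb' hne
    simp only [disjoint_union_left, disjoint_union_right]
    exact ⟨⟨⟨⟨⟨⟨disjoint_dom hvlt (hUd b hb b' hb' hne), (x1 b' hb' b).symm⟩,
      (x2 b' hb' b).symm⟩, (x4 b' hb' b).symm⟩,
      ⟨⟨⟨x1 b hb b', disjoint_dom ld_lt (hLd b b' hne)⟩, (x3 b' b).symm⟩, (x5 b' b).symm⟩⟩,
      ⟨⟨⟨x2 b hb b', x3 b b'⟩, hFd b b' hne⟩, (x6 b' b).symm⟩⟩,
      ⟨⟨⟨x4 b hb b', x5 b b'⟩, x6 b b'⟩, hBd b b' hne⟩⟩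

/-- The weights in the threads. `N` is the set of the threads, `P b` the number of the pairs in the thread `b`,
`β b` the weight at its lower end, `β q = s`, `c` is the special thread, in which there may be a broken domino. -/
theorem exists_fills3 (N : Finset V) (P P' β σ : V → ℕ) (s a k t : ℕ) {c q : V}
    (hc : c ∈ N) (hq : q ∈ N) (hcq : c ≠ q) (hPc : 17 ≤ P c)
    (hP : ∀ b ∈ N, P b = P' b + if b = c then qd s a else 0)
    (hk : k = #(N.filter fun b => 7 ≤ P' b)) (ht : t ≤ #N) (hN : #N + 3 ≤ 2 * a) (ha : 3 ≤ a)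
    (hs : a + t + 2 * ∑ b ∈ N, P b + 1 = 2 * s)
    (hC : 70 * a + 2 ≤ t + 2 * ∑ b ∈ N, P b)
    (hβ : ∀ b ∈ N, b ≠ q → qR s a ≤ β b + 2 * a ∧ β b ≤ qR s a) (hβq : β q = s)
    (hσ : ∀ b ∈ N, σ b ≤ 1 ∧ (σ b = 1 → b = c)) :
    ∃ x : V → ℕ → ℕ, (∀ b ∈ N, x b 0 = β b ∧ x b (2 * P b) = β b - P' b % 2 - 2 * σ b ∧
        (∀ i < 2 * P b, 1 ≤ x b (i + 1) ∧ x b (i + 1) ≤ s) ∧
        ∀ i < 2 * P b, x b i + x b (i + 1) ≠ s ∧ (x b i + x b (i + 1) + a ≤ qR s a + 1 ∨
          (qR s a < x b i + x b (i + 1) ∧ x b i + x b (i + 1) < qz s a k t) ∨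
          (qz s a k t + t ≤ x b i + x b (i + 1) ∧ x b i + x b (i + 1) ≤ 2 * s))) ∧
      ∀ b ∈ N, ∀ i < 2 * P b, ∀ b' ∈ N, ∀ i' < 2 * P b',
        x b i + x b (i + 1) = x b' i' + x b' (i' + 1) → b = b' ∧ i = i' := by
  obtain ⟨W, hW1, hW2⟩ := exists_sets3 N P P' β σ s a k t hc hq hcq hPc hP hk ht hN ha hs hC hβ
    hβq hσ
  have key : ∀ b, ∃ x : ℕ → ℕ, b ∈ N → x 0 = β b ∧ x (2 * P b) = β b - P' b % 2 - 2 * σ b ∧
      (∀ i < 2 * P b, 1 ≤ x (i + 1) ∧ x (i + 1) ≤ s ∧ x i + x (i + 1) ∈ W b) ∧
      ∀ i < 2 * P b, ∀ j < 2 * P b, x i + x (i + 1) = x j + x (j + 1) → i = j := by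
    intro b
    by_cases hb : b ∈ N
    · obtain ⟨x, hx⟩ := (hW1 b hb).1.exists_inj (hW1 b hb).2.1
      exact ⟨x, fun _ => hx⟩
    · exact ⟨fun _ => 0, fun h => absurd h hb⟩
  choose x hx using key
  refine ⟨x, ?_, ?_⟩
  · intro b hb
    obtain ⟨h1, h2, h3, -⟩ := hx b hb
    exact ⟨h1, h2, fun i hi => ⟨(h3 i hi).1, (h3 i hi).2.1⟩,
      fun i hi => (hW1 b hb).2.2 _ (h3 i hi).2.2⟩
  · intro b hb i hi b' hb' i' hi' heq
    have h1 := ((hx b hb).2.2.1 i hi).2.2
    have h2 := ((hx b' hb').2.2.1 i' hi').2.2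
    have h3 : b = b' := by
      by_contra hne
      rw [← heq] at h2
      exact disjoint_left.1 (hW2 b hb b' hb' hne) h1 h2
    subst h3
    exact ⟨rfl, (hx b hb).2.2.2 i hi i' hi' heq⟩

end Pool.Agent.H.MP_936c16_co
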