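import Pool.Agent.H.MP_936c16_co.Ph3
import Pool.Agent.H.MP_936c16_co.Par3
import Pool.Agent.H.MP_936c16_co.Exact2

/-!
The weighting of a rooted tree with many vertices with exactly one child, if the vertex `q` has exactly two
children and they are leaves: the weights at `q` are `1`, `s`, `s`.
-/

set_option autoImplicit false

namespace Pool.Agent.H.MP_936c16_co

open Finset

namespace RT

variable {V : Type} [Fintype V] [DecidableEq V] (T : RT V)

/-- The weighting of a rooted tree with many vertices with exactly one child and with a vertex `q` whose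
children are two leaves. -/
theorem exists_exact3 {us q y y' : V} (hus : us ∈ T.ch T.r) (hlen : 34 ≤ T.len (T.bot us))
    (hcB : T.bot us ∈ T.B) (hcq : T.bot us ≠ q) (hqB : q ∈ T.B) (hqc : T.ch q = {y, y'})
    (hyy : y ≠ y') (hy : y ∈ T.L) (hy' : y' ∈ T.L) (hr : 3 ≤ #(T.ch T.r)) {s : ℕ}
    (hs : #T.L + #T.D = 2 * s) (hC : 70 * #T.L ≤ #T.D) :
    ∃ e : V → ℕ, e T.r = 0 ∧ (∀ v, v ≠ T.r → 1 ≤ e v ∧ e v ≤ s) ∧
      Function.Injective (T.w e) := by
  have hLq : ∀ v ∈ T.L, v ≠ q := fun v hv h => disjoint_left.1 T.disjoint_L_B hv (h ▸ hqB)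
  obtain ⟨a, ha⟩ : ∃ a, a + 1 = #T.L := ⟨#T.L - 1, Nat.sub_add_cancel (card_pos.2 ⟨y, hy⟩)⟩
  have hBL := T.card_B_ch
  have hB0 : 0 < #T.B := card_pos.2 ⟨q, hqB⟩
  have hNc : #T.N = #T.L + #T.B := by rw [T.N_eq, card_union_of_disjoint T.disjoint_L_B]
  have hych : y ∈ T.ch q := by
    rw [hqc]
    exact mem_insert_self _ _
  have hy'ch : y' ∈ T.ch q := by
    rw [hqc]
    exact mem_insert_of_mem (mem_singleton_self _)
  have hqD := T.B_notMem_D hqB
  have hyN : y ∈ T.N := by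
    rw [T.N_eq]
    exact mem_union_left _ hy
  have hy'N : y' ∈ T.N := by
    rw [T.N_eq]
    exact mem_union_left _ hy'
  have hqN : q ∈ T.N := by
    rw [T.N_eq]
    exact mem_union_right _ hqB
  have hyD := (T.mem_N.1 hyN).2
  have hy'D := (T.mem_N.1 hy'N).2
  have hby : T.bot y = y := T.bot_of_notMem hyD
  have hby' : T.bot y' = y' := T.bot_of_notMem hy'D
  have hly : T.len y = 0 := by
    have h1 := T.dn_of_par (T.mem_ch.1 hych).1 (by rw [(T.mem_ch.1 hych).2]; exact hqD)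
    rw [T.dn_of_notMem hyD, hby] at h1
    exact h1.symm
  have hly' : T.len y' = 0 := by
    have h1 := T.dn_of_par (T.mem_ch.1 hy'ch).1 (by rw [(T.mem_ch.1 hy'ch).2]; exact hqD)
    rw [T.dn_of_notMem hy'D, hby'] at h1
    exact h1.symm
  obtain ⟨N', hN'⟩ : ∃ N', N' = (T.N.erase y).erase y' := ⟨_, rfl⟩
  have memN' : ∀ b, b ∈ N' ↔ b ≠ y' ∧ b ≠ y ∧ b ∈ T.N := by
    intro b
    rw [hN', mem_erase, mem_erase]
  have hN'c : #N' + 2 = #T.N := by
    have h1 := card_erase_add_one hyN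
    have h2 := card_erase_add_one (mem_erase.2 ⟨hyy.symm, hy'N⟩ : y' ∈ T.N.erase y)
    rw [hN']
    omega
  have hN'N : ∀ b ∈ N', b ∈ T.N := fun b hb => ((memN' b).1 hb).2.2
  have hN'of : ∀ b ∈ T.N, b ∉ N' → b = y ∨ b = y' := by
    intro b hb h
    by_contra hcon
    rw [not_or] at hcon
    exact h ((memN' b).2 ⟨hcon.2, hcon.1, hb⟩)
  obtain ⟨P, hP⟩ : ∃ P : V → ℕ, P = fun b => T.len b / 2 := ⟨_, rfl⟩
  have hP' : ∀ b, P b = T.len b / 2 := fun b => by rw [hP]
  have hPy : P y = 0 := by rw [hP', hly]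
  have hPy' : P y' = 0 := by rw [hP', hly']
  obtain ⟨c, hc⟩ : ∃ c, c = T.bot us := ⟨_, rfl⟩
  rw [← hc] at hcB hcq
  have hPc : 17 ≤ P c := by
    rw [hP', hc]
    omega
  have hcN : c ∈ T.N := by
    rw [T.N_eq]
    exact mem_union_right _ hcB
  have hLc : ∀ v ∈ T.L, v ≠ c := fun v hv h => disjoint_left.1 T.disjoint_L_B hv (h ▸ hcB)
  have hcN' : c ∈ N' := (memN' c).2 ⟨(hLc y' hy').symm, (hLc y hy).symm, hcN⟩
  have hqN' : q ∈ N' := (memN' q).2 ⟨(hLq y' hy').symm, (hLq y hy).symm, hqN⟩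
  have hd1 : qd s a ≤ 1 := by
    rw [qd]
    omega
  obtain ⟨Q, hQ⟩ : ∃ Q : V → ℕ, Q = fun b => P b - if b = c then qd s a else 0 := ⟨_, rfl⟩
  have hQb : ∀ b, Q b = P b - if b = c then qd s a else 0 := fun b => by rw [hQ]
  have hQ' : ∀ b, P b = Q b + if b = c then qd s a else 0 := by
    intro b
    rw [hQb]
    split_ifs with h
    · rw [h]
      omega
    · omega
  obtain ⟨O, hO⟩ : ∃ O : Finset V, O = T.N.filter fun b => T.len b % 2 = 1 := ⟨_, rfl⟩
  obtain ⟨t, ht⟩ : ∃ t, t = #O := ⟨_, rfl⟩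
  obtain ⟨k, hk⟩ : ∃ k, k = #(N'.filter fun b => 7 ≤ Q b) := ⟨_, rfl⟩
  have hON' : ∀ b ∈ O, b ∈ N' := by
    intro b hb
    rw [hO, mem_filter] at hb
    by_contra h
    rcases hN'of b hb.1 h with h1 | h1
    · rw [h1, hly] at hb
      omega
    · rw [h1, hly'] at hb
      omega
  have htN : t ≤ #N' := by
    rw [ht]
    exact card_le_card hON'
  have hkN : k ≤ #N' := by
    rw [hk]
    exact card_filter_le _ _
  have hsum : t + 2 * ∑ b ∈ T.N, P b = #T.D := by
    rw [← T.sum_len, mul_sum, ht, hO, card_filter, ← sum_add_distrib]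
    refine sum_congr rfl fun b _ => ?_
    have := hP' b
    split_ifs <;> omega
  have hsum' : ∑ b ∈ N', P b = ∑ b ∈ T.N, P b := by
    refine sum_subset hN'N fun b hb h => ?_
    rcases hN'of b hb h with h1 | h1
    · rw [h1, hPy]
    · rw [h1, hPy']
  rw [← hsum'] at hsum
  obtain ⟨R, hRd⟩ : ∃ R, R = qR s a := ⟨_, rfl⟩
  obtain ⟨z₀, hzd⟩ : ∃ z₀, z₀ = qz s a k t := ⟨_, rfl⟩
  have hs35 : 35 * a + 35 ≤ s := by omega
  have hR1 : s ≤ R + 8 ∧ R + 5 ≤ s := by
    rw [hRd, qR, qM, qd]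
    omega
  have hz1 : z₀ + t + 2 * a + 2 ≤ s + R ∧ s + R ≤ z₀ + t + 2 * a + 3 := by
    rw [hzd, qz, qJ, ← hRd]
    omega
  obtain ⟨iO, hi1, hi2⟩ := Ph1_num O
  rw [← ht] at hi1
  obtain ⟨z, hzf⟩ : ∃ z : V → ℕ, z = fun b => z₀ + iO b := ⟨_, rfl⟩
  have hzb : ∀ b, z b = z₀ + iO b := fun b => by rw [hzf]
  -- the weights of the leaves
  obtain ⟨L', hL'⟩ : ∃ L', L' = (T.L.erase y).erase y' := ⟨_, rfl⟩
  have memL' : ∀ b, b ∈ L' ↔ b ≠ y' ∧ b ≠ y ∧ b ∈ T.L := by
    intro b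
    rw [hL', mem_erase, mem_erase]
  have hL'c : #L' + 2 = #T.L := by
    have h1 := card_erase_add_one hy
    have h2 := card_erase_add_one (mem_erase.2 ⟨hyy.symm, hy'⟩ : y' ∈ T.L.erase y)
    rw [hL']
    omega
  obtain ⟨f, hf1, hf2⟩ := Ph1_num L'
  obtain ⟨β₀, hβ₀⟩ : ∃ β₀ : V → ℕ, β₀ = fun v => if v = y then 1 else if v = y' then s else
      if v = q then s else R - f v := ⟨_, rfl⟩
  -- the weights at the lower ends
  obtain ⟨sg, hsg, β, hβ0, hβB, hβBi, hβr⟩ := T.exists_beta3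
    (fun σ => tw2 Q z T.len c (min σ 1)) R a β₀ hus (by rw [← hc]; exact hcB)
    (by rw [← hc]; exact hcq) (by omega) (by omega) (by
      intro σ b _
      have h3 := hzb b
      have h4 : min σ 1 ≤ 1 := min_le_right _ _
      by_cases h : T.len b % 2 = 1
      · right
        refine ⟨z b + Q b % 2 + (if b = c then 2 * min σ 1 else 0), fun β h1 h2 => ?_⟩
        rw [tw2, if_pos h]
        split_ifs <;> omega
      · left
        refine ⟨Q b % 2 + (if b = c then 2 * min σ 1 else 0), fun β h1 h2 => ?_⟩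
        rw [tw2, if_neg h]
        split_ifs <;> omega) (by
      intro b _ hb β
      rw [← hc] at hb
      rw [tw2, tw2, if_neg hb, if_neg hb]) (by
      intro β h1 h2
      rw [← hc]
      have h3 := hzb c
      have e0 : min 0 1 = 0 := rfl
      have e1 : min 1 1 = 1 := rfl
      simp only [e0, e1]
      rw [tw2, tw2, if_pos rfl, if_pos rfl]
      split_ifs <;> omega)
  have hm : min sg 1 = sg := min_eq_left hsg
  simp only [hm] at hβBi hβr
  have hLB : ∀ v ∈ T.L, v ∉ T.B.erase q := fun v hv h =>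
    disjoint_left.1 T.disjoint_L_B hv (mem_of_mem_erase h)
  have hβy : β y = 1 := by
    rw [hβ0 y (hLB y hy), hβ₀]
    beta_reduce
    rw [if_pos rfl]
  have hβy' : β y' = s := by
    rw [hβ0 y' (hLB y' hy'), hβ₀]
    beta_reduce
    rw [if_neg hyy.symm, if_pos rfl]
  have hβq : β q = s := by
    rw [hβ0 q (notMem_erase _ _), hβ₀]
    beta_reduce
    rw [if_neg (hLq y hy).symm, if_neg (hLq y' hy').symm, if_pos rfl]
  have hβL : ∀ v ∈ T.L, v ≠ y → v ≠ y' → v ∈ L' ∧ β v = R - f v ∧ f v + 2 ≤ a := by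
    intro v hv h1 h2
    have h3 : v ∈ L' := (memL' v).2 ⟨h2, h1, hv⟩
    have h4 := hf1 v h3
    refine ⟨h3, ?_, by omega⟩
    rw [hβ0 v (hLB v hv), hβ₀]
    simp only
    rw [if_neg h1, if_neg h2, if_neg (hLq v hv)]
  have hβN : ∀ b ∈ N', b ≠ q → R ≤ β b + 2 * a ∧ β b ≤ R := by
    intro b hb hbq
    obtain ⟨hb1, hb2, hb3⟩ := (memN' b).1 hb
    rw [T.N_eq, mem_union] at hb3
    rcases hb3 with hb3 | hb3
    · obtain ⟨-, h1, h2⟩ := hβL b hb3 hb2 hb1
      omega
    · exact hβB b (mem_erase.2 ⟨hbq, hb3⟩)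
  obtain ⟨σ, hσd⟩ : ∃ σ : V → ℕ, σ = fun b => if b = c then sg else 0 := ⟨_, rfl⟩
  have hσ0 : ∀ b, b ≠ c → σ b = 0 := by
    intro b hb
    rw [hσd]
    simp only
    rw [if_neg hb]
  have hσb : ∀ b, 2 * σ b = if b = c then 2 * sg else 0 := by
    intro b
    rw [hσd]
    simp only
    split_ifs <;> rfl
  have hσ1 : ∀ b, σ b ≤ 1 := by
    intro b
    rw [hσd]
    simp only
    split_ifs
    · exact hsg
    · exact Nat.zero_le 1
  have hσ2 : ∀ b ∈ N', σ b ≤ 1 ∧ (σ b = 1 → b = c) := by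
    intro b _
    refine ⟨hσ1 b, fun h => ?_⟩
    by_contra h2
    rw [hσ0 b h2] at h
    omega
  have htwd : ∀ b β, tw2 Q z T.len c sg b β =
      if T.len b % 2 = 1 then z b - (β - Q b % 2 - 2 * σ b) else β - Q b % 2 - 2 * σ b := by
    intro b β
    rw [tw2, hσb]
  obtain ⟨x₀, hx₁, hx₂⟩ := exists_fills3 N' P Q β σ s a k t hcN' hqN' hcq hPc
    (fun b _ => hQ' b) hk htN (by omega) (by omega) (by omega) (by omega)
    (by rw [← hRd]; exact hβN) hβq hσ2
  rw [← hRd, ← hzd] at hx₁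
  have hQy : ∀ b, b ∈ T.N → b ∉ N' → P b = 0 ∧ Q b = 0 ∧ σ b = 0 := by
    intro b hb h
    have h1 : P b = 0 ∧ b ≠ c := by
      rcases hN'of b hb h with h1 | h1
      · rw [h1]
        exact ⟨hPy, hLc y hy⟩
      · rw [h1]
        exact ⟨hPy', hLc y' hy'⟩
    refine ⟨h1.1, ?_, hσ0 b h1.2⟩
    rw [hQb, h1.1, Nat.zero_sub]
  obtain ⟨x, hxd⟩ : ∃ x : V → ℕ → ℕ, x = fun b i => if b ∈ N' then x₀ b i else β b := ⟨_, rfl⟩
  have hxN : ∀ b ∈ N', ∀ i, x b i = x₀ b i := by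
    intro b hb i
    rw [hxd]
    exact if_pos hb
  have hxn : ∀ b, b ∉ N' → ∀ i, x b i = β b := by
    intro b hb i
    rw [hxd]
    exact if_neg hb
  have hx1 : ∀ b ∈ T.N, x b 0 = β b ∧ x b (2 * P b) = β b - Q b % 2 - 2 * σ b ∧
      (∀ i < 2 * P b, 1 ≤ x b (i + 1) ∧ x b (i + 1) ≤ s) ∧
      ∀ i < 2 * P b, x b i + x b (i + 1) ≠ s ∧ (x b i + x b (i + 1) + a ≤ R + 1 ∨
          (R < x b i + x b (i + 1) ∧ x b i + x b (i + 1) < z₀) ∨
          (z₀ + t ≤ x b i + x b (i + 1) ∧ x b i + x b (i + 1) ≤ 2 * s)) := by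
    intro b hb
    by_cases h : b ∈ N'
    · simp only [hxN b h]
      exact hx₁ b h
    · obtain ⟨h1, h2, h3⟩ := hQy b hb h
      simp only [hxn b h]
      refine ⟨trivial, ?_, fun i hi => ?_, fun i hi => ?_⟩
      · rw [h2, h3]
        omega
      · omega
      · omega
  have hx2 : ∀ b ∈ T.N, ∀ i < 2 * P b, ∀ b' ∈ T.N, ∀ i' < 2 * P b',
      x b i + x b (i + 1) = x b' i' + x b' (i' + 1) → b = b' ∧ i = i' := by
    intro b hb i hi b' hb' i' hi' he
    have h1 : b ∈ N' := by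
      by_contra h
      have h1 := (hQy b hb h).1
      omega
    have h2 : b' ∈ N' := by
      by_contra h
      have h1 := (hQy b' hb' h).1
      omega
    rw [hxN b h1, hxN b h1, hxN b' h2, hxN b' h2] at he
    exact hx₂ b h1 i hi b' h2 i' hi' he
  -- the weights
  obtain ⟨e, he⟩ : ∃ e : V → ℕ, e = fun v => if v = T.r then 0 else
      if T.dn v ≤ 2 * P (T.bot v) then x (T.bot v) (T.dn v) else
      z (T.bot v) - (β (T.bot v) - Q (T.bot v) % 2 - 2 * σ (T.bot v)) := ⟨_, rfl⟩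
  have er : e T.r = 0 := by
    rw [he]
    exact if_pos rfl
  have e1 : ∀ v, v ≠ T.r → T.dn v ≤ 2 * P (T.bot v) → e v = x (T.bot v) (T.dn v) := by
    intro v hv h
    rw [he]
    simp only
    rw [if_neg hv, if_pos h]
  have e2 : ∀ v, v ≠ T.r → 2 * P (T.bot v) < T.dn v →
      e v = z (T.bot v) - (β (T.bot v) - Q (T.bot v) % 2 - 2 * σ (T.bot v)) := by
    intro v hv h
    rw [he]
    simp only
    rw [if_neg hv, if_neg (by omega)]
  have eN : ∀ b ∈ T.N, e b = β b := by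
    intro b hb
    have h1 := T.mem_N.1 hb
    have h2 := T.dn_of_notMem h1.2
    rw [e1 b h1.1 (by omega), h2, T.bot_of_notMem h1.2]
    exact (hx1 b hb).1
  have hdn : ∀ v ∈ T.D, T.dn v ≤ 2 * P (T.bot v) + 1 ∧
      (2 * P (T.bot v) < T.dn v → T.bot v ∈ O) := by
    intro v hv
    have h1 := T.dn_le_len hv
    have h2 := hP' (T.bot v)
    refine ⟨by omega, fun h3 => ?_⟩
    rw [hO, mem_filter]
    exact ⟨T.bot_mem_N (T.mem_D.1 hv).1, by omega⟩
  have etop : ∀ v, v ≠ T.r → T.par v ∉ T.D →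
      e v = tw2 Q z T.len c sg (T.bot v) (β (T.bot v)) := by
    intro v hv hp
    have h1 := T.dn_of_par hv hp
    have h2 := hP' (T.bot v)
    have h3 := (hx1 _ (T.bot_mem_N hv)).2.1
    rw [htwd]
    by_cases h : T.len (T.bot v) % 2 = 1
    · rw [if_pos h, e2 v hv (by omega)]
    · rw [if_neg h, e1 v hv (by omega), h1, ← h3]
      congr 1
      omega
  have hcs : ∀ v, v ∉ T.D → T.c e v = T.cs (tw2 Q z T.len c sg) β v := by
    intro v hv
    refine sum_congr rfl fun u hu => ?_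
    have h1 := T.mem_ch.1 hu
    exact etop u h1.1 (by rw [h1.2]; exact hv)
  have hβs : ∀ b ∈ N', R ≤ β b + 2 * a ∧ (β b ≤ R ∨ β b = s ∧ σ b = 0) := by
    intro b hb
    by_cases h : b = q
    · rw [h, hβq]
      exact ⟨by omega, Or.inr ⟨rfl, hσ0 q hcq.symm⟩⟩
    · have h1 := hβN b hb h
      exact ⟨h1.1, Or.inl h1.2⟩
  have htw : ∀ b ∈ N', s - 4 * a - 9 ≤ tw2 Q z T.len c sg b (β b) := by
    intro b hb
    have h1 := hβs b hb
    have h2 := hzb b
    have h3 := hσ1 b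
    rw [htwd]
    split_ifs with h <;> omega
  have hbN' : ∀ v, v ≠ q → ∀ u ∈ T.ch v, T.bot u ∈ N' := by
    intro v hv u hu
    obtain ⟨h1, h2⟩ := T.mem_ch.1 hu
    by_contra h
    have h3 : T.len (T.bot u) = 0 ∧ (T.bot u = y ∨ T.bot u = y') := by
      rcases hN'of _ (T.bot_mem_N h1) h with h4 | h4
      · exact ⟨by rw [h4]; exact hly, Or.inl h4⟩
      · exact ⟨by rw [h4]; exact hly', Or.inr h4⟩
    have h4 : u ∉ T.D := by
      intro h5
      have h6 := T.dn_le_len h5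
      have h7 := T.dn_eq h5
      omega
    rw [T.bot_of_notMem h4] at h3
    rcases h3.2 with h5 | h5
    · rw [h5, (T.mem_ch.1 hych).2] at h2
      exact hv h2.symm
    · rw [h5, (T.mem_ch.1 hy'ch).2] at h2
      exact hv h2.symm
  have hcsl : ∀ v, v ≠ q → #(T.ch v) * (s - 4 * a - 9) ≤ T.cs (tw2 Q z T.len c sg) β v := by
    intro v hv
    rw [← smul_eq_mul]
    exact card_nsmul_le_sum _ _ _ fun u hu => htw _ (hbN' v hv u hu)
  -- the weighted degrees
  have wL : ∀ v ∈ T.L, T.w e v = β v := by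
    intro v hv
    rw [RT.w, RT.c, (T.mem_L.1 hv).2, sum_empty, zero_add]
    exact eN v (by rw [T.N_eq]; exact mem_union_left _ hv)
  have wB : ∀ v ∈ T.B, T.w e v = β v + T.cs (tw2 Q z T.len c sg) β v := by
    intro v hv
    rw [RT.w, hcs v (T.B_notMem_D hv), eN v (by rw [T.N_eq]; exact mem_union_right _ hv),
      add_comm]
  have wr : T.w e T.r = T.cs (tw2 Q z T.len c sg) β T.r := by
    rw [RT.w, hcs T.r T.r_notMem_D1, er, add_zero]
  have wy : T.w e y = 1 := by rw [wL y hy, hβy]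
  have wy' : T.w e y' = s := by rw [wL y' hy', hβy']
  have wq : T.w e q = 2 * s + 1 := by
    rw [RT.w, RT.c, hqc, sum_pair hyy, eN y hyN, eN y' hy'N, eN q hqN, hβy, hβy', hβq]
    omega
  have wD : ∀ v ∈ T.D, T.w e v = e (T.chi v) + e v := by
    intro v hv
    rw [RT.w, RT.c, T.ch_eq hv, sum_singleton]
  have wP : ∀ v ∈ T.D, T.dn v ≤ 2 * P (T.bot v) → T.dn v - 1 < 2 * P (T.bot v) ∧
      0 < T.dn v ∧ T.w e v = x (T.bot v) (T.dn v - 1) + x (T.bot v) (T.dn v - 1 + 1) := by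
    intro v hv h
    have h1 := T.dn_eq hv
    have h2 := T.bot_eq hv
    have h3 : T.dn v - 1 = T.dn (T.chi v) := by omega
    have h4 : T.dn v - 1 + 1 = T.dn v := by omega
    refine ⟨by omega, by omega, ?_⟩
    rw [wD v hv, e1 v (T.mem_D.1 hv).1 h, e1 (T.chi v) (T.chi_ne hv) (by rw [← h2]; omega), ← h2,
      h4, h3]
  have wS : ∀ v ∈ T.D, 2 * P (T.bot v) < T.dn v → T.w e v = z (T.bot v) := by
    intro v hv h
    have h1 := T.dn_eq hv
    have h2 := T.bot_eq hv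
    have h3 := (hdn v hv).1
    have hbN := T.bot_mem_N (T.mem_D.1 hv).1
    have h4 := (hx1 _ hbN).2.1
    have h5 := hβs _ (hON' _ ((hdn v hv).2 h))
    have h6 := hzb (T.bot v)
    have h8 := hσ1 (T.bot v)
    have h7 : T.dn (T.chi v) = 2 * P (T.bot v) := by omega
    rw [wD v hv, e2 v (T.mem_D.1 hv).1 h, e1 (T.chi v) (T.chi_ne hv) (by rw [← h2]; omega), ← h2,
      h7, h4]
    omega
  -- the classes of the values
  have hrq : T.r ≠ q := fun h => (T.mem_B.1 hqB).1 h.symm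
  have VB : ∀ v, v = T.r ∨ (v ∈ T.B ∧ v ≠ q) → 2 * s + 1 < T.w e v := by
    rintro v (hv | ⟨hv, hvq⟩)
    · rw [hv, wr]
      have h1 := hcsl T.r hrq
      have h2 : 3 * (s - 4 * a - 9) ≤ #(T.ch T.r) * (s - 4 * a - 9) := Nat.mul_le_mul_right _ hr
      omega
    · rw [wB v hv]
      have h1 := hcsl v hvq
      have h2 : 2 * (s - 4 * a - 9) ≤ #(T.ch v) * (s - 4 * a - 9) :=
        Nat.mul_le_mul_right _ (T.mem_B.1 hv).2
      have h3 := hβB v (mem_erase.2 ⟨hvq, hv⟩)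
      omega
  have VL : ∀ v ∈ T.L, v ≠ y → v ≠ y' → R + 2 ≤ T.w e v + a ∧ T.w e v ≤ R := by
    intro v hv h1 h2
    rw [wL v hv]
    obtain ⟨-, h3, h4⟩ := hβL v hv h1 h2
    omega
  have VP : ∀ v ∈ T.D, T.dn v ≤ 2 * P (T.bot v) → 2 ≤ T.w e v ∧ T.w e v ≠ s ∧
      (T.w e v + a ≤ R + 1 ∨ (R < T.w e v ∧ T.w e v < z₀) ∨
        (z₀ + t ≤ T.w e v ∧ T.w e v ≤ 2 * s)) := by
    intro v hv h
    obtain ⟨g3, -, g5⟩ := wP v hv h
    have hbN := T.bot_mem_N (T.mem_D.1 hv).1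
    have k1 := ((hx1 _ hbN).2.2.1 _ g3).1
    have k2 : 1 ≤ x (T.bot v) (T.dn v - 1) := by
      rcases Nat.eq_zero_or_pos (T.dn v - 1) with k3 | k3
      · have k5 : T.bot v ∈ N' := by
          by_contra hcon
          have k6 := (hQy _ hbN hcon).1
          omega
        rw [k3, (hx1 _ hbN).1]
        have k4 := hβs _ k5
        omega
      · have k4 := ((hx1 _ hbN).2.2.1 (T.dn v - 1 - 1) (by omega)).1
        rwa [show T.dn v - 1 - 1 + 1 = T.dn v - 1 by omega] at k4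
    rw [g5]
    exact ⟨by omega, (hx1 _ hbN).2.2.2 _ g3⟩
  have VS : ∀ v ∈ T.D, 2 * P (T.bot v) < T.dn v → z₀ ≤ T.w e v ∧ T.w e v < z₀ + t := by
    intro v hv h
    rw [wS v hv h, hzb]
    have h1 := hi1 _ ((hdn v hv).2 h)
    omega
  have kinds : ∀ v, v = y ∨ v = y' ∨ v = q ∨ (v ∈ T.L ∧ v ≠ y ∧ v ≠ y') ∨
      (v = T.r ∨ (v ∈ T.B ∧ v ≠ q)) ∨
      (v ∈ T.D ∧ T.dn v ≤ 2 * P (T.bot v)) ∨ (v ∈ T.D ∧ 2 * P (T.bot v) < T.dn v) := by
    intro v
    by_cases hv : v = T.r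
    · exact Or.inr (Or.inr (Or.inr (Or.inr (Or.inl (Or.inl hv)))))
    by_cases hD : v ∈ T.D
    · rcases le_or_gt (T.dn v) (2 * P (T.bot v)) with h2 | h2
      · exact Or.inr (Or.inr (Or.inr (Or.inr (Or.inr (Or.inl ⟨hD, h2⟩)))))
      · exact Or.inr (Or.inr (Or.inr (Or.inr (Or.inr (Or.inr ⟨hD, h2⟩)))))
    · have h1 : v ∈ T.N := T.mem_N.2 ⟨hv, hD⟩
      rw [T.N_eq, mem_union] at h1
      rcases h1 with h1 | h1
      · by_cases h2 : v = y
        · exact Or.inl h2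
        by_cases h3 : v = y'
        · exact Or.inr (Or.inl h3)
        exact Or.inr (Or.inr (Or.inr (Or.inl ⟨h1, h2, h3⟩)))
      · by_cases h2 : v = q
        · exact Or.inr (Or.inr (Or.inl h2))
        exact Or.inr (Or.inr (Or.inr (Or.inr (Or.inl (Or.inr ⟨h1, h2⟩)))))
  -- the three special vertices
  have U1 : ∀ v, T.w e v = 1 → v = y := by
    intro v hv
    rcases kinds v with g | g | g | ⟨g1, g2, g3⟩ | g1 | ⟨g1, g2⟩ | ⟨g1, g2⟩
    · exact g
    · rw [g, wy'] at hv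
      omega
    · rw [g, wq] at hv
      omega
    · have k2 := VL v g1 g2 g3
      omega
    · have k2 := VB v g1
      omega
    · have k2 := VP v g1 g2
      omega
    · have k2 := VS v g1 g2
      omega
  have U2 : ∀ v, T.w e v = s → v = y' := by
    intro v hv
    rcases kinds v with g | g | g | ⟨g1, g2, g3⟩ | g1 | ⟨g1, g2⟩ | ⟨g1, g2⟩
    · rw [g, wy] at hv
      omega
    · exact g
    · rw [g, wq] at hv
      omega
    · have k2 := VL v g1 g2 g3
      omega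
    · have k2 := VB v g1
      omega
    · have k2 := VP v g1 g2
      omega
    · have k2 := VS v g1 g2
      omega
  have U3 : ∀ v, T.w e v = 2 * s + 1 → v = q := by
    intro v hv
    rcases kinds v with g | g | g | ⟨g1, g2, g3⟩ | g1 | ⟨g1, g2⟩ | ⟨g1, g2⟩
    · rw [g, wy] at hv
      omega
    · rw [g, wy'] at hv
      omega
    · exact g
    · have k2 := VL v g1 g2 g3
      omega
    · have k2 := VB v g1
      omega
    · have k2 := VP v g1 g2
      omega
    · have k2 := VS v g1 g2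
      omega
  refine ⟨e, er, ?_, ?_⟩
  · intro v hv
    by_cases hD : v ∈ T.D
    · have hbN := T.bot_mem_N hv
      rcases le_or_gt (T.dn v) (2 * P (T.bot v)) with h2 | h2
      · obtain ⟨h3, h4, -⟩ := wP v hD h2
        have h5 := (hx1 _ hbN).2.2.1 _ h3
        have h6 : T.dn v - 1 + 1 = T.dn v := by omega
        rw [h6] at h5
        rw [e1 v hv h2]
        exact h5
      · rw [e2 v hv h2]
        have h3 := hβs _ (hON' _ ((hdn v hD).2 h2))
        have h4 := hzb (T.bot v)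
        have h5 := hi1 _ ((hdn v hD).2 h2)
        have h6 := hσ1 (T.bot v)
        omega
    · have hN : v ∈ T.N := T.mem_N.2 ⟨hv, hD⟩
      rw [eN v hN]
      by_cases h : v ∈ N'
      · have h3 := hβs v h
        omega
      · rcases hN'of v hN h with h1 | h1
        · rw [h1, hβy]
          omega
        · rw [h1, hβy']
          omega
  · intro u v huv
    rcases kinds u with g | g | g | hu
    · rw [g, wy] at huv
      rw [g, U1 v huv.symm]
    · rw [g, wy'] at huv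
      rw [g, U2 v huv.symm]
    · rw [g, wq] at huv
      rw [g, U3 v huv.symm]
    rcases kinds v with g | g | g | hv
    · rw [g, wy] at huv
      rw [g, U1 u huv]
    · rw [g, wy'] at huv
      rw [g, U2 u huv]
    · rw [g, wq] at huv
      rw [g, U3 u huv]
    rcases hu with ⟨h1, h2, h3⟩ | h1 | ⟨h1, h2⟩ | ⟨h1, h2⟩
    · have k1 := VL u h1 h2 h3
      rcases hv with ⟨g1, g2, g3⟩ | g1 | ⟨g1, g2⟩ | ⟨g1, g2⟩
      · rw [wL u h1, wL v g1] at huv
        obtain ⟨a1, a2, a3⟩ := hβL u h1 h2 h3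
        obtain ⟨b1, b2, b3⟩ := hβL v g1 g2 g3
        exact hf2 u a1 v b1 (by omega)
      · have k2 := VB v g1
        omega
      · have k2 := VP v g1 g2
        omega
      · have k2 := VS v g1 g2
        omega
    · have k1 := VB u h1
      rcases hv with ⟨g1, g2, g3⟩ | g1 | ⟨g1, g2⟩ | ⟨g1, g2⟩
      · have k2 := VL v g1 g2 g3
        omega
      · rcases h1 with h1 | ⟨h1, h2⟩
        · rcases g1 with g1 | ⟨g1, g2⟩
          · rw [h1, g1]
          · exfalso
            rw [h1, wr, wB v g1] at huv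
            exact hβr v (mem_erase.2 ⟨g2, g1⟩) huv.symm
        · rcases g1 with g1 | ⟨g1, g2⟩
          · exfalso
            rw [g1, wr, wB u h1] at huv
            exact hβr u (mem_erase.2 ⟨h2, h1⟩) huv
          · rw [wB u h1, wB v g1] at huv
            exact hβBi u (mem_erase.2 ⟨h2, h1⟩) v (mem_erase.2 ⟨g2, g1⟩) huv
      · have k2 := VP v g1 g2
        omega
      · have k2 := VS v g1 g2
        omega
    · have k1 := VP u h1 h2
      rcases hv with ⟨g1, g2, g3⟩ | g1 | ⟨g1, g2⟩ | ⟨g1, g2⟩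
      · have k2 := VL v g1 g2 g3
        omega
      · have k2 := VB v g1
        omega
      · obtain ⟨h3, h4, h5⟩ := wP u h1 h2
        obtain ⟨g3, g4, g5⟩ := wP v g1 g2
        rw [h5, g5] at huv
        obtain ⟨h6, h7⟩ := hx2 _ (T.bot_mem_N (T.mem_D.1 h1).1) _ h3 _
          (T.bot_mem_N (T.mem_D.1 g1).1) _ g3 huv
        exact T.dn_bot_inj h1 g1 h6 (by omega)
      · have k2 := VS v g1 g2
        omega
    · have k1 := VS u h1 h2
      rcases hv with ⟨g1, g2, g3⟩ | g1 | ⟨g1, g2⟩ | ⟨g1, g2⟩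
      · have k2 := VL v g1 g2 g3
        omega
      · have k2 := VB v g1
        omega
      · have k2 := VP v g1 g2
        omega
      · rw [wS u h1 h2, wS v g1 g2, hzb, hzb] at huv
        have h3 := hdn u h1
        have g3 := hdn v g1
        have h4 := hi2 _ (h3.2 h2) _ (g3.2 g2) (by omega)
        refine T.dn_bot_inj h1 g1 h4 ?_
        rw [h4] at h3 h2
        omega

end RT

end Pool.Agent.H.MP_936c16_co
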