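import Mathlib

/-!
Threads as sequences of weights. `Fill s n β S γ`: a thread of `n` vertices leads from the weight `β` to the
weight `γ`, its other weights are in `1, …, s` and `S` is the set of the weighted degrees.
-/

set_option autoImplicit false

namespace Pool.Agent.H.MP_936c16_co

open Finset

/-- a thread of `n` vertices leads from the weight `β` to the weight `γ`, the set of the weighted degrees
is `S` -/
inductive Fill (s : ℕ) : ℕ → ℕ → Finset ℕ → ℕ → Prop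
  | nil (β : ℕ) : Fill s 0 β ∅ β
  | cons {n β v γ : ℕ} {S : Finset ℕ} (h1 : β + 1 ≤ v) (h2 : v ≤ β + s)
      (h : Fill s n (v - β) S γ) : Fill s (n + 1) β (insert v S) γ

theorem Fill.append {s n m β γ ε : ℕ} {S S' : Finset ℕ} (h : Fill s n β S γ)
    (h' : Fill s m γ S' ε) : Fill s (n + m) β (S ∪ S') ε := by
  induction h with
  | nil β =>
    rw [zero_add, empty_union]
    exact h'
  | cons h1 h2 _ ih =>
    rw [insert_union, add_right_comm]
    exact Fill.cons h1 h2 (ih h')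

theorem Fill.single {s β v γ : ℕ} (h1 : β + 1 ≤ v) (h2 : v ≤ β + s) (h3 : β + γ = v) :
    Fill s 1 β {v} γ := by
  have h4 : v - β = γ := by omega
  have h5 := Fill.cons h1 h2 (Fill.nil (v - β))
  rw [h4] at h5
  simpa using h5

theorem Fill.pair {s β u v γ : ℕ} (h1 : β + 1 ≤ u) (h2 : u ≤ β + s) (h3 : u + 1 ≤ v + β)
    (h4 : v + β ≤ u + s) (h5 : u + γ = v + β) : Fill s 2 β {u, v} γ := by
  have h6 : Fill s 1 (u - β) {v} γ := Fill.single (by omega) (by omega) (by omega)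
  have h7 := Fill.cons h1 h2 h6
  exact h7

theorem Fill.exists_seq {s n β γ : ℕ} {S : Finset ℕ} (h : Fill s n β S γ) :
    ∃ x : ℕ → ℕ, x 0 = β ∧ x n = γ ∧ (∀ i < n, 1 ≤ x (i + 1) ∧ x (i + 1) ≤ s) ∧
      S = (range n).image fun i => x i + x (i + 1) := by
  induction h with
  | nil β => exact ⟨fun _ => β, rfl, rfl, fun i hi => absurd hi (Nat.not_lt_zero i), rfl⟩
  | @cons n β v γ S h1 h2 _ ih =>
    obtain ⟨x, hx0, hxn, hx, hS⟩ := ih
    obtain ⟨x', k0, ks⟩ : ∃ x' : ℕ → ℕ, x' 0 = β ∧ ∀ i, x' (i + 1) = x i :=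
      ⟨fun i => Nat.casesOn i β x, rfl, fun _ => rfl⟩
    refine ⟨x', k0, ?_, ?_, ?_⟩
    · rw [ks]
      exact hxn
    · intro i hi
      rw [ks]
      rcases Nat.eq_zero_or_pos i with rfl | h3
      · rw [hx0]
        omega
      · have h4 := hx (i - 1) (by omega)
        rw [show i - 1 + 1 = i from by omega] at h4
        exact h4
    · ext z
      rw [mem_insert, hS, mem_image, mem_image]
      constructor
      · rintro (h3 | ⟨i, hi, h3⟩)
        · refine ⟨0, mem_range.2 (by omega), ?_⟩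
          rw [ks, k0, hx0]
          omega
        · refine ⟨i + 1, mem_range.2 (by have := mem_range.1 hi; omega), ?_⟩
          rw [ks, ks]
          exact h3
      · rintro ⟨i, hi, h3⟩
        rcases Nat.eq_zero_or_pos i with rfl | h4
        · left
          rw [ks, k0, hx0] at h3
          omega
        · right
          obtain ⟨j, rfl⟩ : ∃ j, i = j + 1 := ⟨i - 1, by omega⟩
          refine ⟨j, mem_range.2 (by have := mem_range.1 hi; omega), ?_⟩
          rw [ks, ks] at h3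
          exact h3

/-- the weights of a thread with distinct weighted degrees -/
theorem Fill.exists_inj {s n β γ : ℕ} {S : Finset ℕ} (h : Fill s n β S γ) (hc : #S = n) :
    ∃ x : ℕ → ℕ, x 0 = β ∧ x n = γ ∧
      (∀ i < n, 1 ≤ x (i + 1) ∧ x (i + 1) ≤ s ∧ x i + x (i + 1) ∈ S) ∧
      ∀ i < n, ∀ j < n, x i + x (i + 1) = x j + x (j + 1) → i = j := by
  obtain ⟨x, h1, h2, h3, h4⟩ := h.exists_seq
  refine ⟨x, h1, h2, fun i hi => ⟨(h3 i hi).1, (h3 i hi).2, ?_⟩, ?_⟩
  · rw [h4]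
    exact mem_image.2 ⟨i, mem_range.2 hi, rfl⟩
  · have h5 : #((range n).image fun i => x i + x (i + 1)) = #(range n) := by
      rw [← h4, hc, card_range]
    rw [card_image_iff] at h5
    intro i hi j hj hij
    exact h5 (by simpa using hi) (by simpa using hj) hij

/-- the union of the dominos `{st j, st j + 1}` -/
def dom (st : ℕ → ℕ) (C : Finset ℕ) : Finset ℕ := C.biUnion fun j => {st j, st j + 1}

theorem mem_dom {st : ℕ → ℕ} {C : Finset ℕ} {v : ℕ} :
    v ∈ dom st C ↔ ∃ j ∈ C, v = st j ∨ v = st j + 1 := by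
  simp [dom]

theorem dom_union (st : ℕ → ℕ) (C C' : Finset ℕ) : dom st (C ∪ C') = dom st C ∪ dom st C' := by
  ext v
  simp only [mem_dom, mem_union]
  constructor
  · rintro ⟨j, hj | hj, h⟩
    · exact Or.inl ⟨j, hj, h⟩
    · exact Or.inr ⟨j, hj, h⟩
  · rintro (⟨j, hj, h⟩ | ⟨j, hj, h⟩)
    · exact ⟨j, Or.inl hj, h⟩
    · exact ⟨j, Or.inr hj, h⟩

theorem dom_pair (st : ℕ → ℕ) (i j : ℕ) :
    dom st {i, j} = {st i, st i + 1, st j, st j + 1} := by
  ext v
  simp only [mem_dom, mem_insert, mem_singleton]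
  constructor
  · rintro ⟨k, rfl | rfl, h | h⟩ <;> simp [h]
  · rintro (h | h | h | h)
    · exact ⟨i, Or.inl rfl, Or.inl h⟩
    · exact ⟨i, Or.inl rfl, Or.inr h⟩
    · exact ⟨j, Or.inr rfl, Or.inl h⟩
    · exact ⟨j, Or.inr rfl, Or.inr h⟩

theorem disjoint_dom {st : ℕ → ℕ} (hst : ∀ i j, i < j → st i + 2 ≤ st j) {C C' : Finset ℕ}
    (h : Disjoint C C') : Disjoint (dom st C) (dom st C') := by
  rw [disjoint_left] at h ⊢
  intro v hv hv'
  rw [mem_dom] at hv hv'
  obtain ⟨i, hi, h1⟩ := hv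
  obtain ⟨j, hj, h2⟩ := hv'
  rcases lt_trichotomy i j with h3 | rfl | h3
  · have := hst i j h3
    omega
  · exact h hi hj
  · have := hst j i h3
    omega

theorem card_dom {st : ℕ → ℕ} (hst : ∀ i j, i < j → st i + 2 ≤ st j) (C : Finset ℕ) :
    #(dom st C) = 2 * #C := by
  rw [dom, card_biUnion]
  · rw [sum_congr rfl (fun j _ => card_pair (show st j ≠ st j + 1 by omega)), sum_const,
      smul_eq_mul, mul_comm]
  · intro i _ j _ hij
    rw [Function.onFun, disjoint_left]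
    intro v hv hv'
    rw [mem_insert, mem_singleton] at hv hv'
    rcases lt_or_gt_of_ne hij with h3 | h3
    · have := hst i j h3
      omega
    · have := hst j i h3
      omega

/-- alternating dominos -/
theorem fill_alt (st : ℕ → ℕ) {s w : ℕ} (hw : 2 ≤ w) (hws : w ≤ s) (C : Finset ℕ)
    (h : ∀ j ∈ C, w ≤ st j ∧ st j + 1 ≤ w + s) :
    Fill s (2 * #C) w (dom st C) (w - #C % 2) ∧
      Fill s (2 * #C) (w - 1) (dom st C) (w - 1 + #C % 2) := by
  induction C using Finset.induction_on with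
  | empty =>
    constructor
    · exact Fill.nil w
    · exact Fill.nil (w - 1)
  | @insert j C hj ih =>
    obtain ⟨ih1, ih2⟩ := ih fun i hi => h i (mem_insert_of_mem hi)
    have h1 := h j (mem_insert_self _ _)
    rw [card_insert_of_notMem hj]
    have h2 : dom st (insert j C) = {st j + 1, st j} ∪ dom st C := by
      ext v
      simp only [mem_dom, mem_union, mem_insert, mem_singleton]
      constructor
      · rintro ⟨i, rfl | hi, h3⟩
        · tauto
        · exact Or.inr ⟨i, hi, h3⟩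
      · rintro ((h3 | h3) | ⟨i, hi, h3⟩)
        · exact ⟨j, Or.inl rfl, Or.inr h3⟩
        · exact ⟨j, Or.inl rfl, Or.inl h3⟩
        · exact ⟨i, Or.inr hi, h3⟩
    have h3 : ({st j, st j + 1} : Finset ℕ) = {st j + 1, st j} := pair_comm _ _
    constructor
    · rw [h2, show 2 * (#C + 1) = 2 + 2 * #C by ring,
        show w - (#C + 1) % 2 = w - 1 + #C % 2 by omega]
      exact (Fill.pair (by omega) (by omega) (by omega) (by omega) (by omega)).append ih2
    · rw [h2, ← h3, show 2 * (#C + 1) = 2 + 2 * #C by ring,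
        show w - 1 + (#C + 1) % 2 = w - #C % 2 by omega]
      exact (Fill.pair (by omega) (by omega) (by omega) (by omega) (by omega)).append ih1

/-- the first middle value is `f + 1` -/
def dn1 (s p β : ℕ) : Prop := p % 2 = 1 ∨ (s - β) % 2 = 0

instance (s p β : ℕ) : Decidable (dn1 s p β) := by
  unfold dn1
  infer_instance

/-- the small weight after the first middle value -/
def xw (s p β f : ℕ) : ℕ := if dn1 s p β then f + 1 - β else f - β

/-- the difference for the small values -/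
def dl (s p β f : ℕ) : ℕ := 2 * ((xw s p β f - 1) / 2)

/-- the large weight after the second middle value -/
def bw (s p β : ℕ) : ℕ := if dn1 s p β then β - 1 else β + 1

/-- the difference for the large values -/
def dh (s p β : ℕ) : ℕ := 2 * ((s - bw s p β) / 2)

/-- a long thread -/
theorem fill_long {s p β f y Y nO nL nH c : ℕ} {SO SL SH : Finset ℕ} (hβ : 3 ≤ β)
    (hβs : β + 4 ≤ s)
    (hO : Fill s nO β SO β) (hL1 : Fill s nL 1 SL 1) (hL2 : Fill s nL 2 SL 2)
    (hH1 : Fill s nH s SH (s - c)) (hH2 : Fill s nH (s - 1) SH (s - 1 + c)) (hc : c + p % 2 = 1)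
    (hf1 : β + 3 ≤ f) (hf2 : f + 1 ≤ β + s) (hy1 : 3 ≤ y) (hy2 : y + dl s p β f + 1 ≤ s)
    (hY1 : β + 2 ≤ Y) (hY2 : Y + 3 ≤ β + s) :
    Fill s (nO + nL + nH + 10) β
      (SO ∪ SL ∪ SH ∪ {f, f + 1} ∪ {y, y + 1, y + dl s p β f, y + dl s p β f + 1} ∪
        {Y, Y + 1, Y + dh s p β, Y + dh s p β + 1}) (β - p % 2) := by
  obtain ⟨x, hx⟩ : ∃ x, x = xw s p β f := ⟨_, rfl⟩
  obtain ⟨δ, hδ⟩ : ∃ δ, δ = dl s p β f := ⟨_, rfl⟩
  obtain ⟨γ, hγ⟩ : ∃ γ, γ = bw s p β := ⟨_, rfl⟩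
  obtain ⟨Δ, hΔ⟩ : ∃ Δ, Δ = dh s p β := ⟨_, rfl⟩
  have hδ' : δ = 2 * ((x - 1) / 2) := by rw [hδ, dl, hx]
  have hΔ' : Δ = 2 * ((s - γ) / 2) := by rw [hΔ, dh, hγ]
  rw [← hδ] at hy2 ⊢
  rw [← hΔ]
  obtain ⟨f₁, f₂, g1, g2, g3, g4⟩ : ∃ f₁ f₂, ((f₁ = f ∧ f₂ = f + 1) ∨ (f₁ = f + 1 ∧ f₂ = f)) ∧
      x + β = f₁ ∧ γ + x = f₂ ∧
      ((p % 2 = 1 ∧ γ + 1 = β) ∨ (p % 2 = 0 ∧ γ + 1 = β ∧ (s - β) % 2 = 0) ∨
        (p % 2 = 0 ∧ γ = β + 1 ∧ (s - β) % 2 = 1)) := by
    by_cases hd : dn1 s p β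
    · have h1 : x = f + 1 - β := by rw [hx, xw, if_pos hd]
      have h2 : γ = β - 1 := by rw [hγ, bw, if_pos hd]
      refine ⟨f + 1, f, Or.inr ⟨rfl, rfl⟩, by omega, by omega, ?_⟩
      rw [dn1] at hd
      omega
    · have h1 : x = f - β := by rw [hx, xw, if_neg hd]
      have h2 : γ = β + 1 := by rw [hγ, bw, if_neg hd]
      refine ⟨f, f + 1, Or.inl ⟨rfl, rfl⟩, by omega, by omega, ?_⟩
      rw [dn1] at hd
      omega
  have k1 : Fill s 1 β {f₁} x := Fill.single (by omega) (by omega) (by omega)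
  obtain ⟨ξ, hξ1, hξ2⟩ : ∃ ξ, (ξ = 1 ∨ ξ = 2) ∧ ξ + δ = x := ⟨x - δ, by omega, by omega⟩
  have k2 : Fill s 2 x {y + δ, y} ξ :=
    Fill.pair (by omega) (by omega) (by omega) (by omega) (by omega)
  have k3 : Fill s nL ξ SL ξ := by
    rcases hξ1 with h | h
    · rw [h]
      exact hL1
    · rw [h]
      exact hL2
  have k4 : Fill s 2 ξ {y + 1, y + δ + 1} x :=
    Fill.pair (by omega) (by omega) (by omega) (by omega) (by omega)
  have k5 : Fill s 1 x {f₂} γ := Fill.single (by omega) (by omega) (by omega)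
  obtain ⟨η, η', hη1, hη2, hη3, hη4, k7, hη5⟩ : ∃ η η', γ + Δ = η ∧ η ≤ s ∧ η' ≤ s ∧
      s ≤ η' + 1 ∧ Fill s nH η SH η' ∧ Δ + (β - p % 2) = η' := by
    rcases (show γ + Δ = s ∨ γ + Δ = s - 1 by omega) with h | h
    · exact ⟨s, s - c, h, le_rfl, by omega, by omega, hH1, by omega⟩
    · exact ⟨s - 1, s - 1 + c, h, by omega, by omega, by omega, hH2, by omega⟩
  have k6 : Fill s 2 γ {Y, Y + Δ} η :=
    Fill.pair (by omega) (by omega) (by omega) (by omega) (by omega)
  have k8 : Fill s 2 η' {Y + Δ + 1, Y + 1} (β - p % 2) :=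
    Fill.pair (by omega) (by omega) (by omega) (by omega) (by omega)
  have k := (((((((hO.append k1).append k2).append k3).append k4).append k5).append k6).append
    k7).append k8
  have e1 : nO + 1 + 2 + nL + 2 + 1 + 2 + nH + 2 = nO + nL + nH + 10 := by ring
  rw [e1] at k
  have e2 : SO ∪ {f₁} ∪ {y + δ, y} ∪ SL ∪ {y + 1, y + δ + 1} ∪ {f₂} ∪ {Y, Y + Δ} ∪ SH ∪
      {Y + Δ + 1, Y + 1} = SO ∪ SL ∪ SH ∪ {f, f + 1} ∪ {y, y + 1, y + δ, y + δ + 1} ∪
        {Y, Y + 1, Y + Δ, Y + Δ + 1} := by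
    have e3 : ({f, f + 1} : Finset ℕ) = {f₁} ∪ {f₂} := by
      rcases g1 with ⟨h1, h2⟩ | ⟨h1, h2⟩
      · rw [h1, h2]
        rfl
      · rw [h1, h2, union_comm]
        rfl
    rw [e3]
    simp only [insert_eq]
    ac_rfl
  rw [e2] at k
  exact k

end Pool.Agent.H.MP_936c16_co
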