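import Pool.Agent.H.MP_936c16_co.Num3

/-!
The lowest part of the special thread, and the thread which starts with the weight `s`.
-/

set_option autoImplicit false

namespace Pool.Agent.H.MP_936c16_co

open Finset

/-- the broken domino -/
def brk (s a : ℕ) : Finset ℕ := if qd s a = 1 then {s - 1, s + 1} else ∅

namespace Qun

variable {s a k t n S SP : ℕ} (h : Qun s a k t n S SP)

include h

/-- the lowest part of the special thread -/
theorem fill_first {β σ : ℕ} {O : Finset ℕ} (h1 : qR s a ≤ β + 2 * a + 2)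
    (h2 : β + 2 * σ ≤ qR s a) (hσ : σ ≤ 1) (hO : #O = 4) (hOS : ∀ j ∈ O, j < S) :
    Fill s (8 + 2 * qd s a) (β + 2 * σ) (dom (qv s a k t) O ∪ brk s a) β := by
  have k1 := h.s_eq
  have k2 := h.s_ge
  have k3 := h.ha
  have k4 := h.hk
  have k5 := h.hn
  have k6 := h.hS
  have hv : ∀ j ∈ O, β + 2 * σ + 1 ≤ qv s a k t j ∧ qv s a k t j + 3 ≤ β + s := by
    intro j hj
    have := h.v_small (j := j) (by have := hOS j hj; omega) h1
    have := h.v_ge j
    omega
  obtain ⟨A, hAO, hA⟩ := exists_subset_card_eq (s := O) (n := 2) (by omega)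
  have hB : #(O \ A) = 2 := by
    rw [card_sdiff_of_subset hAO]
    omega
  have hAB : O = A ∪ O \ A := (union_sdiff_of_subset hAO).symm
  have hvA : ∀ j ∈ A, β + 2 * σ + 1 ≤ qv s a k t j ∧ qv s a k t j + 3 ≤ β + s :=
    fun j hj => hv j (hAO hj)
  have hvB : ∀ j ∈ O \ A, β + 2 * σ + 1 ≤ qv s a k t j ∧ qv s a k t j + 3 ≤ β + s :=
    fun j hj => hv j (mem_sdiff.1 hj).1
  have fO : Fill s (2 * #O) β (dom (qv s a k t) O) (β - #O % 2) :=
    (fill_alt (qv s a k t) (s := s) (w := β) (by omega) (by omega) O (fun j hj => by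
      have := hv j hj
      omega)).1
  have fB : Fill s (2 * #(O \ A)) β (dom (qv s a k t) (O \ A)) (β - #(O \ A) % 2) :=
    (fill_alt (qv s a k t) (s := s) (w := β) (by omega) (by omega) (O \ A) (fun j hj => by
      have := hvB j hj
      omega)).1
  rw [hO] at fO
  rw [hB] at fB
  have fP : qd s a = 1 → Fill s 2 (β + 2) {s + 1, s - 1} β := fun _ =>
    Fill.pair (by omega) (by omega) (by omega) (by omega) (by omega)
  rcases (show qd s a = 0 ∨ qd s a = 1 by omega) with hd | hd
  · have hb : brk s a = ∅ := by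
      rw [brk, if_neg (by omega)]
    rw [hb, union_empty, hd]
    rcases (show σ = 0 ∨ σ = 1 by omega) with h0 | h0
    · rw [h0]
      exact fO
    · rw [h0]
      have fA := fill_down (qv s a k t) (s := s) A (β + 2) (by omega) (by omega) (fun j hj => by
        have := hvA j hj
        omega)
      rw [hA] at fA
      have c := fA.append fB
      rw [← dom_union, ← hAB] at c
      exact c
  · have hb : brk s a = {s + 1, s - 1} := by
      rw [brk, if_pos hd, pair_comm]
    rw [hb, hd]
    rcases (show σ = 0 ∨ σ = 1 by omega) with h0 | h0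
    · rw [h0] at hvA ⊢
      obtain ⟨i, j, hlt, hij⟩ : ∃ i j, i < j ∧ A = {i, j} := by
        obtain ⟨i, j, hne, hij⟩ := card_eq_two.1 hA
        rcases lt_or_gt_of_ne hne with h3 | h3
        · exact ⟨i, j, h3, hij⟩
        · exact ⟨j, i, h3, by rw [hij, pair_comm]⟩
      have hvi := hvA i (by rw [hij]; exact mem_insert_self _ _)
      have hvj := hvA j (by rw [hij]; exact mem_insert_of_mem (mem_singleton_self _))
      have f1 : Fill s 2 β {qv s a k t i, qv s a k t i + 1} (β + 1) :=
        Fill.pair (by omega) (by omega) (by omega) (by omega) (by omega)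
      have hge := h.v_ge j
      have f2 : Fill s 2 (β + 1) {qv s a k t j, qv s a k t j + 1} (β + 2) :=
        Fill.pair (by omega) (by omega) (by omega) (by omega) (by omega)
      have c := ((f1.append f2).append (fP hd)).append fB
      have e : dom (qv s a k t) O ∪ {s + 1, s - 1} =
          {qv s a k t i, qv s a k t i + 1} ∪ {qv s a k t j, qv s a k t j + 1} ∪
            {s + 1, s - 1} ∪ dom (qv s a k t) (O \ A) := by
        have e1 : dom (qv s a k t) A =
            {qv s a k t i, qv s a k t i + 1} ∪ {qv s a k t j, qv s a k t j + 1} := by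
          rw [hij, dom_pair]
          simp only [insert_eq]
          ac_rfl
        rw [hAB, dom_union, ← hAB, e1]
        ac_rfl
      rw [e]
      exact c
    · rw [h0]
      have c := (fP hd).append fO
      rw [union_comm]
      exact c

/-- the thread which starts with the weight `s`, short -/
theorem fill_q_short {p : ℕ} {O : Finset ℕ} (hO : #O = p)
    (hOS : ∀ j ∈ O, 3 ≤ j ∧ (j < S ∨ j < SP - 2 * qM s a - k)) :
    Fill s (2 * p) s (dom (qv s a k t) O) (s - p % 2) := by
  have k1 := h.s_eq
  have k2 := h.s_ge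
  have k3 := h.ha
  have k4 := h.hk
  have k5 := h.hn
  have k6 := h.hS
  have c1 := (fill_alt (qv s a k t) (s := s) (w := s) (by omega) (by omega) O (fun j hj => by
    obtain ⟨h1, h2⟩ := hOS j hj
    have h3 := h.v_big (j := j) (by omega)
    rcases h2 with h2 | h2
    · have := h.v_small (j := j) (β := qR s a) (by omega) (by omega)
      omega
    · have := h.v_top h2
      omega)).1
  rw [hO] at c1
  exact c1

/-- the thread which starts with the weight `s`, long -/
theorem fill_q_long {p m : ℕ} {C L : Finset ℕ} (hm : 1 ≤ m) (hp : 2 * m + 1 ≤ p)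
    (hC : #C = p - 1 - 2 * m) (hCS : ∀ j ∈ C, 3 ≤ j ∧ (j < 13 * a ∨ j < SP - 2 * qM s a - k))
    (hL : #L = 2 * m) (hLS : ∀ j ∈ L, 1 ≤ j ∧ j < 2 * qM s a) :
    Fill s (2 * p) s (dom (qv s a k t) C ∪ dom ld L ∪ {s + 1 + qd s a, s + 2 + qd s a})
      (s - p % 2) := by
  have k1 := h.s_eq
  have k2 := h.s_ge
  have k3 := h.ha
  have k4 := h.hk
  have k5 := h.hn
  have k6 := h.hS
  have k9 := h.J_ge
  have c1 : Fill s 1 s {s + 2 + qd s a} (2 + qd s a) :=
    Fill.single (by omega) (by omega) (by omega)
  have c2 := (fill_alt ld (s := s) (w := 2 + qd s a) (by omega) (by omega) L (fun j hj => by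
    have h3 := hLS j hj
    have h4 := h.ld_top h3.2
    have e3 : ld j = 2 + 2 * j := rfl
    omega)).1
  have c3 : Fill s 1 (2 + qd s a - #L % 2) {s + 1 + qd s a} (s - 1) :=
    Fill.single (by omega) (by omega) (by omega)
  have c4 := (fill_alt (qv s a k t) (s := s) (w := s) (by omega) (by omega) C (fun j hj => by
    obtain ⟨h1, h2⟩ := hCS j hj
    have h3 := h.v_big (j := j) (by omega)
    rcases h2 with h2 | h2
    · have := h.v_eq (j := j) (by omega) (by omega)
      omega
    · have := h.v_top h2
      omega)).2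
  have c := ((c1.append c2).append c3).append c4
  have e1 : 1 + 2 * #L + 1 + 2 * #C = 2 * p := by omega
  have e2 : s - 1 + #C % 2 = s - p % 2 := by omega
  rw [e1, e2] at c
  have e3 : dom (qv s a k t) C ∪ dom ld L ∪ {s + 1 + qd s a, s + 2 + qd s a} =
      {s + 2 + qd s a} ∪ dom ld L ∪ {s + 1 + qd s a} ∪ dom (qv s a k t) C := by
    simp only [insert_eq]
    ac_rfl
  rw [e3]
  exact c

end Qun

end Pool.Agent.H.MP_936c16_co
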