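import Pool.Agent.H.MP_936c16_co.Root2

/-!
From trees (as graphs) to rooted trees.
-/

set_option autoImplicit false

namespace Pool.Agent.H.MP_936c16_co

open Finset

variable {V : Type} [Fintype V] [DecidableEq V] {G : SimpleGraph V} [DecidableRel G.Adj]

/-- existence of the parent -/
theorem exists_par (hG : G.IsTree) (r v : V) (h : v ≠ r) :
    ∃ u, G.Adj v u ∧ G.dist r u < G.dist r v := by
  obtain ⟨p, hp⟩ := hG.connected.exists_walk_length_eq_dist v r
  cases p with
  | nil => exact absurd rfl h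
  | cons hadj q =>
    refine ⟨_, hadj, ?_⟩
    have h1 := SimpleGraph.dist_le q
    rw [SimpleGraph.Walk.length_cons] at hp
    rw [SimpleGraph.dist_comm, SimpleGraph.dist_comm (u := r)]
    omega

/-- the path through a neighbour closer to the root -/
theorem exists_path (hG : G.IsTree) (r : V) {v u : V} (h : G.Adj v u)
    (hd : G.dist r u < G.dist r v) : ∃ q : G.Walk r v, q.IsPath ∧ q.penultimate = u := by
  obtain ⟨p, hp, hpl⟩ := hG.connected.exists_path_of_dist r u
  have hv : v ∉ p.support := by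
    intro hv
    have h1 := SimpleGraph.dist_le (p.takeUntil v hv)
    have h2 := p.length_takeUntil_le_length hv
    omega
  refine ⟨p.concat h.symm, hp.concat hv h.symm, ?_⟩
  exact SimpleGraph.Walk.penultimate_concat _ _

/-- uniqueness of the parent -/
theorem par_unique (hG : G.IsTree) (r : V) {v u u' : V} (h : G.Adj v u) (h' : G.Adj v u')
    (hd : G.dist r u < G.dist r v) (hd' : G.dist r u' < G.dist r v) : u = u' := by
  obtain ⟨q, hq, hqu⟩ := exists_path hG r h hd
  obtain ⟨q', hq', hqu'⟩ := exists_path hG r h' hd'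
  have h1 := hG.isAcyclic.path_unique ⟨q, hq⟩ ⟨q', hq'⟩
  have h2 : q = q' := congrArg Subtype.val h1
  rw [← hqu, ← hqu', h2]

/-- the rooted tree -/
noncomputable def rt (hG : G.IsTree) (r : V) : RT V where
  r := r
  par v := if h : v = r then r else (exists_par hG r v h).choose
  ht v := G.dist r v
  lt v h := by
    rw [dif_neg h]
    exact (exists_par hG r v h).choose_spec.2

theorem adj_par (hG : G.IsTree) {r v : V} (h : v ≠ r) : G.Adj v ((rt hG r).par v) := by
  have h1 : (rt hG r).par v = (exists_par hG r v h).choose := dif_neg h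
  rw [h1]
  exact (exists_par hG r v h).choose_spec.1

theorem dist_par (hG : G.IsTree) {r v : V} (h : v ≠ r) :
    G.dist r ((rt hG r).par v) < G.dist r v :=
  (rt hG r).lt v h

theorem mem_ch' (hG : G.IsTree) {r u v : V} :
    u ∈ (rt hG r).ch v ↔ G.Adj v u ∧ G.dist r v < G.dist r u := by
  rw [RT.mem_ch]
  constructor
  · rintro ⟨h1, h2⟩
    have h1' : u ≠ r := h1
    have h3 := adj_par hG h1'
    have h4 := dist_par hG h1'
    rw [h2] at h3 h4
    exact ⟨h3.symm, h4⟩
  · rintro ⟨h1, h2⟩
    have h3 : u ≠ r := by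
      rintro rfl
      rw [SimpleGraph.dist_self] at h2
      omega
    exact ⟨h3, par_unique hG r (adj_par hG h3) h1.symm (dist_par hG h3) h2⟩

theorem nbr_root (hG : G.IsTree) (r : V) : G.neighborFinset r = (rt hG r).ch r := by
  ext u
  rw [SimpleGraph.mem_neighborFinset, mem_ch', SimpleGraph.dist_self]
  constructor
  · intro h
    exact ⟨h, hG.connected.pos_dist_of_ne h.ne⟩
  · exact fun h => h.1

theorem par_notMem (hG : G.IsTree) {r v : V} (h : v ≠ r) :
    (rt hG r).par v ∉ (rt hG r).ch v := by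
  rw [mem_ch']
  rintro ⟨-, h1⟩
  have := dist_par hG h
  omega

theorem nbr_of_ne (hG : G.IsTree) {r v : V} (h : v ≠ r) :
    G.neighborFinset v = insert ((rt hG r).par v) ((rt hG r).ch v) := by
  ext u
  rw [SimpleGraph.mem_neighborFinset, mem_insert, mem_ch']
  constructor
  · intro h1
    rcases lt_or_gt_of_ne (hG.dist_ne_of_adj r h1) with h2 | h2
    · exact Or.inr ⟨h1, h2⟩
    · exact Or.inl (par_unique hG r h1 (adj_par hG h) h2 (dist_par hG h))
  · rintro (rfl | h1)
    · exact adj_par hG h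
    · exact h1.1

theorem degree_root (hG : G.IsTree) (r : V) : G.degree r = #((rt hG r).ch r) := by
  rw [← SimpleGraph.card_neighborFinset_eq_degree, nbr_root hG]

theorem degree_of_ne (hG : G.IsTree) {r v : V} (h : v ≠ r) :
    G.degree v = #((rt hG r).ch v) + 1 := by
  rw [← SimpleGraph.card_neighborFinset_eq_degree, nbr_of_ne hG h,
    card_insert_of_notMem (par_notMem hG h)]

/-- the choice of the root -/
theorem choose_root (hG : G.IsTree) (h3 : 3 ≤ Fintype.card V) :
    ∃ u p, 2 ≤ G.degree u ∧ G.Adj u p ∧ ∀ z, G.Adj u z → z ≠ p → G.degree z = 1 := by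
  obtain ⟨x, hx⟩ : ∃ x, 2 ≤ G.degree x := by
    by_contra hcon
    push Not at hcon
    have h1 := G.sum_degrees_eq_twice_card_edges
    have h2 := hG.card_edgeFinset
    have h4 : ∑ v, G.degree v ≤ ∑ _v : V, 1 := sum_le_sum fun v _ => by
      have := hcon v
      omega
    rw [sum_const, smul_eq_mul, mul_one, card_univ] at h4
    omega
  obtain ⟨y, -, hy⟩ := exists_max_image univ (fun v => G.dist x v) ⟨x, mem_univ x⟩
  have hyx : y ≠ x := by
    rintro rfl
    obtain ⟨z, hz⟩ : (G.neighborFinset y).Nonempty := by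
      rw [← card_pos, SimpleGraph.card_neighborFinset_eq_degree]
      omega
    rw [SimpleGraph.mem_neighborFinset] at hz
    have h1 := hy z (mem_univ z)
    rw [SimpleGraph.dist_self] at h1
    have h2 := hG.connected.pos_dist_of_ne hz.ne
    omega
  obtain ⟨u, hu⟩ : ∃ u, u = (rt hG x).par y := ⟨_, rfl⟩
  have hyu : y ∈ (rt hG x).ch u := (RT.mem_ch _).2 ⟨hyx, hu.symm⟩
  have hyu' := (mem_ch' hG).1 hyu
  have hleaf : ∀ z, z ∈ (rt hG x).ch u → G.degree z = 1 := by
    intro z hz
    rw [mem_ch'] at hz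
    have hzx : z ≠ x := by
      rintro rfl
      rw [SimpleGraph.dist_self] at hz
      omega
    have h1 : (rt hG x).ch z = ∅ := by
      rw [eq_empty_iff_forall_notMem]
      intro t ht
      rw [mem_ch'] at ht
      have h2 := hy t (mem_univ t)
      rcases hG.dist_eq_dist_add_one_of_adj x hyu'.1 with h4 | h4
      · omega
      · omega
    rw [degree_of_ne hG hzx, h1, card_empty]
  by_cases hux : u = x
  · refine ⟨u, y, ?_, hyu'.1, ?_⟩
    · rw [hux]
      exact hx
    · intro z hz _
      refine hleaf z ?_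
      rw [hux, ← nbr_root hG, SimpleGraph.mem_neighborFinset, ← hux]
      exact hz
  · refine ⟨u, (rt hG x).par u, ?_, adj_par hG hux, ?_⟩
    · rw [degree_of_ne hG hux]
      have := card_pos.2 ⟨y, hyu⟩
      omega
    · intro z hz hzp
      refine hleaf z ?_
      rw [← SimpleGraph.mem_neighborFinset, nbr_of_ne hG hux, mem_insert] at hz
      exact hz.resolve_left hzp

/-- number of vertices of degree `k` -/
def cnt (G : SimpleGraph V) [DecidableRel G.Adj] (k : ℕ) : ℕ :=
  #(univ.filter fun v => G.degree v = k)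

/-- The rooted tree is a star or the root stage applies. -/
theorem exists_e (hG : G.IsTree) (h3 : 3 ≤ Fintype.card V) {x g : ℕ}
    (hn : cnt G 1 ≤ (g + 1) * x + 1) (hn2 : cnt G 2 ≤ x + 2) : ∃ (r : V) (e : V → ℕ), e r = 0 ∧
      (∀ v, v ≠ r → 1 ≤ e v ∧ e v ≤ cnt G 1 + x + g) ∧ Function.Injective ((rt hG r).w e) := by
  obtain ⟨r, p, h1, h2, h4⟩ := choose_root hG h3
  have hL : #(rt hG r).L = cnt G 1 := by
    rw [cnt]
    congr 1
    ext v
    rw [RT.mem_L, mem_filter]
    by_cases hv : v = r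
    · rw [hv]
      constructor
      · rintro ⟨h5, -⟩
        exact absurd rfl h5
      · rintro ⟨-, h5⟩
        omega
    · rw [degree_of_ne hG hv]
      constructor
      · rintro ⟨-, h5⟩
        refine ⟨mem_univ _, ?_⟩
        rw [h5, card_empty]
      · rintro ⟨-, h5⟩
        refine ⟨hv, ?_⟩
        rw [← card_eq_zero]
        omega
  have hD : #(rt hG r).D ≤ cnt G 2 := by
    refine card_le_card fun v hv => ?_
    rw [RT.mem_D] at hv
    rw [mem_filter]
    refine ⟨mem_univ _, ?_⟩
    have hvr : v ≠ r := hv.1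
    rw [degree_of_ne hG hvr, hv.2]
  have hD' : #((rt hG r).ch r) = 2 → #(rt hG r).D + 1 ≤ cnt G 2 := by
    intro h5
    have h6 : r ∉ (rt hG r).D := by
      rw [RT.mem_D]
      rintro ⟨h7, -⟩
      exact h7 rfl
    rw [← card_insert_of_notMem h6]
    refine card_le_card fun v hv => ?_
    rw [mem_insert] at hv
    rw [mem_filter]
    refine ⟨mem_univ _, ?_⟩
    rcases hv with hv | hv
    · rw [hv, degree_root hG, h5]
    · rw [RT.mem_D] at hv
      have hvr : v ≠ r := hv.1
      rw [degree_of_ne hG hvr, hv.2]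
  have hch : ∀ v ∈ (rt hG r).ch r, v ≠ p → (rt hG r).ch v = ∅ := by
    intro v hv hvp
    have hv' := (RT.mem_ch _).1 hv
    rw [← nbr_root hG, SimpleGraph.mem_neighborFinset] at hv
    have h5 := h4 v hv hvp
    have hvr : v ≠ r := hv'.1
    rw [degree_of_ne hG hvr] at h5
    rw [← card_eq_zero]
    omega
  have hr : 2 ≤ #((rt hG r).ch r) := by
    rw [← degree_root hG]
    exact h1
  have hp : p ∈ (rt hG r).ch r := by
    rw [← nbr_root hG, SimpleGraph.mem_neighborFinset]
    exact h2
  by_cases hpI : (rt hG r).ch p = ∅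
  · obtain ⟨e, he⟩ := (rt hG r).star hr (by
      rw [eq_empty_iff_forall_notMem]
      have key : ∀ k v, (rt hG r).ht v ≤ k → v ∉ (rt hG r).I := by
        intro k
        induction k with
        | zero =>
          intro v hv hvI
          have h5 := (rt hG r).lt v ((rt hG r).mem_I.1 hvI).1
          omega
        | succ k ih =>
          intro v hv hvI
          have h6 := (rt hG r).mem_I.1 hvI
          have h5 := (rt hG r).lt v h6.1
          refine ih ((rt hG r).par v) (by omega) ?_
          rw [RT.mem_I]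
          refine ⟨fun h7 => ?_, ?_⟩
          · have h8 : v ∈ (rt hG r).ch r := (RT.mem_ch _).2 ⟨h6.1, h7⟩
            by_cases h9 : v = p
            · rw [h9] at h6
              exact h6.2 hpI
            · exact h6.2 (hch v h8 h9)
          · rw [← nonempty_iff_ne_empty]
            exact ⟨v, (RT.mem_ch _).2 ⟨h6.1, rfl⟩⟩
      intro v
      exact key _ v le_rfl) (M := cnt G 1 + x + g) (by omega)
    exact ⟨r, e, he⟩
  · obtain ⟨e, he⟩ := (rt hG r).root_stage2 hp hpI hch hr (M := cnt G 1 + x + g) rfl hL hn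
      (by omega) (fun h5 => by
        have := hD' h5
        omega)
    exact ⟨r, e, he⟩

/-- The weighting of a tree. -/
theorem exists_weighting (hG : G.IsTree) (h3 : 3 ≤ Fintype.card V) {x g : ℕ}
    (hn : cnt G 1 ≤ (g + 1) * x + 1) (hn2 : cnt G 2 ≤ x + 2) :
    ∃ w : V → V → ℕ, (∀ u v : V, G.Adj u v → 1 ≤ w u v ∧ w u v ≤ cnt G 1 + x + g ∧
      w u v = w v u) ∧ Function.Injective (fun v : V => ∑ u ∈ G.neighborFinset v, w v u) := by
  obtain ⟨r, e, he0, he, hinj⟩ := exists_e hG h3 hn hn2
  have hor : ∀ u v, G.Adj u v → (u ≠ r ∧ (rt hG r).par u = v ∧ ¬ (v ≠ r ∧ (rt hG r).par v = u)) ∨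
      (v ≠ r ∧ (rt hG r).par v = u ∧ ¬ (u ≠ r ∧ (rt hG r).par u = v)) := by
    intro u v huv
    have key : ∀ x y, G.Adj x y → G.dist r y < G.dist r x →
        (x ≠ r ∧ (rt hG r).par x = y ∧ ¬ (y ≠ r ∧ (rt hG r).par y = x)) := by
      intro x y hxy hd
      have h1 : x ∈ (rt hG r).ch y := (mem_ch' hG).2 ⟨hxy.symm, hd⟩
      have h2 := (RT.mem_ch _).1 h1
      refine ⟨h2.1, h2.2, ?_⟩
      rintro ⟨h4, h5⟩
      have h6 := dist_par hG h4
      rw [h5] at h6
      omega
    rcases lt_or_gt_of_ne (hG.dist_ne_of_adj r huv) with h | h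
    · exact Or.inr (key v u huv.symm h)
    · exact Or.inl (key u v huv h)
  obtain ⟨w, hw⟩ : ∃ w : V → V → ℕ,
      w = fun x y => if x ≠ r ∧ (rt hG r).par x = y then e x else e y := ⟨_, rfl⟩
  have hw1 : ∀ x y, x ≠ r → (rt hG r).par x = y → w x y = e x := by
    intro x y h1 h2
    rw [hw]
    exact if_pos ⟨h1, h2⟩
  have hw2 : ∀ x y, ¬ (x ≠ r ∧ (rt hG r).par x = y) → w x y = e y := by
    intro x y h1
    rw [hw]
    exact if_neg h1
  refine ⟨w, ?_, ?_⟩
  · intro u v huv
    rcases hor u v huv with ⟨h1, h2, h4⟩ | ⟨h1, h2, h4⟩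
    · rw [hw1 u v h1 h2, hw2 v u h4]
      exact ⟨(he u h1).1, (he u h1).2, rfl⟩
    · rw [hw1 v u h1 h2, hw2 u v h4]
      exact ⟨(he v h1).1, (he v h1).2, rfl⟩
  · have hsum : (fun v : V => ∑ u ∈ G.neighborFinset v, w v u) = (rt hG r).w e := by
      funext v
      have hch : ∑ u ∈ (rt hG r).ch v, w v u = (rt hG r).c e v := by
        refine sum_congr rfl fun u hu => ?_
        have hu' := (mem_ch' hG).1 hu
        have hu'' := (RT.mem_ch _).1 hu
        rcases hor v u hu'.1 with ⟨h1, h2, h4⟩ | ⟨h1, h2, h4⟩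
        · exact absurd hu'' h4
        · exact hw2 v u h4
      by_cases hv : v = r
      · rw [hv] at hch ⊢
        rw [nbr_root hG, hch, RT.w, he0, add_zero]
      · rw [nbr_of_ne hG hv, sum_insert (par_notMem hG hv), hch, hw1 v _ hv rfl, RT.w, add_comm]
    rw [hsum]
    exact hinj

end Pool.Agent.H.MP_936c16_co
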