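import Pool.Agent.H.MP_936c16_co.Win2
import Pool.Agent.H.MP_936c16_co.Tree2

/-!
From rooted trees to trees as graphs: a leaf is the root.
-/

set_option autoImplicit false

namespace Pool.Agent.H.MP_936c16_co

open Finset

variable {V : Type} [Fintype V] [DecidableEq V] {G : SimpleGraph V} [DecidableRel G.Adj]

/-- the weighting of the graph given by the weights in the rooted tree -/
theorem weighting_of_e (hG : G.IsTree) {r : V} {e : V → ℕ} {s : ℕ} (he0 : e r = 0)
    (he : ∀ v, v ≠ r → 1 ≤ e v ∧ e v ≤ s) (hinj : Function.Injective ((rt hG r).w e)) :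
    ∃ w : V → V → ℕ, (∀ u v : V, G.Adj u v → 1 ≤ w u v ∧ w u v ≤ s ∧ w u v = w v u) ∧
      Function.Injective (fun v : V => ∑ u ∈ G.neighborFinset v, w v u) := by
  have hor : ∀ u v, G.Adj u v → (u ≠ r ∧ (rt hG r).par u = v ∧ ¬ (v ≠ r ∧ (rt hG r).par v = u)) ∨
      (v ≠ r ∧ (rt hG r).par v = u ∧ ¬ (u ≠ r ∧ (rt hG r).par u = v)) := by
    intro u v huv
    have key : ∀ x y, G.Adj x y → G.dist r y < G.dist r x →
        (x ≠ r ∧ (rt hG r).par x = y ∧ ¬ (y ≠ r ∧ (rt hG r).par y = x)) := by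
      intro x y hxy hd
      have h1 : x ∈ (rt hG r).ch y := (mem_ch' hG).2 ⟨hxy.symm, hd⟩
      have h2 := (RT.mem_ch _).1 h1
      refine ⟨h2.1, h2.2, ?_⟩
      rintro ⟨h4, h5⟩
      have h6 := dist_par hG h4
      rw [h5] at h6
      omega
    rcases lt_or_gt_of_ne (hG.dist_ne_of_adj r huv) with h | h
    · exact Or.inr (key v u huv.symm h)
    · exact Or.inl (key u v huv h)
  obtain ⟨w, hw⟩ : ∃ w : V → V → ℕ,
      w = fun x y => if x ≠ r ∧ (rt hG r).par x = y then e x else e y := ⟨_, rfl⟩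
  have hw1 : ∀ x y, x ≠ r → (rt hG r).par x = y → w x y = e x := by
    intro x y h1 h2
    rw [hw]
    exact if_pos ⟨h1, h2⟩
  have hw2 : ∀ x y, ¬ (x ≠ r ∧ (rt hG r).par x = y) → w x y = e y := by
    intro x y h1
    rw [hw]
    exact if_neg h1
  refine ⟨w, ?_, ?_⟩
  · intro u v huv
    rcases hor u v huv with ⟨h1, h2, h4⟩ | ⟨h1, h2, h4⟩
    · rw [hw1 u v h1 h2, hw2 v u h4]
      exact ⟨(he u h1).1, (he u h1).2, rfl⟩
    · rw [hw1 v u h1 h2, hw2 u v h4]
      exact ⟨(he v h1).1, (he v h1).2, rfl⟩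
  · have hsum : (fun v : V => ∑ u ∈ G.neighborFinset v, w v u) = (rt hG r).w e := by
      funext v
      have hch : ∑ u ∈ (rt hG r).ch v, w v u = (rt hG r).c e v := by
        refine sum_congr rfl fun u hu => ?_
        have hu' := (mem_ch' hG).1 hu
        have hu'' := (RT.mem_ch _).1 hu
        rcases hor v u hu'.1 with ⟨h1, h2, h4⟩ | ⟨h1, h2, h4⟩
        · exact absurd hu'' h4
        · exact hw2 v u h4
      by_cases hv : v = r
      · rw [hv] at hch ⊢
        rw [nbr_root hG, hch, RT.w, he0, add_zero]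
      · rw [nbr_of_ne hG hv, sum_insert (par_notMem hG hv), hch, hw1 v _ hv rfl, RT.w, add_comm]
    rw [hsum]
    exact hinj

/-- a tree with at least three vertices has a leaf -/
theorem exists_leaf (hG : G.IsTree) (h3 : 3 ≤ Fintype.card V) : ∃ r, G.degree r = 1 := by
  obtain ⟨u, p, h1, -, h2⟩ := choose_root hG h3
  rw [← G.card_neighborFinset_eq_degree] at h1
  obtain ⟨z, hz, hzp⟩ := exists_mem_ne (s := G.neighborFinset u) (by omega) p
  rw [SimpleGraph.mem_neighborFinset] at hz
  exact ⟨z, h2 z hz hzp⟩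

/-- The weighting of a tree. -/
theorem exists_weighting' (hG : G.IsTree) (h3 : 3 ≤ Fintype.card V) {s : ℕ}
    (hs : cnt G 2 + 14 * cnt G 1 ≤ 2 * s + 16) :
    ∃ w : V → V → ℕ, (∀ u v : V, G.Adj u v → 1 ≤ w u v ∧ w u v ≤ s ∧ w u v = w v u) ∧
      Function.Injective (fun v : V => ∑ u ∈ G.neighborFinset v, w v u) := by
  obtain ⟨r, hr1⟩ := exists_leaf hG h3
  have hch : #((rt hG r).ch r) = 1 := by rw [← degree_root hG, hr1]
  obtain ⟨u₀, hu₀⟩ := card_eq_one.1 hch
  have hL : #(rt hG r).L + 1 = cnt G 1 := by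
    have h1 : r ∉ (rt hG r).L := fun h => ((rt hG r).mem_L.1 h).1 rfl
    rw [← card_insert_of_notMem h1, cnt]
    congr 1
    ext v
    rw [mem_insert, RT.mem_L, mem_filter]
    by_cases hv : v = r
    · rw [hv]
      exact ⟨fun _ => ⟨mem_univ r, hr1⟩, fun _ => Or.inl rfl⟩
    · rw [degree_of_ne hG hv]
      constructor
      · rintro (h5 | ⟨-, h5⟩)
        · exact absurd h5 hv
        · refine ⟨mem_univ _, ?_⟩
          rw [h5, card_empty]
      · rintro ⟨-, h5⟩
        refine Or.inr ⟨hv, ?_⟩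
        rw [← card_eq_zero]
        omega
  have hD : #(rt hG r).D = cnt G 2 := by
    rw [cnt]
    congr 1
    ext v
    rw [RT.mem_D, mem_filter]
    by_cases hv : v = r
    · rw [hv, hr1]
      constructor
      · rintro ⟨h5, -⟩
        exact absurd rfl h5
      · rintro ⟨-, h5⟩
        omega
    · rw [degree_of_ne hG hv]
      constructor
      · rintro ⟨-, h5⟩
        exact ⟨mem_univ _, by omega⟩
      · rintro ⟨-, h5⟩
        exact ⟨hv, by omega⟩
  have hu : u₀ ∉ (rt hG r).L := by
    intro hu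
    have h1 := ((rt hG r).mem_L.1 hu).2
    have key : ∀ k x, (rt hG r).ht x = k → x ≠ r → x = u₀ := by
      intro k
      induction k using Nat.strong_induction_on with
      | _ k ih =>
        intro x hx hxr
        have h2 := (rt hG r).lt x hxr
        by_cases h4 : (rt hG r).par x = r
        · have h5 : x ∈ (rt hG r).ch r := (RT.mem_ch _).2 ⟨hxr, h4⟩
          rw [hu₀] at h5
          exact mem_singleton.1 h5
        · exfalso
          have h5 := ih _ (by omega) _ rfl h4
          have h6 : x ∈ (rt hG r).ch u₀ := (RT.mem_ch _).2 ⟨hxr, h5⟩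
          rw [h1] at h6
          exact notMem_empty _ h6
    have h2 : (univ : Finset V) ⊆ {r, u₀} := by
      intro x _
      rw [mem_insert, mem_singleton]
      by_cases hx : x = r
      · exact Or.inl hx
      · exact Or.inr (key _ x rfl hx)
    have h4 := card_le_card h2
    rw [card_univ] at h4
    have h5 : #({r, u₀} : Finset V) ≤ 2 := card_le_two
    omega
  obtain ⟨e, he0, he, hinj⟩ := (rt hG r).exists_win (s := s) hu₀ hu (by omega)
  exact weighting_of_e hG he0 he hinj

end Pool.Agent.H.MP_936c16_co
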