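import Pool.Agent.H.MP_936c16_co.Exact
import Pool.Agent.H.MP_936c16_co.Grph

/-!
From rooted trees to trees as graphs: the root is a vertex of degree at least three to which a thread leads
from a leaf.
-/

set_option autoImplicit false

namespace Pool.Agent.H.MP_936c16_co

open Finset

variable {V : Type} [Fintype V] [DecidableEq V] {G : SimpleGraph V} [DecidableRel G.Adj]

/-- a tree with at least three leaves has a vertex of degree at least three -/
theorem exists_branch (hG : G.IsTree) (h3 : 3 ≤ cnt G 1) : ∃ r, 3 ≤ G.degree r := by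
  by_contra hcon
  push Not at hcon
  have h1 := G.sum_degrees_eq_twice_card_edges
  have h2 := hG.card_edgeFinset
  have h4 : ∑ v, (G.degree v + if G.degree v = 1 then 1 else 0) ≤ ∑ _v : V, 2 :=
    sum_le_sum fun v _ => by
      have := hcon v
      split_ifs <;> omega
  rw [sum_add_distrib, sum_const, smul_eq_mul, card_univ, ← card_filter] at h4
  rw [cnt] at h3
  omega

/-- the distance to the lower end of a thread -/
private theorem gr2_dist_bot (hG : G.IsTree) (r : V) : ∀ (n : ℕ) (v : V), (rt hG r).dn v = n →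
    G.dist ((rt hG r).bot v) v ≤ n ∧ G.dist r v + n ≤ G.dist r ((rt hG r).bot v) := by
  intro n
  induction n with
  | zero =>
    intro v hv
    rw [(rt hG r).bot_of_notMem ((rt hG r).notMem_of_dn hv), SimpleGraph.dist_self]
    exact ⟨le_rfl, le_rfl⟩
  | succ n ih =>
    intro v hv
    have h1 : v ∈ (rt hG r).D := (rt hG r).mem_of_dn_ne (by omega)
    have h2 := (rt hG r).dn_eq h1
    obtain ⟨h3, h4⟩ := ih ((rt hG r).chi v) (by omega)
    have h5 : G.Adj ((rt hG r).chi v) v := by
      have h6 := adj_par hG (r := r) ((rt hG r).chi_ne h1)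
      rwa [(rt hG r).par_chi h1] at h6
    have h6 : G.dist r v < G.dist r ((rt hG r).chi v) := (rt hG r).ht_chi h1
    have h7 := hG.connected.dist_triangle (u := (rt hG r).bot v) (v := (rt hG r).chi v) (w := v)
    rw [SimpleGraph.dist_eq_one_iff_adj.2 h5] at h7
    rw [(rt hG r).bot_eq h1] at h7 ⊢
    exact ⟨by omega, by omega⟩

/-- a thread leads from a leaf to a vertex of degree at least three -/
theorem exists_root (hG : G.IsTree) (h3 : 3 ≤ cnt G 1) :
    ∃ r, 3 ≤ G.degree r ∧ ∃ u ∈ (rt hG r).ch r, (rt hG r).bot u ∈ (rt hG r).L := by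
  obtain ⟨r₀, hr₀⟩ := exists_branch hG h3
  obtain ⟨y, hy⟩ : (univ.filter fun v => G.degree v = 1).Nonempty :=
    card_pos.1 (by rw [cnt] at h3; omega)
  rw [mem_filter] at hy
  obtain ⟨r, hr, hmin⟩ := exists_min_image (univ.filter fun v => 3 ≤ G.degree v)
    (fun v => G.dist y v) ⟨r₀, mem_filter.2 ⟨mem_univ _, hr₀⟩⟩
  rw [mem_filter] at hr
  have hyr : y ≠ r := by
    rintro rfl
    omega
  have hy0 : #((rt hG r).ch y) = 0 := by
    have h1 := degree_of_ne hG hyr
    omega
  have hyL : y ∈ (rt hG r).L := (RT.mem_L _).2 ⟨hyr, card_eq_zero.1 hy0⟩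
  have hyD : y ∉ (rt hG r).D := by
    intro h
    have h1 := ((RT.mem_D _).1 h).2
    omega
  have key : ∀ (k : ℕ) (v : V), G.dist r v = k → v ≠ r → (rt hG r).bot v = y →
      ∃ u ∈ (rt hG r).ch r, (rt hG r).bot u = y := by
    intro k
    induction k using Nat.strong_induction_on with
    | _ k ih =>
      intro v hv hvr hb
      by_cases hp : (rt hG r).par v = r
      · exact ⟨v, (RT.mem_ch _).2 ⟨hvr, hp⟩, hb⟩
      · have h1 : v ∈ (rt hG r).ch ((rt hG r).par v) := (RT.mem_ch _).2 ⟨hvr, rfl⟩
        have h2 := card_pos.2 ⟨v, h1⟩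
        have h4 := degree_of_ne hG hp
        have h5 := dist_par hG hvr
        have h6 := adj_par hG hvr
        obtain ⟨h7, h8⟩ := gr2_dist_bot hG r ((rt hG r).dn v) v rfl
        rw [hb] at h7 h8
        have h9 := hG.connected.pos_dist_of_ne (Ne.symm hp)
        have h10 := hG.connected.dist_triangle (u := y) (v := v) (w := (rt hG r).par v)
        rw [SimpleGraph.dist_eq_one_iff_adj.2 h6] at h10
        have h11 : #((rt hG r).ch ((rt hG r).par v)) = 1 := by
          by_contra hne
          have h12 := hmin ((rt hG r).par v) (mem_filter.2 ⟨mem_univ _, by omega⟩)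
          have h13 : G.dist y r = G.dist r y := SimpleGraph.dist_comm
          omega
        have h12 : (rt hG r).par v ∈ (rt hG r).D := (RT.mem_D _).2 ⟨hp, h11⟩
        have h13 : (rt hG r).chi ((rt hG r).par v) = v := by
          rw [(rt hG r).ch_eq h12, mem_singleton] at h1
          exact h1.symm
        refine ih _ (by omega) ((rt hG r).par v) rfl hp ?_
        rw [(rt hG r).bot_eq h12, h13, hb]
  obtain ⟨u, hu, hub⟩ := key _ y rfl hyr ((rt hG r).bot_of_notMem hyD)
  exact ⟨r, hr.2, u, hu, by rw [hub]; exact hyL⟩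

/-- The weighting of a tree with many vertices of degree two. -/
theorem exists_weighting2 (hG : G.IsTree) (h3 : 3 ≤ cnt G 1) (hC : 70 * cnt G 1 ≤ cnt G 2)
    {s : ℕ} (hs : cnt G 1 + cnt G 2 + 2 ≤ 2 * s) (hs' : 2 * s ≤ cnt G 1 + cnt G 2 + 3) :
    ∃ w : V → V → ℕ, (∀ u v : V, G.Adj u v → 1 ≤ w u v ∧ w u v ≤ s ∧ w u v = w v u) ∧
      Function.Injective (fun v : V => ∑ u ∈ G.neighborFinset v, w v u) := by
  obtain ⟨r, hr, u₁, hu₁, hx⟩ := exists_root hG h3
  have hrL : r ∉ (rt hG r).L := fun h => ((rt hG r).mem_L.1 h).1 rfl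
  have hL : #(rt hG r).L = cnt G 1 := by
    rw [cnt]
    congr 1
    ext v
    rw [RT.mem_L, mem_filter]
    by_cases hv : v = r
    · rw [hv]
      constructor
      · rintro ⟨h5, -⟩
        exact absurd rfl h5
      · rintro ⟨-, h5⟩
        omega
    · rw [degree_of_ne hG hv]
      constructor
      · rintro ⟨-, h5⟩
        refine ⟨mem_univ _, ?_⟩
        rw [h5, card_empty]
      · rintro ⟨-, h5⟩
        refine ⟨hv, ?_⟩
        rw [← card_eq_zero]
        omega
  have hD : #(rt hG r).D = cnt G 2 := by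
    rw [cnt]
    congr 1
    ext v
    rw [RT.mem_D, mem_filter]
    by_cases hv : v = r
    · rw [hv]
      constructor
      · rintro ⟨h5, -⟩
        exact absurd rfl h5
      · rintro ⟨-, h5⟩
        omega
    · rw [degree_of_ne hG hv]
      constructor
      · rintro ⟨-, h5⟩
        exact ⟨mem_univ _, by omega⟩
      · rintro ⟨-, h5⟩
        exact ⟨hv, by omega⟩
  obtain ⟨e, he0, he, hinj⟩ := (rt hG r).exists_exact (s := s) hu₁ hx
    (by rw [degree_root hG] at hr; exact hr) (by omega) (by omega) (by omega)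
  exact weighting_of_e hG he0 he hinj

end Pool.Agent.H.MP_936c16_co
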