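import Pool.Agent.H.MP_936c16_co.Exact2
import Pool.Agent.H.MP_936c16_co.Gr2

/-!
From rooted trees to trees as graphs, exact version: the root is a vertex of degree at least three at which a
long thread ends.
-/

set_option autoImplicit false

namespace Pool.Agent.H.MP_936c16_co

open Finset

variable {V : Type} [Fintype V] [DecidableEq V] {G : SimpleGraph V} [DecidableRel G.Adj]

private theorem gr3_L (hG : G.IsTree) {r : V} (hr : 3 ≤ G.degree r) :
    #(rt hG r).L = cnt G 1 := by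
  rw [cnt]
  congr 1
  ext v
  rw [RT.mem_L, mem_filter]
  by_cases hv : v = r
  · rw [hv]
    constructor
    · rintro ⟨h5, -⟩
      exact absurd rfl h5
    · rintro ⟨-, h5⟩
      omega
  · rw [degree_of_ne hG hv]
    constructor
    · rintro ⟨-, h5⟩
      refine ⟨mem_univ _, ?_⟩
      rw [h5, card_empty]
    · rintro ⟨-, h5⟩
      refine ⟨hv, ?_⟩
      rw [← card_eq_zero]
      omega

private theorem gr3_D (hG : G.IsTree) {r : V} (hr : 3 ≤ G.degree r) :
    #(rt hG r).D = cnt G 2 := by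
  rw [cnt]
  congr 1
  ext v
  rw [RT.mem_D, mem_filter]
  by_cases hv : v = r
  · rw [hv]
    constructor
    · rintro ⟨h5, -⟩
      exact absurd rfl h5
    · rintro ⟨-, h5⟩
      omega
  · rw [degree_of_ne hG hv]
    constructor
    · rintro ⟨-, h5⟩
      exact ⟨mem_univ _, by omega⟩
    · rintro ⟨-, h5⟩
      exact ⟨hv, by omega⟩

private theorem gr3_deg (hG : G.IsTree) {r v : V} (hv : v ∈ (rt hG r).D) : G.degree v = 2 := by
  obtain ⟨h1, h2⟩ := (RT.mem_D _).1 hv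
  rw [degree_of_ne (r := r) hG h1, h2]

/-- a path `w 0, w 1, ..., w (m + 1)` whose vertices `w 1, ..., w m` have degree two is a thread of the tree
with the root `w 0` -/
private theorem gr3_path (hG : G.IsTree) {m : ℕ} (w : ℕ → V)
    (hdeg : ∀ j, 1 ≤ j → j ≤ m → G.degree (w j) = 2)
    (hadj : ∀ j, j ≤ m → G.Adj (w j) (w (j + 1)))
    (hne : ∀ j, 1 ≤ j → j ≤ m → w (j + 1) ≠ w (j - 1)) :
    w 1 ∈ (rt hG (w 0)).ch (w 0) ∧ m ≤ (rt hG (w 0)).dn (w 1) := by
  have h1 : ∀ j, j ≤ m → w (j + 1) ∈ (rt hG (w 0)).ch (w j) := by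
    intro j
    induction j with
    | zero =>
      intro _
      rw [← nbr_root hG, SimpleGraph.mem_neighborFinset]
      exact hadj 0 (Nat.zero_le _)
    | succ j ih =>
      intro hj
      have h2 := (RT.mem_ch _).1 (ih (by omega))
      have h3 : w (j + 1 + 1) ∈ G.neighborFinset (w (j + 1)) := by
        rw [SimpleGraph.mem_neighborFinset]
        exact hadj (j + 1) hj
      rw [nbr_of_ne (r := w 0) hG h2.1, mem_insert, h2.2] at h3
      exact h3.resolve_left (hne (j + 1) (by omega) hj)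
  refine ⟨h1 0 (Nat.zero_le _), ?_⟩
  have h4 : ∀ j, j ≤ m → (rt hG (w 0)).dn (w 1) = (rt hG (w 0)).dn (w (j + 1)) + j := by
    intro j
    induction j with
    | zero =>
      intro _
      rfl
    | succ j ih =>
      intro hj
      have h2 := (RT.mem_ch _).1 (h1 j (by omega))
      have h5 := hdeg (j + 1) (by omega) hj
      rw [degree_of_ne (r := w 0) hG h2.1] at h5
      have h6 : w (j + 1) ∈ (rt hG (w 0)).D := (RT.mem_D _).2 ⟨h2.1, by omega⟩
      have h7 := h1 (j + 1) hj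
      rw [(rt hG (w 0)).ch_eq h6, mem_singleton] at h7
      have h8 := (rt hG (w 0)).dn_eq h6
      rw [← h7] at h8
      rw [ih (by omega), h8]
      omega
  have h9 := h4 m le_rfl
  omega

/-- the weighting of the graph given by the weights in the rooted tree -/
private theorem gr3_weighting (hG : G.IsTree) {r : V} {e : V → ℕ} {s : ℕ} (he0 : e r = 0)
    (he : ∀ v, v ≠ r → 1 ≤ e v ∧ e v ≤ s) :
    ∃ w : V → V → ℕ, (∀ u v : V, G.Adj u v → 1 ≤ w u v ∧ w u v ≤ s ∧ w u v = w v u) ∧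
      ∀ v, ∑ u ∈ G.neighborFinset v, w v u = (rt hG r).w e v := by
  have hor : ∀ u v, G.Adj u v → (u ≠ r ∧ (rt hG r).par u = v ∧ ¬ (v ≠ r ∧ (rt hG r).par v = u)) ∨
      (v ≠ r ∧ (rt hG r).par v = u ∧ ¬ (u ≠ r ∧ (rt hG r).par u = v)) := by
    intro u v huv
    have key : ∀ x y, G.Adj x y → G.dist r y < G.dist r x →
        (x ≠ r ∧ (rt hG r).par x = y ∧ ¬ (y ≠ r ∧ (rt hG r).par y = x)) := by
      intro x y hxy hd
      have h1 : x ∈ (rt hG r).ch y := (mem_ch' hG).2 ⟨hxy.symm, hd⟩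
      have h2 := (RT.mem_ch _).1 h1
      refine ⟨h2.1, h2.2, ?_⟩
      rintro ⟨h4, h5⟩
      have h6 := dist_par hG h4
      rw [h5] at h6
      omega
    rcases lt_or_gt_of_ne (hG.dist_ne_of_adj r huv) with h | h
    · exact Or.inr (key v u huv.symm h)
    · exact Or.inl (key u v huv h)
  obtain ⟨w, hw⟩ : ∃ w : V → V → ℕ,
      w = fun x y => if x ≠ r ∧ (rt hG r).par x = y then e x else e y := ⟨_, rfl⟩
  have hw1 : ∀ x y, x ≠ r → (rt hG r).par x = y → w x y = e x := by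
    intro x y h1 h2
    rw [hw]
    exact if_pos ⟨h1, h2⟩
  have hw2 : ∀ x y, ¬ (x ≠ r ∧ (rt hG r).par x = y) → w x y = e y := by
    intro x y h1
    rw [hw]
    exact if_neg h1
  refine ⟨w, ?_, ?_⟩
  · intro u v huv
    rcases hor u v huv with ⟨h1, h2, h4⟩ | ⟨h1, h2, h4⟩
    · rw [hw1 u v h1 h2, hw2 v u h4]
      exact ⟨(he u h1).1, (he u h1).2, rfl⟩
    · rw [hw1 v u h1 h2, hw2 u v h4]
      exact ⟨(he v h1).1, (he v h1).2, rfl⟩
  · intro v
    have hch : ∑ u ∈ (rt hG r).ch v, w v u = (rt hG r).c e v := by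
      refine sum_congr rfl fun u hu => ?_
      have hu' := (mem_ch' hG).1 hu
      have hu'' := (RT.mem_ch _).1 hu
      rcases hor v u hu'.1 with ⟨h1, h2, h4⟩ | ⟨h1, h2, h4⟩
      · exact absurd hu'' h4
      · exact hw2 v u h4
    by_cases hv : v = r
    · rw [hv] at hch ⊢
      rw [nbr_root hG, hch, RT.w, he0, add_zero]
    · rw [nbr_of_ne hG hv, sum_insert (par_notMem hG hv), hch, hw1 v _ hv rfl, RT.w, add_comm]

/-- a long thread ends at a vertex of degree at least three -/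
theorem exists_root2 (hG : G.IsTree) (h3 : 3 ≤ cnt G 1) (hC : 69 * cnt G 1 ≤ cnt G 2) :
    ∃ r, 3 ≤ G.degree r ∧ ∃ u ∈ (rt hG r).ch r, 14 ≤ (rt hG r).len ((rt hG r).bot u) := by
  obtain ⟨r₀, hr₀⟩ := exists_branch hG h3
  have hL := gr3_L hG hr₀
  have hD := gr3_D hG hr₀
  -- a long thread
  obtain ⟨b, -, hb⟩ : ∃ b ∈ (rt hG r₀).N, 14 ≤ (rt hG r₀).len b := by
    by_contra hcon
    push Not at hcon
    have h1 := (rt hG r₀).sum_len
    have h2 : ∑ b ∈ (rt hG r₀).N, (rt hG r₀).len b ≤ ∑ _b ∈ (rt hG r₀).N, 13 :=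
      sum_le_sum fun b hb => by
        have := hcon b hb
        omega
    rw [sum_const, smul_eq_mul] at h2
    have h4 := (rt hG r₀).card_B_ch
    have h5 : #(rt hG r₀).N = #(rt hG r₀).L + #(rt hG r₀).B := by
      rw [(rt hG r₀).N_eq, card_union_of_disjoint (rt hG r₀).disjoint_L_B]
    omega
  obtain ⟨v₀, hv₀, hbot, hdn⟩ := (rt hG r₀).exists_pos (b := b) (i := (rt hG r₀).len b)
    (by omega) le_rfl
  have hv₀r : v₀ ≠ r₀ := ((RT.mem_D _).1 hv₀).1
  have hv₀ch : v₀ ∈ (rt hG r₀).ch ((rt hG r₀).par v₀) := (RT.mem_ch _).2 ⟨hv₀r, rfl⟩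
  have hp : (rt hG r₀).par v₀ ∉ (rt hG r₀).D := by
    intro hp
    have h1 : v₀ = (rt hG r₀).chi ((rt hG r₀).par v₀) := by
      have h2 := hv₀ch
      rw [(rt hG r₀).ch_eq hp, mem_singleton] at h2
      exact h2
    have h2 := (rt hG r₀).dn_le_len hp
    rw [(rt hG r₀).dn_eq hp, (rt hG r₀).bot_eq hp, ← h1, hbot, hdn] at h2
    omega
  have hdeg : 3 ≤ G.degree ((rt hG r₀).par v₀) := by
    by_cases h1 : (rt hG r₀).par v₀ = r₀
    · rw [h1]
      exact hr₀
    · have h2 := card_pos.2 ⟨v₀, hv₀ch⟩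
      have h4 : #((rt hG r₀).ch ((rt hG r₀).par v₀)) ≠ 1 := fun h5 =>
        hp ((RT.mem_D _).2 ⟨h1, h5⟩)
      rw [degree_of_ne hG h1]
      omega
  -- the vertices of the thread
  obtain ⟨w, hw⟩ : ∃ w : ℕ → V, w = fun j => if j = 0 then (rt hG r₀).par v₀ else
      (rt hG r₀).chi^[j - 1] v₀ := ⟨_, rfl⟩
  have hw0 : w 0 = (rt hG r₀).par v₀ := by
    rw [hw]
    exact if_pos rfl
  have hwj : ∀ j, w (j + 1) = (rt hG r₀).chi^[j] v₀ := by
    intro j
    rw [hw]
    exact if_neg (Nat.succ_ne_zero j)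
  have hwD : ∀ j, j < 14 → w (j + 1) ∈ (rt hG r₀).D := by
    intro j hj
    rw [hwj]
    have h1 := ((rt hG r₀).iter_chi v₀ j (by omega)).1
    exact (rt hG r₀).mem_of_dn_ne (by omega)
  have hws : ∀ j, w (j + 1 + 1) = (rt hG r₀).chi (w (j + 1)) := by
    intro j
    rw [hwj, hwj, Function.iterate_succ_apply']
  have hw1 : w 1 = v₀ := hwj 0
  have hadj : ∀ j, j ≤ 14 → G.Adj (w j) (w (j + 1)) := by
    intro j hj
    rcases j with _ | j
    · rw [hw0, hw1]
      exact (adj_par hG hv₀r).symm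
    · have h1 := hwD j (by omega)
      have h2 := adj_par hG (r := r₀) ((rt hG r₀).chi_ne h1)
      rw [(rt hG r₀).par_chi h1] at h2
      rw [hws]
      exact h2.symm
  have hht : ∀ j, j ≤ 14 → (rt hG r₀).ht (w j) < (rt hG r₀).ht (w (j + 1)) := by
    intro j hj
    rcases j with _ | j
    · rw [hw0, hw1]
      exact (rt hG r₀).lt v₀ hv₀r
    · rw [hws]
      exact (rt hG r₀).ht_chi (hwD j (by omega))
  obtain ⟨h1, h2⟩ := gr3_path hG (m := 14) w
    (fun j hj1 hj2 => by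
      obtain ⟨i, rfl⟩ : ∃ i, j = i + 1 := ⟨j - 1, by omega⟩
      exact gr3_deg hG (hwD i (by omega)))
    hadj
    (fun j hj1 hj2 h => by
      obtain ⟨i, rfl⟩ : ∃ i, j = i + 1 := ⟨j - 1, by omega⟩
      have h4 := hht i (by omega)
      have h5 := hht (i + 1) hj2
      rw [h, Nat.add_sub_cancel] at h5
      omega)
  rw [← hw0] at hdeg
  refine ⟨w 0, hdeg, w 1, h1, ?_⟩
  exact h2.trans ((rt hG (w 0)).dn_le_len ((rt hG (w 0)).mem_of_dn_ne (by omega)))

/-- The weighting of a tree with many vertices of degree two. The numbers `o v` are added to the weighted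
degrees. -/
theorem exists_weighting3 (hG : G.IsTree) (h3 : 3 ≤ cnt G 1) (hC : 69 * cnt G 1 ≤ cnt G 2)
    (o : V → ℕ) (ho : ∀ v, o v ≤ 1) (hoD : ∀ v, G.degree v = 2 → o v = 0)
    {s : ℕ} (hs : cnt G 1 + cnt G 2 + 1 ≤ 2 * s) (hs' : 2 * s ≤ cnt G 1 + cnt G 2 + 2) :
    ∃ w : V → V → ℕ, (∀ u v : V, G.Adj u v → 1 ≤ w u v ∧ w u v ≤ s ∧ w u v = w v u) ∧
      Function.Injective (fun v : V => ∑ u ∈ G.neighborFinset v, w v u + o v) ∧
      ∀ v : V, 2 ≤ ∑ u ∈ G.neighborFinset v, w v u + o v := by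
  obtain ⟨r, hr, us, hus, hlen⟩ := exists_root2 hG h3 hC
  have hL := gr3_L hG hr
  have hD := gr3_D hG hr
  obtain ⟨e, he0, he, hinj, h2⟩ := (rt hG r).exists_exact2 (s := s) o ho
    (fun v hv => hoD v (gr3_deg hG hv)) hus hlen
    (by rw [degree_root hG] at hr; exact hr) (by omega) (by omega) (by omega)
  obtain ⟨w, hw1, hw2⟩ := gr3_weighting hG he0 he
  refine ⟨w, hw1, fun u v huv => hinj ?_, fun v => ?_⟩
  · have h4 : ∑ u' ∈ G.neighborFinset u, w u u' + o u =
        ∑ u' ∈ G.neighborFinset v, w v u' + o v := huv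
    rw [hw2, hw2] at h4
    exact h4
  · rw [hw2]
    exact h2 v

end Pool.Agent.H.MP_936c16_co
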