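import Pool.Agent.H.MP_936c16_co.Gr3

/-!
The leaf of weight one.
-/

set_option autoImplicit false

namespace Pool.Agent.H.MP_936c16_co

open Finset

variable {V : Type} [Fintype V] [DecidableEq V] {G : SimpleGraph V} [DecidableRel G.Adj]

private theorem gr4_nbr {y : V} {G' : SimpleGraph {x : V // x ≠ y}} [DecidableRel G'.Adj]
    (hG' : ∀ a b, G'.Adj a b ↔ G.Adj a.1 b.1) (x : {x : V // x ≠ y}) :
    (G'.neighborFinset x).map (Function.Embedding.subtype _) = (G.neighborFinset x.1).erase y := by
  ext v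
  simp only [mem_map, SimpleGraph.mem_neighborFinset, Function.Embedding.subtype_apply,
    mem_erase]
  constructor
  · rintro ⟨u, h1, rfl⟩
    exact ⟨u.2, (hG' _ _).1 h1⟩
  · rintro ⟨h1, h2⟩
    exact ⟨⟨v, h1⟩, (hG' _ _).2 h2, rfl⟩

private theorem gr4_deg {y q : V} {G' : SimpleGraph {x : V // x ≠ y}} [DecidableRel G'.Adj]
    (hG' : ∀ a b, G'.Adj a b ↔ G.Adj a.1 b.1) (hyq : ∀ v, G.Adj y v ↔ v = q)
    (x : {x : V // x ≠ y}) :
    G'.degree x = if x.1 = q then G.degree x.1 - 1 else G.degree x.1 := by
  rw [← G'.card_neighborFinset_eq_degree, ← card_map (Function.Embedding.subtype _),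
    gr4_nbr hG' x, ← G.card_neighborFinset_eq_degree]
  split_ifs with h
  · refine card_erase_of_mem ?_
    rw [SimpleGraph.mem_neighborFinset]
    exact ((hyq x.1).2 h).symm
  · rw [erase_eq_of_notMem]
    rw [SimpleGraph.mem_neighborFinset]
    exact fun h2 => h ((hyq x.1).1 h2.symm)

private theorem gr4_sum {y q : V} {G' : SimpleGraph {x : V // x ≠ y}} [DecidableRel G'.Adj]
    (hG' : ∀ a b, G'.Adj a b ↔ G.Adj a.1 b.1) (hyq : ∀ v, G.Adj y v ↔ v = q)
    {w' : {x : V // x ≠ y} → {x : V // x ≠ y} → ℕ} {w : V → V → ℕ}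
    (hw : ∀ a b : {x : V // x ≠ y}, w a.1 b.1 = w' a b) (hwy : ∀ a, w a y = 1)
    (x : {x : V // x ≠ y}) :
    ∑ u ∈ G.neighborFinset x.1, w x.1 u =
      ∑ u ∈ G'.neighborFinset x, w' x u + if x.1 = q then 1 else 0 := by
  have h1 : ∑ u ∈ G'.neighborFinset x, w' x u =
      ∑ u ∈ (G.neighborFinset x.1).erase y, w x.1 u := by
    rw [← gr4_nbr hG' x, sum_map]
    exact sum_congr rfl fun u _ => (hw x u).symm
  rw [h1]
  split_ifs with h
  · have h2 : y ∈ G.neighborFinset x.1 := by
      rw [SimpleGraph.mem_neighborFinset]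
      exact ((hyq x.1).2 h).symm
    have h3 := sum_erase_add (G.neighborFinset x.1) (w x.1) h2
    rw [hwy] at h3
    exact h3.symm
  · rw [erase_eq_of_notMem, add_zero]
    rw [SimpleGraph.mem_neighborFinset]
    exact fun h2 => h ((hyq x.1).1 h2.symm)

private theorem gr4_cnt {y q : V} {G' : SimpleGraph {x : V // x ≠ y}} [DecidableRel G'.Adj]
    (hG' : ∀ a b, G'.Adj a b ↔ G.Adj a.1 b.1) (hyq : ∀ v, G.Adj y v ↔ v = q) (k : ℕ) :
    cnt G' k = #(univ.filter fun v =>
      v ≠ y ∧ (if v = q then G.degree v - 1 else G.degree v) = k) := by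
  rw [cnt, ← card_map (Function.Embedding.subtype _)]
  congr 1
  ext v
  simp only [mem_map, mem_filter, mem_univ, true_and, Function.Embedding.subtype_apply]
  constructor
  · rintro ⟨u, h1, rfl⟩
    rw [gr4_deg hG' hyq] at h1
    exact ⟨u.2, h1⟩
  · rintro ⟨h1, h2⟩
    refine ⟨⟨v, h1⟩, ?_, rfl⟩
    rw [gr4_deg hG' hyq]
    exact h2

/-- If `n₁ + n₂ = 2 s` and the leaf `y` has a neighbour of degree different from three, then there is an
irregular weighting with the numbers `1, …, s`; the weight at `y` is `1`. -/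
theorem exists_weighting4 (hG : G.IsTree) (h3 : 3 ≤ cnt G 1) (hC : 70 * cnt G 1 ≤ cnt G 2)
    {s : ℕ} (hs : cnt G 1 + cnt G 2 = 2 * s) {y q : V} (hy : G.degree y = 1) (hyq : G.Adj y q)
    (hq : G.degree q ≠ 3) :
    ∃ w : V → V → ℕ, (∀ u v : V, G.Adj u v → 1 ≤ w u v ∧ w u v ≤ s ∧ w u v = w v u) ∧
      Function.Injective (fun v : V => ∑ u ∈ G.neighborFinset v, w v u) := by
  have hyq' : ∀ v, G.Adj y v ↔ v = q := by
    obtain ⟨u, hu, hu2⟩ := SimpleGraph.degree_eq_one_iff_existsUnique_adj.1 hy
    have h1 : q = u := hu2 q hyq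
    intro v
    constructor
    · intro h
      rw [h1]
      exact hu2 v h
    · rintro rfl
      exact hyq
  have hqy : q ≠ y := hyq.ne'
  -- the graph without `y`
  obtain ⟨G', hG', hT⟩ : ∃ G' : SimpleGraph {x : V // x ≠ y},
      (∀ a b, G'.Adj a b ↔ G.Adj a.1 b.1) ∧ G'.IsTree := by
    refine ⟨G.comap Subtype.val, fun a b => Iff.rfl, ?_, ?_⟩
    · exact hG.connected.induce_compl_singleton_of_degree_eq_one hy
    · exact SimpleGraph.IsAcyclic.comap
        (⟨Subtype.val, fun h => h⟩ : G.comap Subtype.val →g G) Subtype.val_injective hG.isAcyclic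
  let hdec : DecidableRel G'.Adj := fun a b => decidable_of_iff _ (hG' a b).symm
  have hyL : y ∈ (univ.filter fun v => G.degree v = 1) := mem_filter.2 ⟨mem_univ _, hy⟩
  -- two further leaves
  obtain ⟨a, ha, b, hb, hab⟩ : ∃ a ∈ (univ.filter fun v => G.degree v = 1).erase y,
      ∃ b ∈ (univ.filter fun v => G.degree v = 1).erase y, a ≠ b := by
    have h1 : 1 < #((univ.filter fun v => G.degree v = 1).erase y) := by
      rw [card_erase_of_mem hyL]
      rw [cnt] at h3
      omega
    exact one_lt_card.1 h1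
  have hay := (mem_erase.1 ha).1
  have hby := (mem_erase.1 hb).1
  have : Nontrivial V := ⟨a, b, hab⟩
  have : Nontrivial {x : V // x ≠ y} :=
    ⟨⟨a, hay⟩, ⟨b, hby⟩, fun h => hab (congrArg Subtype.val h)⟩
  have hdeg : ∀ v, 1 ≤ G.degree v := fun v =>
    hG.connected.preconnected.degree_pos_of_nontrivial v
  have hq1 : G.degree q ≠ 1 := by
    intro h
    have h1 := hT.connected.preconnected.degree_pos_of_nontrivial ⟨q, hqy⟩
    rw [gr4_deg hG' hyq', if_pos rfl] at h1
    change 0 < G.degree q - 1 at h1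
    omega
  have hq0 := hdeg q
  have hcnt := gr4_cnt hG' hyq'
  -- the numbers of vertices of degree one and two
  have hc : 3 ≤ cnt G' 1 ∧ 69 * cnt G' 1 ≤ cnt G' 2 ∧ cnt G' 1 + cnt G' 2 + 1 = 2 * s := by
    by_cases hq2 : G.degree q = 2
    · have h1 : cnt G' 1 = cnt G 1 := by
        have h4 : (univ.filter fun v => v ≠ y ∧
            (if v = q then G.degree v - 1 else G.degree v) = 1) =
            insert q ((univ.filter fun v => G.degree v = 1).erase y) := by
          ext v
          simp only [mem_filter, mem_univ, true_and, mem_insert, mem_erase]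
          by_cases hv : v = q
          · subst hv
            simp [hq2, hqy]
          · simp [hv]
        have h5 : q ∉ (univ.filter fun v => G.degree v = 1).erase y := by
          simp [hq1]
        rw [hcnt, h4, card_insert_of_notMem h5,
          card_erase_of_mem hyL]
        rw [cnt] at h3 ⊢
        omega
      have h2 : cnt G' 2 + 1 = cnt G 2 := by
        have h4 : (univ.filter fun v => v ≠ y ∧
            (if v = q then G.degree v - 1 else G.degree v) = 2) =
            (univ.filter fun v => G.degree v = 2).erase q := by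
          ext v
          simp only [mem_filter, mem_univ, true_and, mem_erase]
          by_cases hv : v = q
          · subst hv
            simp [hq2]
          · by_cases hvy : v = y
            · subst hvy
              simp [hy]
            · simp [hv, hvy]
        have hqD : q ∈ (univ.filter fun v => G.degree v = 2) := mem_filter.2 ⟨mem_univ _, hq2⟩
        rw [hcnt, h4, cnt]
        exact card_erase_add_one hqD
      omega
    · have hq4 : 4 ≤ G.degree q := by omega
      have h1 : cnt G' 1 + 1 = cnt G 1 := by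
        have h4 : (univ.filter fun v => v ≠ y ∧
            (if v = q then G.degree v - 1 else G.degree v) = 1) =
            (univ.filter fun v => G.degree v = 1).erase y := by
          ext v
          simp only [mem_filter, mem_univ, true_and, mem_erase]
          by_cases hv : v = q
          · subst hv
            rw [if_pos rfl]
            omega
          · rw [if_neg hv]
        rw [hcnt, h4, cnt]
        exact card_erase_add_one hyL
      have h2 : cnt G' 2 = cnt G 2 := by
        have h4 : (univ.filter fun v => v ≠ y ∧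
            (if v = q then G.degree v - 1 else G.degree v) = 2) =
            (univ.filter fun v => G.degree v = 2) := by
          ext v
          simp only [mem_filter, mem_univ, true_and]
          by_cases hv : v = q
          · subst hv
            rw [if_pos rfl]
            omega
          · rw [if_neg hv]
            constructor
            · exact fun h => h.2
            · intro h
              refine ⟨?_, h⟩
              rintro rfl
              omega
        rw [hcnt, h4, cnt]
      have h4 : 4 ≤ cnt G 1 := by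
        have h5 := G.sum_degrees_eq_twice_card_edges
        have h6 := hG.card_edgeFinset
        have h7 : ∑ v : V, (2 + if v = q then 2 else 0) ≤
            ∑ v, (G.degree v + if G.degree v = 1 then 1 else 0) :=
          sum_le_sum fun v _ => by
            have h8 := hdeg v
            by_cases hv : v = q
            · subst hv
              rw [if_pos rfl]
              omega
            · rw [if_neg hv]
              split_ifs <;> omega
        rw [sum_add_distrib, sum_add_distrib, sum_const, smul_eq_mul, card_univ,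
          ← card_filter, sum_ite_eq' univ q, if_pos (mem_univ _)] at h7
        rw [cnt]
        omega
      omega
  obtain ⟨hc1, hc2, hc3⟩ := hc
  obtain ⟨w', hw1, hw2, hw3⟩ := exists_weighting3 hT hc1 hc2
    (fun x => if x.1 = q then 1 else 0) (fun x => by
      split_ifs <;> omega) (fun x hx => by
      refine if_neg fun h => ?_
      rw [gr4_deg hG' hyq', if_pos h, h] at hx
      omega) (s := s) hc3.le (by omega)
  let w : V → V → ℕ := fun a b =>
    if h : a ≠ y ∧ b ≠ y then w' ⟨a, h.1⟩ ⟨b, h.2⟩ else 1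
  have hwa : ∀ a b : {x : V // x ≠ y}, w a.1 b.1 = w' a b := fun a b => dif_pos ⟨a.2, b.2⟩
  have hwy : ∀ a, w a y = 1 := fun a => dif_neg fun h => h.2 rfl
  have hwy' : ∀ a, w y a = 1 := fun a => dif_neg fun h => h.1 rfl
  have hS : ∀ x : {x : V // x ≠ y}, ∑ u ∈ G.neighborFinset x.1, w x.1 u =
      ∑ u ∈ G'.neighborFinset x, w' x u + if x.1 = q then 1 else 0 :=
    gr4_sum hG' hyq' hwa hwy
  have hSy : ∑ u ∈ G.neighborFinset y, w y u = 1 := by
    have h1 : G.neighborFinset y = {q} := by
      ext v
      rw [SimpleGraph.mem_neighborFinset, hyq', mem_singleton]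
    rw [h1, sum_singleton, hwy']
  refine ⟨w, ?_, ?_⟩
  · intro u v huv
    by_cases h : u ≠ y ∧ v ≠ y
    · have h1 := hw1 ⟨u, h.1⟩ ⟨v, h.2⟩ ((hG' _ _).2 huv)
      rw [← hwa ⟨u, h.1⟩ ⟨v, h.2⟩, ← hwa ⟨v, h.2⟩ ⟨u, h.1⟩] at h1
      exact h1
    · have h1 : w u v = 1 := dif_neg h
      have h2 : w v u = 1 := dif_neg fun h' => h ⟨h'.2, h'.1⟩
      rw [h1, h2]
      exact ⟨le_rfl, by omega, rfl⟩
  · intro v₁ v₂ h
    change ∑ u ∈ G.neighborFinset v₁, w v₁ u = ∑ u ∈ G.neighborFinset v₂, w v₂ u at h
    by_cases h1 : v₁ = y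
    · by_cases h2 : v₂ = y
      · rw [h1, h2]
      · have h4 := hw3 ⟨v₂, h2⟩
        have h5 := hS ⟨v₂, h2⟩
        change 2 ≤ ∑ u ∈ G'.neighborFinset ⟨v₂, h2⟩, w' ⟨v₂, h2⟩ u + (if v₂ = q then 1 else 0) at h4
        change ∑ u ∈ G.neighborFinset v₂, w v₂ u =
          ∑ u ∈ G'.neighborFinset ⟨v₂, h2⟩, w' ⟨v₂, h2⟩ u + (if v₂ = q then 1 else 0) at h5
        rw [← h5, ← h, h1, hSy] at h4
        omega
    · by_cases h2 : v₂ = y
      · have h4 := hw3 ⟨v₁, h1⟩
        have h5 := hS ⟨v₁, h1⟩
        change 2 ≤ ∑ u ∈ G'.neighborFinset ⟨v₁, h1⟩, w' ⟨v₁, h1⟩ u + (if v₁ = q then 1 else 0) at h4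
        change ∑ u ∈ G.neighborFinset v₁, w v₁ u =
          ∑ u ∈ G'.neighborFinset ⟨v₁, h1⟩, w' ⟨v₁, h1⟩ u + (if v₁ = q then 1 else 0) at h5
        rw [← h5, h, h2, hSy] at h4
        omega
      · have h4 := hS ⟨v₁, h1⟩
        have h5 := hS ⟨v₂, h2⟩
        have h6 := @hw2 ⟨v₁, h1⟩ ⟨v₂, h2⟩ (h4.symm.trans (h.trans h5))
        exact congrArg Subtype.val h6

end Pool.Agent.H.MP_936c16_co
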