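import Pool.Agent.H.MP_936c16_co.Fil
import Pool.Agent.H.MP_936c16_co.Exact

/-!
The trees with four leaves and two vertices of degree three, each of them with two leaves as neighbours.
-/

set_option autoImplicit false

namespace Pool.Agent.H.MP_936c16_co

open Finset

private theorem Path4_even {s m : ℕ} (hm : s = 2 * m) (hs : 40 ≤ s) :
    Fill s (2 * (s - 2)) s (Icc 2 (2 * s) \ {s, s - 1, s - 2}) s := by
  obtain ⟨C, hCd⟩ : ∃ C, C = Icc 1 (m - 2) := ⟨_, rfl⟩
  obtain ⟨C', hCd'⟩ : ∃ C', C' = Icc (m + 1) (2 * m - 1) := ⟨_, rfl⟩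
  have hC : #C = m - 2 := by
    rw [hCd, Nat.card_Icc]
    omega
  have hC' : #C' = m - 1 := by
    rw [hCd', Nat.card_Icc]
    omega
  have k1 : Fill s 1 s {s + 2} 2 := Fill.single (by omega) (by omega) (by omega)
  have k2 := (fill_alt (fun j => 2 * j) (s := s) (w := 2) (by omega) (by omega) C
    (by
      intro j hj
      rw [hCd, mem_Icc] at hj
      omega)).1
  have k3 : Fill s 1 (2 - #C % 2) {s + 1} (s - 1 + #C % 2) :=
    Fill.single (by omega) (by omega) (by omega)
  obtain ⟨l1, l2⟩ := fill_alt (fun j => 2 * j + 1) (s := s) (w := s) (by omega) (by omega) C'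
    (by
      intro j hj
      rw [hCd', mem_Icc] at hj
      omega)
  have k4 : Fill s (2 * #C') (s - 1 + #C % 2) (dom (fun j => 2 * j + 1) C') s := by
    rcases Nat.mod_two_eq_zero_or_one (#C) with h | h
    · have e1 : s - 1 + #C' % 2 = s := by omega
      have e2 : s - 1 + #C % 2 = s - 1 := by omega
      rw [e1] at l2
      rw [e2]
      exact l2
    · have e1 : s - #C' % 2 = s := by omega
      have e2 : s - 1 + #C % 2 = s := by omega
      rw [e1] at l1
      rw [e2]
      exact l1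
  have k := ((k1.append k2).append k3).append k4
  have e1 : 1 + 2 * #C + 1 + 2 * #C' = 2 * (s - 2) := by omega
  have e2 : {s + 2} ∪ dom (fun j => 2 * j) C ∪ {s + 1} ∪ dom (fun j => 2 * j + 1) C' =
      Icc 2 (2 * s) \ {s, s - 1, s - 2} := by
    ext v
    simp only [mem_union, mem_dom, mem_singleton, mem_insert, mem_sdiff, mem_Icc, hCd, hCd']
    constructor
    · rintro (((h | ⟨j, hj, h⟩) | h) | ⟨j, hj, h⟩)
      · omega
      · omega
      · omega
      · omega
    · rintro h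
      rcases (show v = s + 2 ∨ (2 ≤ v ∧ v + 3 ≤ s) ∨ v = s + 1 ∨ (s + 3 ≤ v ∧ v ≤ 2 * s) by
        omega) with h1 | h1 | h1 | h1
      · exact Or.inl (Or.inl (Or.inl h1))
      · exact Or.inl (Or.inl (Or.inr ⟨v / 2, by omega, by omega⟩))
      · exact Or.inl (Or.inr h1)
      · exact Or.inr ⟨(v - 1) / 2, by omega, by omega⟩
  rw [e1, e2] at k
  exact k

private theorem Path4_odd {s m : ℕ} (hm : s = 2 * m + 1) (hs : 40 ≤ s) :
    ∃ γ, s ≤ γ + 1 ∧ Fill s (2 * (s - 2)) s (Icc 2 (2 * s) \ {s, s - 2, s - 3}) γ := by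
  obtain ⟨C, hCd⟩ : ∃ C, C = Icc 1 (m - 2) := ⟨_, rfl⟩
  have hC : #C = m - 2 := by
    rw [hCd, Nat.card_Icc]
    omega
  have k1 : Fill s 1 s {s + 1} (2 - 1) := Fill.single (by omega) (by omega) (by omega)
  have k2 := (fill_alt (fun j => 2 * j) (s := s) (w := 2) (by omega) (by omega) C
    (by
      intro j hj
      rw [hCd, mem_Icc] at hj
      omega)).2
  rcases Nat.mod_two_eq_zero_or_one (#C) with h | h
  · obtain ⟨C', hCd'⟩ : ∃ C', C' = Icc (m + 3) (2 * m) := ⟨_, rfl⟩
    have hC' : #C' = m - 2 := by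
      rw [hCd', Nat.card_Icc]
      omega
    have k3 : Fill s 1 (2 - 1 + #C % 2) {s - 1} (s - 2) :=
      Fill.single (by omega) (by omega) (by omega)
    have k4 : Fill s 2 (s - 2) {s + 2, s + 3} (s - 1) :=
      Fill.pair (by omega) (by omega) (by omega) (by omega) (by omega)
    have k5 : Fill s 2 (s - 1) {s + 4, s + 5} s :=
      Fill.pair (by omega) (by omega) (by omega) (by omega) (by omega)
    have k6 := (fill_alt (fun j => 2 * j + 1) (s := s) (w := s) (by omega) (by omega) C'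
      (by
        intro j hj
        rw [hCd', mem_Icc] at hj
        omega)).1
    refine ⟨s - #C' % 2, by omega, ?_⟩
    have k := ((((k1.append k2).append k3).append k4).append k5).append k6
    have e1 : 1 + 2 * #C + 1 + 2 + 2 + 2 * #C' = 2 * (s - 2) := by omega
    have e2 : {s + 1} ∪ dom (fun j => 2 * j) C ∪ {s - 1} ∪ {s + 2, s + 3} ∪ {s + 4, s + 5} ∪
        dom (fun j => 2 * j + 1) C' = Icc 2 (2 * s) \ {s, s - 2, s - 3} := by
      ext v
      simp only [mem_union, mem_dom, mem_singleton, mem_insert, mem_sdiff, mem_Icc, hCd, hCd']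
      constructor
      · rintro (((((h | ⟨j, hj, h⟩) | h) | h) | h) | ⟨j, hj, h⟩)
        · omega
        · omega
        · omega
        · omega
        · omega
        · omega
      · rintro h
        rcases (show v = s + 1 ∨ (2 ≤ v ∧ v + 4 ≤ s) ∨ v = s - 1 ∨ (v = s + 2 ∨ v = s + 3) ∨
          (v = s + 4 ∨ v = s + 5) ∨ (s + 6 ≤ v ∧ v ≤ 2 * s) by
          omega) with h1 | h1 | h1 | h1 | h1 | h1
        · exact Or.inl (Or.inl (Or.inl (Or.inl (Or.inl h1))))
        · exact Or.inl (Or.inl (Or.inl (Or.inl (Or.inr ⟨v / 2, by omega, by omega⟩))))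
        · exact Or.inl (Or.inl (Or.inl (Or.inr h1)))
        · exact Or.inl (Or.inl (Or.inr h1))
        · exact Or.inl (Or.inr h1)
        · exact Or.inr ⟨(v - 1) / 2, by omega, by omega⟩
    rw [e1, e2] at k
    exact k
  · obtain ⟨C', hCd'⟩ : ∃ C', C' = Icc (m + 4) (2 * m) := ⟨_, rfl⟩
    have hC' : #C' = m - 3 := by
      rw [hCd', Nat.card_Icc]
      omega
    have k3 : Fill s 1 (2 - 1 + #C % 2) {s - 1} (s - 3) :=
      Fill.single (by omega) (by omega) (by omega)
    have k4 : Fill s 2 (s - 3) {s + 2, s + 3} (s - 2) :=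
      Fill.pair (by omega) (by omega) (by omega) (by omega) (by omega)
    have k5 : Fill s 2 (s - 2) {s + 4, s + 5} (s - 1) :=
      Fill.pair (by omega) (by omega) (by omega) (by omega) (by omega)
    have k6 : Fill s 2 (s - 1) {s + 6, s + 7} s :=
      Fill.pair (by omega) (by omega) (by omega) (by omega) (by omega)
    have k7 := (fill_alt (fun j => 2 * j + 1) (s := s) (w := s) (by omega) (by omega) C'
      (by
        intro j hj
        rw [hCd', mem_Icc] at hj
        omega)).1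
    refine ⟨s - #C' % 2, by omega, ?_⟩
    have k := (((((k1.append k2).append k3).append k4).append k5).append k6).append k7
    have e1 : 1 + 2 * #C + 1 + 2 + 2 + 2 + 2 * #C' = 2 * (s - 2) := by omega
    have e2 : {s + 1} ∪ dom (fun j => 2 * j) C ∪ {s - 1} ∪ {s + 2, s + 3} ∪ {s + 4, s + 5} ∪
        {s + 6, s + 7} ∪ dom (fun j => 2 * j + 1) C' = Icc 2 (2 * s) \ {s, s - 2, s - 3} := by
      ext v
      simp only [mem_union, mem_dom, mem_singleton, mem_insert, mem_sdiff, mem_Icc, hCd, hCd']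
      constructor
      · rintro ((((((h | ⟨j, hj, h⟩) | h) | h) | h) | h) | ⟨j, hj, h⟩)
        · omega
        · omega
        · omega
        · omega
        · omega
        · omega
        · omega
      · rintro h
        rcases (show v = s + 1 ∨ (2 ≤ v ∧ v + 4 ≤ s) ∨ v = s - 1 ∨ (v = s + 2 ∨ v = s + 3) ∨
          (v = s + 4 ∨ v = s + 5) ∨ (v = s + 6 ∨ v = s + 7) ∨ (s + 8 ≤ v ∧ v ≤ 2 * s) by
          omega) with h1 | h1 | h1 | h1 | h1 | h1 | h1
        · exact Or.inl (Or.inl (Or.inl (Or.inl (Or.inl (Or.inl h1)))))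
        · exact Or.inl (Or.inl (Or.inl (Or.inl (Or.inl (Or.inr ⟨v / 2, by omega, by omega⟩)))))
        · exact Or.inl (Or.inl (Or.inl (Or.inl (Or.inr h1))))
        · exact Or.inl (Or.inl (Or.inl (Or.inr h1)))
        · exact Or.inl (Or.inl (Or.inr h1))
        · exact Or.inl (Or.inr h1)
        · exact Or.inr ⟨(v - 1) / 2, by omega, by omega⟩
    rw [e1, e2] at k
    exact k

private theorem Path4_card {s u v : ℕ} (h1 : u < v) (h2 : v < s) (h3 : s ≤ u + 4)
    (hs : 40 ≤ s) : #(Icc 2 (2 * s) \ {s, v, u}) = 2 * (s - 2) := by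
  have h4 : ({s, v, u} : Finset ℕ) ⊆ Icc 2 (2 * s) := by
    intro x hx
    rw [mem_insert, mem_insert, mem_singleton] at hx
    rw [mem_Icc]
    omega
  have h5 : #({s, v, u} : Finset ℕ) = 3 :=
    card_eq_three.2 ⟨s, v, u, by omega, by omega, by omega, rfl⟩
  rw [card_sdiff_of_subset h4, h5, Nat.card_Icc]
  omega

/-- A thread with `2 (s - 2)` vertices which starts with the weight `s`; the weighted degrees are all numbers
from `2` to `2 s` except `s`, `u` and `v`. -/
theorem exists_path4 {s : ℕ} (hs : 40 ≤ s) :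
    ∃ (u v : ℕ) (x : ℕ → ℕ), u < v ∧ v < s ∧ s ≤ u + 4 ∧ x 0 = s ∧ s ≤ x (2 * (s - 2)) + 1 ∧
      (∀ i < 2 * (s - 2), 1 ≤ x (i + 1) ∧ x (i + 1) ≤ s ∧ x i + x (i + 1) ≠ s ∧
        x i + x (i + 1) ≠ u ∧ x i + x (i + 1) ≠ v) ∧
      ∀ i < 2 * (s - 2), ∀ j < 2 * (s - 2), x i + x (i + 1) = x j + x (j + 1) → i = j := by
  obtain ⟨u, v, γ, h1, h2, h3, h4, h5⟩ : ∃ u v γ, u < v ∧ v < s ∧ s ≤ u + 4 ∧ s ≤ γ + 1 ∧
      Fill s (2 * (s - 2)) s (Icc 2 (2 * s) \ {s, v, u}) γ := by
    obtain ⟨m, hm | hm⟩ := Nat.even_or_odd' s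
    · exact ⟨s - 2, s - 1, s, by omega, by omega, by omega, by omega, Path4_even hm hs⟩
    · obtain ⟨γ, h1, h2⟩ := Path4_odd hm hs
      exact ⟨s - 3, s - 2, γ, by omega, by omega, by omega, h1, h2⟩
  obtain ⟨x, hx0, hxn, hx, hinj⟩ := h5.exists_inj (Path4_card h1 h2 h3 hs)
  refine ⟨u, v, x, h1, h2, h3, hx0, by rw [hxn]; exact h4, fun i hi => ?_, hinj⟩
  obtain ⟨g1, g2, g3⟩ := hx i hi
  rw [mem_sdiff, mem_insert, mem_insert, mem_singleton] at g3
  exact ⟨g1, g2, by omega, by omega, by omega⟩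

namespace RT

variable {V : Type} [Fintype V] [DecidableEq V] (T : RT V)

private theorem Path4_len {b : V} (h : T.par b ∉ T.D) : T.len b = 0 := by
  by_contra hne
  obtain ⟨v, hv, h1, h2⟩ := T.exists_pos (b := b) (i := 1) le_rfl (Nat.pos_of_ne_zero hne)
  have h3 := T.dn_eq hv
  have h4 : T.chi v ∉ T.D := T.notMem_of_dn (by omega)
  have h5 := T.bot_of_notMem h4
  have h6 := T.bot_eq hv
  have h7 : b = T.chi v := by rw [← h1, h6, h5]
  rw [h7, T.par_chi hv] at h
  exact h hv

/-- The weighting of a rooted tree with four leaves, two of them children of the root, the others children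
of `q`. -/
theorem exists_exact4 {us q y y' z z' : V} (hr : T.ch T.r = {us, z, z'}) (hz : z ∈ T.L)
    (hz' : z' ∈ T.L) (hzz : z ≠ z') (hus : T.bot us = q) (hqc : T.ch q = {y, y'}) (hyy : y ≠ y')
    (hy : y ∈ T.L) (hy' : y' ∈ T.L) (hL : #T.L = 4) (hB : T.B = {q}) {s : ℕ}
    (hs : 4 + #T.D = 2 * s) (hD : 76 ≤ #T.D) :
    ∃ e : V → ℕ, e T.r = 0 ∧ (∀ v, v ≠ T.r → 1 ≤ e v ∧ e v ≤ s) ∧
      Function.Injective (T.w e) := by
  obtain ⟨u, v, x, huv, hvs, hsu, hx0, hxl, hx, hxi⟩ := exists_path4 (s := s) (by omega)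
  have hn : #T.D = 2 * (s - 2) := by omega
  have mz : z ∈ T.ch T.r := by rw [hr]; simp
  have mz' : z' ∈ T.ch T.r := by rw [hr]; simp
  have mus : us ∈ T.ch T.r := by rw [hr]; simp
  have my : y ∈ T.ch q := by rw [hqc]; simp
  have my' : y' ∈ T.ch q := by rw [hqc]; simp
  obtain ⟨z1, z2⟩ := T.mem_ch.1 mz
  obtain ⟨z3, z4⟩ := T.mem_ch.1 mz'
  obtain ⟨u1, u2⟩ := T.mem_ch.1 mus
  obtain ⟨y1, y2⟩ := T.mem_ch.1 my
  obtain ⟨y3, y4⟩ := T.mem_ch.1 my'
  have hqB : q ∈ T.B := by rw [hB]; exact mem_singleton_self q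
  have hqr : q ≠ T.r := (T.mem_B.1 hqB).1
  have hqD : q ∉ T.D := T.B_notMem_D hqB
  have hrD := T.r_notMem_D1
  have hLD : ∀ b ∈ T.L, b ∉ T.D := by
    intro b hb h
    have h1 := (T.mem_L.1 hb).2
    have h2 := (T.mem_D.1 h).2
    rw [h1, card_empty] at h2
    omega
  have hLq : ∀ b ∈ T.L, b ≠ q := by
    intro b hb h
    have h1 := (T.mem_L.1 hb).2
    have h2 := (T.mem_B.1 hqB).2
    rw [h] at h1
    rw [h1, card_empty] at h2
    omega
  have dyz : ∀ a b : V, T.par a = q → T.par b = T.r → a ≠ b := by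
    intro a b h1 h2 h3
    rw [h3, h2] at h1
    exact hqr h1.symm
  have n1 := dyz y z y2 z2
  have n2 := dyz y z' y2 z4
  have n3 := dyz y' z y4 z2
  have n4 := dyz y' z' y4 z4
  have hLe : T.L = {y, y', z, z'} := by
    symm
    refine eq_of_subset_of_card_le ?_ ?_
    · intro b hb
      rw [mem_insert, mem_insert, mem_insert, mem_singleton] at hb
      rcases hb with rfl | rfl | rfl | rfl
      · exact hy
      · exact hy'
      · exact hz
      · exact hz'
    · rw [hL, card_insert_of_notMem, card_insert_of_notMem, card_insert_of_notMem,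
        card_singleton]
      · simpa using hzz
      · simp only [mem_insert, mem_singleton, not_or]
        exact ⟨n3, n4⟩
      · simp only [mem_insert, mem_singleton, not_or]
        exact ⟨hyy, n1, n2⟩
  have hbL : ∀ b ∈ T.L, T.len b = 0 := by
    intro b hb
    refine T.Path4_len ?_
    rw [hLe, mem_insert, mem_insert, mem_insert, mem_singleton] at hb
    rcases hb with rfl | rfl | rfl | rfl
    · rw [y2]
      exact hqD
    · rw [y4]
      exact hqD
    · rw [z2]
      exact hrD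
    · rw [z4]
      exact hrD
  have hNc : ∀ b ∈ T.N, b ∈ T.L ∨ b = q := by
    intro b hb
    rw [T.N_eq, hB, mem_union, mem_singleton] at hb
    exact hb
  have hbD : ∀ b ∈ T.D, T.bot b = q := by
    intro b hb
    rcases hNc _ (T.bot_mem_N (T.mem_D.1 hb).1) with h | h
    · exfalso
      have h1 := T.dn_le_len hb
      have h2 := T.dn_eq hb
      have h3 := hbL _ h
      omega
    · exact h
  have hlen : T.len q = 2 * (s - 2) := by
    rw [← hn]
    unfold RT.len
    rw [filter_true_of_mem hbD]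
  have hdus : T.dn us = 2 * (s - 2) := by
    rw [T.dn_of_par u1 (by rw [u2]; exact hrD), hus, hlen]
  have hdq : T.dn q = 0 := T.dn_of_notMem hqD
  have hbq : T.bot q = q := T.bot_of_notMem hqD
  have hbb : ∀ b ∈ T.L, T.bot b ≠ q := by
    intro b hb
    rw [T.bot_of_notMem (hLD b hb)]
    exact hLq b hb
  have hxr : ∀ i ≤ 2 * (s - 2), 1 ≤ x i ∧ x i ≤ s := by
    intro i hi
    rcases Nat.eq_zero_or_pos i with rfl | h
    · rw [hx0]
      omega
    · have h1 := hx (i - 1) (by omega)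
      rw [show i - 1 + 1 = i from by omega] at h1
      exact ⟨h1.1, h1.2.1⟩
  obtain ⟨e, he⟩ : ∃ e : V → ℕ, e = fun a => if a = T.r then 0 else if a = y then 1 else
      if a = y' then s else if a = z then u else if a = z' then v else x (T.dn a) := ⟨_, rfl⟩
  have er : e T.r = 0 := by
    rw [he]
    exact if_pos rfl
  have ey : e y = 1 := by
    rw [he]
    exact (if_neg y1).trans (if_pos rfl)
  have ey' : e y' = s := by
    rw [he]
    exact (if_neg y3).trans ((if_neg hyy.symm).trans (if_pos rfl))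
  have ez : e z = u := by
    rw [he]
    exact (if_neg z1).trans ((if_neg n1.symm).trans ((if_neg n3.symm).trans (if_pos rfl)))
  have ez' : e z' = v := by
    rw [he]
    exact (if_neg z3).trans ((if_neg n2.symm).trans ((if_neg n4.symm).trans
      ((if_neg hzz.symm).trans (if_pos rfl))))
  have ex : ∀ a, a ≠ T.r → T.bot a = q → e a = x (T.dn a) := by
    intro a ha hb
    have k1 : a ≠ y := fun h => hbb y hy (by rw [← h]; exact hb)
    have k2 : a ≠ y' := fun h => hbb y' hy' (by rw [← h]; exact hb)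
    have k3 : a ≠ z := fun h => hbb z hz (by rw [← h]; exact hb)
    have k4 : a ≠ z' := fun h => hbb z' hz' (by rw [← h]; exact hb)
    rw [he]
    simp only
    rw [if_neg ha, if_neg k1, if_neg k2, if_neg k3, if_neg k4]
  have wL : ∀ b ∈ T.L, T.w e b = e b := by
    intro b hb
    rw [RT.w, RT.c, (T.mem_L.1 hb).2, sum_empty, zero_add]
  have wq : T.w e q = 2 * s + 1 := by
    rw [RT.w, RT.c, hqc, sum_pair hyy, ey, ey', ex q hqr hbq, hdq, hx0]
    omega
  have wr : 2 * s + 1 < T.w e T.r := by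
    have k3 : us ≠ z := fun h => hbb z hz (by rw [← h]; exact hus)
    have k4 : us ≠ z' := fun h => hbb z' hz' (by rw [← h]; exact hus)
    have k5 : us ∉ ({z, z'} : Finset V) := by
      simp only [mem_insert, mem_singleton, not_or]
      exact ⟨k3, k4⟩
    rw [RT.w, RT.c, hr, sum_insert k5, sum_pair hzz, ez, ez', er, ex us u1 hus, hdus]
    omega
  have wD : ∀ a ∈ T.D, T.dn a - 1 < 2 * (s - 2) ∧ 0 < T.dn a ∧
      T.w e a = x (T.dn a - 1) + x (T.dn a - 1 + 1) := by
    intro a ha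
    have h1 := T.dn_le_len ha
    have h2 := T.dn_eq ha
    have h3 := hbD a ha
    rw [h3, hlen] at h1
    have h4 : T.bot (T.chi a) = q := by rw [← T.bot_eq ha, h3]
    refine ⟨by omega, by omega, ?_⟩
    rw [RT.w, RT.c, T.ch_eq ha, sum_singleton, ex _ (T.chi_ne ha) h4,
      ex a (T.mem_D.1 ha).1 h3, show T.dn a - 1 = T.dn (T.chi a) from by omega, ← h2]
  have val : ∀ a, (a = T.r ∧ 2 * s + 1 < T.w e a) ∨ (a = q ∧ T.w e a = 2 * s + 1) ∨
      (a = y ∧ T.w e a = 1) ∨ (a = y' ∧ T.w e a = s) ∨ (a = z ∧ T.w e a = u) ∨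
      (a = z' ∧ T.w e a = v) ∨ (a ∈ T.D ∧ 2 ≤ T.w e a ∧ T.w e a ≤ 2 * s ∧ T.w e a ≠ s ∧
        T.w e a ≠ u ∧ T.w e a ≠ v) := by
    intro a
    by_cases h1 : a = T.r
    · left
      rw [h1]
      exact ⟨rfl, wr⟩
    right
    by_cases h2 : a ∈ T.D
    · right; right; right; right; right
      obtain ⟨g1, g2, g3⟩ := wD a h2
      have g4 := hx _ g1
      have g5 := hxr (T.dn a - 1) (by omega)
      rw [g3]
      exact ⟨h2, by omega, by omega, by omega, by omega, by omega⟩
    rcases hNc a (T.mem_N.2 ⟨h1, h2⟩) with h3 | h3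
    · right
      have h4 := wL a h3
      rw [hLe, mem_insert, mem_insert, mem_insert, mem_singleton] at h3
      rcases h3 with rfl | rfl | rfl | rfl
      · left
        exact ⟨rfl, by rw [h4, ey]⟩
      · right; left
        exact ⟨rfl, by rw [h4, ey']⟩
      · right; right; left
        exact ⟨rfl, by rw [h4, ez]⟩
      · right; right; right; left
        exact ⟨rfl, by rw [h4, ez']⟩
    · left
      rw [h3]
      exact ⟨rfl, wq⟩
  refine ⟨e, er, ?_, ?_⟩
  · intro a ha
    by_cases h2 : a ∈ T.D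
    · have h3 := hbD a h2
      have h1 := T.dn_le_len h2
      rw [h3, hlen] at h1
      rw [ex a ha h3]
      exact hxr _ h1
    rcases hNc a (T.mem_N.2 ⟨ha, h2⟩) with h3 | h3
    · rw [hLe, mem_insert, mem_insert, mem_insert, mem_singleton] at h3
      rcases h3 with h3 | h3 | h3 | h3
      · rw [h3, ey]
        omega
      · rw [h3, ey']
        omega
      · rw [h3, ez]
        omega
      · rw [h3, ez']
        omega
    · rw [h3, ex q hqr hbq, hdq, hx0]
      omega
  · intro a b hab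
    by_cases hDD : a ∈ T.D ∧ b ∈ T.D
    · obtain ⟨h1, h2⟩ := hDD
      obtain ⟨g1, g2, g3⟩ := wD a h1
      obtain ⟨g4, g5, g6⟩ := wD b h2
      rw [g3, g6] at hab
      have h3 := hxi _ g1 _ g4 hab
      exact T.dn_bot_inj h1 h2 (by rw [hbD a h1, hbD b h2]) (by omega)
    · rcases val a with ⟨h1, h2⟩ | ⟨h1, h2⟩ | ⟨h1, h2⟩ | ⟨h1, h2⟩ | ⟨h1, h2⟩ | ⟨h1, h2⟩ | ⟨h1, h2⟩ <;>
      rcases val b with ⟨g1, g2⟩ | ⟨g1, g2⟩ | ⟨g1, g2⟩ | ⟨g1, g2⟩ | ⟨g1, g2⟩ | ⟨g1, g2⟩ | ⟨g1, g2⟩ <;>
      first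
        | exact h1.trans g1.symm
        | (exfalso; omega)
        | exact absurd ⟨h1, g1⟩ hDD

end RT

end Pool.Agent.H.MP_936c16_co
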