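import Pool.Agent.H.MP_936c16_co.Exact3
import Pool.Agent.H.MP_936c16_co.Path4
import Pool.Agent.H.MP_936c16_co.Gr3

/-!
The trees in which all neighbours of leaves have degree three.
-/

set_option autoImplicit false

namespace Pool.Agent.H.MP_936c16_co

open Finset

variable {V : Type} [Fintype V] [DecidableEq V] {G : SimpleGraph V} [DecidableRel G.Adj]

private theorem gr5_L (hG : G.IsTree) {r : V} (hr : 3 ≤ G.degree r) :
    #(rt hG r).L = cnt G 1 := by
  rw [cnt]
  congr 1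
  ext v
  rw [RT.mem_L, mem_filter]
  by_cases hv : v = r
  · rw [hv]
    constructor
    · rintro ⟨h5, -⟩
      exact absurd rfl h5
    · rintro ⟨-, h5⟩
      omega
  · rw [degree_of_ne hG hv]
    constructor
    · rintro ⟨-, h5⟩
      refine ⟨mem_univ _, ?_⟩
      rw [h5, card_empty]
    · rintro ⟨-, h5⟩
      refine ⟨hv, ?_⟩
      rw [← card_eq_zero]
      omega

private theorem gr5_D (hG : G.IsTree) {r : V} (hr : 3 ≤ G.degree r) :
    #(rt hG r).D = cnt G 2 := by
  rw [cnt]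
  congr 1
  ext v
  rw [RT.mem_D, mem_filter]
  by_cases hv : v = r
  · rw [hv]
    constructor
    · rintro ⟨h5, -⟩
      exact absurd rfl h5
    · rintro ⟨-, h5⟩
      omega
  · rw [degree_of_ne hG hv]
    constructor
    · rintro ⟨-, h5⟩
      exact ⟨mem_univ _, by omega⟩
    · rintro ⟨-, h5⟩
      exact ⟨hv, by omega⟩

private theorem gr5_deg (hG : G.IsTree) {r v : V} (hv : v ∈ (rt hG r).D) : G.degree v = 2 := by
  obtain ⟨h1, h2⟩ := (RT.mem_D _).1 hv
  rw [degree_of_ne (r := r) hG h1, h2]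

/-- a path `w 0, w 1, ..., w (m + 1)` whose vertices `w 1, ..., w m` have degree two is a thread of the tree
with the root `w 0` -/
private theorem gr5_path (hG : G.IsTree) {m : ℕ} (w : ℕ → V)
    (hdeg : ∀ j, 1 ≤ j → j ≤ m → G.degree (w j) = 2)
    (hadj : ∀ j, j ≤ m → G.Adj (w j) (w (j + 1)))
    (hne : ∀ j, 1 ≤ j → j ≤ m → w (j + 1) ≠ w (j - 1)) :
    w 1 ∈ (rt hG (w 0)).ch (w 0) ∧ m ≤ (rt hG (w 0)).dn (w 1) := by
  have h1 : ∀ j, j ≤ m → w (j + 1) ∈ (rt hG (w 0)).ch (w j) := by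
    intro j
    induction j with
    | zero =>
      intro _
      rw [← nbr_root hG, SimpleGraph.mem_neighborFinset]
      exact hadj 0 (Nat.zero_le _)
    | succ j ih =>
      intro hj
      have h2 := (RT.mem_ch _).1 (ih (by omega))
      have h3 : w (j + 1 + 1) ∈ G.neighborFinset (w (j + 1)) := by
        rw [SimpleGraph.mem_neighborFinset]
        exact hadj (j + 1) hj
      rw [nbr_of_ne (r := w 0) hG h2.1, mem_insert, h2.2] at h3
      exact h3.resolve_left (hne (j + 1) (by omega) hj)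
  refine ⟨h1 0 (Nat.zero_le _), ?_⟩
  have h4 : ∀ j, j ≤ m → (rt hG (w 0)).dn (w 1) = (rt hG (w 0)).dn (w (j + 1)) + j := by
    intro j
    induction j with
    | zero =>
      intro _
      rfl
    | succ j ih =>
      intro hj
      have h2 := (RT.mem_ch _).1 (h1 j (by omega))
      have h5 := hdeg (j + 1) (by omega) hj
      rw [degree_of_ne (r := w 0) hG h2.1] at h5
      have h6 : w (j + 1) ∈ (rt hG (w 0)).D := (RT.mem_D _).2 ⟨h2.1, by omega⟩
      have h7 := h1 (j + 1) hj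
      rw [(rt hG (w 0)).ch_eq h6, mem_singleton] at h7
      have h8 := (rt hG (w 0)).dn_eq h6
      rw [← h7] at h8
      rw [ih (by omega), h8]
      omega
  have h9 := h4 m le_rfl
  omega

/-- a thread with at least 34 vertices ends at a vertex of degree at least three -/
private theorem gr5_root (hG : G.IsTree) (h3 : 3 ≤ cnt G 1) (hC : 70 * cnt G 1 ≤ cnt G 2) :
    ∃ r, 3 ≤ G.degree r ∧ ∃ u ∈ (rt hG r).ch r, 34 ≤ (rt hG r).len ((rt hG r).bot u) := by
  obtain ⟨r₀, hr₀⟩ := exists_branch hG h3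
  have hL := gr5_L hG hr₀
  have hD := gr5_D hG hr₀
  -- a long thread
  obtain ⟨b, -, hb⟩ : ∃ b ∈ (rt hG r₀).N, 34 ≤ (rt hG r₀).len b := by
    by_contra hcon
    push Not at hcon
    have h1 := (rt hG r₀).sum_len
    have h2 : ∑ b ∈ (rt hG r₀).N, (rt hG r₀).len b ≤ ∑ _b ∈ (rt hG r₀).N, 33 :=
      sum_le_sum fun b hb => by
        have := hcon b hb
        omega
    rw [sum_const, smul_eq_mul] at h2
    have h4 := (rt hG r₀).card_B_ch
    have h5 : #(rt hG r₀).N = #(rt hG r₀).L + #(rt hG r₀).B := by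
      rw [(rt hG r₀).N_eq, card_union_of_disjoint (rt hG r₀).disjoint_L_B]
    omega
  obtain ⟨v₀, hv₀, hbot, hdn⟩ := (rt hG r₀).exists_pos (b := b) (i := (rt hG r₀).len b)
    (by omega) le_rfl
  have hv₀r : v₀ ≠ r₀ := ((RT.mem_D _).1 hv₀).1
  have hv₀ch : v₀ ∈ (rt hG r₀).ch ((rt hG r₀).par v₀) := (RT.mem_ch _).2 ⟨hv₀r, rfl⟩
  have hp : (rt hG r₀).par v₀ ∉ (rt hG r₀).D := by
    intro hp
    have h1 : v₀ = (rt hG r₀).chi ((rt hG r₀).par v₀) := by
      have h2 := hv₀ch
      rw [(rt hG r₀).ch_eq hp, mem_singleton] at h2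
      exact h2
    have h2 := (rt hG r₀).dn_le_len hp
    rw [(rt hG r₀).dn_eq hp, (rt hG r₀).bot_eq hp, ← h1, hbot, hdn] at h2
    omega
  have hdeg : 3 ≤ G.degree ((rt hG r₀).par v₀) := by
    by_cases h1 : (rt hG r₀).par v₀ = r₀
    · rw [h1]
      exact hr₀
    · have h2 := card_pos.2 ⟨v₀, hv₀ch⟩
      have h4 : #((rt hG r₀).ch ((rt hG r₀).par v₀)) ≠ 1 := fun h5 =>
        hp ((RT.mem_D _).2 ⟨h1, h5⟩)
      rw [degree_of_ne hG h1]
      omega
  -- the vertices of the thread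
  obtain ⟨w, hw⟩ : ∃ w : ℕ → V, w = fun j => if j = 0 then (rt hG r₀).par v₀ else
      (rt hG r₀).chi^[j - 1] v₀ := ⟨_, rfl⟩
  have hw0 : w 0 = (rt hG r₀).par v₀ := by
    rw [hw]
    exact if_pos rfl
  have hwj : ∀ j, w (j + 1) = (rt hG r₀).chi^[j] v₀ := by
    intro j
    rw [hw]
    exact if_neg (Nat.succ_ne_zero j)
  have hwD : ∀ j, j < 34 → w (j + 1) ∈ (rt hG r₀).D := by
    intro j hj
    rw [hwj]
    have h1 := ((rt hG r₀).iter_chi v₀ j (by omega)).1
    exact (rt hG r₀).mem_of_dn_ne (by omega)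
  have hws : ∀ j, w (j + 1 + 1) = (rt hG r₀).chi (w (j + 1)) := by
    intro j
    rw [hwj, hwj, Function.iterate_succ_apply']
  have hw1 : w 1 = v₀ := hwj 0
  have hadj : ∀ j, j ≤ 34 → G.Adj (w j) (w (j + 1)) := by
    intro j hj
    rcases j with _ | j
    · rw [hw0, hw1]
      exact (adj_par hG hv₀r).symm
    · have h1 := hwD j (by omega)
      have h2 := adj_par hG (r := r₀) ((rt hG r₀).chi_ne h1)
      rw [(rt hG r₀).par_chi h1] at h2
      rw [hws]
      exact h2.symm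
  have hht : ∀ j, j ≤ 34 → (rt hG r₀).ht (w j) < (rt hG r₀).ht (w (j + 1)) := by
    intro j hj
    rcases j with _ | j
    · rw [hw0, hw1]
      exact (rt hG r₀).lt v₀ hv₀r
    · rw [hws]
      exact (rt hG r₀).ht_chi (hwD j (by omega))
  obtain ⟨h1, h2⟩ := gr5_path hG (m := 34) w
    (fun j hj1 hj2 => by
      obtain ⟨i, rfl⟩ : ∃ i, j = i + 1 := ⟨j - 1, by omega⟩
      exact gr5_deg hG (hwD i (by omega)))
    hadj
    (fun j hj1 hj2 h => by
      obtain ⟨i, rfl⟩ : ∃ i, j = i + 1 := ⟨j - 1, by omega⟩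
      have h4 := hht i (by omega)
      have h5 := hht (i + 1) hj2
      rw [h, Nat.add_sub_cancel] at h5
      omega)
  rw [← hw0] at hdeg
  refine ⟨w 0, hdeg, w 1, h1, ?_⟩
  exact h2.trans ((rt hG (w 0)).dn_le_len ((rt hG (w 0)).mem_of_dn_ne (by omega)))

private theorem gr5_ht (T : RT V) : ∀ (n : ℕ) (v : V), T.dn v = n → T.ht v ≤ T.ht (T.bot v) := by
  intro n
  induction n with
  | zero =>
    intro v hv
    rw [T.bot_of_notMem (T.notMem_of_dn hv)]
  | succ n ih =>
    intro v hv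
    have h1 : v ∈ T.D := T.mem_of_dn_ne (by omega)
    have h2 := T.dn_eq h1
    have h3 := ih (T.chi v) (by omega)
    have h4 := T.ht_chi h1
    rw [T.bot_eq h1]
    omega

private theorem gr5_lt (T : RT V) {x v : V} (h : v ∈ T.ch x) : T.ht x < T.ht (T.bot v) := by
  have h1 := (T.mem_ch.1 h)
  have h2 := T.lt v h1.1
  have h3 := gr5_ht T _ v rfl
  rw [h1.2] at h2
  omega

/-- the parent of a leaf has degree three -/
private theorem gr5_par (hG : G.IsTree) (hE : ∀ y q : V, G.degree y = 1 → G.Adj y q → G.degree q = 3)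
    {r v : V} (hv : v ∈ (rt hG r).L) : G.degree ((rt hG r).par v) = 3 := by
  obtain ⟨h1, h2⟩ := (RT.mem_L _).1 hv
  refine hE v _ ?_ (adj_par (r := r) hG h1)
  rw [degree_of_ne (r := r) hG h1, h2, card_empty]

/-- there is no thread above a leaf -/
private theorem gr5_leaf (hG : G.IsTree) (hE : ∀ y q : V, G.degree y = 1 → G.Adj y q → G.degree q = 3)
    {r v : V} (hv : v ≠ r) : v ∈ (rt hG r).L ∨ (rt hG r).bot v ∈ (rt hG r).B := by
  have h1 := (rt hG r).bot_mem_N (v := v) hv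
  rw [(rt hG r).N_eq, mem_union] at h1
  rcases h1 with h1 | h1
  · left
    by_cases h2 : v ∈ (rt hG r).D
    · exfalso
      have h3 := (rt hG r).dn_le_len h2
      have h4 := (rt hG r).dn_eq h2
      have h5 := (rt hG r).bot_notMem v
      have h6 : (rt hG r).par ((rt hG r).bot v) ∈ (rt hG r).D := by
        refine (rt hG r).par_mem ((rt hG r).bot_ne hv) ?_
        rw [(rt hG r).dn_of_notMem h5, (rt hG r).bot_of_notMem h5]
        omega
      have h7 := gr5_deg hG h6
      have h8 := gr5_par hG hE h1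
      omega
    · rw [(rt hG r).bot_of_notMem h2] at h1
      exact h1
  · exact Or.inr h1

private theorem gr5_notMem (T : RT V) {x : V} (h : x = T.r ∨ x ∈ T.B) : x ∉ T.D := by
  intro h1
  have h2 := T.mem_D.1 h1
  rcases h with h | h
  · exact h2.1 h
  · have h3 := T.mem_B.1 h
    omega

/-- the upper end of a thread -/
private theorem gr5_top (T : RT V) {x v us : V} (hus : us ∈ T.ch T.r) (hlen : 34 ≤ T.len (T.bot us))
    (hv : v ∈ T.ch x) (hx : x = T.r ∨ x ∈ T.B) (h : T.bot v = T.bot us) : v = us := by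
  have key : ∀ u y, u ∈ T.ch y → (y = T.r ∨ y ∈ T.B) → T.bot u = T.bot us →
      T.dn u = T.len (T.bot us) := by
    intro u y hu hy hb
    have h1 := T.mem_ch.1 hu
    have h2 : ¬ T.dn u < T.len (T.bot u) := by
      intro h3
      have h4 := T.par_mem h1.1 h3
      rw [h1.2] at h4
      exact gr5_notMem T hy h4
    rw [hb] at h2
    have h3 : u ∈ T.D := T.mem_of_dn_ne (by omega)
    have h4 := T.dn_le_len h3
    rw [hb] at h4
    omega
  exact T.dn_bot_inj' _ v us (key v x hv hx h) (key us T.r hus (Or.inl rfl) rfl) h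

/-- a vertex which is not in a thread and has a leaf as a child -/
private theorem gr5_two (hG : G.IsTree) (hE : ∀ y q : V, G.degree y = 1 → G.Adj y q → G.degree q = 3)
    {r q : V} (hq : q ∈ (rt hG r).B) (hc : ∀ v ∈ (rt hG r).ch q, v ∈ (rt hG r).L) :
    ∃ y y', (rt hG r).ch q = {y, y'} ∧ y ≠ y' ∧ y ∈ (rt hG r).L ∧ y' ∈ (rt hG r).L := by
  obtain ⟨h1, h2⟩ := (RT.mem_B _).1 hq
  obtain ⟨v, hv⟩ : ((rt hG r).ch q).Nonempty := card_pos.1 (by omega)
  have h3 := gr5_par hG hE (hc v hv)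
  rw [((RT.mem_ch _).1 hv).2, degree_of_ne (r := r) hG h1] at h3
  obtain ⟨y, y', hyy, hy⟩ := card_eq_two.1 (show #((rt hG r).ch q) = 2 by omega)
  refine ⟨y, y', hy, hyy, hc y ?_, hc y' ?_⟩
  · rw [hy]
    exact mem_insert_self _ _
  · rw [hy]
    exact mem_insert_of_mem (mem_singleton_self _)

/-- the tree with four leaves -/
private theorem gr5_four (hG : G.IsTree) (hE : ∀ y q : V, G.degree y = 1 → G.Adj y q → G.degree q = 3)
    {r us : V} (hr : 3 ≤ G.degree r) (hus : us ∈ (rt hG r).ch r)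
    (hlen : 34 ≤ (rt hG r).len ((rt hG r).bot us))
    (hB : (rt hG r).B = {(rt hG r).bot us}) :
    ∃ y y' z z' : V, (rt hG r).ch r = {us, z, z'} ∧ z ∈ (rt hG r).L ∧
      z' ∈ (rt hG r).L ∧ z ≠ z' ∧ us ≠ z ∧ us ≠ z' ∧
      (rt hG r).ch ((rt hG r).bot us) = {y, y'} ∧ y ≠ y' ∧
      y ∈ (rt hG r).L ∧ y' ∈ (rt hG r).L ∧ #(rt hG r).L ≤ 4 := by
  have hbB : (rt hG r).bot us ∈ (rt hG r).B := by
    rw [hB]
    exact mem_singleton_self _
  obtain ⟨y, y', h1, h2, h3, h4⟩ := gr5_two hG hE hbB (by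
    intro v hv
    rcases gr5_leaf (r := r) hG hE ((RT.mem_ch _).1 hv).1 with h5 | h5
    · exact h5
    · exfalso
      rw [hB, mem_singleton] at h5
      have h6 := gr5_lt (rt hG r) hv
      rw [h5] at h6
      omega)
  have husL : us ∉ (rt hG r).L := by
    intro h5
    have h6 : us ∉ (rt hG r).D := by
      intro h7
      have h8 := ((RT.mem_D _).1 h7).2
      rw [((RT.mem_L _).1 h5).2, card_empty] at h8
      omega
    have h9 := hbB
    rw [(rt hG r).bot_of_notMem h6] at h9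
    exact disjoint_left.1 (rt hG r).disjoint_L_B h5 h9
  have hch : ∀ v ∈ (rt hG r).ch r, v ≠ us → v ∈ (rt hG r).L := by
    intro v hv hvu
    rcases gr5_leaf (r := r) hG hE ((RT.mem_ch _).1 hv).1 with h5 | h5
    · exact h5
    · exfalso
      rw [hB, mem_singleton] at h5
      exact hvu (gr5_top (rt hG r) hus hlen hv (Or.inl rfl) h5)
  have hr3 := hr
  rw [degree_root hG] at hr3
  have h5 : #(((rt hG r).ch r).erase us) = #((rt hG r).ch r) - 1 := card_erase_of_mem hus
  obtain ⟨v, hv⟩ : (((rt hG r).ch r).erase us).Nonempty := card_pos.1 (by omega)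
  rw [mem_erase] at hv
  have h6 := gr5_par hG hE (hch v hv.2 hv.1)
  rw [((RT.mem_ch _).1 hv.2).2, degree_root hG] at h6
  obtain ⟨z, z', hzz, hz⟩ := card_eq_two.1 (show #(((rt hG r).ch r).erase us) = 2 by omega)
  have hz1 : z ∈ ((rt hG r).ch r).erase us := by
    rw [hz]
    exact mem_insert_self _ _
  have hz2 : z' ∈ ((rt hG r).ch r).erase us := by
    rw [hz]
    exact mem_insert_of_mem (mem_singleton_self _)
  rw [mem_erase] at hz1 hz2
  refine ⟨y, y', z, z', ?_, hch z hz1.2 hz1.1, hch z' hz2.2 hz2.1, hzz, hz1.1.symm, hz2.1.symm,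
    h1, h2, h3, h4, ?_⟩
  · rw [← hz, insert_erase hus]
  · have h7 : (rt hG r).L ⊆ ((rt hG r).ch r).erase us ∪ (rt hG r).ch ((rt hG r).bot us) := by
      intro v hv
      have h8 := ((RT.mem_L _).1 hv).1
      have h9 := gr5_par hG hE hv
      rw [mem_union, mem_erase]
      by_cases h10 : (rt hG r).par v = r
      · refine Or.inl ⟨fun h11 => husL ?_, (RT.mem_ch _).2 ⟨h8, h10⟩⟩
        rw [← h11]
        exact hv
      · right
        rw [degree_of_ne hG h10] at h9
        have h11 : (rt hG r).par v ∈ (rt hG r).B := (RT.mem_B _).2 ⟨h10, by omega⟩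
        rw [hB, mem_singleton] at h11
        exact (RT.mem_ch _).2 ⟨h8, h11⟩
    have h8 := (card_le_card h7).trans (card_union_le _ _)
    rw [hz, h1, card_pair hzz, card_pair h2] at h8
    exact h8

/-- the lower end of a long thread -/
private theorem gr5_bot (hG : G.IsTree) (hE : ∀ y q : V, G.degree y = 1 → G.Adj y q → G.degree q = 3)
    {r us : V} (hus : us ∈ (rt hG r).ch r) (hlen : 34 ≤ (rt hG r).len ((rt hG r).bot us)) :
    (rt hG r).bot us ∈ (rt hG r).B := by
  have h0 := ((RT.mem_ch _).1 hus).1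
  rcases gr5_leaf (r := r) hG hE h0 with h1 | h1
  · exfalso
    have h2 : us ∉ (rt hG r).D := by
      intro h7
      have h8 := ((RT.mem_D _).1 h7).2
      rw [((RT.mem_L _).1 h1).2, card_empty] at h8
      omega
    rw [(rt hG r).bot_of_notMem h2] at hlen
    have h3 : (rt hG r).par us ∈ (rt hG r).D := by
      refine (rt hG r).par_mem h0 ?_
      rw [(rt hG r).dn_of_notMem h2, (rt hG r).bot_of_notMem h2]
      omega
    exact gr5_notMem (rt hG r) (Or.inl ((RT.mem_ch _).1 hus).2) h3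
  · exact h1

/-- A root for a tree with at least five leaves. -/
theorem exists_root5 (hG : G.IsTree) (h5 : 5 ≤ cnt G 1) (hC : 70 * cnt G 1 ≤ cnt G 2)
    (hE : ∀ y q : V, G.degree y = 1 → G.Adj y q → G.degree q = 3) :
    ∃ r us q y y' : V, 3 ≤ G.degree r ∧ us ∈ (rt hG r).ch r ∧
      34 ≤ (rt hG r).len ((rt hG r).bot us) ∧ (rt hG r).bot us ∈ (rt hG r).B ∧
      (rt hG r).bot us ≠ q ∧ q ∈ (rt hG r).B ∧ (rt hG r).ch q = {y, y'} ∧ y ≠ y' ∧
      y ∈ (rt hG r).L ∧ y' ∈ (rt hG r).L := by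
  obtain ⟨r, hr, us, hus, hlen⟩ := gr5_root hG (by omega) hC
  have hb := gr5_bot hG hE hus hlen
  have hL := gr5_L hG hr
  by_cases hne : ((rt hG r).B.erase ((rt hG r).bot us)).Nonempty
  · obtain ⟨q, hq, hmax⟩ := exists_max_image _ (rt hG r).ht hne
    rw [mem_erase] at hq
    obtain ⟨y, y', h1, h2, h3, h4⟩ := gr5_two hG hE hq.2 (by
      intro v hv
      rcases gr5_leaf (r := r) hG hE ((RT.mem_ch _).1 hv).1 with h6 | h6
      · exact h6
      · exfalso
        by_cases h7 : (rt hG r).bot v = (rt hG r).bot us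
        · have h8 := gr5_top (rt hG r) hus hlen hv (Or.inr hq.2) h7
          rw [h8, RT.mem_ch] at hv
          rw [RT.mem_ch] at hus
          have h9 := ((RT.mem_B _).1 hq.2).1
          exact h9 (hv.2.symm.trans hus.2)
        · have h8 := hmax _ (mem_erase.2 ⟨h7, h6⟩)
          have h9 := gr5_lt (rt hG r) hv
          omega)
    exact ⟨r, us, q, y, y', hr, hus, hlen, hb, fun h => hq.1 h.symm, hq.2, h1, h2, h3, h4⟩
  · exfalso
    rw [not_nonempty_iff_eq_empty] at hne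
    have hB : (rt hG r).B = {(rt hG r).bot us} := by
      rw [← insert_erase hb, hne, insert_empty_eq]
    obtain ⟨y, y', z, z', -, -, -, -, -, -, -, -, -, -, h1⟩ := gr5_four hG hE hr hus hlen hB
    omega

/-- A root for a tree with four leaves. -/
theorem exists_root4 (hG : G.IsTree) (h4 : 3 ≤ cnt G 1) (h4' : cnt G 1 ≤ 4)
    (hC : 70 * cnt G 1 ≤ cnt G 2)
    (hE : ∀ y q : V, G.degree y = 1 → G.Adj y q → G.degree q = 3) :
    ∃ r us q y y' z z' : V, (rt hG r).ch r = {us, z, z'} ∧ z ∈ (rt hG r).L ∧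
      z' ∈ (rt hG r).L ∧ z ≠ z' ∧ us ≠ z ∧ us ≠ z' ∧ (rt hG r).bot us = q ∧
      (rt hG r).ch q = {y, y'} ∧ y ≠ y' ∧
      y ∈ (rt hG r).L ∧ y' ∈ (rt hG r).L ∧ #(rt hG r).L = 4 ∧ (rt hG r).B = {q} := by
  obtain ⟨r, hr, us, hus, hlen⟩ := gr5_root hG h4 hC
  have hb := gr5_bot hG hE hus hlen
  have hL := gr5_L hG hr
  have h1 := (rt hG r).card_B_ch
  have h2 : 3 ≤ #((rt hG r).ch r) := by
    rw [← degree_root hG]
    exact hr
  have h3 := card_pos.2 ⟨_, hb⟩
  have h1' : #(rt hG r).B + #((rt hG r).ch r) ≤ #(rt hG r).L := h1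
  obtain ⟨b, hB⟩ := card_eq_one.1 (show #(rt hG r).B = 1 by omega)
  have hbb : (rt hG r).bot us = b := by
    rw [hB, mem_singleton] at hb
    exact hb
  rw [← hbb] at hB
  obtain ⟨y, y', z, z', h5, h6, h7, h8, h9, h10, h11, h12, h13, h14, h15⟩ :=
    gr5_four hG hE hr hus hlen hB
  exact ⟨r, us, _, y, y', z, z', h5, h6, h7, h8, h9, h10, rfl, h11, h12, h13, h14, by omega, hB⟩

/-- If `n₁ + n₂ = 2 s` and all neighbours of leaves have degree three, then there is an irregular weighting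
with the numbers `1, …, s`. -/
theorem exists_weighting5 (hG : G.IsTree) (h3 : 3 ≤ cnt G 1) (hC : 70 * cnt G 1 ≤ cnt G 2)
    {s : ℕ} (hs : cnt G 1 + cnt G 2 = 2 * s)
    (hE : ∀ y q : V, G.degree y = 1 → G.Adj y q → G.degree q = 3) :
    ∃ w : V → V → ℕ, (∀ u v : V, G.Adj u v → 1 ≤ w u v ∧ w u v ≤ s ∧ w u v = w v u) ∧
      Function.Injective (fun v : V => ∑ u ∈ G.neighborFinset v, w v u) := by
  rcases Nat.lt_or_ge (cnt G 1) 5 with h | h
  · obtain ⟨r, us, q, y, y', z, z', h1, h2, h4, h5, h6, h7, h8, h9, h10, h11, h12, h13, h14⟩ :=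
      exists_root4 hG h3 (by omega) hC hE
    have hr : 3 ≤ G.degree r := by
      rw [degree_root hG, h1, card_eq_three.2 ⟨us, z, z', h6, h7, h5, rfl⟩]
    have hL := gr5_L hG hr
    have hD := gr5_D hG hr
    obtain ⟨e, he0, he, hinj⟩ := (rt hG r).exists_exact4 (s := s) h1 h2 h4 h5 h8 h9 h10 h11 h12 h13
      h14 (by omega) (by omega)
    exact weighting_of_e hG he0 he hinj
  · obtain ⟨r, us, q, y, y', hr, h1, h2, h4, h5, h6, h7, h8, h9, h10⟩ := exists_root5 hG h hC hE
    have hL := gr5_L hG hr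
    have hD := gr5_D hG hr
    obtain ⟨e, he0, he, hinj⟩ := (rt hG r).exists_exact3 (s := s) h1 h2 h4 h5 h6 h7 h8 h9 h10
      (by rw [degree_root hG] at hr; exact hr) (by omega) (by omega)
    exact weighting_of_e hG he0 he hinj

end Pool.Agent.H.MP_936c16_co
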