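import Mathlib

/-!
Rooted trees and the greedy weighting.

`r` is the root, `par v` the parent of `v ≠ r`, `ht` the height. `e v` is the weight of the edge from `v` to its
parent. The weights `a` of the leaves are given, those of the leaves not at the root are distinct numbers in
`(m, M]`. The inner vertices are treated from the leaves to the root; each gets the largest free weighted degree
which is at most `M` + (sum of the weights of the edges to the children), and this is always greater than `M`.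
-/

set_option autoImplicit false

namespace Pool.Agent.H.MP_936c16_co

open Finset

/-- A rooted tree. -/
structure RT (V : Type) where
  r : V
  par : V → V
  ht : V → ℕ
  lt : ∀ v, v ≠ r → ht (par v) < ht v

namespace RT

variable {V : Type} [Fintype V] [DecidableEq V] (T : RT V)

/-- the children of `v` -/
def ch (v : V) : Finset V := univ.filter fun u => u ≠ T.r ∧ T.par u = v

/-- the leaves (except possibly the root) -/
def L : Finset V := univ.filter fun v => v ≠ T.r ∧ T.ch v = ∅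

/-- the inner vertices except the root -/
def I : Finset V := univ.filter fun v => v ≠ T.r ∧ T.ch v ≠ ∅

/-- the vertices except the root with exactly one child -/
def D : Finset V := univ.filter fun v => v ≠ T.r ∧ #(T.ch v) = 1

theorem mem_ch {u v : V} : u ∈ T.ch v ↔ u ≠ T.r ∧ T.par u = v := by
  simp [ch]

theorem mem_L {v : V} : v ∈ T.L ↔ v ≠ T.r ∧ T.ch v = ∅ := by
  simp [L]

theorem mem_I {v : V} : v ∈ T.I ↔ v ≠ T.r ∧ T.ch v ≠ ∅ := by
  simp [I]

theorem mem_D {v : V} : v ∈ T.D ↔ v ≠ T.r ∧ #(T.ch v) = 1 := by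
  simp [D]

/-- the sum of the weights of the edges to the children -/
def c (e : V → ℕ) (v : V) : ℕ := ∑ u ∈ T.ch v, e u

/-- the weighted degree (if `e` of the root is `0`) -/
def w (e : V → ℕ) (v : V) : ℕ := T.c e v + e v

theorem le_c (e : V → ℕ) {u v : V} (h : u ∈ T.ch v) : e u ≤ T.c e v :=
  single_le_sum (f := e) (fun _ _ => Nat.zero_le _) h

/-- number of inner vertices -/
theorem card_I_le : #T.I + #(T.ch T.r) ≤ #T.L + #T.D := by
  have h1 : ∑ v, #(T.ch v) = #(univ.filter fun v => v ≠ T.r) := by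
    rw [← card_biUnion]
    · congr 1
      ext u
      simp [mem_ch]
    · intro x _ y _ hxy
      rw [Function.onFun, disjoint_left]
      intro u hu hu'
      rw [mem_ch] at hu hu'
      exact hxy (hu.2.symm.trans hu'.2)
  have h2 : (univ.filter fun v => v ≠ T.r) = T.L ∪ T.I := by
    ext v
    simp only [mem_filter, mem_univ, true_and, mem_union, mem_L, mem_I]
    tauto
  have h3 : Disjoint T.L T.I := by
    rw [disjoint_left]
    intro v hv hv'
    rw [mem_L] at hv
    rw [mem_I] at hv'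
    exact hv'.2 hv.2
  rw [h2, card_union_of_disjoint h3] at h1
  have h4 : T.I ⊆ univ.erase T.r := by
    intro v hv
    rw [mem_I] at hv
    simp [hv.1]
  have h5 : ∑ v ∈ T.I, #(T.ch v) + #(T.ch T.r) ≤ ∑ v, #(T.ch v) := by
    rw [← add_sum_erase univ (fun v => #(T.ch v)) (mem_univ T.r), add_comm]
    exact Nat.add_le_add_left (sum_le_sum_of_subset h4) _
  have h6 : 2 * #T.I ≤ ∑ v ∈ T.I, #(T.ch v) + #T.D := by
    have h7 : #(T.I.filter fun v => #(T.ch v) = 1) ≤ #T.D := by
      refine card_le_card fun v hv => ?_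
      rw [mem_filter, mem_I] at hv
      rw [mem_D]
      exact ⟨hv.1.1, hv.2⟩
    have h8 : 2 * #T.I ≤ ∑ v ∈ T.I, (#(T.ch v) + if #(T.ch v) = 1 then 1 else 0) := by
      rw [mul_comm, ← smul_eq_mul, ← sum_const]
      refine sum_le_sum fun v hv => ?_
      rw [mem_I] at hv
      have h9 : 0 < #(T.ch v) := card_pos.2 (nonempty_iff_ne_empty.2 hv.2)
      split_ifs with h10 <;> omega
    rw [sum_add_distrib, sum_boole] at h8
    simp only [Nat.cast_id] at h8
    omega
  omega

/-- The state of the greedy algorithm. -/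
structure Good (a : V → ℕ) (M : ℕ) (P : Finset V) (e : V → ℕ) : Prop where
  sub : P ⊆ T.I
  down : ∀ v ∈ P, ∀ u ∈ T.ch v, u ∈ T.I → u ∈ P
  leaf : ∀ v ∈ T.L, e v = a v
  pos : ∀ v ∈ P, 1 ≤ e v
  le : ∀ v ∈ P, e v ≤ M
  gt : ∀ v ∈ P, M < T.w e v
  inj : Set.InjOn (T.w e) P
  run : ∀ v ∈ P, ∀ z, T.w e v < z → z ≤ T.c e v + M → ∃ x ∈ P, T.w e x = z

/-- a finite set of numbers contains at most as many numbers as its cardinality -/
theorem card_of_full {P : Finset V} {f : V → ℕ} {S : Finset ℕ} (h : ∀ z ∈ S, ∃ x ∈ P, f x = z) :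
    #S ≤ #P := by
  have h1 : S ⊆ P.image f := by
    intro z hz
    obtain ⟨x, hx, hx'⟩ := h z hz
    exact mem_image.2 ⟨x, hx, hx'⟩
  exact (card_le_card h1).trans card_image_le

/-- The main lemma. -/
theorem block {a : V → ℕ} {M m : ℕ} {P : Finset V} {e : V → ℕ} (hG : T.Good a M P e)
    (hP : #P ≤ M) (ha : ∀ v ∈ T.L, T.par v ≠ T.r → m < a v)
    (hai : ∀ u ∈ T.L, ∀ v ∈ T.L, T.par u ≠ T.r → T.par v ≠ T.r → a u = a v → u = v)
    {y : ℕ} (hy : ∀ z, M < z → z ≤ M + y → ∃ x ∈ P, T.w e x = z)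
    (hy' : ∀ x ∈ P, T.w e x ≠ M + y + 1) {X : Finset V} (hX : X ⊆ T.I)
    (hXP : Disjoint P X) (hXc : ∀ v ∈ X, ∀ u ∈ T.ch v, u ∈ T.I → u ∈ P)
    (hXy : ∀ v ∈ X, T.c e v ≤ y) (hne : 0 < y + #X) : m + 1 + #X ≤ #T.D := by
  obtain ⟨W₀, hW₀⟩ : ∃ W₀ : Finset V, W₀ = P.filter fun x => T.w e x ≤ M + y := ⟨_, rfl⟩
  have hcard₀ : #W₀ = y := by
    have h1 : W₀.image (T.w e) = Ioc M (M + y) := by
      ext z
      rw [mem_image, mem_Ioc]
      constructor
      · rintro ⟨x, hx, rfl⟩
        rw [hW₀, mem_filter] at hx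
        exact ⟨hG.gt x hx.1, hx.2⟩
      · rintro ⟨h1, h2⟩
        obtain ⟨x, hx, hx'⟩ := hy z h1 h2
        refine ⟨x, ?_, hx'⟩
        rw [hW₀, mem_filter, hx']
        exact ⟨hx, h2⟩
    have h2 : #(W₀.image (T.w e)) = #W₀ := by
      refine card_image_of_injOn fun x hx z hz hxz => ?_
      rw [mem_coe, hW₀, mem_filter] at hx hz
      exact hG.inj hx.1 hz.1 hxz
    rw [← h2, h1, Nat.card_Ioc]
    omega
  obtain ⟨W, hW⟩ : ∃ W : Finset V, W = W₀ ∪ X := ⟨_, rfl⟩
  have hW₀P : W₀ ⊆ P := by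
    rw [hW₀]
    exact filter_subset _ _
  have hcard : #W = y + #X := by
    rw [hW, card_union_of_disjoint (hXP.mono_left hW₀P), hcard₀]
  have hWI : ∀ x ∈ W, x ∈ T.I := by
    intro x hx
    rw [hW, mem_union] at hx
    rcases hx with hx | hx
    · exact hG.sub (hW₀P hx)
    · exact hX hx
  -- (a)
  have hWc : ∀ x ∈ W, T.c e x ≤ y := by
    intro x hx
    rw [hW, mem_union] at hx
    rcases hx with hx | hx
    · by_contra hcon
      rw [not_le] at hcon
      have hx' := hx
      rw [hW₀, mem_filter] at hx'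
      obtain ⟨z, hz, hz'⟩ := hG.run x hx'.1 (M + y + 1) (by omega) (by omega)
      exact hy' z hz hz'
    · exact hXy x hx
  -- (b)
  have hWcl : ∀ x ∈ W, ∀ u ∈ T.ch x, u ∈ T.I → u ∈ W := by
    intro x hx u hu huI
    have huP : u ∈ P := by
      have hx' := hx
      rw [hW, mem_union] at hx'
      rcases hx' with hx' | hx'
      · exact hG.down x (hW₀P hx') u hu huI
      · exact hXc x hx' u hu huI
    have heu : e u ≤ y := (T.le_c e hu).trans (hWc x hx)
    rw [hW, mem_union]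
    left
    rw [hW₀, mem_filter]
    refine ⟨huP, ?_⟩
    by_contra hcon
    rw [not_le] at hcon
    have h1 : #(Ioc M (M + y) ∪ Icc (T.w e u) (T.c e u + M)) ≤ #P := by
      refine card_of_full (f := T.w e) fun z hz => ?_
      rw [mem_union, mem_Ioc, mem_Icc] at hz
      rcases hz with hz | hz
      · exact hy z hz.1 hz.2
      · rcases hz.1.eq_or_lt with h2 | h2
        · exact ⟨u, huP, h2⟩
        · exact hG.run u huP z h2 hz.2
    rw [card_union_of_disjoint, Nat.card_Ioc, Nat.card_Icc] at h1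
    · have h2 : T.w e u = T.c e u + e u := rfl
      have h3 := hG.le u huP
      omega
    · rw [disjoint_left]
      intro z hz hz'
      rw [mem_Ioc] at hz
      rw [mem_Icc] at hz'
      omega
  have hWne : W.Nonempty := by
    rw [← card_pos, hcard]
    exact hne
  -- the leaves below `W`
  obtain ⟨Λ, hΛ⟩ : ∃ Λ : Finset V, Λ = T.L.filter fun v => T.par v ∈ W := ⟨_, rfl⟩
  have hΛr : ∀ v ∈ Λ, v ∈ T.L ∧ T.par v ≠ T.r ∧ a v ≤ y := by
    intro v hv
    rw [hΛ, mem_filter] at hv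
    have h1 := (T.mem_I.1 (hWI _ hv.2)).1
    have h2 : v ∈ T.ch (T.par v) := T.mem_ch.2 ⟨(T.mem_L.1 hv.1).1, rfl⟩
    refine ⟨hv.1, h1, ?_⟩
    rw [← hG.leaf v hv.1]
    exact (T.le_c e h2).trans (hWc _ hv.2)
  have hΛne : Λ.Nonempty := by
    obtain ⟨x, hx, hmax⟩ := exists_max_image W T.ht hWne
    obtain ⟨u, hu⟩ := nonempty_iff_ne_empty.2 (T.mem_I.1 (hWI x hx)).2
    have hu' := T.mem_ch.1 hu
    refine ⟨u, ?_⟩
    rw [hΛ, mem_filter, T.mem_L, hu'.2]
    refine ⟨⟨hu'.1, ?_⟩, hx⟩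
    by_contra hcon
    have h1 := hmax u (hWcl x hx u hu (T.mem_I.2 ⟨hu'.1, hcon⟩))
    have h2 := T.lt u hu'.1
    rw [hu'.2] at h2
    omega
  have hΛc : #Λ ≤ y - m := by
    have h1 : #(Λ.image a) ≤ #(Ioc m y) := by
      refine card_le_card fun z hz => ?_
      rw [mem_image] at hz
      obtain ⟨v, hv, rfl⟩ := hz
      obtain ⟨h1, h2, h3⟩ := hΛr v hv
      exact mem_Ioc.2 ⟨ha v h1 h2, h3⟩
    rw [card_image_of_injOn, Nat.card_Ioc] at h1
    · exact h1
    · intro u hu v hv huv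
      obtain ⟨h1, h2, -⟩ := hΛr u hu
      obtain ⟨h3, h4, -⟩ := hΛr v hv
      exact hai u h1 v h3 h2 h4 huv
  have hmy : m < y := by
    obtain ⟨v, hv⟩ := hΛne
    obtain ⟨h1, h2, h3⟩ := hΛr v hv
    exact (ha v h1 h2).trans_le h3
  -- the children of `W`
  obtain ⟨x₀, hx₀, hmin⟩ := exists_min_image W T.ht hWne
  have hx₀p : T.par x₀ ∉ W := by
    intro h1
    have h2 := hmin _ h1
    have h3 := T.lt x₀ (T.mem_I.1 (hWI x₀ hx₀)).1
    omega
  have hC : ∑ x ∈ W, #(T.ch x) ≤ #Λ + (#W - 1) := by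
    rw [← card_biUnion]
    · rw [← card_erase_of_mem hx₀]
      refine (card_le_card ?_).trans (card_union_le _ _)
      intro u hu
      rw [mem_biUnion] at hu
      obtain ⟨x, hx, hux⟩ := hu
      have hux' := T.mem_ch.1 hux
      rw [mem_union]
      by_cases h1 : T.ch u = ∅
      · left
        rw [hΛ, mem_filter, T.mem_L, hux'.2]
        exact ⟨⟨hux'.1, h1⟩, hx⟩
      · right
        rw [mem_erase]
        refine ⟨?_, hWcl x hx u hux (T.mem_I.2 ⟨hux'.1, h1⟩)⟩
        rintro rfl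
        rw [hux'.2] at hx₀p
        exact hx₀p hx
    · intro x _ z _ hxz
      rw [Function.onFun, disjoint_left]
      intro u hu hu'
      rw [mem_ch] at hu hu'
      exact hxz (hu.2.symm.trans hu'.2)
  have h6 : 2 * #W ≤ ∑ v ∈ W, #(T.ch v) + #T.D := by
    have h7 : #(W.filter fun v => #(T.ch v) = 1) ≤ #T.D := by
      refine card_le_card fun v hv => ?_
      rw [mem_filter] at hv
      rw [mem_D]
      exact ⟨(T.mem_I.1 (hWI v hv.1)).1, hv.2⟩
    have h8 : 2 * #W ≤ ∑ v ∈ W, (#(T.ch v) + if #(T.ch v) = 1 then 1 else 0) := by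
      rw [mul_comm, ← smul_eq_mul, ← sum_const]
      refine sum_le_sum fun v hv => ?_
      have h9 : 0 < #(T.ch v) := card_pos.2 (nonempty_iff_ne_empty.2 (T.mem_I.1 (hWI v hv)).2)
      split_ifs with h10 <;> omega
    rw [sum_add_distrib, sum_boole] at h8
    simp only [Nat.cast_id] at h8
    omega
  omega

end RT

end Pool.Agent.H.MP_936c16_co
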