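import Pool.Agent.H.MP_936c16_co.Greedy

/-!
The greedy algorithm never gets stuck.
-/

set_option autoImplicit false

namespace Pool.Agent.H.MP_936c16_co

open Finset

namespace RT

variable {V : Type} [Fintype V] [DecidableEq V] (T : RT V)

theorem exists_y (P : Finset V) (f : V → ℕ) (M : ℕ) : ∃ y, (∀ x ∈ P, f x ≠ M + y + 1) ∧
    ∀ z, M < z → z ≤ M + y → ∃ x ∈ P, f x = z := by
  classical
  have H : ∃ y, ∀ x ∈ P, f x ≠ M + y + 1 := by
    refine ⟨∑ x ∈ P, f x, fun x hx h => ?_⟩
    have h1 := single_le_sum (f := f) (fun _ _ => Nat.zero_le _) hx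
    omega
  refine ⟨Nat.find H, Nat.find_spec H, fun z h1 h2 => ?_⟩
  have h3 := Nat.find_min H (m := z - M - 1) (by omega)
  push Not at h3
  obtain ⟨x, hx, hx'⟩ := h3
  exact ⟨x, hx, by omega⟩

theorem step {a : V → ℕ} {M m : ℕ} {P : Finset V} {e : V → ℕ} (hG : T.Good a M P e)
    (hP : #P < M) (ha : ∀ v ∈ T.L, T.par v ≠ T.r → m < a v)
    (hai : ∀ u ∈ T.L, ∀ v ∈ T.L, T.par u ≠ T.r → T.par v ≠ T.r → a u = a v → u = v)
    (hD : #T.D ≤ m) {v : V} (hv : v ∈ T.I) (hvP : v ∉ P)
    (hvc : ∀ u ∈ T.ch v, u ∈ T.I → u ∈ P) :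
    ∃ z, M < z ∧ T.c e v < z ∧ z ≤ T.c e v + M ∧ ∀ x ∈ P, T.w e x ≠ z := by
  by_contra hcon
  push Not at hcon
  rcases le_or_gt M (T.c e v) with h1 | h1
  · have h2 : #(Ioc (T.c e v) (T.c e v + M)) ≤ #P := by
      refine card_of_full (f := T.w e) fun z hz => ?_
      rw [mem_Ioc] at hz
      exact hcon z (by omega) hz.1 hz.2
    rw [Nat.card_Ioc] at h2
    omega
  · obtain ⟨y, hy', hy⟩ := exists_y P (T.w e) M
    have hcy : T.c e v ≤ y := by
      by_contra h2
      rw [not_le] at h2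
      obtain ⟨x, hx, hx'⟩ := hcon (M + y + 1) (by omega) (by omega) (by omega)
      exact hy' x hx hx'
    have h3 := T.block hG hP.le ha hai hy hy' (X := {v}) (by simpa using hv)
      (by simpa using hvP) (by simpa using hvc) (by simpa using hcy) (by simp)
    rw [card_singleton] at h3
    omega

theorem ext_step {a : V → ℕ} {M m : ℕ} {P : Finset V} {e : V → ℕ} (hG : T.Good a M P e)
    (hP : #P < M) (ha : ∀ v ∈ T.L, T.par v ≠ T.r → m < a v)
    (hai : ∀ u ∈ T.L, ∀ v ∈ T.L, T.par u ≠ T.r → T.par v ≠ T.r → a u = a v → u = v)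
    (hD : #T.D ≤ m) {v : V} (hv : v ∈ T.I) (hvP : v ∉ P)
    (hvc : ∀ u ∈ T.ch v, u ∈ T.I → u ∈ P) : ∃ e', T.Good a M (insert v P) e' := by
  classical
  obtain ⟨F, hF⟩ : ∃ F : Finset ℕ, F = (Ioc (max M (T.c e v)) (T.c e v + M)).filter
      fun z => ∀ x ∈ P, T.w e x ≠ z := ⟨_, rfl⟩
  have hFne : F.Nonempty := by
    obtain ⟨z, h1, h2, h3, h4⟩ := T.step hG hP ha hai hD hv hvP hvc
    refine ⟨z, ?_⟩
    rw [hF, mem_filter, mem_Ioc]
    exact ⟨⟨max_lt h1 h2, h3⟩, h4⟩
  obtain ⟨z, hz, hmax⟩ : ∃ z ∈ F, ∀ z' ∈ F, z' ≤ z :=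
    ⟨F.max' hFne, F.max'_mem hFne, fun z' hz' => F.le_max' z' hz'⟩
  rw [hF, mem_filter, mem_Ioc, max_lt_iff] at hz
  obtain ⟨⟨⟨hzM, hzc⟩, hzc'⟩, hzP⟩ := hz
  have hvr : v ≠ T.r := (T.mem_I.1 hv).1
  have hvv : v ∉ T.ch v := by
    intro h
    have h1 := T.mem_ch.1 h
    have h2 := T.lt v h1.1
    rw [h1.2] at h2
    exact lt_irrefl _ h2
  obtain ⟨e', he'⟩ : ∃ e' : V → ℕ, e' = Function.update e v (z - T.c e v) := ⟨_, rfl⟩
  have hev : e' v = z - T.c e v := by rw [he', Function.update_self]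
  have hene : ∀ x, x ≠ v → e' x = e x := fun x hx => by rw [he', Function.update_of_ne hx]
  have hc : ∀ x, v ∉ T.ch x → T.c e' x = T.c e x := by
    intro x hx
    refine sum_congr rfl fun u hu => hene u ?_
    rintro rfl
    exact hx hu
  have hcv : T.c e' v = T.c e v := hc v hvv
  have hwv : T.w e' v = z := by
    have h1 : T.w e' v = T.c e' v + e' v := rfl
    rw [h1, hcv, hev]
    omega
  have hcP : ∀ x ∈ P, T.c e' x = T.c e x := fun x hx =>
    hc x fun h => hvP (hG.down x hx v h hv)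
  have heP : ∀ x ∈ P, e' x = e x := fun x hx => hene x fun h => hvP (h ▸ hx)
  have hwP : ∀ x ∈ P, T.w e' x = T.w e x := by
    intro x hx
    have h1 : T.w e' x = T.c e' x + e' x := rfl
    rw [h1, hcP x hx, heP x hx]
    rfl
  refine ⟨e', ?_, ?_, ?_, ?_, ?_, ?_, ?_, ?_⟩
  · intro x hx
    rw [mem_insert] at hx
    rcases hx with rfl | hx
    · exact hv
    · exact hG.sub hx
  · intro x hx u hu huI
    rw [mem_insert] at hx ⊢
    rcases hx with rfl | hx
    · exact Or.inr (hvc u hu huI)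
    · exact Or.inr (hG.down x hx u hu huI)
  · intro x hx
    rw [hene x, hG.leaf x hx]
    rintro rfl
    exact (T.mem_I.1 hv).2 (T.mem_L.1 hx).2
  · intro x hx
    rw [mem_insert] at hx
    rcases hx with rfl | hx
    · rw [hev]
      omega
    · rw [heP x hx]
      exact hG.pos x hx
  · intro x hx
    rw [mem_insert] at hx
    rcases hx with rfl | hx
    · rw [hev]
      omega
    · rw [heP x hx]
      exact hG.le x hx
  · intro x hx
    rw [mem_insert] at hx
    rcases hx with rfl | hx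
    · rw [hwv]
      exact hzM
    · rw [hwP x hx]
      exact hG.gt x hx
  · intro x hx x' hx' hxx
    rw [mem_coe, mem_insert] at hx hx'
    rcases hx with rfl | hx <;> rcases hx' with rfl | hx'
    · rfl
    · rw [hwv, hwP x' hx'] at hxx
      exact absurd hxx.symm (hzP x' hx')
    · rw [hwv, hwP x hx] at hxx
      exact absurd hxx (hzP x hx)
    · rw [hwP x hx, hwP x' hx'] at hxx
      exact hG.inj hx hx' hxx
  · intro x hx z' h1 h2
    rw [mem_insert] at hx
    rcases hx with rfl | hx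
    · rw [hwv] at h1
      rw [hcv] at h2
      by_contra hcon
      push Not at hcon
      have h3 : z' ∈ F := by
        rw [hF, mem_filter, mem_Ioc]
        refine ⟨⟨max_lt (by omega) (by omega), h2⟩, fun x' hx' => ?_⟩
        rw [← hwP x' hx']
        exact hcon x' (mem_insert_of_mem hx')
      have := hmax z' h3
      omega
    · rw [hwP x hx] at h1
      rw [hcP x hx] at h2
      obtain ⟨x', hx', hx''⟩ := hG.run x hx z' h1 h2
      exact ⟨x', mem_insert_of_mem hx', by rw [hwP x' hx']; exact hx''⟩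

/-- The greedy algorithm works. -/
theorem greedy {a : V → ℕ} {M m : ℕ} (hI : #T.I ≤ M)
    (ha : ∀ v ∈ T.L, T.par v ≠ T.r → m < a v)
    (hai : ∀ u ∈ T.L, ∀ v ∈ T.L, T.par u ≠ T.r → T.par v ≠ T.r → a u = a v → u = v)
    (hD : #T.D ≤ m) : ∃ e, T.Good a M T.I e := by
  have key : ∀ k, k ≤ #T.I → ∃ P e, T.Good a M P e ∧ #P = k := by
    intro k
    induction k with
    | zero =>
      intro _
      refine ⟨∅, a, ⟨?_, ?_, ?_, ?_, ?_, ?_, ?_, ?_⟩, card_empty⟩
      · exact empty_subset _
      · intro v hv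
        exact absurd hv (notMem_empty v)
      · intro v _
        rfl
      · intro v hv
        exact absurd hv (notMem_empty v)
      · intro v hv
        exact absurd hv (notMem_empty v)
      · intro v hv
        exact absurd hv (notMem_empty v)
      · intro v hv
        rw [coe_empty] at hv
        exact absurd hv (Set.notMem_empty v)
      · intro v hv
        exact absurd hv (notMem_empty v)
    | succ k ih =>
      intro hk
      obtain ⟨P, e, hG, hP⟩ := ih (by omega)
      have hne : (T.I \ P).Nonempty := by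
        rw [← card_pos, card_sdiff_of_subset hG.sub]
        omega
      obtain ⟨v, hv, hmax⟩ := exists_max_image (T.I \ P) T.ht hne
      rw [mem_sdiff] at hv
      obtain ⟨e', he'⟩ := T.ext_step hG (by omega) ha hai hD hv.1 hv.2 (by
        intro u hu huI
        by_contra huP
        have h1 := hmax u (mem_sdiff.2 ⟨huI, huP⟩)
        have h2 := T.mem_ch.1 hu
        have h3 := T.lt u h2.1
        rw [h2.2] at h3
        omega)
      exact ⟨insert v P, e', he', by rw [card_insert_of_notMem hv.2, hP]⟩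
  obtain ⟨P, e, hG, hP⟩ := key _ le_rfl
  have h1 : P = T.I := eq_of_subset_of_card_le hG.sub hP.ge
  subst h1
  exact ⟨e, hG⟩

/-- The number `M + 1` is not used. -/
theorem free {a : V → ℕ} {M m : ℕ} {e : V → ℕ} (hG : T.Good a M T.I e)
    (hP : #T.I ≤ M) (ha : ∀ v ∈ T.L, T.par v ≠ T.r → m < a v)
    (hai : ∀ u ∈ T.L, ∀ v ∈ T.L, T.par u ≠ T.r → T.par v ≠ T.r → a u = a v → u = v)
    (hD : #T.D ≤ m) : ∀ x ∈ T.I, T.w e x ≠ M + 1 := by
  obtain ⟨y, hy', hy⟩ := exists_y T.I (T.w e) M
  rcases Nat.eq_zero_or_pos y with h1 | h1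
  · subst h1
    exact hy'
  · have h3 := T.block hG hP ha hai hy hy' (X := ∅) (empty_subset _) (disjoint_empty_right _)
      (by simp) (by simp) (by simpa using h1)
    rw [card_empty] at h3
    omega

end RT

/-- Sums of `j` distinct numbers in `[1, m]`. -/
theorem sums {V : Type} [DecidableEq V] (Λ : Finset V) : ∀ (m t : ℕ), #Λ ≤ m →
    #Λ * (#Λ + 1) ≤ 2 * t → 2 * t + #Λ * (#Λ - 1) ≤ 2 * (#Λ * m) →
    ∃ b : V → ℕ, (∀ x ∈ Λ, 1 ≤ b x ∧ b x ≤ m) ∧ Set.InjOn b Λ ∧ ∑ x ∈ Λ, b x = t := by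
  induction Λ using Finset.induction_on with
  | empty =>
    intro m t _ _ h
    refine ⟨fun _ => 0, by simp, by simp, ?_⟩
    rw [card_empty] at h
    rw [sum_empty]
    omega
  | insert x Λ hx ih =>
    intro m t h1 h2 h3
    rw [card_insert_of_notMem hx] at h1 h2 h3
    obtain ⟨j, hj⟩ : ∃ j, j = #Λ := ⟨_, rfl⟩
    rw [← hj] at h1 h2 h3 ih
    obtain ⟨s, hs⟩ : ∃ s, s + s = j * (j + 1) := by
      obtain ⟨s, hs⟩ := Nat.even_mul_succ_self j
      exact ⟨s, hs.symm⟩
    have e1 : (j + 1) * (j + 1 + 1) = j * (j + 1) + 2 * (j + 1) := by ring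
    have e2 : (j + 1) * (j + 1 - 1) = j * (j + 1) := by
      rw [Nat.add_sub_cancel]
      ring
    have e3 : (j + 1) * m = j * m + m := by ring
    rw [e1] at h2
    rw [e2, e3] at h3
    -- the value at `x`
    obtain ⟨b₀, hb₀, hb1, hb2, hb3⟩ : ∃ b₀, b₀ ≤ m ∧ j + 1 ≤ b₀ ∧ j * (j + 1) ≤ 2 * (t - b₀) ∧
        2 * (t - b₀) + j * (j - 1) ≤ 2 * (j * (b₀ - 1)) ∧ b₀ ≤ t := by
      rcases le_or_gt m (t - s) with h4 | h4
      · refine ⟨m, le_rfl, h1, by omega, ?_, by omega⟩
        have e4 : j * (m - 1) + j = j * m := by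
          obtain ⟨q, rfl⟩ : ∃ q, m = q + 1 := ⟨m - 1, by omega⟩
          rw [Nat.add_sub_cancel]
          ring
        have e5 : j * (j - 1) + 2 * j = j * (j + 1) := by
          rcases j with _ | j
          · rfl
          · rw [Nat.add_sub_cancel]
            ring
        omega
      · refine ⟨t - s, h4.le, by omega, by omega, ?_, by omega⟩
        have e5 : j * (j - 1) + 2 * j = j * (j + 1) := by
          rcases j with _ | j
          · rfl
          · rw [Nat.add_sub_cancel]
            ring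
        have e6 : j * j ≤ j * (t - s - 1) := Nat.mul_le_mul_left _ (by omega)
        have e7 : j * (j + 1) = j * j + j := by ring
        omega
    obtain ⟨b, c1, c2, c3⟩ := ih (b₀ - 1) (t - b₀) (by omega) hb2 hb3.1
    have hne : ∀ v ∈ Λ, v ≠ x := by
      intro v hv h
      exact hx (by rw [← h]; exact hv)
    refine ⟨Function.update b x b₀, ?_, ?_, ?_⟩
    · intro v hv
      rw [mem_insert] at hv
      rcases hv with rfl | hv
      · rw [Function.update_self]
        omega
      · rw [Function.update_of_ne (hne v hv)]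
        have := c1 v hv
        omega
    · intro u hu v hv huv
      rw [mem_coe, mem_insert] at hu hv
      rcases hu with hu | hu <;> rcases hv with hv | hv
      · rw [hu, hv]
      · rw [hu, Function.update_self, Function.update_of_ne (hne v hv)] at huv
        have := c1 v hv
        omega
      · rw [hv, Function.update_self, Function.update_of_ne (hne u hu)] at huv
        have := c1 u hu
        omega
      · rw [Function.update_of_ne (hne u hu), Function.update_of_ne (hne v hv)] at huv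
        exact c2 hu hv huv
    · rw [sum_insert hx, Function.update_self]
      have h5 : ∑ v ∈ Λ, Function.update b x b₀ v = ∑ v ∈ Λ, b v :=
        sum_congr rfl fun v hv => Function.update_of_ne (hne v hv) _ _
      rw [h5, c3]
      omega

end Pool.Agent.H.MP_936c16_co
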