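import Pool.Agent.H.MP_936c16_co.Lv1b

/-!
The sets of the weighted degrees in the threads if there are many leaves: all of them are larger than `s`.
-/

set_option autoImplicit false

namespace Pool.Agent.H.MP_936c16_co

open Finset

variable {V : Type} [DecidableEq V]

theorem lv_num (Y : Finset V) : ∃ j : V → ℕ, (∀ v ∈ Y, j v < #Y) ∧
    ∀ v ∈ Y, ∀ v' ∈ Y, j v = j v' → v = v' := by
  refine ⟨fun v => if h : v ∈ Y then (Y.equivFin ⟨v, h⟩).val else 0, fun v hv => ?_,
    fun v hv v' hv' h => ?_⟩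
  · show (if h : v ∈ Y then (Y.equivFin ⟨v, h⟩).val else 0) < #Y
    rw [dif_pos hv]
    exact (Y.equivFin ⟨v, hv⟩).isLt
  · have h' : (if h : v ∈ Y then (Y.equivFin ⟨v, h⟩).val else 0) =
      (if h : v' ∈ Y then (Y.equivFin ⟨v', h⟩).val else 0) := h
    rw [dif_pos hv, dif_pos hv'] at h'
    exact congrArg Subtype.val (Y.equivFin.injective (Fin.ext h'))

/-- one thread with the numbers `U, …, U + l - 1` -/
theorem lv_one {s x U l : ℕ} (hx : 2 ≤ x) (hxs : x ≤ s) (hU : s < U) (h : U + l ≤ x + s) :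
    ∃ t, 1 ≤ t ∧ t ≤ s ∧ Fill s l x (Ico U (U + l)) t := by
  obtain ⟨p, q, hl, hq⟩ : ∃ p q, l = 2 * p + q ∧ q ≤ 1 := ⟨l / 2, l % 2, by omega, by omega⟩
  have c1 := ptr_up (s := s) (w := x) (U := U) (p := p) hx hxs (by omega) (by omega)
  obtain ⟨y, hy1, hy2, hy3⟩ : ∃ y, y = x - p % 2 ∧ x ≤ y + 1 ∧ y ≤ x :=
    ⟨_, rfl, by omega, by omega⟩
  rw [← hy1] at c1
  clear hy1
  rcases (show q = 0 ∨ q = 1 by omega) with h0 | h0
  · refine ⟨y, by omega, by omega, ?_⟩
    rw [show l = 2 * p by omega]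
    exact c1
  · have c2 : Fill s 1 y {U + 2 * p} (U + 2 * p - y) :=
      Fill.single (by omega) (by omega) (by omega)
    refine ⟨U + 2 * p - y, by omega, by omega, ?_⟩
    have e : Ico U (U + l) = Ico U (U + 2 * p) ∪ {U + 2 * p} := by
      ext v
      simp only [mem_union, mem_Ico, mem_singleton]
      omega
    rw [e, show l = 2 * p + 1 by omega]
    exact c1.append c2

/-- threads of positive length which start at leaves with the weights `L, …, L + #X - 1` -/
theorem lv_pos (X : Finset V) (len : V → ℕ) {s L U : ℕ} (hL : 2 ≤ L) (hU : s < U) :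
    (∀ v ∈ X, 1 ≤ len v) → L + #X ≤ s + 1 → U + ∑ v ∈ X, len v + 1 ≤ s + L + #X →
    ∃ (x : V → ℕ) (W : V → Finset ℕ) (t : V → ℕ),
      (∀ v ∈ X, L ≤ x v ∧ x v < L + #X ∧ 1 ≤ t v ∧ t v ≤ s ∧ Fill s (len v) (x v) (W v) (t v) ∧
        #(W v) = len v ∧ ∀ w ∈ W v, U ≤ w ∧ w < U + ∑ v ∈ X, len v) ∧
      (∀ v ∈ X, ∀ v' ∈ X, x v = x v' → v = v') ∧
      ∀ v ∈ X, ∀ v' ∈ X, v ≠ v' → Disjoint (W v) (W v') := by
  induction X using Finset.induction_on with
  | empty =>
    intro _ _ _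
    exact ⟨fun _ => 0, fun _ => ∅, fun _ => 0, fun v hv => absurd hv (notMem_empty v),
      fun v hv => absurd hv (notMem_empty v), fun v hv => absurd hv (notMem_empty v)⟩
  | @insert a X ha ih =>
    intro hlen hX hS
    rw [card_insert_of_notMem ha] at hX hS ⊢
    rw [sum_insert ha] at hS ⊢
    have hla := hlen a (mem_insert_self a X)
    obtain ⟨x, W, t, h1, h2, h3⟩ := ih (fun v hv => hlen v (mem_insert_of_mem hv)) (by omega)
      (by omega)
    obtain ⟨S, hSd⟩ : ∃ S, S = ∑ v ∈ X, len v := ⟨_, rfl⟩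
    rw [← hSd] at hS h1 ⊢
    clear hSd
    have hne : ∀ v ∈ X, v ≠ a := fun v hv h5 => ha (h5 ▸ hv)
    obtain ⟨ta, f1, f2, f3⟩ := lv_one (s := s) (x := L + #X) (U := U + S) (l := len a)
      (by omega) (by omega) (by omega) (by omega)
    have hd : ∀ v ∈ X, Disjoint (W v) (Ico (U + S) (U + S + len a)) := by
      intro v hv
      rw [disjoint_left]
      intro w hw hw'
      have h5 := (h1 v hv).2.2.2.2.2.2 w hw
      rw [mem_Ico] at hw'
      omega
    refine ⟨Function.update x a (L + #X), Function.update W a (Ico (U + S) (U + S + len a)),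
      Function.update t a ta, ?_, ?_, ?_⟩
    · intro v hv
      rw [mem_insert] at hv
      rcases hv with rfl | hv
      · rw [Function.update_self, Function.update_self, Function.update_self]
        refine ⟨by omega, by omega, f1, f2, f3, ?_, ?_⟩
        · rw [Nat.card_Ico]
          omega
        · intro w hw
          rw [mem_Ico] at hw
          omega
      · rw [Function.update_of_ne (hne v hv), Function.update_of_ne (hne v hv),
          Function.update_of_ne (hne v hv)]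
        obtain ⟨g1, g2, g3, g4, g5, g6, g7⟩ := h1 v hv
        refine ⟨g1, by omega, g3, g4, g5, g6, ?_⟩
        intro w hw
        have h5 := g7 w hw
        omega
    · intro v hv v' hv' h
      rw [mem_insert] at hv hv'
      rcases hv with rfl | hv
      · rcases hv' with rfl | hv'
        · rfl
        · exfalso
          rw [Function.update_self, Function.update_of_ne (hne v' hv')] at h
          have h5 := h1 v' hv'
          omega
      · rcases hv' with rfl | hv'
        · exfalso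
          rw [Function.update_self, Function.update_of_ne (hne v hv)] at h
          have h5 := h1 v hv
          omega
        · rw [Function.update_of_ne (hne v hv), Function.update_of_ne (hne v' hv')] at h
          exact h2 v hv v' hv' h
    · intro v hv v' hv' hvv
      rw [mem_insert] at hv hv'
      rcases hv with rfl | hv
      · rcases hv' with rfl | hv'
        · exact absurd rfl hvv
        · rw [Function.update_self, Function.update_of_ne (hne v' hv')]
          exact (hd v' hv').symm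
      · rcases hv' with rfl | hv'
        · rw [Function.update_self, Function.update_of_ne (hne v hv)]
          exact hd v hv
        · rw [Function.update_of_ne (hne v hv), Function.update_of_ne (hne v' hv')]
          exact h3 v hv v' hv' hvv

/-- The sets of the weighted degrees in the threads. -/
theorem exists_fills5 (X Y : Finset V) (len : V → ℕ) (hXY : Disjoint X Y) {s b : ℕ} (hb : 1 ≤ b)
    (hY : #Y ≤ 3 * b) (hX : #X ≤ s) (h1 : ∑ v ∈ X ∪ Y, len v + 1 ≤ #X)
    (h2 : ∑ v ∈ X ∪ Y, len v + 6 * b + 2 ≤ s) :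
    ∃ (x : V → ℕ) (W : V → Finset ℕ) (t : V → ℕ → ℕ),
      (∀ v ∈ X, 1 ≤ x v ∧ x v ≤ #X ∧ 1 ≤ t v (x v) ∧ t v (x v) ≤ s ∧
        Fill s (len v) (x v) (W v) (t v (x v))) ∧
      (∀ v ∈ Y, ∀ β, s ≤ β + 3 * b → β ≤ s → Fill s (len v) β (W v) (t v β) ∧
        s ≤ t v β + (6 * b + 1) ∧ t v β ≤ s) ∧
      (∀ v ∈ Y, (∃ k, ∀ β, s ≤ β + 3 * b → β ≤ s → t v β + k = β) ∨
        (∃ k, ∀ β, s ≤ β + 3 * b → β ≤ s → t v β + β = k)) ∧
      (∀ v ∈ X ∪ Y, #(W v) = len v ∧ ∀ w ∈ W v, s < w ∧ w ≤ 2 * s) ∧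
      (∀ v ∈ X, ∀ v' ∈ X, x v = x v' → v = v') ∧
      ∀ v ∈ X ∪ Y, ∀ v' ∈ X ∪ Y, v ≠ v' → Disjoint (W v) (W v') := by
  rw [sum_union hXY] at h1 h2
  obtain ⟨A, hA⟩ : ∃ A, A = X.filter fun v => len v = 0 := ⟨_, rfl⟩
  obtain ⟨P, hP⟩ : ∃ P, P = X.filter fun v => ¬ len v = 0 := ⟨_, rfl⟩
  have memA : ∀ v, v ∈ A ↔ v ∈ X ∧ len v = 0 := by
    intro v
    rw [hA, mem_filter]
  have memP : ∀ v, v ∈ P ↔ v ∈ X ∧ ¬ len v = 0 := by
    intro v
    rw [hP, mem_filter]
  have hdAP : Disjoint A P := by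
    rw [disjoint_left]
    intro v hv hv'
    exact ((memP v).1 hv').2 ((memA v).1 hv).2
  have huAP : A ∪ P = X := by
    ext v
    rw [mem_union, memA, memP]
    tauto
  have hAP : #A + #P = #X := by
    rw [← card_union_of_disjoint hdAP, huAP]
  have hSX : ∑ v ∈ X, len v = ∑ v ∈ P, len v := by
    rw [← huAP, sum_union hdAP, sum_eq_zero fun v hv => ((memA v).1 hv).2, zero_add]
  have hPl : ∀ v ∈ P, 1 ≤ len v := by
    intro v hv
    have h3 := ((memP v).1 hv).2
    omega
  have hPs : #P ≤ ∑ v ∈ P, len v := by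
    rw [card_eq_sum_ones]
    exact sum_le_sum hPl
  rw [hSX] at h1 h2
  obtain ⟨SY, hSY⟩ : ∃ S, S = ∑ v ∈ Y, len v := ⟨_, rfl⟩
  obtain ⟨SP, hSP⟩ : ∃ S, S = ∑ v ∈ P, len v := ⟨_, rfl⟩
  rw [← hSY, ← hSP] at h1 h2
  rw [← hSP] at hPs
  obtain ⟨x₁, W₁, t₁, p1, p2, p3⟩ := lv_pos P len (s := s) (L := #A + 1) (U := s + 1) (by omega)
    (by omega) hPl (by omega) (by rw [← hSP]; omega)
  rw [← hSP] at p1
  obtain ⟨Z, hZ⟩ : ∃ Z, Z + 6 * b + 1 = 2 * s := ⟨2 * s - (6 * b + 1), by omega⟩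
  obtain ⟨W₂, t₂, r1, r2, r3, r4⟩ := lv_res Y len (s := s) (U := s + 1 + SP) (Z := Z) (b := b)
    (by omega) hZ (by omega) hY (by rw [← hSY]; omega)
  rw [← hSY] at r3
  obtain ⟨f, f1, f2⟩ := lv_num A
  have hYX : ∀ v ∈ Y, v ∉ X := fun v hv hv' => disjoint_left.1 hXY hv' hv
  have hYP : ∀ v ∈ Y, v ∉ P := fun v hv hv' => hYX v hv ((memP v).1 hv').1
  have hPY : ∀ v ∈ P, v ∉ Y := fun v hv hv' => hYP v hv' hv
  have hAY : ∀ v ∈ A, v ∉ Y := fun v hv hv' => hYX v hv' ((memA v).1 hv).1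
  have hAnP : ∀ v ∈ A, v ∉ P := fun v hv hv' => disjoint_left.1 hdAP hv hv'
  obtain ⟨x, hx⟩ : ∃ x : V → ℕ, x = fun v => if v ∈ P then x₁ v else 1 + f v := ⟨_, rfl⟩
  obtain ⟨W, hW⟩ : ∃ W : V → Finset ℕ, W = fun v =>
      if v ∈ Y then W₂ v else if v ∈ P then W₁ v else ∅ := ⟨_, rfl⟩
  obtain ⟨t, ht⟩ : ∃ t : V → ℕ → ℕ, t = fun v β =>
      if v ∈ Y then t₂ v β else if v ∈ P then t₁ v else β := ⟨_, rfl⟩
  have xP : ∀ v ∈ P, x v = x₁ v := fun v hv => by
    rw [hx]
    exact if_pos hv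
  have xA : ∀ v ∈ A, x v = 1 + f v := fun v hv => by
    rw [hx]
    exact if_neg (hAnP v hv)
  have WP : ∀ v ∈ P, W v = W₁ v := fun v hv => by
    rw [hW]
    exact (if_neg (hPY v hv)).trans (if_pos hv)
  have WA : ∀ v ∈ A, W v = ∅ := fun v hv => by
    rw [hW]
    exact (if_neg (hAY v hv)).trans (if_neg (hAnP v hv))
  have WY : ∀ v ∈ Y, W v = W₂ v := fun v hv => by
    rw [hW]
    exact if_pos hv
  have tP : ∀ v ∈ P, ∀ β, t v β = t₁ v := fun v hv β => by
    rw [ht]
    exact (if_neg (hPY v hv)).trans (if_pos hv)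
  have tA : ∀ v ∈ A, ∀ β, t v β = β := fun v hv β => by
    rw [ht]
    exact (if_neg (hAY v hv)).trans (if_neg (hAnP v hv))
  have tY : ∀ v ∈ Y, ∀ β, t v β = t₂ v β := fun v hv β => by
    rw [ht]
    exact if_pos hv
  have hXc : ∀ v ∈ X, v ∈ A ∨ v ∈ P := by
    intro v hv
    rw [← huAP, mem_union] at hv
    exact hv
  have hc : ∀ v ∈ X ∪ Y, v ∈ A ∨ v ∈ P ∨ v ∈ Y := by
    intro v hv
    rcases mem_union.1 hv with h | h
    · rcases hXc v h with h | h
      · exact Or.inl h
      · exact Or.inr (Or.inl h)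
    · exact Or.inr (Or.inr h)
  refine ⟨x, W, t, ?_, ?_, ?_, ?_, ?_, ?_⟩
  · intro v hv
    rcases hXc v hv with h | h
    · have g1 := f1 v h
      rw [xA v h, tA v h, WA v h, ((memA v).1 h).2]
      exact ⟨by omega, by omega, by omega, by omega, Fill.nil _⟩
    · obtain ⟨g1, g2, g3, g4, g5, -⟩ := p1 v h
      rw [xP v h, tP v h, WP v h]
      exact ⟨by omega, by omega, g3, g4, g5⟩
  · intro v hv β hβ hβ'
    rw [tY v hv, WY v hv]
    exact r1 v hv β hβ hβ'
  · intro v hv
    rcases r2 v hv with ⟨k, hk⟩ | ⟨k, hk⟩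
    · exact Or.inl ⟨k, fun β g1 g2 => by rw [tY v hv]; exact hk β g1 g2⟩
    · exact Or.inr ⟨k, fun β g1 g2 => by rw [tY v hv]; exact hk β g1 g2⟩
  · intro v hv
    rcases hc v hv with h | h | h
    · rw [WA v h, ((memA v).1 h).2]
      exact ⟨card_empty, fun w hw => absurd hw (notMem_empty w)⟩
    · obtain ⟨-, -, -, -, -, g6, g7⟩ := p1 v h
      rw [WP v h]
      refine ⟨g6, fun w hw => ?_⟩
      have g8 := g7 w hw
      omega
    · obtain ⟨g6, g7⟩ := r3 v h
      rw [WY v h]
      refine ⟨g6, fun w hw => ?_⟩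
      have g8 := g7 w hw
      omega
  · intro v hv v' hv' h
    rcases hXc v hv with g | g
    · rcases hXc v' hv' with g' | g'
      · rw [xA v g, xA v' g'] at h
        exact f2 v g v' g' (by omega)
      · exfalso
        rw [xA v g, xP v' g'] at h
        have g1 := f1 v g
        have g2 := (p1 v' g').1
        omega
    · rcases hXc v' hv' with g' | g'
      · exfalso
        rw [xP v g, xA v' g'] at h
        have g1 := f1 v' g'
        have g2 := (p1 v g).1
        omega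
      · rw [xP v g, xP v' g'] at h
        exact p2 v g v' g' h
  · have key : ∀ v ∈ P, ∀ v' ∈ Y, Disjoint (W₁ v) (W₂ v') := by
      intro v hv v' hv'
      rw [disjoint_left]
      intro w hw hw'
      have e1 := (p1 v hv).2.2.2.2.2.2 w hw
      have e2 := (r3 v' hv').2 w hw'
      omega
    intro v hv v' hv' hne
    rcases hc v hv with g | g | g
    · rw [WA v g]
      exact disjoint_empty_left _
    · rcases hc v' hv' with g' | g' | g'
      · rw [WA v' g']
        exact disjoint_empty_right _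
      · rw [WP v g, WP v' g']
        exact p3 v g v' g' hne
      · rw [WP v g, WY v' g']
        exact key v g v' g'
    · rcases hc v' hv' with g' | g' | g'
      · rw [WA v' g']
        exact disjoint_empty_right _
      · rw [WY v g, WP v' g']
        exact (key v' g' v g).symm
      · rw [WY v g, WY v' g']
        exact r4 v g v' g' hne

end Pool.Agent.H.MP_936c16_co
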