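import Pool.Agent.H.MP_936c16_co.Ptr

/-!
Threads which start with a weight in `[s - 3 b, s]`, all weighted degrees are larger than `s`.
-/

set_option autoImplicit false

namespace Pool.Agent.H.MP_936c16_co

open Finset

/-- one thread -/
theorem lv_res_one {s U Z b z n : ℕ} (hU : s < U) (hZ : Z + 6 * b + 1 = 2 * s)
    (hs : 3 * b + 2 ≤ s) (hn : U + n ≤ Z) (hz1 : Z ≤ z) (hz2 : z + 1 ≤ Z + 3 * b) :
    ∃ (W : Finset ℕ) (t : ℕ → ℕ),
      (∀ β, s ≤ β + 3 * b → β ≤ s → Fill s n β W (t β) ∧ s ≤ t β + (6 * b + 1) ∧ t β ≤ s) ∧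
      ((∃ k, ∀ β, s ≤ β + 3 * b → β ≤ s → t β + k = β) ∨
        (∃ k, ∀ β, s ≤ β + 3 * b → β ≤ s → t β + β = k)) ∧
      #W = n ∧ ∀ w ∈ W, (U ≤ w ∧ w < U + n) ∨ w = z := by
  obtain ⟨p, q, hpq, hq⟩ : ∃ p q, n = 2 * p + q ∧ q ≤ 1 := ⟨n / 2, n % 2, by omega, by omega⟩
  have hp2 : p % 2 ≤ 1 := by omega
  obtain ⟨e, he⟩ : ∃ e, e = p % 2 := ⟨_, rfl⟩
  rw [← he] at hp2
  have key : ∀ β, s ≤ β + 3 * b → β ≤ s → Fill s (2 * p) β (Ico U (U + 2 * p)) (β - e) := by
    intro β h1 h2
    rw [he]
    exact ptr_up (by omega) h2 (by omega) (by omega)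
  rcases (show q = 0 ∨ q = 1 by omega) with hq0 | hq0
  · refine ⟨Ico U (U + 2 * p), fun β => β - e, ?_, Or.inl ⟨e, ?_⟩, ?_, ?_⟩
    · intro β h1 h2
      refine ⟨?_, by dsimp only; omega, by dsimp only; omega⟩
      rw [show n = 2 * p by omega]
      exact key β h1 h2
    · intro β h1 h2
      dsimp only
      omega
    · rw [Nat.card_Ico]
      omega
    · intro w hw
      rw [mem_Ico] at hw
      left
      omega
  · refine ⟨Ico U (U + 2 * p) ∪ {z}, fun β => z - (β - e), ?_, Or.inr ⟨z + e, ?_⟩, ?_, ?_⟩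
    · intro β h1 h2
      have c : Fill s 1 (β - e) {z} (z - (β - e)) :=
        Fill.single (by omega) (by omega) (by omega)
      refine ⟨?_, by dsimp only; omega, by dsimp only; omega⟩
      rw [show n = 2 * p + 1 by omega]
      exact (key β h1 h2).append c
    · intro β h1 h2
      dsimp only
      omega
    · rw [card_union_of_disjoint, Nat.card_Ico, card_singleton]
      · omega
      · rw [disjoint_singleton_right, mem_Ico]
        omega
    · intro w hw
      rw [mem_union, mem_Ico, mem_singleton] at hw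
      rcases hw with hw | hw
      · left
        omega
      · exact Or.inr hw

variable {V : Type} [DecidableEq V]

/-- threads which start with a weight in `[s - 3 b, s]` -/
theorem lv_res (Y : Finset V) (len : V → ℕ) {s U Z b : ℕ} (hU : s < U) (hZ : Z + 6 * b + 1 = 2 * s)
    (hs : 3 * b + 2 ≤ s) : #Y ≤ 3 * b → U + ∑ v ∈ Y, len v ≤ Z →
    ∃ (W : V → Finset ℕ) (t : V → ℕ → ℕ),
      (∀ v ∈ Y, ∀ β, s ≤ β + 3 * b → β ≤ s → Fill s (len v) β (W v) (t v β) ∧
        s ≤ t v β + (6 * b + 1) ∧ t v β ≤ s) ∧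
      (∀ v ∈ Y, (∃ k, ∀ β, s ≤ β + 3 * b → β ≤ s → t v β + k = β) ∨
        (∃ k, ∀ β, s ≤ β + 3 * b → β ≤ s → t v β + β = k)) ∧
      (∀ v ∈ Y, #(W v) = len v ∧ ∀ w ∈ W v, (U ≤ w ∧ w < U + ∑ v ∈ Y, len v) ∨
        (Z ≤ w ∧ w < Z + #Y)) ∧
      ∀ v ∈ Y, ∀ v' ∈ Y, v ≠ v' → Disjoint (W v) (W v') := by
  induction Y using Finset.induction_on with
  | empty =>
    intro _ _
    exact ⟨fun _ => ∅, fun _ β => β, fun v hv => absurd hv (notMem_empty v),
      fun v hv => absurd hv (notMem_empty v), fun v hv => absurd hv (notMem_empty v),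
      fun v hv => absurd hv (notMem_empty v)⟩
  | insert a Y ha ih =>
    intro hc hS
    rw [card_insert_of_notMem ha] at hc
    rw [sum_insert ha] at hS
    obtain ⟨S, hSd⟩ : ∃ S, S = ∑ v ∈ Y, len v := ⟨_, rfl⟩
    rw [← hSd] at hS ih
    obtain ⟨W, t, h1, h2, h3, h4⟩ := ih (by omega) (by omega)
    obtain ⟨Wa, ta, g1, g2, g3, g4⟩ := lv_res_one (s := s) (U := U + S) (Z := Z) (b := b)
      (z := Z + #Y) (n := len a) (by omega) hZ hs (by omega) (by omega) (by omega)
    have hne : ∀ v ∈ Y, v ≠ a := fun v hv h => ha (h ▸ hv)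
    have hdis : ∀ v ∈ Y, Disjoint (W v) Wa := by
      intro v hv
      rw [disjoint_left]
      intro w hw hw'
      have k1 := (h3 v hv).2 w hw
      have k2 := g4 w hw'
      omega
    refine ⟨fun v => if v = a then Wa else W v, fun v => if v = a then ta else t v, ?_, ?_, ?_, ?_⟩
    · intro v hv
      rcases mem_insert.1 hv with rfl | hv
      · simp only [if_true]
        exact g1
      · simp only [if_neg (hne v hv)]
        exact h1 v hv
    · intro v hv
      rcases mem_insert.1 hv with rfl | hv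
      · simp only [if_true]
        exact g2
      · simp only [if_neg (hne v hv)]
        exact h2 v hv
    · intro v hv
      rw [card_insert_of_notMem ha, sum_insert ha, ← hSd]
      rcases mem_insert.1 hv with rfl | hv
      · simp only [if_true]
        refine ⟨g3, fun w hw => ?_⟩
        have k2 := g4 w hw
        omega
      · simp only [if_neg (hne v hv)]
        refine ⟨(h3 v hv).1, fun w hw => ?_⟩
        have k2 := (h3 v hv).2 w hw
        omega
    · intro v hv v' hv' hvv
      rcases mem_insert.1 hv with rfl | hw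
      · rcases mem_insert.1 hv' with rfl | hw'
        · exact absurd rfl hvv
        · simp only [if_true, if_neg (hne v' hw')]
          exact (hdis v' hw').symm
      · rcases mem_insert.1 hv' with rfl | hw'
        · simp only [if_true, if_neg (hne v hw)]
          exact hdis v hw
        · simp only [if_neg (hne v hw), if_neg (hne v' hw')]
          exact h4 v hw v' hw' hvv

end Pool.Agent.H.MP_936c16_co
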