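import Pool.Agent.H.MP_936c16_co.Rsv

/-!
The weights above the vertices with at least two children; there are two possibilities for the weight at the
leaf `T.bot us`.
-/

set_option autoImplicit false

namespace Pool.Agent.H.MP_936c16_co

open Finset

namespace RT

variable {V : Type} [Fintype V] [DecidableEq V] (T : RT V)

/-- The weights above the vertices with at least two children are in `[R - 2 l, R]`, the weight above the leaf
`T.bot us` is `c` or `c + 1`. -/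
theorem exists_beta5 (t : V → ℕ → ℕ) (β₀ : V → ℕ) {R l c : ℕ} (hR : 2 * l ≤ R)
    (hB : #T.B ≤ l) {us : V} (hus : us ∈ T.ch T.r) (hx : T.bot us ∈ T.L)
    (hc : t (T.bot us) c ≠ t (T.bot us) (c + 1))
    (ht : ∀ b ∈ T.B, (∃ k, ∀ β, R ≤ β + 2 * l → β ≤ R → t b β + k = β) ∨
      (∃ k, ∀ β, R ≤ β + 2 * l → β ≤ R → t b β + β = k)) :
    ∃ β : V → ℕ, (∀ v, v ∉ T.B → v ≠ T.bot us → β v = β₀ v) ∧
      (∀ b ∈ T.B, R ≤ β b + 2 * l ∧ β b ≤ R) ∧
      (β (T.bot us) = c ∨ β (T.bot us) = c + 1) ∧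
      (∀ b ∈ T.B, ∀ b' ∈ T.B, β b + T.cs t β b = β b' + T.cs t β b' → b = b') ∧
      ∀ b ∈ T.B, β b + T.cs t β b ≠ T.cs t β T.r := by
  rcases T.B.eq_empty_or_nonempty with hemp | hne
  · refine ⟨Function.update β₀ (T.bot us) c, ?_, ?_, ?_, ?_, ?_⟩
    · intro v _ hv
      rw [Function.update_of_ne hv]
    · intro b hb
      rw [hemp] at hb
      exact absurd hb (notMem_empty b)
    · left
      rw [Function.update_self]
    · intro b hb
      rw [hemp] at hb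
      exact absurd hb (notMem_empty b)
    · intro b hb
      rw [hemp] at hb
      exact absurd hb (notMem_empty b)
  obtain ⟨ub, hub, hbs⟩ := T.exists_B_top hne
  obtain ⟨bs, hbsd⟩ : ∃ bs, bs = T.bot ub := ⟨_, rfl⟩
  obtain ⟨x₁, hx₁⟩ : ∃ x₁, x₁ = T.bot us := ⟨_, rfl⟩
  rw [← hbsd] at hbs
  rw [← hx₁] at hx hc ⊢
  have hub' := T.mem_ch.1 hub
  have hus' := T.mem_ch.1 hus
  have hLB : ∀ v, v ∈ T.L → v ∉ T.B := fun v h1 h2 => disjoint_left.1 T.disjoint_L_B h1 h2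
  have hxb : x₁ ≠ bs := fun h => hLB x₁ hx (h ▸ hbs)
  have huu : us ≠ ub := by
    intro h
    apply hxb
    rw [hx₁, hbsd, h]
  -- the upper ends
  have htop : ∀ y, y ∈ T.ch T.r → ∀ b, b ∉ T.D → ∀ u ∈ T.ch b, T.bot u = T.bot y → u = y := by
    intro y hy b hb u hu h
    have h1 := T.mem_ch.1 hu
    have h2 := T.mem_ch.1 hy
    refine T.top_inj h1.1 h2.1 ?_ ?_ h
    · rw [h1.2]
      exact hb
    · rw [h2.2]
      exact T.r_notMem_D1
  have hBne : ∀ y, y ∈ T.ch T.r → ∀ b ∈ T.B, ∀ u ∈ T.ch b, T.bot u ≠ T.bot y := by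
    intro y hy b hb u hu h
    have h1 := htop y hy b (T.B_notMem_D hb) u hu h
    have h2 := (T.mem_ch.1 hu).2
    have h3 := (T.mem_ch.1 hy).2
    rw [h1, h3] at h2
    exact (T.mem_B.1 hb).1 h2.symm
  -- the greedy choice
  have hBpos : 0 < #T.B := card_pos.2 hne
  have hPc : #(T.B.erase bs) = #T.B - 1 := card_erase_of_mem hbs
  obtain ⟨β₁, hβ1, hβ2, hβ3⟩ := T.Ph1_greedy t β₀ hR _ (T.B.erase bs) rfl
    (by rw [hPc]; omega)
  obtain ⟨K₀, hK₀⟩ : ∃ K₀, K₀ = ∑ u ∈ ((T.ch T.r).erase ub).erase us,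
      t (T.bot u) (β₁ (T.bot u)) := ⟨_, rfl⟩
  obtain ⟨ρ, hρ1, hρ2⟩ : ∃ ρ, (ρ = c ∨ ρ = c + 1) ∧
      ((∃ k, K₀ + t x₁ ρ ≠ T.cs t β₁ bs + k ∧ ∀ β, R ≤ β + 2 * l → β ≤ R → t bs β + k = β) ∨
        ∃ k, ∀ β, R ≤ β + 2 * l → β ≤ R → t bs β + β = k) := by
    rcases ht bs hbs with ⟨k, hk⟩ | hk
    · by_cases h1 : K₀ + t x₁ c = T.cs t β₁ bs + k
      · exact ⟨c + 1, Or.inr rfl, Or.inl ⟨k, by omega, hk⟩⟩
      · exact ⟨c, Or.inl rfl, Or.inl ⟨k, h1, hk⟩⟩
    · exact ⟨c, Or.inl rfl, Or.inr hk⟩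
  obtain ⟨x, hxa, hxR, hxc1, hxc2, hxc3⟩ := Ph1_pick (T.B.erase bs)
    (fun b => β₁ b + T.cs t β₁ b) hR (by rw [hPc]; omega) hρ2
  clear hρ2
  obtain ⟨β, hβ⟩ : ∃ β : V → ℕ, β = Function.update (Function.update β₁ x₁ ρ) bs x := ⟨_, rfl⟩
  have hβb : β bs = x := by rw [hβ, Function.update_self]
  have hβx : β x₁ = ρ := by rw [hβ, Function.update_of_ne hxb, Function.update_self]
  have hβo : ∀ v, v ≠ x₁ → v ≠ bs → β v = β₁ v := by
    intro v h1 h2
    rw [hβ, Function.update_of_ne h2, Function.update_of_ne h1]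
  have hcs : ∀ b ∈ T.B, T.cs t β b = T.cs t β₁ b := by
    intro b hb
    rw [hβ, T.cs_update, T.cs_update]
    · intro u hu
      rw [hx₁]
      exact hBne us hus b hb u hu
    · intro u hu
      rw [hbsd]
      exact hBne ub hub b hb u hu
  have hcr : T.cs t β T.r = t bs x + (K₀ + t x₁ ρ) := by
    have h1 : us ∈ (T.ch T.r).erase ub := mem_erase.2 ⟨huu, hus⟩
    rw [cs, ← add_sum_erase _ _ hub, ← add_sum_erase _ _ h1, ← hbsd, ← hx₁, hβb, hβx,
      add_comm K₀]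
    congr 2
    rw [hK₀]
    refine sum_congr rfl fun u hu => ?_
    rw [mem_erase, mem_erase] at hu
    rw [hβo]
    · intro h
      rw [hx₁] at h
      exact hu.1 (htop us hus T.r T.r_notMem_D1 u hu.2.2 h)
    · intro h
      rw [hbsd] at h
      exact hu.2.1 (htop ub hub T.r T.r_notMem_D1 u hu.2.2 h)
  have hBo : ∀ b ∈ T.B, b ≠ bs → β b = β₁ b := by
    intro b hb h
    refine hβo b ?_ h
    rintro rfl
    exact hLB b hx hb
  refine ⟨β, ?_, ?_, ?_, ?_, ?_⟩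
  · intro v hv hvx
    have h1 : v ≠ bs := by
      rintro rfl
      exact hv hbs
    rw [hβo v hvx h1, hβ1 v fun h => hv (mem_of_mem_erase h)]
  · intro b hb
    by_cases h1 : b = bs
    · rw [h1, hβb]
      exact ⟨hxa, hxR⟩
    · rw [hBo b hb h1]
      exact hβ2 b (mem_erase.2 ⟨h1, hb⟩)
  · rw [hβx]
    exact hρ1
  · intro b hb b' hb' h
    rw [hcs b hb, hcs b' hb'] at h
    by_cases h1 : b = bs
    · by_cases h2 : b' = bs
      · rw [h1, h2]
      · exfalso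
        rw [h1, hβb, hBo b' hb' h2] at h
        exact hxc1 b' (mem_erase.2 ⟨h2, hb'⟩) h
    · by_cases h2 : b' = bs
      · exfalso
        rw [h2, hβb, hBo b hb h1] at h
        exact hxc1 b (mem_erase.2 ⟨h1, hb⟩) h.symm
      · rw [hBo b hb h1, hBo b' hb' h2] at h
        exact hβ3 b (mem_erase.2 ⟨h1, hb⟩) b' (mem_erase.2 ⟨h2, hb'⟩) h
  · intro b hb h
    rw [hcs b hb, hcr] at h
    by_cases h1 : b = bs
    · rw [h1, hβb] at h
      exact hxc3 h.symm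
    · rw [hBo b hb h1] at h
      exact hxc2 b (mem_erase.2 ⟨h1, hb⟩) h.symm

end RT

end Pool.Agent.H.MP_936c16_co
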