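import Pool.Agent.H.MP_936c16_co.Lv1
import Pool.Agent.H.MP_936c16_co.Lv2
import Pool.Agent.H.MP_936c16_co.Asm4

/-!
The weighting of a rooted tree with many leaves.
-/

set_option autoImplicit false

namespace Pool.Agent.H.MP_936c16_co

open Finset

namespace RT

variable {V : Type} [Fintype V] [DecidableEq V] (T : RT V)

/-- The weighting of a rooted tree with many leaves. -/
theorem exists_weight5 {us : V} (hus : us ∈ T.ch T.r) (hx : T.bot us ∈ T.L)
    (hr : 3 ≤ #(T.ch T.r)) (h : #T.D + 18 * (#T.B + 2) ≤ #T.L) :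
    ∃ e : V → ℕ, e T.r = 0 ∧ (∀ v, v ≠ T.r → 1 ≤ e v ∧ e v ≤ #T.L + 1) ∧
      Function.Injective (T.w e) := by
  obtain ⟨b, hb⟩ : ∃ b, b = #T.B + 1 := ⟨_, rfl⟩
  obtain ⟨s, hs⟩ : ∃ s, s = #T.L + 1 := ⟨_, rfl⟩
  have hBL := T.card_B_ch
  obtain ⟨Y, hYN, hBY, huY, hYc, hY2, hY3⟩ := T.exists_reserved hr hus
  rw [← hb] at hYc
  obtain ⟨X, hX⟩ : ∃ X, X = T.N \ Y := ⟨_, rfl⟩
  have memX : ∀ v, v ∈ X ↔ v ∈ T.N ∧ v ∉ Y := by
    intro v
    rw [hX, mem_sdiff]
  have hXY : Disjoint X Y := by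
    rw [hX]
    exact sdiff_disjoint
  have hXYN : X ∪ Y = T.N := by
    rw [hX]
    exact sdiff_union_of_subset hYN
  have hXL : X ⊆ T.L := by
    intro v hv
    have h3 := (memX v).1 hv
    have h4 := h3.1
    rw [T.N_eq, mem_union] at h4
    rcases h4 with h4 | h4
    · exact h4
    · exact absurd (hBY h4) h3.2
  have hXc := card_le_card hXL
  have hNc : #T.N = #T.L + #T.B := by
    rw [T.N_eq]
    exact card_union_of_disjoint T.disjoint_L_B
  have hXYc : #X + #Y = #T.N := by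
    rw [← hXYN]
    exact (card_union_of_disjoint hXY).symm
  have hXLY : X = T.L \ Y := by
    ext v
    rw [memX, T.N_eq, mem_union, mem_sdiff]
    constructor
    · rintro ⟨h3 | h3, h4⟩
      · exact ⟨h3, h4⟩
      · exact absurd (hBY h3) h4
    · rintro ⟨h3, h4⟩
      exact ⟨Or.inl h3, h4⟩
  have hLYc : #X + #(T.L ∩ Y) = #T.L := by
    rw [hXLY]
    exact card_sdiff_add_card_inter _ _
  obtain ⟨x, W, t, fX, fY, fsl, fW, fx, fWd⟩ := exists_fills5 X Y T.len hXY (s := s) (b := b)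
    (by omega) hYc (by omega) (by rw [hXYN, T.sum_len]; omega) (by rw [hXYN, T.sum_len]; omega)
  rw [hXYN] at fW fWd
  obtain ⟨S, hS⟩ : ∃ S, S = (T.L ∩ Y).erase (T.bot us) := ⟨_, rfl⟩
  have memS : ∀ v, v ∈ T.L → v ∈ Y → v ≠ T.bot us → v ∈ S := by
    intro v h3 h4 h5
    rw [hS]
    exact mem_erase.2 ⟨h5, mem_inter.2 ⟨h3, h4⟩⟩
  have hSc : #S + 1 = #(T.L ∩ Y) := by
    rw [hS]
    exact card_erase_add_one (mem_inter.2 ⟨hx, huY⟩)
  obtain ⟨j, hj1, hj2⟩ := Ph1_num S
  obtain ⟨β₀, hβ₀⟩ : ∃ β₀ : V → ℕ, β₀ = fun v => if v ∈ X then x v else #X + 1 + j v :=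
    ⟨_, rfl⟩
  obtain ⟨β, hβ0, hβB, hβu, hβBi, hβr⟩ := T.exists_beta5 t β₀ (R := s) (l := b)
    (c := #T.L) (by omega) (by omega) hus hx (by
      rcases fsl _ huY with ⟨k, hk⟩ | ⟨k, hk⟩
      · have k1 := hk #T.L (by omega) (by omega)
        have k2 := hk (#T.L + 1) (by omega) (by omega)
        omega
      · have k1 := hk #T.L (by omega) (by omega)
        have k2 := hk (#T.L + 1) (by omega) (by omega)
        omega) (by
      intro v hv
      rcases fsl _ (hBY hv) with ⟨k, hk⟩ | ⟨k, hk⟩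
      · exact Or.inl ⟨k, fun β k1 k2 => hk β (by omega) k2⟩
      · exact Or.inr ⟨k, fun β k1 k2 => hk β (by omega) k2⟩)
  have hLB : ∀ v ∈ T.L, v ∉ T.B := fun v hv h => disjoint_left.1 T.disjoint_L_B hv h
  have hXu : T.bot us ∉ X := fun h => ((memX _).1 h).2 huY
  have hβX : ∀ v ∈ X, β v = x v := by
    intro v hv
    rw [hβ0 v (hLB v (hXL hv)) (fun h => hXu (h ▸ hv)), hβ₀]
    exact if_pos hv
  have hβY : ∀ v ∈ T.L, v ∈ Y → v ≠ T.bot us → β v = #X + 1 + j v ∧ j v < #S := by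
    intro v hv hvY hvu
    have h3 := hj1 v (memS v hv hvY hvu)
    refine ⟨?_, h3⟩
    rw [hβ0 v (hLB v hv) hvu, hβ₀]
    exact if_neg fun h => ((memX v).1 h).2 hvY
  have hβYr : ∀ v ∈ Y, s ≤ β v + 3 * b ∧ β v ≤ s := by
    intro v hv
    have h3 := hYN hv
    rw [T.N_eq, mem_union] at h3
    rcases h3 with h3 | h3
    · by_cases h4 : v = T.bot us
      · rw [h4]
        omega
      · have h5 := hβY v h3 hv h4
        omega
    · have h5 := hβB v h3
      omega
  have hF : ∀ v, ∃ q : ℕ → ℕ, v ∈ T.N → q 0 = β v ∧ q (T.len v) = t v (β v) ∧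
      (∀ i < T.len v, 1 ≤ q (i + 1) ∧ q (i + 1) ≤ s ∧ q i + q (i + 1) ∈ W v) ∧
      ∀ i < T.len v, ∀ i' < T.len v, q i + q (i + 1) = q i' + q (i' + 1) → i = i' := by
    intro v
    by_cases hv : v ∈ T.N
    · have h3 : Fill s (T.len v) (β v) (W v) (t v (β v)) := by
        by_cases hvY : v ∈ Y
        · have h4 := hβYr v hvY
          exact (fY v hvY (β v) h4.1 h4.2).1
        · have h4 := (memX v).2 ⟨hv, hvY⟩
          rw [hβX v h4]
          exact (fX v h4).2.2.2.2
      obtain ⟨q, q1, q2, q3, q4⟩ := h3.exists_inj (fW v hv).1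
      exact ⟨q, fun _ => ⟨q1, q2, q3, q4⟩⟩
    · exact ⟨fun _ => 0, fun h => absurd h hv⟩
  choose q hq using hF
  -- the weights
  obtain ⟨e, he⟩ : ∃ e : V → ℕ, e = fun v => if v = T.r then 0 else q (T.bot v) (T.dn v) :=
    ⟨_, rfl⟩
  have er : e T.r = 0 := by
    rw [he]
    exact if_pos rfl
  have e1 : ∀ v, v ≠ T.r → e v = q (T.bot v) (T.dn v) := by
    intro v hv
    rw [he]
    exact if_neg hv
  have eN : ∀ v ∈ T.N, e v = β v := by
    intro v hv
    have h3 := T.mem_N.1 hv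
    rw [e1 v h3.1, T.dn_of_notMem h3.2, T.bot_of_notMem h3.2]
    exact (hq v hv).1
  have etop : ∀ v, v ≠ T.r → T.par v ∉ T.D → e v = t (T.bot v) (β (T.bot v)) := by
    intro v hv hp
    rw [e1 v hv, T.dn_of_par hv hp]
    exact (hq _ (T.bot_mem_N hv)).2.1
  have hcs : ∀ y, y ∉ T.D → T.c e y = T.cs t β y := by
    intro y hy
    refine sum_congr rfl fun u hu => ?_
    have h3 := T.mem_ch.1 hu
    exact etop u h3.1 (by rw [h3.2]; exact hy)
  have htY : ∀ v ∈ Y, s ≤ t v (β v) + (6 * b + 1) := by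
    intro v hv
    have h4 := hβYr v hv
    exact (fY v hv (β v) h4.1 h4.2).2.1
  have hcsl : ∀ y, #((T.ch y).filter fun u => T.bot u ∈ Y) * (s - (6 * b + 1)) ≤
      T.cs t β y := by
    intro y
    rw [← smul_eq_mul]
    refine (card_nsmul_le_sum _ (fun u => t (T.bot u) (β (T.bot u))) _ fun u hu => ?_).trans
      (sum_le_sum_of_subset (filter_subset _ _))
    have h3 := htY _ (mem_filter.1 hu).2
    omega
  -- the weighted degrees
  have wL : ∀ v ∈ T.L, T.w e v = β v := by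
    intro v hv
    rw [RT.w, RT.c, (T.mem_L.1 hv).2, sum_empty, zero_add]
    exact eN v (by rw [T.N_eq]; exact mem_union_left _ hv)
  have wB : ∀ v ∈ T.B, T.w e v = β v + T.cs t β v := by
    intro v hv
    rw [RT.w, hcs v (T.B_notMem_D hv), eN v (by rw [T.N_eq]; exact mem_union_right _ hv),
      add_comm]
  have wr : T.w e T.r = T.cs t β T.r := by
    rw [RT.w, hcs T.r T.r_notMem_D1, er, add_zero]
  have wD : ∀ v ∈ T.D, 0 < T.dn v ∧ T.dn v - 1 < T.len (T.bot v) ∧
      T.w e v = q (T.bot v) (T.dn v - 1) + q (T.bot v) (T.dn v - 1 + 1) := by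
    intro v hv
    have h3 := T.dn_eq hv
    have h4 := T.bot_eq hv
    have h5 := T.dn_le_len hv
    have h6 : T.dn v - 1 = T.dn (T.chi v) := by omega
    have h7 : T.dn v - 1 + 1 = T.dn v := by omega
    refine ⟨by omega, by omega, ?_⟩
    rw [RT.w, RT.c, T.ch_eq hv, sum_singleton, e1 v (T.mem_D.1 hv).1,
      e1 (T.chi v) (T.chi_ne hv), ← h4, h7, h6]
  -- the classes of the values
  have VB : ∀ v, v = T.r ∨ v ∈ T.B → 2 * s < T.w e v := by
    rintro v (hv | hv)
    · rw [hv, wr]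
      have k1 := hcsl T.r
      have k2 : 3 * (s - (6 * b + 1)) ≤
          #((T.ch T.r).filter fun u => T.bot u ∈ Y) * (s - (6 * b + 1)) :=
        Nat.mul_le_mul_right _ hY3
      omega
    · rw [wB v hv]
      have k1 := hcsl v
      have k2 : 2 * (s - (6 * b + 1)) ≤
          #((T.ch v).filter fun u => T.bot u ∈ Y) * (s - (6 * b + 1)) :=
        Nat.mul_le_mul_right _ (hY2 v hv)
      have k3 := hβB v hv
      omega
  have VL : ∀ v ∈ T.L, (v ∈ X ∧ T.w e v = x v ∧ x v ≤ #X) ∨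
      (v ∈ Y ∧ #X + 1 ≤ T.w e v ∧ T.w e v ≤ s) := by
    intro v hv
    have hvN : v ∈ T.N := by
      rw [T.N_eq]
      exact mem_union_left _ hv
    rw [wL v hv]
    by_cases hvY : v ∈ Y
    · refine Or.inr ⟨hvY, ?_, (hβYr v hvY).2⟩
      by_cases h4 : v = T.bot us
      · rw [h4]
        omega
      · have h5 := hβY v hv hvY h4
        omega
    · have h3 := (memX v).2 ⟨hvN, hvY⟩
      exact Or.inl ⟨h3, hβX v h3, (fX v h3).2.1⟩
  have VD : ∀ v ∈ T.D, T.w e v ∈ W (T.bot v) := by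
    intro v hv
    obtain ⟨-, k2, k3⟩ := wD v hv
    rw [k3]
    exact ((hq _ (T.bot_mem_N (T.mem_D.1 hv).1)).2.2.1 _ k2).2.2
  have VDs : ∀ v ∈ T.D, s < T.w e v ∧ T.w e v ≤ 2 * s := fun v hv =>
    (fW _ (T.bot_mem_N (T.mem_D.1 hv).1)).2 _ (VD v hv)
  have VLi : ∀ u ∈ T.L, ∀ v ∈ T.L, T.w e u = T.w e v → u = v := by
    intro u hu v hv huv
    rcases VL u hu with ⟨k1, k2, k3⟩ | ⟨k1, k2, k3⟩
    · rcases VL v hv with ⟨g1, g2, g3⟩ | ⟨g1, g2, g3⟩
      · exact fx u k1 v g1 (by omega)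
      · omega
    · rcases VL v hv with ⟨g1, g2, g3⟩ | ⟨g1, g2, g3⟩
      · omega
      · rw [wL u hu, wL v hv] at huv
        by_cases h3 : u = T.bot us
        · by_cases h4 : v = T.bot us
          · rw [h3, h4]
          · have h5 := hβY v hv g1 h4
            rw [h3] at huv
            omega
        · by_cases h4 : v = T.bot us
          · have h5 := hβY u hu k1 h3
            rw [h4] at huv
            omega
          · have h5 := hβY u hu k1 h3
            have h6 := hβY v hv g1 h4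
            exact hj2 u (memS u hu k1 h3) v (memS v hv g1 h4) (by omega)
  have VLs : ∀ u ∈ T.L, T.w e u ≤ s := by
    intro u hu
    rcases VL u hu with ⟨k1, k2, k3⟩ | ⟨k1, k2, k3⟩
    · omega
    · omega
  have kinds : ∀ v, v ∈ T.L ∨ (v = T.r ∨ v ∈ T.B) ∨ v ∈ T.D := by
    intro v
    by_cases hv : v = T.r
    · exact Or.inr (Or.inl (Or.inl hv))
    by_cases hD : v ∈ T.D
    · exact Or.inr (Or.inr hD)
    · have h3 : v ∈ T.N := T.mem_N.2 ⟨hv, hD⟩
      rw [T.N_eq, mem_union] at h3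
      rcases h3 with h3 | h3
      · exact Or.inl h3
      · exact Or.inr (Or.inl (Or.inr h3))
  refine ⟨e, er, ?_, ?_⟩
  · intro v hv
    rw [← hs]
    by_cases hD : v ∈ T.D
    · obtain ⟨k1, k2, -⟩ := wD v hD
      have h5 := (hq _ (T.bot_mem_N hv)).2.2.1 _ k2
      have h6 : T.dn v - 1 + 1 = T.dn v := by omega
      rw [h6] at h5
      rw [e1 v hv]
      exact ⟨h5.1, h5.2.1⟩
    · have hN : v ∈ T.N := T.mem_N.2 ⟨hv, hD⟩
      rw [eN v hN]
      by_cases hvY : v ∈ Y
      · have h3 := hβYr v hvY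
        omega
      · have h3 := (memX v).2 ⟨hN, hvY⟩
        have h4 := fX v h3
        rw [hβX v h3]
        omega
  · intro u v huv
    rcases kinds u with k1 | k1 | k1
    · have k2 := VLs u k1
      rcases kinds v with g1 | g1 | g1
      · exact VLi u k1 v g1 huv
      · have g2 := VB v g1
        omega
      · have g2 := (VDs v g1).1
        omega
    · have k2 := VB u k1
      rcases kinds v with g1 | g1 | g1
      · have g2 := VLs v g1
        omega
      · rcases k1 with k1 | k1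
        · rcases g1 with g1 | g1
          · rw [k1, g1]
          · exfalso
            rw [k1, wr, wB v g1] at huv
            exact hβr v g1 huv.symm
        · rcases g1 with g1 | g1
          · exfalso
            rw [g1, wr, wB u k1] at huv
            exact hβr u k1 huv
          · rw [wB u k1, wB v g1] at huv
            exact hβBi u k1 v g1 huv
      · have g2 := (VDs v g1).2
        omega
    · rcases kinds v with g1 | g1 | g1
      · have g2 := VLs v g1
        have k2 := (VDs u k1).1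
        omega
      · have g2 := VB v g1
        have k2 := (VDs u k1).2
        omega
      · obtain ⟨k2, k3, k4⟩ := wD u k1
        obtain ⟨g2, g3, g4⟩ := wD v g1
        have huN := T.bot_mem_N (T.mem_D.1 k1).1
        have hvN := T.bot_mem_N (T.mem_D.1 g1).1
        have hbb : T.bot u = T.bot v := by
          by_contra h
          exact disjoint_left.1 (fWd _ huN _ hvN h) (VD u k1) (by rw [huv]; exact VD v g1)
        rw [k4, g4, hbb] at huv
        rw [hbb] at k3
        have h4 := (hq _ hvN).2.2.2 _ k3 _ g3 huv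
        exact T.dn_bot_inj k1 g1 hbb (by omega)

end RT

end Pool.Agent.H.MP_936c16_co
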