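import Pool.Agent.H.MP_936c16_co.Lv3
import Pool.Agent.H.MP_936c16_co.Gr7

/-!
From rooted trees to trees as graphs: trees with many leaves.
-/

set_option autoImplicit false

namespace Pool.Agent.H.MP_936c16_co

open Finset

variable {V : Type} [Fintype V] [DecidableEq V] {G : SimpleGraph V} [DecidableRel G.Adj]

private theorem lv4_L (hG : G.IsTree) {r : V} (hr : 3 ≤ G.degree r) :
    #(rt hG r).L = cnt G 1 := by
  rw [cnt]
  congr 1
  ext v
  rw [RT.mem_L, mem_filter]
  by_cases hv : v = r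
  · rw [hv]
    constructor
    · rintro ⟨h5, -⟩
      exact absurd rfl h5
    · rintro ⟨-, h5⟩
      omega
  · rw [degree_of_ne hG hv]
    constructor
    · rintro ⟨-, h5⟩
      refine ⟨mem_univ _, ?_⟩
      rw [h5, card_empty]
    · rintro ⟨-, h5⟩
      refine ⟨hv, ?_⟩
      rw [← card_eq_zero]
      omega

private theorem lv4_D (hG : G.IsTree) {r : V} (hr : 3 ≤ G.degree r) :
    #(rt hG r).D = cnt G 2 := by
  rw [cnt]
  congr 1
  ext v
  rw [RT.mem_D, mem_filter]
  by_cases hv : v = r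
  · rw [hv]
    constructor
    · rintro ⟨h5, -⟩
      exact absurd rfl h5
    · rintro ⟨-, h5⟩
      omega
  · rw [degree_of_ne hG hv]
    constructor
    · rintro ⟨-, h5⟩
      exact ⟨mem_univ _, by omega⟩
    · rintro ⟨-, h5⟩
      exact ⟨hv, by omega⟩

private theorem lv4_B (hG : G.IsTree) {r : V} (hr : 3 ≤ G.degree r) :
    #(univ.filter fun v => 3 ≤ G.degree v) = #(rt hG r).B + 1 := by
  have h1 : r ∉ (rt hG r).B := fun h => ((RT.mem_B _).1 h).1 rfl
  rw [← card_insert_of_notMem h1]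
  congr 1
  ext v
  rw [mem_insert, RT.mem_B, mem_filter]
  by_cases hv : v = r
  · rw [hv]
    exact ⟨fun _ => Or.inl rfl, fun _ => ⟨mem_univ _, hr⟩⟩
  · rw [degree_of_ne hG hv]
    constructor
    · rintro ⟨-, h5⟩
      exact Or.inr ⟨hv, by omega⟩
    · rintro (h5 | ⟨-, h5⟩)
      · exact absurd h5 hv
      · exact ⟨mem_univ _, by omega⟩

/-- The weighting of a tree with many leaves, `b` is the number of the vertices of degree at least three. -/
theorem exists_weighting8 (hG : G.IsTree) {b : ℕ} (hb : b = #(univ.filter fun v => 3 ≤ G.degree v))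
    (h : cnt G 2 + 18 * (b + 1) ≤ cnt G 1) :
    ∃ w : V → V → ℕ, (∀ u v : V, G.Adj u v → 1 ≤ w u v ∧ w u v ≤ cnt G 1 + 1 ∧ w u v = w v u) ∧
      Function.Injective (fun v : V => ∑ u ∈ G.neighborFinset v, w v u) := by
  have h3 : 3 ≤ cnt G 1 := by omega
  obtain ⟨r, hr, u₁, hu₁, hx⟩ := exists_root hG h3
  have hL := lv4_L hG hr
  have hD := lv4_D hG hr
  have hB := lv4_B hG hr
  obtain ⟨e, he0, he, hinj⟩ := (rt hG r).exists_weight5 hu₁ hx
    (by rw [degree_root hG] at hr; exact hr) (by omega)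
  rw [hL] at he
  exact weighting_of_e hG he0 he hinj

end Pool.Agent.H.MP_936c16_co
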