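import Pool.Agent.H.MP_936c16_co.Lw1b

/-!
The sets of the weighted degrees in the threads if there are many leaves: all of them are larger than `s`.
There are two possibilities `σ = 0`, `σ = 1` for one of the reserved threads.
-/

set_option autoImplicit false

namespace Pool.Agent.H.MP_936c16_co

open Finset

variable {V : Type} [DecidableEq V]

/-- The sets of the weighted degrees in the threads. -/
theorem exists_fills6 (X Y : Finset V) (len : V → ℕ) (hXY : Disjoint X Y) {s b : ℕ} (hb : 1 ≤ b)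
    (y : V) (hY : #Y ≤ 3 * b) (hX : #X ≤ s) (h1 : ∑ v ∈ X ∪ Y, len v + 1 ≤ #X)
    (h2 : ∑ v ∈ X ∪ Y, len v + 6 * b + 3 ≤ s) :
    ∃ (x : V → ℕ) (W : ℕ → V → Finset ℕ) (t : ℕ → V → ℕ → ℕ),
      (∀ σ ≤ 1, ∀ v ∈ X, 1 ≤ x v ∧ x v ≤ #X ∧ 1 ≤ t σ v (x v) ∧ t σ v (x v) ≤ s ∧
        Fill s (len v) (x v) (W σ v) (t σ v (x v))) ∧
      (∀ σ ≤ 1, ∀ v ∈ Y, ∀ β, s ≤ β + 3 * b → β ≤ s → Fill s (len v) β (W σ v) (t σ v β) ∧
        s ≤ t σ v β + (6 * b + 2) ∧ t σ v β ≤ s) ∧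
      (∀ v ∈ Y, (len v % 2 = 0 ∧ ∃ k, ∀ β, s ≤ β + 3 * b → β ≤ s → t 0 v β + k = β) ∨
        (len v % 2 = 1 ∧ ∃ k, ∀ β, s ≤ β + 3 * b → β ≤ s → t 0 v β + β = k)) ∧
      (∀ v ∈ X ∪ Y, v ≠ y → t 1 v = t 0 v) ∧
      (y ∈ Y → len y % 2 = 1 → ∀ β, s ≤ β + 3 * b → β ≤ s → t 1 y β = t 0 y β + 1) ∧
      (∀ σ ≤ 1, ∀ v ∈ X ∪ Y, #(W σ v) = len v ∧ ∀ w ∈ W σ v, s < w ∧ w ≤ 2 * s) ∧
      (∀ v ∈ X, ∀ v' ∈ X, x v = x v' → v = v') ∧
      ∀ σ ≤ 1, ∀ v ∈ X ∪ Y, ∀ v' ∈ X ∪ Y, v ≠ v' → Disjoint (W σ v) (W σ v') := by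
  rw [sum_union hXY] at h1 h2
  obtain ⟨A, hA⟩ : ∃ A, A = X.filter fun v => len v = 0 := ⟨_, rfl⟩
  obtain ⟨P, hP⟩ : ∃ P, P = X.filter fun v => ¬ len v = 0 := ⟨_, rfl⟩
  have memA : ∀ v, v ∈ A ↔ v ∈ X ∧ len v = 0 := by
    intro v
    rw [hA, mem_filter]
  have memP : ∀ v, v ∈ P ↔ v ∈ X ∧ ¬ len v = 0 := by
    intro v
    rw [hP, mem_filter]
  have hdAP : Disjoint A P := by
    rw [disjoint_left]
    intro v hv hv'
    exact ((memP v).1 hv').2 ((memA v).1 hv).2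
  have huAP : A ∪ P = X := by
    ext v
    rw [mem_union, memA, memP]
    tauto
  have hAP : #A + #P = #X := by
    rw [← card_union_of_disjoint hdAP, huAP]
  have hSX : ∑ v ∈ X, len v = ∑ v ∈ P, len v := by
    rw [← huAP, sum_union hdAP, sum_eq_zero fun v hv => ((memA v).1 hv).2, zero_add]
  have hPl : ∀ v ∈ P, 1 ≤ len v := by
    intro v hv
    have h3 := ((memP v).1 hv).2
    omega
  have hPs : #P ≤ ∑ v ∈ P, len v := by
    rw [card_eq_sum_ones]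
    exact sum_le_sum hPl
  rw [hSX] at h1 h2
  obtain ⟨SY, hSY⟩ : ∃ S, S = ∑ v ∈ Y, len v := ⟨_, rfl⟩
  obtain ⟨SP, hSP⟩ : ∃ S, S = ∑ v ∈ P, len v := ⟨_, rfl⟩
  rw [← hSY, ← hSP] at h1 h2
  rw [← hSP] at hPs
  obtain ⟨x₁, W₁, t₁, p1, p2, p3⟩ := lv_pos P len (s := s) (L := #A + 1) (U := s + 1) (by omega)
    (by omega) hPl (by omega) (by rw [← hSP]; omega)
  rw [← hSP] at p1
  obtain ⟨Z, hZ⟩ : ∃ Z, Z + 6 * b + 2 = 2 * s := ⟨2 * s - (6 * b + 2), by omega⟩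
  obtain ⟨W₂, t₂, r1, r2, r5, r6, r3, r4⟩ := lw_res Y len (s := s) (U := s + 1 + SP) (Z := Z)
    (b := b) y hb (by omega) hZ (by omega) hY (by rw [← hSY]; omega)
  rw [← hSY] at r3
  obtain ⟨f, f1, f2⟩ := lv_num A
  have hYX : ∀ v ∈ Y, v ∉ X := fun v hv hv' => disjoint_left.1 hXY hv' hv
  have hYP : ∀ v ∈ Y, v ∉ P := fun v hv hv' => hYX v hv ((memP v).1 hv').1
  have hPY : ∀ v ∈ P, v ∉ Y := fun v hv hv' => hYP v hv' hv
  have hAY : ∀ v ∈ A, v ∉ Y := fun v hv hv' => hYX v hv' ((memA v).1 hv).1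
  have hAnP : ∀ v ∈ A, v ∉ P := fun v hv hv' => disjoint_left.1 hdAP hv hv'
  obtain ⟨x, hx⟩ : ∃ x : V → ℕ, x = fun v => if v ∈ P then x₁ v else 1 + f v := ⟨_, rfl⟩
  obtain ⟨W, hW⟩ : ∃ W : ℕ → V → Finset ℕ, W = fun σ v =>
      if v ∈ Y then W₂ σ v else if v ∈ P then W₁ v else ∅ := ⟨_, rfl⟩
  obtain ⟨t, ht⟩ : ∃ t : ℕ → V → ℕ → ℕ, t = fun σ v β =>
      if v ∈ Y then t₂ σ v β else if v ∈ P then t₁ v else β := ⟨_, rfl⟩
  have xP : ∀ v ∈ P, x v = x₁ v := fun v hv => by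
    rw [hx]
    exact if_pos hv
  have xA : ∀ v ∈ A, x v = 1 + f v := fun v hv => by
    rw [hx]
    exact if_neg (hAnP v hv)
  have WP : ∀ σ, ∀ v ∈ P, W σ v = W₁ v := fun σ v hv => by
    rw [hW]
    exact (if_neg (hPY v hv)).trans (if_pos hv)
  have WA : ∀ σ, ∀ v ∈ A, W σ v = ∅ := fun σ v hv => by
    rw [hW]
    exact (if_neg (hAY v hv)).trans (if_neg (hAnP v hv))
  have WY : ∀ σ, ∀ v ∈ Y, W σ v = W₂ σ v := fun σ v hv => by
    rw [hW]
    exact if_pos hv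
  have tP : ∀ σ, ∀ v ∈ P, ∀ β, t σ v β = t₁ v := fun σ v hv β => by
    rw [ht]
    exact (if_neg (hPY v hv)).trans (if_pos hv)
  have tA : ∀ σ, ∀ v ∈ A, ∀ β, t σ v β = β := fun σ v hv β => by
    rw [ht]
    exact (if_neg (hAY v hv)).trans (if_neg (hAnP v hv))
  have tY : ∀ σ, ∀ v ∈ Y, ∀ β, t σ v β = t₂ σ v β := fun σ v hv β => by
    rw [ht]
    exact if_pos hv
  have hXc : ∀ v ∈ X, v ∈ A ∨ v ∈ P := by
    intro v hv
    rw [← huAP, mem_union] at hv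
    exact hv
  have hc : ∀ v ∈ X ∪ Y, v ∈ A ∨ v ∈ P ∨ v ∈ Y := by
    intro v hv
    rcases mem_union.1 hv with h | h
    · rcases hXc v h with h | h
      · exact Or.inl h
      · exact Or.inr (Or.inl h)
    · exact Or.inr (Or.inr h)
  refine ⟨x, W, t, ?_, ?_, ?_, ?_, ?_, ?_, ?_, ?_⟩
  · intro σ _ v hv
    rcases hXc v hv with h | h
    · have g1 := f1 v h
      rw [xA v h, tA σ v h, WA σ v h, ((memA v).1 h).2]
      exact ⟨by omega, by omega, by omega, by omega, Fill.nil _⟩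
    · obtain ⟨g1, g2, g3, g4, g5, -⟩ := p1 v h
      rw [xP v h, tP σ v h, WP σ v h]
      exact ⟨by omega, by omega, g3, g4, g5⟩
  · intro σ hσ v hv β hβ hβ'
    rw [tY σ v hv, WY σ v hv]
    exact r1 σ hσ v hv β hβ hβ'
  · intro v hv
    rcases r2 v hv with ⟨h3, k, hk⟩ | ⟨h3, k, hk⟩
    · exact Or.inl ⟨h3, k, fun β g1 g2 => by rw [tY 0 v hv]; exact hk β g1 g2⟩
    · exact Or.inr ⟨h3, k, fun β g1 g2 => by rw [tY 0 v hv]; exact hk β g1 g2⟩
  · intro v hv hvy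
    funext β
    rcases hc v hv with h | h | h
    · rw [tA 1 v h, tA 0 v h]
    · rw [tP 1 v h, tP 0 v h]
    · rw [tY 1 v h, tY 0 v h, r5 v h hvy]
  · intro hy hodd β g1 g2
    rw [tY 1 y hy, tY 0 y hy]
    exact r6 hy hodd β g1 g2
  · intro σ hσ v hv
    rcases hc v hv with h | h | h
    · rw [WA σ v h, ((memA v).1 h).2]
      exact ⟨card_empty, fun w hw => absurd hw (notMem_empty w)⟩
    · obtain ⟨-, -, -, -, -, g6, g7⟩ := p1 v h
      rw [WP σ v h]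
      refine ⟨g6, fun w hw => ?_⟩
      have g8 := g7 w hw
      omega
    · obtain ⟨g6, g7⟩ := r3 σ hσ v h
      rw [WY σ v h]
      refine ⟨g6, fun w hw => ?_⟩
      have g8 := g7 w hw
      omega
  · intro v hv v' hv' h
    rcases hXc v hv with g | g
    · rcases hXc v' hv' with g' | g'
      · rw [xA v g, xA v' g'] at h
        exact f2 v g v' g' (by omega)
      · exfalso
        rw [xA v g, xP v' g'] at h
        have g1 := f1 v g
        have g2 := (p1 v' g').1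
        omega
    · rcases hXc v' hv' with g' | g'
      · exfalso
        rw [xP v g, xA v' g'] at h
        have g1 := f1 v' g'
        have g2 := (p1 v g).1
        omega
      · rw [xP v g, xP v' g'] at h
        exact p2 v g v' g' h
  · have key : ∀ σ ≤ 1, ∀ v ∈ P, ∀ v' ∈ Y, Disjoint (W₁ v) (W₂ σ v') := by
      intro σ hσ v hv v' hv'
      rw [disjoint_left]
      intro w hw hw'
      have e1 := (p1 v hv).2.2.2.2.2.2 w hw
      have e2 := (r3 σ hσ v' hv').2 w hw'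
      omega
    intro σ hσ v hv v' hv' hne
    rcases hc v hv with g | g | g
    · rw [WA σ v g]
      exact disjoint_empty_left _
    · rcases hc v' hv' with g' | g' | g'
      · rw [WA σ v' g']
        exact disjoint_empty_right _
      · rw [WP σ v g, WP σ v' g']
        exact p3 v g v' g' hne
      · rw [WP σ v g, WY σ v' g']
        exact key σ hσ v g v' g'
    · rcases hc v' hv' with g' | g' | g'
      · rw [WA σ v' g']
        exact disjoint_empty_right _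
      · rw [WY σ v g, WP σ v' g']
        exact (key σ hσ v' g' v g).symm
      · rw [WY σ v g, WY σ v' g']
        exact r4 σ hσ v g v' g' hne

end Pool.Agent.H.MP_936c16_co
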