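import Pool.Agent.H.MP_936c16_co.Lv1

/-!
Threads which start with a weight in `[s - 3 b, s]`, all weighted degrees are larger than `s`. There are two
possibilities `σ = 0`, `σ = 1` for one of the threads.
-/

set_option autoImplicit false

namespace Pool.Agent.H.MP_936c16_co

open Finset

/-- one thread -/
theorem lw_one {s U Z b z n β e : ℕ} (hb : 1 ≤ b) (hU : s < U) (hZ : Z + 6 * b + 2 = 2 * s)
    (hs : 3 * b + 3 ≤ s) (hn : U + n ≤ Z) (hz1 : Z ≤ z) (hz2 : z ≤ Z + 3 * b)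
    (he : e = n / 2 % 2) (h1 : s ≤ β + 3 * b) (h2 : β ≤ s) :
    Fill s n β (Ico U (U + 2 * (n / 2)) ∪ if n % 2 = 1 then {z} else ∅)
      (if n % 2 = 1 then z - (β - e) else β - e) := by
  obtain ⟨p, hp⟩ : ∃ p, p = n / 2 := ⟨_, rfl⟩
  rw [← hp] at he ⊢
  have c1 : Fill s (2 * p) β (Ico U (U + 2 * p)) (β - e) := by
    rw [he]
    exact ptr_up (by omega) h2 (by omega) (by omega)
  have he1 : e ≤ 1 := by omega
  clear he
  rcases (show n % 2 = 1 ∨ n % 2 = 0 by omega) with hq | hq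
  · rw [if_pos hq, if_pos hq]
    have c2 : Fill s 1 (β - e) {z} (z - (β - e)) :=
      Fill.single (by omega) (by omega) (by omega)
    rw [show n = 2 * p + 1 by omega]
    exact c1.append c2
  · rw [if_neg (by omega), if_neg (by omega), union_empty]
    rw [show n = 2 * p by omega]
    exact c1

variable {V : Type} [DecidableEq V]

/-- disjoint blocks of given lengths -/
theorem lw_blocks (Y : Finset V) (len : V → ℕ) (U : ℕ) : ∃ u : V → ℕ,
    (∀ v ∈ Y, U ≤ u v ∧ u v + len v ≤ U + ∑ v ∈ Y, len v) ∧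
    ∀ v ∈ Y, ∀ v' ∈ Y, v ≠ v' → u v + len v ≤ u v' ∨ u v' + len v' ≤ u v := by
  induction Y using Finset.induction_on with
  | empty =>
    exact ⟨fun _ => 0, fun v hv => absurd hv (notMem_empty v),
      fun v hv => absurd hv (notMem_empty v)⟩
  | @insert a Y ha ih =>
    obtain ⟨u, h1, h2⟩ := ih
    rw [sum_insert ha]
    obtain ⟨S, hS⟩ : ∃ S, S = ∑ v ∈ Y, len v := ⟨_, rfl⟩
    rw [← hS] at h1 ⊢
    clear hS
    have hne : ∀ v ∈ Y, v ≠ a := fun v hv h5 => ha (h5 ▸ hv)
    refine ⟨Function.update u a (U + S), ?_, ?_⟩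
    · intro v hv
      rw [mem_insert] at hv
      rcases hv with rfl | hv
      · rw [Function.update_self]
        omega
      · rw [Function.update_of_ne (hne v hv)]
        have h3 := h1 v hv
        omega
    · intro v hv v' hv' hvv
      rw [mem_insert] at hv hv'
      rcases hv with rfl | hv
      · rcases hv' with rfl | hv'
        · exact absurd rfl hvv
        · rw [Function.update_self, Function.update_of_ne (hne v' hv')]
          exact Or.inr (h1 v' hv').2
      · rcases hv' with rfl | hv'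
        · rw [Function.update_self, Function.update_of_ne (hne v hv)]
          exact Or.inl (h1 v hv).2
        · rw [Function.update_of_ne (hne v hv), Function.update_of_ne (hne v' hv')]
          exact h2 v hv v' hv' hvv

/-- threads which start with a weight in `[s - 3 b, s]`, two possibilities for the thread `y` -/
theorem lw_res (Y : Finset V) (len : V → ℕ) {s U Z b : ℕ} (y : V) (hb : 1 ≤ b) (hU : s < U)
    (hZ : Z + 6 * b + 2 = 2 * s) (hs : 3 * b + 3 ≤ s) (hY : #Y ≤ 3 * b)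
    (hS : U + ∑ v ∈ Y, len v ≤ Z) :
    ∃ (W : ℕ → V → Finset ℕ) (t : ℕ → V → ℕ → ℕ),
      (∀ σ ≤ 1, ∀ v ∈ Y, ∀ β, s ≤ β + 3 * b → β ≤ s → Fill s (len v) β (W σ v) (t σ v β) ∧
        s ≤ t σ v β + (6 * b + 2) ∧ t σ v β ≤ s) ∧
      (∀ v ∈ Y, (len v % 2 = 0 ∧ ∃ k, ∀ β, s ≤ β + 3 * b → β ≤ s → t 0 v β + k = β) ∨
        (len v % 2 = 1 ∧ ∃ k, ∀ β, s ≤ β + 3 * b → β ≤ s → t 0 v β + β = k)) ∧
      (∀ v ∈ Y, v ≠ y → t 1 v = t 0 v) ∧
      (y ∈ Y → len y % 2 = 1 → ∀ β, s ≤ β + 3 * b → β ≤ s → t 1 y β = t 0 y β + 1) ∧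
      (∀ σ ≤ 1, ∀ v ∈ Y, #(W σ v) = len v ∧ ∀ w ∈ W σ v,
        (U ≤ w ∧ w < U + ∑ v ∈ Y, len v) ∨ (Z ≤ w ∧ w ≤ Z + 3 * b)) ∧
      ∀ σ ≤ 1, ∀ v ∈ Y, ∀ v' ∈ Y, v ≠ v' → Disjoint (W σ v) (W σ v') := by
  obtain ⟨S, hSd⟩ : ∃ S, S = ∑ v ∈ Y, len v := ⟨_, rfl⟩
  obtain ⟨u, hu1, hu2⟩ := lw_blocks Y len U
  rw [← hSd] at hS hu1 ⊢
  obtain ⟨j, hj1, hj2⟩ := lv_num (Y.erase y)
  obtain ⟨z, hz⟩ : ∃ z : ℕ → V → ℕ, z = fun σ v =>
      if v = y then Z + (3 * b - 1) + σ else Z + j v := ⟨_, rfl⟩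
  have zy : ∀ σ, z σ y = Z + (3 * b - 1) + σ := fun σ => by
    rw [hz]
    exact if_pos rfl
  have zn : ∀ σ v, v ≠ y → z σ v = Z + j v := fun σ v hv => by
    rw [hz]
    exact if_neg hv
  have zr : ∀ σ ≤ 1, ∀ v ∈ Y, Z ≤ z σ v ∧ z σ v ≤ Z + 3 * b := by
    intro σ hσ v hv
    by_cases h : v = y
    · rw [h, zy]
      omega
    · have h1 := hj1 v (mem_erase.2 ⟨h, hv⟩)
      have h2 := card_le_card (erase_subset y Y)
      rw [zn σ v h]
      omega
  have zlt : y ∈ Y → ∀ v ∈ Y, v ≠ y → j v < 3 * b - 1 := by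
    intro hy v hv h
    have h1 := hj1 v (mem_erase.2 ⟨h, hv⟩)
    rw [card_erase_of_mem hy] at h1
    omega
  have zi : ∀ σ ≤ 1, ∀ v ∈ Y, ∀ v' ∈ Y, z σ v = z σ v' → v = v' := by
    intro σ hσ v hv v' hv' h
    by_cases h1 : v = y
    · by_cases h2 : v' = y
      · rw [h1, h2]
      · exfalso
        rw [h1] at hv
        have h3 := zlt hv v' hv' h2
        rw [h1, zy, zn σ v' h2] at h
        omega
    · by_cases h2 : v' = y
      · exfalso
        rw [h2] at hv'
        have h3 := zlt hv' v hv h1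
        rw [h2, zy, zn σ v h1] at h
        omega
      · rw [zn σ v h1, zn σ v' h2] at h
        exact hj2 v (mem_erase.2 ⟨h1, hv⟩) v' (mem_erase.2 ⟨h2, hv'⟩) (by omega)
  obtain ⟨e, he⟩ : ∃ e : V → ℕ, ∀ v, e v = len v / 2 % 2 := ⟨fun v => len v / 2 % 2, fun _ => rfl⟩
  have he1 : ∀ v, e v ≤ 1 := by
    intro v
    rw [he]
    omega
  obtain ⟨W, hW⟩ : ∃ W : ℕ → V → Finset ℕ, ∀ σ v, W σ v = Ico (u v) (u v + 2 * (len v / 2)) ∪
      if len v % 2 = 1 then {z σ v} else ∅ := ⟨fun σ v => Ico (u v) (u v + 2 * (len v / 2)) ∪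
      if len v % 2 = 1 then {z σ v} else ∅, fun _ _ => rfl⟩
  obtain ⟨t, ht⟩ : ∃ t : ℕ → V → ℕ → ℕ, ∀ σ v β, t σ v β =
      if len v % 2 = 1 then z σ v - (β - e v) else β - e v :=
    ⟨fun σ v β => if len v % 2 = 1 then z σ v - (β - e v) else β - e v, fun _ _ _ => rfl⟩
  have hWm : ∀ σ v w, w ∈ W σ v → (u v ≤ w ∧ w < u v + len v) ∨ w = z σ v := by
    intro σ v w hw
    rw [hW, mem_union, mem_Ico] at hw
    rcases hw with hw | hw
    · left
      omega
    · right
      split_ifs at hw with h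
      · exact mem_singleton.1 hw
      · exact absurd hw (notMem_empty w)
  refine ⟨W, t, ?_, ?_, ?_, ?_, ?_, ?_⟩
  · intro σ hσ v hv β h1 h2
    have h3 := hu1 v hv
    have h4 := zr σ hσ v hv
    have h5 := he1 v
    rw [hW, ht]
    refine ⟨lw_one hb (by omega) hZ hs (by omega) h4.1 h4.2 (he v) h1 h2, ?_, ?_⟩
    · split_ifs <;> omega
    · split_ifs <;> omega
  · intro v hv
    have h4 := zr 0 (by omega) v hv
    have h5 := he1 v
    rcases (show len v % 2 = 0 ∨ len v % 2 = 1 by omega) with h | h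
    · refine Or.inl ⟨h, e v, fun β h1 h2 => ?_⟩
      rw [ht, if_neg (by omega)]
      omega
    · refine Or.inr ⟨h, z 0 v + e v, fun β h1 h2 => ?_⟩
      rw [ht, if_pos h]
      omega
  · intro v hv hvy
    funext β
    rw [ht, ht, zn 1 v hvy, zn 0 v hvy]
  · intro hy hodd β h1 h2
    have h4 := zr 0 (by omega) y hy
    have h5 := he1 y
    rw [ht, ht, if_pos hodd, if_pos hodd, zy, zy]
    rw [zy] at h4
    omega
  · intro σ hσ v hv
    have h3 := hu1 v hv
    have h4 := zr σ hσ v hv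
    refine ⟨?_, ?_⟩
    · rw [hW, card_union_of_disjoint, Nat.card_Ico]
      · split_ifs with h
        · rw [card_singleton]
          omega
        · rw [card_empty]
          omega
      · rw [disjoint_left]
        intro w hw hw'
        rw [mem_Ico] at hw
        split_ifs at hw' with h
        · rw [mem_singleton] at hw'
          omega
        · exact absurd hw' (notMem_empty w)
    · intro w hw
      rcases hWm σ v w hw with h | h
      · left
        omega
      · right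
        rw [h]
        exact h4
  · intro σ hσ v hv v' hv' hne
    rw [disjoint_left]
    intro w hw hw'
    have h3 := hu1 v hv
    have h4 := zr σ hσ v hv
    have h5 := hu1 v' hv'
    have h6 := zr σ hσ v' hv'
    have h7 := hu2 v hv v' hv' hne
    have h8 : z σ v ≠ z σ v' := fun h => hne (zi σ hσ v hv v' hv' h)
    rcases hWm σ v w hw with h | h
    · rcases hWm σ v' w hw' with g | g
      · omega
      · omega
    · rcases hWm σ v' w hw' with g | g
      · omega
      · omega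

end Pool.Agent.H.MP_936c16_co
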