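import Pool.Agent.H.MP_936c16_co.Lv2

/-!
The weights above the vertices with at least two children; there are two possibilities `σ = 0`, `σ = 1` for the
other weights.
-/

set_option autoImplicit false

namespace Pool.Agent.H.MP_936c16_co

open Finset

namespace RT

variable {V : Type} [Fintype V] [DecidableEq V] (T : RT V)

/-- the greedy choice for both possibilities at once -/
theorem Lw2_greedy (t : ℕ → V → ℕ → ℕ) {R l : ℕ} (hR : 2 * l ≤ R) (k : ℕ) :
    ∀ P : Finset V, #P = k → k ≤ l + 1 → ∃ β : V → ℕ, (∀ b ∈ P, R ≤ β b + 2 * l ∧ β b ≤ R) ∧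
      ∀ σ ≤ 1, ∀ b ∈ P, ∀ b' ∈ P, β b + T.cs (t σ) β b = β b' + T.cs (t σ) β b' → b = b' := by
  induction k with
  | zero =>
    intro P hP _
    rw [card_eq_zero] at hP
    subst hP
    exact ⟨fun _ => 0, fun v hv => absurd hv (notMem_empty v),
      fun σ _ v hv => absurd hv (notMem_empty v)⟩
  | succ k ih =>
    intro P hP hk
    obtain ⟨v₀, hv₀, hmin⟩ := exists_min_image P T.ht (card_pos.1 (by omega))
    have hnot : ∀ v ∈ P, ∀ u ∈ T.ch v, T.bot u ≠ v₀ := by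
      intro v hv u hu hcon
      have h1 := T.mem_ch.1 hu
      have h2 := T.lt u h1.1
      have h3 := hmin v hv
      have h4 := T.ht_le_bot u
      rw [hcon] at h4
      rw [h1.2] at h2
      omega
    obtain ⟨β', h2, h3⟩ := ih (P.erase v₀) (by rw [card_erase_of_mem hv₀]; omega) (by omega)
    obtain ⟨S, hS⟩ : ∃ S : Finset ℕ, S = ((P.erase v₀).image fun b =>
        β' b + T.cs (t 0) β' b - T.cs (t 0) β' v₀) ∪ (P.erase v₀).image fun b =>
        β' b + T.cs (t 1) β' b - T.cs (t 1) β' v₀ := ⟨_, rfl⟩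
    have hPk : #(P.erase v₀) ≤ k := by
      rw [card_erase_of_mem hv₀]
      omega
    have hSc : #S ≤ 2 * k := by
      rw [hS, two_mul]
      exact (card_union_le _ _).trans (Nat.add_le_add (card_image_le.trans hPk)
        (card_image_le.trans hPk))
    obtain ⟨z, hz1, hz2, hz3⟩ := exists_free (S := S) (lo := R - 2 * l) (hi := R) (by omega)
    have hz4 : ∀ σ ≤ 1, ∀ b ∈ P.erase v₀, β' b + T.cs (t σ) β' b ≠ z + T.cs (t σ) β' v₀ := by
      intro σ hσ b hb hcon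
      apply hz3
      rw [hS, mem_union, mem_image, mem_image]
      rcases Nat.le_one_iff_eq_zero_or_eq_one.1 hσ with rfl | rfl
      · exact Or.inl ⟨b, hb, by omega⟩
      · exact Or.inr ⟨b, hb, by omega⟩
    have hcs : ∀ σ, ∀ b ∈ P, T.cs (t σ) (Function.update β' v₀ z) b = T.cs (t σ) β' b :=
      fun σ b hb => T.cs_update (t σ) β' z (hnot b hb)
    refine ⟨Function.update β' v₀ z, ?_, ?_⟩
    · intro b hb
      by_cases hne : b = v₀
      · rw [hne, Function.update_self]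
        exact ⟨by omega, hz2⟩
      · rw [Function.update_of_ne hne]
        exact h2 b (mem_erase.2 ⟨hne, hb⟩)
    · intro σ hσ b hb b' hb' he
      rw [hcs σ b hb, hcs σ b' hb'] at he
      by_cases hne : b = v₀
      · by_cases hne' : b' = v₀
        · rw [hne, hne']
        · exfalso
          rw [hne, Function.update_self, Function.update_of_ne hne'] at he
          exact hz4 σ hσ b' (mem_erase.2 ⟨hne', hb'⟩) he.symm
      · by_cases hne' : b' = v₀
        · exfalso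
          rw [hne', Function.update_self, Function.update_of_ne hne] at he
          exact hz4 σ hσ b (mem_erase.2 ⟨hne, hb⟩) he
        · rw [Function.update_of_ne hne, Function.update_of_ne hne'] at he
          exact h3 σ hσ b (mem_erase.2 ⟨hne, hb⟩) b' (mem_erase.2 ⟨hne', hb'⟩) he

/-- The weights above the vertices with at least two children are in `[R - 2 l, R]`; there are two possibilities
for the other weights, and the difference between the root and `T.bot ub` is not the same for both. -/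
theorem exists_beta6 (t : ℕ → V → ℕ → ℕ) {R l : ℕ} (hR : 2 * l ≤ R) (hB : #T.B ≤ l)
    {ub : V} (hub : ub ∈ T.ch T.r) (hbs : T.bot ub ∈ T.B)
    (ht : ∀ b ∈ T.B, (∃ k, ∀ β, R ≤ β + 2 * l → β ≤ R → t 0 b β + k = β) ∨
      (∃ k, ∀ β, R ≤ β + 2 * l → β ≤ R → t 0 b β + β = k))
    (htB : ∀ b ∈ T.B, t 1 b = t 0 b)
    (hdiff : ∀ β : V → ℕ, (∑ u ∈ (T.ch T.r).erase ub, t 1 (T.bot u) (β (T.bot u))) +
        T.cs (t 0) β (T.bot ub) ≠
      (∑ u ∈ (T.ch T.r).erase ub, t 0 (T.bot u) (β (T.bot u))) + T.cs (t 1) β (T.bot ub)) :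
    ∃ σ ≤ 1, ∃ β : V → ℕ, (∀ b ∈ T.B, R ≤ β b + 2 * l ∧ β b ≤ R) ∧
      (∀ b ∈ T.B, ∀ b' ∈ T.B, β b + T.cs (t σ) β b = β b' + T.cs (t σ) β b' → b = b') ∧
      ∀ b ∈ T.B, β b + T.cs (t σ) β b ≠ T.cs (t σ) β T.r := by
  obtain ⟨bs, hbsd⟩ : ∃ bs, bs = T.bot ub := ⟨_, rfl⟩
  rw [← hbsd] at hbs
  rw [← hbsd] at hdiff
  have hub' := T.mem_ch.1 hub
  -- the upper ends
  have htop : ∀ b, b ∉ T.D → ∀ u ∈ T.ch b, T.bot u = T.bot ub → u = ub := by
    intro b hb u hu h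
    have h1 := T.mem_ch.1 hu
    refine T.top_inj h1.1 hub'.1 ?_ ?_ h
    · rw [h1.2]
      exact hb
    · rw [hub'.2]
      exact T.r_notMem_D1
  have hBne : ∀ b ∈ T.B, ∀ u ∈ T.ch b, T.bot u ≠ T.bot ub := by
    intro b hb u hu h
    have h1 := htop b (T.B_notMem_D hb) u hu h
    have h2 := (T.mem_ch.1 hu).2
    rw [h1, hub'.2] at h2
    exact (T.mem_B.1 hb).1 h2.symm
  -- the greedy choice
  have hPc : #(T.B.erase bs) = #T.B - 1 := card_erase_of_mem hbs
  have hBpos : 0 < #T.B := card_pos.2 ⟨bs, hbs⟩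
  obtain ⟨β₁, hβ2, hβ3⟩ := T.Lw2_greedy t (R := R) (l := l) hR _ (T.B.erase bs) rfl
    (by rw [hPc]; omega)
  obtain ⟨K, hK⟩ : ∃ K : ℕ → ℕ, K = fun σ => ∑ u ∈ (T.ch T.r).erase ub,
      t σ (T.bot u) (β₁ (T.bot u)) := ⟨_, rfl⟩
  have hKσ : ∀ σ, K σ = ∑ u ∈ (T.ch T.r).erase ub, t σ (T.bot u) (β₁ (T.bot u)) := fun σ => by
    rw [hK]
  obtain ⟨c, hc⟩ : ∃ c : ℕ → ℕ, ∀ σ, c σ = T.cs (t σ) β₁ bs := ⟨fun σ => T.cs (t σ) β₁ bs,
    fun _ => rfl⟩
  have hd := hdiff β₁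
  rw [← hKσ, ← hKσ, ← hc, ← hc] at hd
  obtain ⟨σ, hσ, hpick⟩ : ∃ σ, σ ≤ 1 ∧
      ((∃ k, K σ ≠ c σ + k ∧ ∀ β, R ≤ β + 2 * l → β ≤ R → t σ bs β + k = β) ∨
        ∃ k, ∀ β, R ≤ β + 2 * l → β ≤ R → t σ bs β + β = k) := by
    rcases ht bs hbs with ⟨k, hk⟩ | hk
    · by_cases h1 : K 0 = c 0 + k
      · refine ⟨1, le_rfl, Or.inl ⟨k, by omega, ?_⟩⟩
        rw [htB bs hbs]
        exact hk
      · exact ⟨0, Nat.zero_le _, Or.inl ⟨k, h1, hk⟩⟩
    · exact ⟨0, Nat.zero_le _, Or.inr hk⟩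
  obtain ⟨x, hxa, hxR, hxc1, hxc2, hxc3⟩ := Ph1_pick (T.B.erase bs)
    (fun b => β₁ b + T.cs (t σ) β₁ b) (by omega) (by rw [hPc]; omega) hpick
  clear hpick
  obtain ⟨β, hβ⟩ : ∃ β : V → ℕ, β = Function.update β₁ bs x := ⟨_, rfl⟩
  have hβb : β bs = x := by rw [hβ, Function.update_self]
  have hβo : ∀ v, v ≠ bs → β v = β₁ v := by
    intro v h2
    rw [hβ, Function.update_of_ne h2]
  have hcs : ∀ b ∈ T.B, T.cs (t σ) β b = T.cs (t σ) β₁ b := by
    intro b hb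
    rw [hβ, T.cs_update]
    intro u hu
    rw [hbsd]
    exact hBne b hb u hu
  have hcr : T.cs (t σ) β T.r = t σ bs x + K σ := by
    rw [cs, ← add_sum_erase _ _ hub, ← hbsd, hβb, hK]
    congr 1
    refine sum_congr rfl fun u hu => ?_
    rw [mem_erase] at hu
    rw [hβo]
    intro h
    rw [hbsd] at h
    exact hu.1 (htop T.r T.r_notMem_D1 u hu.2 h)
  refine ⟨σ, hσ, β, ?_, ?_, ?_⟩
  · intro b hb
    by_cases h1 : b = bs
    · rw [h1, hβb]
      exact ⟨hxa, hxR⟩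
    · rw [hβo b h1]
      exact hβ2 b (mem_erase.2 ⟨h1, hb⟩)
  · intro b hb b' hb' h
    rw [hcs b hb, hcs b' hb'] at h
    by_cases h1 : b = bs
    · by_cases h2 : b' = bs
      · rw [h1, h2]
      · exfalso
        rw [h1, hβb, hβo b' h2, ← hc] at h
        exact hxc1 b' (mem_erase.2 ⟨h2, hb'⟩) h
    · by_cases h2 : b' = bs
      · exfalso
        rw [h2, hβb, hβo b h1, ← hc] at h
        exact hxc1 b (mem_erase.2 ⟨h1, hb⟩) h.symm
      · rw [hβo b h1, hβo b' h2] at h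
        exact hβ3 σ hσ b (mem_erase.2 ⟨h1, hb⟩) b' (mem_erase.2 ⟨h2, hb'⟩) h
  · intro b hb h
    rw [hcs b hb, hcr] at h
    by_cases h1 : b = bs
    · rw [h1, hβb, ← hc] at h
      exact hxc3 h.symm
    · rw [hβo b h1] at h
      exact hxc2 b (mem_erase.2 ⟨h1, hb⟩) h.symm

end RT

end Pool.Agent.H.MP_936c16_co
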