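import Pool.Agent.H.MP_936c16_co.Lw1
import Pool.Agent.H.MP_936c16_co.Lw2

/-!
The weights at the ends of the threads of a rooted tree with many leaves.
-/

set_option autoImplicit false

namespace Pool.Agent.H.MP_936c16_co

open Finset

namespace RT

variable {V : Type} [Fintype V] [DecidableEq V] (T : RT V)

/-- The weights at the ends of the threads. -/
theorem exists_data6 {us : V} (hus : us ∈ T.ch T.r) (hx : T.bot us ∈ T.L)
    {s b : ℕ} (hs : s = #T.L) (hb : b = #T.B + 1) (h : #T.D + 18 * (b + 1) ≤ s)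
    {Y : Finset V} (hYN : Y ⊆ T.N) (hBY : T.B ⊆ Y) (huY : T.bot us ∈ Y) (hYc : #Y ≤ 3 * b)
    (hY2 : ∀ v ∈ T.B, 2 ≤ #((T.ch v).filter fun u => T.bot u ∈ Y)) :
    ∃ (W : V → Finset ℕ) (t : V → ℕ → ℕ) (β : V → ℕ),
      (∀ v ∈ T.N, Fill s (T.len v) (β v) (W v) (t v (β v)) ∧ 1 ≤ β v ∧ β v ≤ s ∧
        #(W v) = T.len v ∧ ∀ w ∈ W v, s < w ∧ w ≤ 2 * s) ∧
      (∀ v ∈ T.N, ∀ v' ∈ T.N, v ≠ v' → Disjoint (W v) (W v')) ∧
      (∀ v ∈ Y, s ≤ t v (β v) + (6 * b + 2)) ∧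
      (∀ v ∈ T.L, ∀ v' ∈ T.L, β v = β v' → v = v') ∧
      (∀ v ∈ T.B, s ≤ β v + 2 * b) ∧
      (∀ v ∈ T.B, ∀ v' ∈ T.B, β v + T.cs t β v = β v' + T.cs t β v' → v = v') ∧
      ∀ v ∈ T.B, β v + T.cs t β v ≠ T.cs t β T.r := by
  obtain ⟨X, hX⟩ : ∃ X, X = T.N \ Y := ⟨_, rfl⟩
  have memX : ∀ v, v ∈ X ↔ v ∈ T.N ∧ v ∉ Y := by
    intro v
    rw [hX, mem_sdiff]
  have hXY : Disjoint X Y := by
    rw [hX]
    exact sdiff_disjoint
  have hXYN : X ∪ Y = T.N := by
    rw [hX]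
    exact sdiff_union_of_subset hYN
  have hXL : X ⊆ T.L := by
    intro v hv
    have h3 := (memX v).1 hv
    have h4 := h3.1
    rw [T.N_eq, mem_union] at h4
    rcases h4 with h4 | h4
    · exact h4
    · exact absurd (hBY h4) h3.2
  have hXc := card_le_card hXL
  have hNc : #T.N = #T.L + #T.B := by
    rw [T.N_eq]
    exact card_union_of_disjoint T.disjoint_L_B
  have hXYc : #X + #Y = #T.N := by
    rw [← hXYN]
    exact (card_union_of_disjoint hXY).symm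
  have hXLY : X = T.L \ Y := by
    ext v
    rw [memX, T.N_eq, mem_union, mem_sdiff]
    constructor
    · rintro ⟨h3 | h3, h4⟩
      · exact ⟨h3, h4⟩
      · exact absurd (hBY h3) h4
    · rintro ⟨h3, h4⟩
      exact ⟨Or.inl h3, h4⟩
  have hLYc : #X + #(T.L ∩ Y) = #T.L := by
    rw [hXLY]
    exact card_sdiff_add_card_inter _ _
  have hLB : ∀ v ∈ T.L, v ∉ T.B := fun v hv h => disjoint_left.1 T.disjoint_L_B hv h
  obtain ⟨ys, hys⟩ : ∃ ys, ys = T.bot us := ⟨_, rfl⟩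
  rw [← hys] at hx huY
  -- the second leaf
  obtain ⟨zs, hzs⟩ : ∃ zs, T.B = ∅ ∨ (zs ∈ T.L ∧ zs ∈ Y ∧ ∃ ub ∈ T.ch T.r, T.bot ub ∈ T.B ∧
      ∃ v₀ ∈ T.B, ∃ uz ∈ T.ch v₀, T.bot uz = zs) := by
    rcases T.B.eq_empty_or_nonempty with hB0 | hBn
    · exact ⟨ys, Or.inl hB0⟩
    · obtain ⟨ub, hub, hbs⟩ := T.exists_B_top hBn
      obtain ⟨v₀, hv₀, hmax⟩ := exists_max_image T.B T.ht hBn
      have h2 := hY2 v₀ hv₀
      obtain ⟨uz, huz⟩ : ((T.ch v₀).filter fun u => T.bot u ∈ Y).Nonempty :=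
        card_pos.1 (by omega)
      rw [mem_filter] at huz
      have h3 := T.mem_ch.1 huz.1
      refine ⟨T.bot uz, Or.inr ⟨?_, huz.2, ub, hub, hbs, v₀, hv₀, uz, huz.1, rfl⟩⟩
      have h4 := T.bot_mem_N h3.1
      rw [T.N_eq, mem_union] at h4
      rcases h4 with h4 | h4
      · exact h4
      · exfalso
        have h5 := hmax _ h4
        have h6 := T.lt uz h3.1
        have h7 := T.ht_le_bot uz
        rw [h3.2] at h6
        omega
  obtain ⟨yd, hyd⟩ : ∃ yd, yd = if T.len ys % 2 = 1 then ys else zs := ⟨_, rfl⟩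
  obtain ⟨x, W, t, fX, fY, fsl, ft, ftd, fW, fx, fWd⟩ := exists_fills6 X Y T.len hXY (s := s)
    (b := b) (by omega) yd hYc (by omega) (by rw [hXYN, T.sum_len]; omega)
    (by rw [hXYN, T.sum_len]; omega)
  rw [hXYN] at ft fW fWd
  have key : ∀ σ ≤ 1, ∀ γ : V → ℕ, (∀ v ∈ X, γ v = x v) →
      (∀ v ∈ T.L, v ∈ Y → #X < γ v ∧ γ v ≤ s) →
      (∀ v ∈ T.L, v ∈ Y → ∀ v' ∈ T.L, v' ∈ Y → γ v = γ v' → v = v') →
      ∀ β : V → ℕ, (∀ v ∈ T.L, β v = γ v) → (∀ v ∈ T.B, s ≤ β v + 2 * b ∧ β v ≤ s) →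
      (∀ v ∈ T.B, ∀ v' ∈ T.B, β v + T.cs (t σ) β v = β v' + T.cs (t σ) β v' → v = v') →
      (∀ v ∈ T.B, β v + T.cs (t σ) β v ≠ T.cs (t σ) β T.r) →
      ∃ (W : V → Finset ℕ) (t : V → ℕ → ℕ) (β : V → ℕ),
      (∀ v ∈ T.N, Fill s (T.len v) (β v) (W v) (t v (β v)) ∧ 1 ≤ β v ∧ β v ≤ s ∧
        #(W v) = T.len v ∧ ∀ w ∈ W v, s < w ∧ w ≤ 2 * s) ∧
      (∀ v ∈ T.N, ∀ v' ∈ T.N, v ≠ v' → Disjoint (W v) (W v')) ∧
      (∀ v ∈ Y, s ≤ t v (β v) + (6 * b + 2)) ∧
      (∀ v ∈ T.L, ∀ v' ∈ T.L, β v = β v' → v = v') ∧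
      (∀ v ∈ T.B, s ≤ β v + 2 * b) ∧
      (∀ v ∈ T.B, ∀ v' ∈ T.B, β v + T.cs t β v = β v' + T.cs t β v' → v = v') ∧
      ∀ v ∈ T.B, β v + T.cs t β v ≠ T.cs t β T.r := by
    intro σ hσ γ g1 g2 g3 β hβL hβB hβi hβr
    have hβX : ∀ v ∈ X, β v = x v := fun v hv => by rw [hβL v (hXL hv), g1 v hv]
    have hβYr : ∀ v ∈ Y, s ≤ β v + 3 * b ∧ β v ≤ s := by
      intro v hv
      have h3 := hYN hv
      rw [T.N_eq, mem_union] at h3
      rcases h3 with h3 | h3
      · have h4 := g2 v h3 hv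
        rw [← hβL v h3] at h4
        omega
      · have h4 := hβB v h3
        omega
    refine ⟨W σ, t σ, β, ?_, fWd σ hσ, ?_, ?_, fun v hv => (hβB v hv).1, hβi, hβr⟩
    · intro v hv
      have h3 := fW σ hσ v hv
      by_cases hvY : v ∈ Y
      · have h4 := hβYr v hvY
        exact ⟨(fY σ hσ v hvY (β v) h4.1 h4.2).1, by omega, h4.2, h3⟩
      · have h4 := (memX v).2 ⟨hv, hvY⟩
        obtain ⟨k1, k2, k3, k4, k5⟩ := fX σ hσ v h4
        rw [hβX v h4]
        exact ⟨k5, k1, by omega, h3⟩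
    · intro v hv
      have h4 := hβYr v hv
      exact (fY σ hσ v hv (β v) h4.1 h4.2).2.1
    · have cls : ∀ v ∈ T.L, (v ∈ X ∧ β v = x v ∧ x v ≤ #X) ∨ (v ∈ Y ∧ #X < β v) := by
        intro v hv
        by_cases hvY : v ∈ Y
        · right
          have h4 := g2 v hv hvY
          rw [← hβL v hv] at h4
          exact ⟨hvY, h4.1⟩
        · left
          have h4 : v ∈ X := (memX v).2 ⟨by rw [T.N_eq]; exact mem_union_left _ hv, hvY⟩
          exact ⟨h4, hβX v h4, (fX σ hσ v h4).2.1⟩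
      intro v hv v' hv' h
      rcases cls v hv with ⟨k1, k2, k3⟩ | ⟨k1, k2⟩
      · rcases cls v' hv' with ⟨l1, l2, l3⟩ | ⟨l1, l2⟩
        · exact fx v k1 v' l1 (by omega)
        · omega
      · rcases cls v' hv' with ⟨l1, l2, l3⟩ | ⟨l1, l2⟩
        · omega
        · exact g3 v hv k1 v' hv' l1 (by rw [← hβL v hv, ← hβL v' hv', h])
  rcases hzs with hB0 | ⟨hzL, hzY, ub, hub, hbs, v₀, hv₀, uz, huz, huzb⟩
  · obtain ⟨j, hj1, hj2⟩ := Ph1_num (T.L ∩ Y)
    obtain ⟨γ, hγ⟩ : ∃ γ : V → ℕ, γ = fun v => if v ∈ X then x v else #X + 1 + j v := ⟨_, rfl⟩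
    have γX : ∀ v ∈ X, γ v = x v := fun v hv => by
      rw [hγ]
      exact if_pos hv
    have γY : ∀ v ∈ T.L, v ∈ Y → γ v = #X + 1 + j v ∧ j v < #(T.L ∩ Y) := fun v hv hvY => by
      refine ⟨?_, hj1 v (mem_inter.2 ⟨hv, hvY⟩)⟩
      rw [hγ]
      exact if_neg fun h => ((memX v).1 h).2 hvY
    refine key 0 (by omega) γ γX ?_ ?_ γ (fun _ _ => rfl) ?_ ?_ ?_
    · intro v hv hvY
      have h3 := γY v hv hvY
      omega
    · intro v hv hvY v' hv' hvY' h
      have h3 := γY v hv hvY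
      have h4 := γY v' hv' hvY'
      exact hj2 v (mem_inter.2 ⟨hv, hvY⟩) v' (mem_inter.2 ⟨hv', hvY'⟩) (by omega)
    · intro v hv
      rw [hB0] at hv
      exact absurd hv (notMem_empty v)
    · intro v hv
      rw [hB0] at hv
      exact absurd hv (notMem_empty v)
    · intro v hv
      rw [hB0] at hv
      exact absurd hv (notMem_empty v)
  obtain ⟨bs, hbsd⟩ : ∃ bs, bs = T.bot ub := ⟨_, rfl⟩
  have huz' := T.mem_ch.1 huz
  have hus' := T.mem_ch.1 hus
  have hub' := T.mem_ch.1 hub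
  have hti : ∀ p p', p ∉ T.D → p' ∉ T.D → ∀ u ∈ T.ch p, ∀ u' ∈ T.ch p', T.bot u = T.bot u' →
      u = u' := by
    intro p p' hp hp' u hu u' hu' h
    have h1 := T.mem_ch.1 hu
    have h2 := T.mem_ch.1 hu'
    exact T.top_inj h1.1 h2.1 (by rw [h1.2]; exact hp) (by rw [h2.2]; exact hp') h
  have hyz : ys ≠ zs := by
    intro h
    rw [hys, ← huzb] at h
    have h1 := hti T.r v₀ T.r_notMem_D1 (T.B_notMem_D hv₀) us hus uz huz h
    rw [← h1, hus'.2] at huz'
    exact (T.mem_B.1 hv₀).1 huz'.2.symm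
  have hydL : yd = ys ∨ yd = zs := by
    rw [hyd]
    split_ifs
    · exact Or.inl rfl
    · exact Or.inr rfl
  have ftB : ∀ σ ≤ 1, ∀ v ∈ T.N, v ≠ ys → v ≠ zs → t σ v = t 0 v := by
    intro σ hσ v hv h3 h4
    rcases Nat.le_one_iff_eq_zero_or_eq_one.1 hσ with rfl | rfl
    · rfl
    · refine ft v hv ?_
      rcases hydL with h5 | h5
      · rw [h5]
        exact h3
      · rw [h5]
        exact h4
  obtain ⟨S, hS⟩ : ∃ S, S = ((T.L ∩ Y).erase ys).erase zs := ⟨_, rfl⟩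
  have memS : ∀ v, v ∈ T.L → v ∈ Y → v ≠ ys → v ≠ zs → v ∈ S := by
    intro v h3 h4 h5 h6
    rw [hS]
    exact mem_erase.2 ⟨h6, mem_erase.2 ⟨h5, mem_inter.2 ⟨h3, h4⟩⟩⟩
  have hSc : #S + 2 = #(T.L ∩ Y) := by
    have h3 : #((T.L ∩ Y).erase ys) + 1 = #(T.L ∩ Y) :=
      card_erase_add_one (mem_inter.2 ⟨hx, huY⟩)
    have h4 : #S + 1 = #((T.L ∩ Y).erase ys) := by
      rw [hS]
      exact card_erase_add_one (mem_erase.2 ⟨hyz.symm, mem_inter.2 ⟨hzL, hzY⟩⟩)
    omega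
  obtain ⟨j, hj1, hj2⟩ := Ph1_num S
  obtain ⟨γ, hγ⟩ : ∃ γ : ℕ → ℕ → V → ℕ, γ = fun a c v => if v ∈ X then x v else
      if v = ys then a else if v = zs then c else #X + 1 + j v := ⟨_, rfl⟩
  have hYX : ∀ v ∈ Y, v ∉ X := fun v hv h => ((memX v).1 h).2 hv
  have γX : ∀ a c, ∀ v ∈ X, γ a c v = x v := fun a c v hv => by
    rw [hγ]
    exact if_pos hv
  have γy : ∀ a c, γ a c ys = a := fun a c => by
    rw [hγ]
    exact (if_neg (hYX ys huY)).trans (if_pos rfl)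
  have γz : ∀ a c, γ a c zs = c := fun a c => by
    rw [hγ]
    exact (if_neg (hYX zs hzY)).trans ((if_neg hyz.symm).trans (if_pos rfl))
  have γS : ∀ a c, ∀ v ∈ T.L, v ∈ Y → v ≠ ys → v ≠ zs →
      γ a c v = #X + 1 + j v ∧ j v < #S := fun a c v h3 h4 h5 h6 => by
    refine ⟨?_, hj1 v (memS v h3 h4 h5 h6)⟩
    rw [hγ]
    exact (if_neg (hYX v h4)).trans ((if_neg h5).trans (if_neg h6))
  have γo : ∀ a c a' c', ∀ v, v ≠ ys → v ≠ zs → γ a c v = γ a' c' v := by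
    intro a c a' c' v h3 h4
    rw [hγ]
    dsimp only
    rw [if_neg h3, if_neg h3, if_neg h4, if_neg h4]
  have γr : ∀ a c, (a + 1 = s ∧ c = s ∨ a = s ∧ c + 1 = s) → ∀ v ∈ T.L, v ∈ Y →
      #X < γ a c v ∧ γ a c v ≤ s := by
    intro a c hac v hv hvY
    by_cases h3 : v = ys
    · rw [h3, γy]
      omega
    · by_cases h4 : v = zs
      · rw [h4, γz]
        omega
      · have h5 := γS a c v hv hvY h3 h4
        omega
  have γi : ∀ a c, (a + 1 = s ∧ c = s ∨ a = s ∧ c + 1 = s) → ∀ v ∈ T.L, v ∈ Y →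
      ∀ v' ∈ T.L, v' ∈ Y → γ a c v = γ a c v' → v = v' := by
    intro a c hac v hv hvY v' hv' hvY' h
    have hcl : ∀ v ∈ T.L, v ∈ Y → (v = ys ∧ γ a c v = a) ∨ (v = zs ∧ γ a c v = c) ∨
        (v ∈ S ∧ γ a c v = #X + 1 + j v ∧ j v < #S) := by
      intro v hv hvY
      by_cases h3 : v = ys
      · left
        exact ⟨h3, by rw [h3, γy]⟩
      · by_cases h4 : v = zs
        · right
          left
          exact ⟨h4, by rw [h4, γz]⟩
        · right
          right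
          exact ⟨memS v hv hvY h3 h4, γS a c v hv hvY h3 h4⟩
    rcases hcl v hv hvY with ⟨k1, k2⟩ | ⟨k1, k2⟩ | ⟨k1, k2, k3⟩
    · rcases hcl v' hv' hvY' with ⟨l1, l2⟩ | ⟨l1, l2⟩ | ⟨l1, l2, l3⟩
      · rw [k1, l1]
      · omega
      · omega
    · rcases hcl v' hv' hvY' with ⟨l1, l2⟩ | ⟨l1, l2⟩ | ⟨l1, l2, l3⟩
      · omega
      · rw [k1, l1]
      · omega
    · rcases hcl v' hv' hvY' with ⟨l1, l2⟩ | ⟨l1, l2⟩ | ⟨l1, l2, l3⟩
      · omega
      · omega
      · exact hj2 v k1 v' l1 (by omega)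
  have hbsB : bs ∈ T.B := by
    rw [hbsd]
    exact hbs
  have main : ∀ τ a c : ℕ → ℕ, (∀ σ ≤ 1, τ σ ≤ 1) →
      (∀ σ ≤ 1, a σ + 1 = s ∧ c σ = s ∨ a σ = s ∧ c σ + 1 = s) →
      (v₀ = bs → t (τ 1) ys (a 1) + t (τ 0) zs (c 0) ≠ t (τ 0) ys (a 0) + t (τ 1) zs (c 1)) →
      (v₀ ≠ bs → t (τ 1) ys (a 1) ≠ t (τ 0) ys (a 0)) →
      ∃ (W : V → Finset ℕ) (t : V → ℕ → ℕ) (β : V → ℕ),
      (∀ v ∈ T.N, Fill s (T.len v) (β v) (W v) (t v (β v)) ∧ 1 ≤ β v ∧ β v ≤ s ∧
        #(W v) = T.len v ∧ ∀ w ∈ W v, s < w ∧ w ≤ 2 * s) ∧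
      (∀ v ∈ T.N, ∀ v' ∈ T.N, v ≠ v' → Disjoint (W v) (W v')) ∧
      (∀ v ∈ Y, s ≤ t v (β v) + (6 * b + 2)) ∧
      (∀ v ∈ T.L, ∀ v' ∈ T.L, β v = β v' → v = v') ∧
      (∀ v ∈ T.B, s ≤ β v + 2 * b) ∧
      (∀ v ∈ T.B, ∀ v' ∈ T.B, β v + T.cs t β v = β v' + T.cs t β v' → v = v') ∧
      ∀ v ∈ T.B, β v + T.cs t β v ≠ T.cs t β T.r := by
    intro τ a c hτ hac hd1 hd2
    obtain ⟨t', ht'⟩ : ∃ t' : ℕ → V → ℕ → ℕ, t' = fun σ v β =>
        if v ∈ T.B then t 0 v β else t (τ σ) v (γ (a σ) (c σ) v) := ⟨_, rfl⟩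
    have t'B : ∀ σ, ∀ v ∈ T.B, t' σ v = t 0 v := fun σ v hv => by
      rw [ht']
      funext β
      exact if_pos hv
    have t'L : ∀ σ v β, v ∉ T.B → t' σ v β = t (τ σ) v (γ (a σ) (c σ) v) := fun σ v β hv => by
      rw [ht']
      exact if_neg hv
    have t'o : ∀ v ∈ T.N, v ≠ ys → v ≠ zs → ∀ β, t' 1 v β = t' 0 v β := by
      intro v hv h3 h4 β
      by_cases h5 : v ∈ T.B
      · rw [t'B 1 v h5, t'B 0 v h5]
      · rw [t'L 1 v β h5, t'L 0 v β h5, ftB _ (hτ 1 le_rfl) v hv h3 h4,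
          ftB _ (hτ 0 (by omega)) v hv h3 h4, γo (a 1) (c 1) (a 0) (c 0) v h3 h4]
    have t'y : ∀ σ β, t' σ ys β = t (τ σ) ys (a σ) := fun σ β => by
      rw [t'L σ ys β (hLB ys hx), γy]
    have t'z : ∀ σ β, t' σ zs β = t (τ σ) zs (c σ) := fun σ β => by
      rw [t'L σ zs β (hLB zs hzL), γz]
    have huu : us ∈ (T.ch T.r).erase ub := by
      refine mem_erase.2 ⟨?_, hus⟩
      intro h3
      rw [h3] at hys
      rw [← hys] at hbs
      exact hLB ys hx hbs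
    obtain ⟨σ, hσ, β', b1, b2, b3⟩ := T.exists_beta6 t' (R := s) (l := b) (by omega) (by omega)
      hub hbs (by
        intro v hv
        rw [t'B 0 v hv]
        rcases fsl v (hBY hv) with ⟨-, k, hk⟩ | ⟨-, k, hk⟩
        · exact Or.inl ⟨k, fun β k1 k2 => hk β (by omega) k2⟩
        · exact Or.inr ⟨k, fun β k1 k2 => hk β (by omega) k2⟩)
      (fun v hv => by rw [t'B 1 v hv, t'B 0 v hv]) (by
        intro β
        rw [← hbsd]
        have e1 : ∀ σ, (∑ u ∈ (T.ch T.r).erase ub, t' σ (T.bot u) (β (T.bot u))) =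
            t (τ σ) ys (a σ) + ∑ u ∈ ((T.ch T.r).erase ub).erase us,
              t' σ (T.bot u) (β (T.bot u)) := by
          intro σ
          rw [← add_sum_erase _ _ huu, ← hys, t'y]
        have e2 : (∑ u ∈ ((T.ch T.r).erase ub).erase us, t' 1 (T.bot u) (β (T.bot u))) =
            ∑ u ∈ ((T.ch T.r).erase ub).erase us, t' 0 (T.bot u) (β (T.bot u)) := by
          refine sum_congr rfl fun u hu => ?_
          have k1 := mem_erase.1 hu
          have k2 := mem_erase.1 k1.2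
          have k3 := T.mem_ch.1 k2.2
          refine t'o _ (T.bot_mem_N k3.1) ?_ ?_ _
          · intro k4
            rw [hys] at k4
            exact k1.1 (hti T.r T.r T.r_notMem_D1 T.r_notMem_D1 u k2.2 us hus k4)
          · intro k4
            rw [← huzb] at k4
            have k5 := hti T.r v₀ T.r_notMem_D1 (T.B_notMem_D hv₀) u k2.2 uz huz k4
            rw [k5, huz'.2] at k3
            exact (T.mem_B.1 hv₀).1 k3.2
        have e3 : v₀ ≠ bs → T.cs (t' 1) β bs = T.cs (t' 0) β bs := by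
          intro hne
          refine sum_congr rfl fun u hu => ?_
          have k3 := T.mem_ch.1 hu
          refine t'o _ (T.bot_mem_N k3.1) ?_ ?_ _
          · intro k4
            rw [hys] at k4
            have k5 := hti bs T.r (T.B_notMem_D hbsB) T.r_notMem_D1 u hu us hus k4
            rw [k5, hus'.2] at k3
            exact (T.mem_B.1 hbsB).1 k3.2.symm
          · intro k4
            rw [← huzb] at k4
            have k5 := hti bs v₀ (T.B_notMem_D hbsB) (T.B_notMem_D hv₀) u hu uz huz k4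
            rw [k5, huz'.2] at k3
            exact hne k3.2
        have e4 : v₀ = bs → ∀ σ, T.cs (t' σ) β bs = t (τ σ) zs (c σ) +
            ∑ u ∈ (T.ch bs).erase uz, t' σ (T.bot u) (β (T.bot u)) := by
          intro he σ
          rw [cs, ← add_sum_erase (T.ch bs) _ (a := uz) (by rw [← he]; exact huz), huzb, t'z]
        have e5 : v₀ = bs → (∑ u ∈ (T.ch bs).erase uz, t' 1 (T.bot u) (β (T.bot u))) =
            ∑ u ∈ (T.ch bs).erase uz, t' 0 (T.bot u) (β (T.bot u)) := by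
          intro he
          refine sum_congr rfl fun u hu => ?_
          have k1 := mem_erase.1 hu
          have k3 := T.mem_ch.1 k1.2
          refine t'o _ (T.bot_mem_N k3.1) ?_ ?_ _
          · intro k4
            rw [hys] at k4
            have k5 := hti bs T.r (T.B_notMem_D hbsB) T.r_notMem_D1 u k1.2 us hus k4
            rw [k5, hus'.2] at k3
            exact (T.mem_B.1 hbsB).1 k3.2.symm
          · intro k4
            rw [← huzb] at k4
            exact k1.1 (hti bs v₀ (T.B_notMem_D hbsB) (T.B_notMem_D hv₀) u k1.2 uz huz k4)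
        rw [e1 1, e1 0, e2]
        by_cases he : v₀ = bs
        · rw [e4 he 1, e4 he 0, e5 he]
          have h5 := hd1 he
          omega
        · rw [e3 he]
          have h5 := hd2 he
          omega)
    obtain ⟨β, hβ⟩ : ∃ β : V → ℕ, β = fun v => if v ∈ T.B then β' v else γ (a σ) (c σ) v :=
      ⟨_, rfl⟩
    have βB : ∀ v ∈ T.B, β v = β' v := fun v hv => by
      rw [hβ]
      exact if_pos hv
    have βL : ∀ v, v ∉ T.B → β v = γ (a σ) (c σ) v := fun v hv => by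
      rw [hβ]
      exact if_neg hv
    have hcs : ∀ y, T.cs (t (τ σ)) β y = T.cs (t' σ) β' y := by
      intro y
      refine sum_congr rfl fun u hu => ?_
      have k3 := T.mem_ch.1 hu
      by_cases k4 : T.bot u ∈ T.B
      · rw [βB _ k4, t'B σ _ k4, ftB _ (hτ σ hσ) _ (T.bot_mem_N k3.1)]
        · intro k5
          rw [k5] at k4
          exact hLB ys hx k4
        · intro k5
          rw [k5] at k4
          exact hLB zs hzL k4
      · rw [βL _ k4, t'L σ _ _ k4]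
    refine key (τ σ) (hτ σ hσ) (γ (a σ) (c σ)) (γX _ _) (γr _ _ (hac σ hσ))
      (γi _ _ (hac σ hσ)) β (fun v hv => βL v (hLB v hv)) ?_ ?_ ?_
    · intro v hv
      rw [βB v hv]
      exact b1 v hv
    · intro v hv v' hv' h3
      rw [hcs, hcs, βB v hv, βB v' hv'] at h3
      exact b2 v hv v' hv' h3
    · intro v hv h3
      rw [hcs, hcs, βB v hv] at h3
      exact b3 v hv h3
  obtain ⟨s', hs'⟩ : ∃ s', s' + 1 = s := ⟨s - 1, by omega⟩
  -- the two cases
  by_cases hcase : v₀ = bs ∧ T.len ys % 2 ≠ T.len zs % 2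
  · obtain ⟨hc1, hc2⟩ := hcase
    refine main (fun σ => σ) (fun _ => s') (fun _ => s) (fun σ hσ => hσ)
      (fun σ _ => Or.inl ⟨hs', rfl⟩) (fun _ => ?_) (fun h3 => absurd hc1 h3)
    have hzN : zs ∈ T.N := hYN hzY
    have hyN : ys ∈ T.N := hYN huY
    by_cases hp : T.len ys % 2 = 1
    · have h3 : yd = ys := by
        rw [hyd]
        exact if_pos hp
      rw [h3] at ft ftd
      have h4 := ftd huY hp s' (by omega) (by omega)
      have h5 := ft zs hzN hyz.symm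
      rw [h5]
      omega
    · have h3 : yd = zs := by
        rw [hyd]
        exact if_neg hp
      rw [h3] at ft ftd
      have h4 := ftd hzY (by omega) s (by omega) (by omega)
      have h5 := ft ys hyN hyz
      rw [h5]
      omega
  · refine main (fun _ => 0) (fun σ => if σ = 0 then s' else s) (fun σ => if σ = 0 then s else s')
      (fun σ _ => by omega) ?_ ?_ ?_
    · intro σ hσ
      split_ifs <;> omega
    · intro h3
      have h4 : T.len ys % 2 = T.len zs % 2 := by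
        by_contra h5
        exact hcase ⟨h3, h5⟩
      rw [if_pos rfl, if_pos rfl, if_neg (by omega), if_neg (by omega)]
      rcases fsl ys huY with ⟨k1, k, hk⟩ | ⟨k1, k, hk⟩
      · rcases fsl zs hzY with ⟨l1, l, hl⟩ | ⟨l1, l, hl⟩
        · have m1 := hk s (by omega) le_rfl
          have m2 := hk s' (by omega) (by omega)
          have m3 := hl s (by omega) le_rfl
          have m4 := hl s' (by omega) (by omega)
          omega
        · omega
      · rcases fsl zs hzY with ⟨l1, l, hl⟩ | ⟨l1, l, hl⟩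
        · omega
        · have m1 := hk s (by omega) le_rfl
          have m2 := hk s' (by omega) (by omega)
          have m3 := hl s (by omega) le_rfl
          have m4 := hl s' (by omega) (by omega)
          omega
    · intro h3
      rw [if_pos rfl, if_neg (by omega)]
      rcases fsl ys huY with ⟨k1, k, hk⟩ | ⟨k1, k, hk⟩
      · have m1 := hk s (by omega) le_rfl
        have m2 := hk s' (by omega) (by omega)
        omega
      · have m1 := hk s (by omega) le_rfl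
        have m2 := hk s' (by omega) (by omega)
        omega

end RT

end Pool.Agent.H.MP_936c16_co
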