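import Pool.Agent.H.MP_936c16_co.Lw3
import Pool.Agent.H.MP_936c16_co.Lv4

/-!
The weighting of a rooted tree with many leaves.
-/

set_option autoImplicit false

namespace Pool.Agent.H.MP_936c16_co

open Finset

namespace RT

variable {V : Type} [Fintype V] [DecidableEq V] (T : RT V)

/-- The weighting of a rooted tree with many leaves. -/
theorem exists_weight6 {us : V} (hus : us ∈ T.ch T.r) (hx : T.bot us ∈ T.L)
    (hr : 3 ≤ #(T.ch T.r)) (h : #T.D + 18 * (#T.B + 2) ≤ #T.L) :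
    ∃ e : V → ℕ, e T.r = 0 ∧ (∀ v, v ≠ T.r → 1 ≤ e v ∧ e v ≤ #T.L) ∧
      Function.Injective (T.w e) := by
  obtain ⟨b, hb⟩ : ∃ b, b = #T.B + 1 := ⟨_, rfl⟩
  obtain ⟨s, hs⟩ : ∃ s, s = #T.L := ⟨_, rfl⟩
  obtain ⟨Y, hYN, hBY, huY, hYc, hY2, hY3⟩ := T.exists_reserved hr hus
  rw [← hb] at hYc
  obtain ⟨W, t, β, d1, fWd, htY, d4, hβB, hβBi, hβr⟩ := T.exists_data6 hus hx hs hb (by omega)
    hYN hBY huY hYc hY2
  have hF : ∀ v, ∃ q : ℕ → ℕ, v ∈ T.N → q 0 = β v ∧ q (T.len v) = t v (β v) ∧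
      (∀ i < T.len v, 1 ≤ q (i + 1) ∧ q (i + 1) ≤ s ∧ q i + q (i + 1) ∈ W v) ∧
      ∀ i < T.len v, ∀ i' < T.len v, q i + q (i + 1) = q i' + q (i' + 1) → i = i' := by
    intro v
    by_cases hv : v ∈ T.N
    · obtain ⟨h3, -, -, h4, -⟩ := d1 v hv
      obtain ⟨q, q1, q2, q3, q4⟩ := h3.exists_inj h4
      exact ⟨q, fun _ => ⟨q1, q2, q3, q4⟩⟩
    · exact ⟨fun _ => 0, fun h => absurd h hv⟩
  choose q hq using hF
  -- the weights
  obtain ⟨e, he⟩ : ∃ e : V → ℕ, e = fun v => if v = T.r then 0 else q (T.bot v) (T.dn v) :=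
    ⟨_, rfl⟩
  have er : e T.r = 0 := by
    rw [he]
    exact if_pos rfl
  have e1 : ∀ v, v ≠ T.r → e v = q (T.bot v) (T.dn v) := by
    intro v hv
    rw [he]
    exact if_neg hv
  have eN : ∀ v ∈ T.N, e v = β v := by
    intro v hv
    have h3 := T.mem_N.1 hv
    rw [e1 v h3.1, T.dn_of_notMem h3.2, T.bot_of_notMem h3.2]
    exact (hq v hv).1
  have etop : ∀ v, v ≠ T.r → T.par v ∉ T.D → e v = t (T.bot v) (β (T.bot v)) := by
    intro v hv hp
    rw [e1 v hv, T.dn_of_par hv hp]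
    exact (hq _ (T.bot_mem_N hv)).2.1
  have hcs : ∀ y, y ∉ T.D → T.c e y = T.cs t β y := by
    intro y hy
    refine sum_congr rfl fun u hu => ?_
    have h3 := T.mem_ch.1 hu
    exact etop u h3.1 (by rw [h3.2]; exact hy)
  have hcsl : ∀ y, #((T.ch y).filter fun u => T.bot u ∈ Y) * (s - (6 * b + 2)) ≤
      T.cs t β y := by
    intro y
    rw [← smul_eq_mul]
    refine (card_nsmul_le_sum _ (fun u => t (T.bot u) (β (T.bot u))) _ fun u hu => ?_).trans
      (sum_le_sum_of_subset (filter_subset _ _))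
    have h3 := htY _ (mem_filter.1 hu).2
    omega
  -- the weighted degrees
  have wL : ∀ v ∈ T.L, T.w e v = β v := by
    intro v hv
    rw [RT.w, RT.c, (T.mem_L.1 hv).2, sum_empty, zero_add]
    exact eN v (by rw [T.N_eq]; exact mem_union_left _ hv)
  have wB : ∀ v ∈ T.B, T.w e v = β v + T.cs t β v := by
    intro v hv
    rw [RT.w, hcs v (T.B_notMem_D hv), eN v (by rw [T.N_eq]; exact mem_union_right _ hv),
      add_comm]
  have wr : T.w e T.r = T.cs t β T.r := by
    rw [RT.w, hcs T.r T.r_notMem_D1, er, add_zero]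
  have wD : ∀ v ∈ T.D, 0 < T.dn v ∧ T.dn v - 1 < T.len (T.bot v) ∧
      T.w e v = q (T.bot v) (T.dn v - 1) + q (T.bot v) (T.dn v - 1 + 1) := by
    intro v hv
    have h3 := T.dn_eq hv
    have h4 := T.bot_eq hv
    have h5 := T.dn_le_len hv
    have h6 : T.dn v - 1 = T.dn (T.chi v) := by omega
    have h7 : T.dn v - 1 + 1 = T.dn v := by omega
    refine ⟨by omega, by omega, ?_⟩
    rw [RT.w, RT.c, T.ch_eq hv, sum_singleton, e1 v (T.mem_D.1 hv).1,
      e1 (T.chi v) (T.chi_ne hv), ← h4, h7, h6]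
  -- the classes of the values
  have VB : ∀ v, v = T.r ∨ v ∈ T.B → 2 * s < T.w e v := by
    rintro v (hv | hv)
    · rw [hv, wr]
      have k1 := hcsl T.r
      have k2 : 3 * (s - (6 * b + 2)) ≤
          #((T.ch T.r).filter fun u => T.bot u ∈ Y) * (s - (6 * b + 2)) :=
        Nat.mul_le_mul_right _ hY3
      omega
    · rw [wB v hv]
      have k1 := hcsl v
      have k2 : 2 * (s - (6 * b + 2)) ≤
          #((T.ch v).filter fun u => T.bot u ∈ Y) * (s - (6 * b + 2)) :=
        Nat.mul_le_mul_right _ (hY2 v hv)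
      have k3 := hβB v hv
      omega
  have VD : ∀ v ∈ T.D, T.w e v ∈ W (T.bot v) := by
    intro v hv
    obtain ⟨-, k2, k3⟩ := wD v hv
    rw [k3]
    exact ((hq _ (T.bot_mem_N (T.mem_D.1 hv).1)).2.2.1 _ k2).2.2
  have VDs : ∀ v ∈ T.D, s < T.w e v ∧ T.w e v ≤ 2 * s := fun v hv =>
    (d1 _ (T.bot_mem_N (T.mem_D.1 hv).1)).2.2.2.2 _ (VD v hv)
  have VLi : ∀ u ∈ T.L, ∀ v ∈ T.L, T.w e u = T.w e v → u = v := by
    intro u hu v hv huv
    rw [wL u hu, wL v hv] at huv
    exact d4 u hu v hv huv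
  have VLs : ∀ u ∈ T.L, T.w e u ≤ s := by
    intro u hu
    rw [wL u hu]
    exact (d1 u (by rw [T.N_eq]; exact mem_union_left _ hu)).2.2.1
  have kinds : ∀ v, v ∈ T.L ∨ (v = T.r ∨ v ∈ T.B) ∨ v ∈ T.D := by
    intro v
    by_cases hv : v = T.r
    · exact Or.inr (Or.inl (Or.inl hv))
    by_cases hD : v ∈ T.D
    · exact Or.inr (Or.inr hD)
    · have h3 : v ∈ T.N := T.mem_N.2 ⟨hv, hD⟩
      rw [T.N_eq, mem_union] at h3
      rcases h3 with h3 | h3
      · exact Or.inl h3
      · exact Or.inr (Or.inl (Or.inr h3))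
  refine ⟨e, er, ?_, ?_⟩
  · intro v hv
    rw [← hs]
    by_cases hD : v ∈ T.D
    · obtain ⟨k1, k2, -⟩ := wD v hD
      have h5 := (hq _ (T.bot_mem_N hv)).2.2.1 _ k2
      have h6 : T.dn v - 1 + 1 = T.dn v := by omega
      rw [h6] at h5
      rw [e1 v hv]
      exact ⟨h5.1, h5.2.1⟩
    · have hN : v ∈ T.N := T.mem_N.2 ⟨hv, hD⟩
      rw [eN v hN]
      exact ⟨(d1 v hN).2.1, (d1 v hN).2.2.1⟩
  · intro u v huv
    rcases kinds u with k1 | k1 | k1
    · have k2 := VLs u k1
      rcases kinds v with g1 | g1 | g1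
      · exact VLi u k1 v g1 huv
      · have g2 := VB v g1
        omega
      · have g2 := (VDs v g1).1
        omega
    · have k2 := VB u k1
      rcases kinds v with g1 | g1 | g1
      · have g2 := VLs v g1
        omega
      · rcases k1 with k1 | k1
        · rcases g1 with g1 | g1
          · rw [k1, g1]
          · exfalso
            rw [k1, wr, wB v g1] at huv
            exact hβr v g1 huv.symm
        · rcases g1 with g1 | g1
          · exfalso
            rw [g1, wr, wB u k1] at huv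
            exact hβr u k1 huv
          · rw [wB u k1, wB v g1] at huv
            exact hβBi u k1 v g1 huv
      · have g2 := (VDs v g1).2
        omega
    · rcases kinds v with g1 | g1 | g1
      · have g2 := VLs v g1
        have k2 := (VDs u k1).1
        omega
      · have g2 := VB v g1
        have k2 := (VDs u k1).2
        omega
      · obtain ⟨k2, k3, k4⟩ := wD u k1
        obtain ⟨g2, g3, g4⟩ := wD v g1
        have huN := T.bot_mem_N (T.mem_D.1 k1).1
        have hvN := T.bot_mem_N (T.mem_D.1 g1).1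
        have hbb : T.bot u = T.bot v := by
          by_contra h
          exact disjoint_left.1 (fWd _ huN _ hvN h) (VD u k1) (by rw [huv]; exact VD v g1)
        rw [k4, g4, hbb] at huv
        rw [hbb] at k3
        have h4 := (hq _ hvN).2.2.2 _ k3 _ g3 huv
        exact T.dn_bot_inj k1 g1 hbb (by omega)

end RT

end Pool.Agent.H.MP_936c16_co
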