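import Mathlib

/-!
Selection lemmas.
-/

set_option autoImplicit false

namespace Pool.Agent.H.MP_936c16_co

open Finset

variable {V : Type} [DecidableEq V]

/-- disjoint subsets of given sizes -/
theorem exists_parts (H : Finset V) (c : V → ℕ) (C : Finset ℕ) (h : ∑ b ∈ H, c b ≤ #C) :
    ∃ P : V → Finset ℕ, (∀ b ∈ H, #(P b) = c b ∧ P b ⊆ C) ∧
      ∀ b ∈ H, ∀ b' ∈ H, b ≠ b' → Disjoint (P b) (P b') := by
  induction H using Finset.induction_on with
  | empty =>
    exact ⟨fun _ => ∅, fun b hb => absurd hb (notMem_empty b),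
      fun b hb => absurd hb (notMem_empty b)⟩
  | @insert a H ha ih =>
    rw [sum_insert ha] at h
    obtain ⟨P, h1, h2⟩ := ih (by omega)
    have h3 : #(H.biUnion P) ≤ ∑ b ∈ H, c b := by
      refine card_biUnion_le.trans (le_of_eq ?_)
      exact sum_congr rfl fun b hb => (h1 b hb).1
    have h4 : c a ≤ #(C \ H.biUnion P) := by
      have h5 := le_card_sdiff (H.biUnion P) C
      omega
    obtain ⟨t, ht1, ht2⟩ := exists_subset_card_eq h4
    have ht3 : ∀ b ∈ H, Disjoint t (P b) := by
      intro b hb
      rw [disjoint_left]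
      intro v hv hv'
      have h5 := ht1 hv
      rw [mem_sdiff, mem_biUnion] at h5
      exact h5.2 ⟨b, hb, hv'⟩
    have hne : ∀ b ∈ H, b ≠ a := fun b hb h5 => ha (h5 ▸ hb)
    refine ⟨Function.update P a t, ?_, ?_⟩
    · intro b hb
      rw [mem_insert] at hb
      rcases hb with rfl | hb
      · rw [Function.update_self]
        exact ⟨ht2, ht1.trans sdiff_subset⟩
      · rw [Function.update_of_ne (hne b hb)]
        exact h1 b hb
    · intro b hb b' hb' hbb
      rw [mem_insert] at hb hb'
      rcases hb with rfl | hb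
      · rcases hb' with rfl | hb'
        · exact absurd rfl hbb
        · rw [Function.update_self, Function.update_of_ne (hne b' hb')]
          exact ht3 b' hb'
      · rcases hb' with rfl | hb'
        · rw [Function.update_self, Function.update_of_ne (hne b hb)]
          exact (ht3 b hb).symm
        · rw [Function.update_of_ne (hne b hb), Function.update_of_ne (hne b' hb')]
          exact h2 b hb b' hb' hbb

/-- disjoint pairs of given differences -/
theorem exists_doubles (H : Finset V) (d : V → ℕ) (A : ℕ) (hd : ∀ b ∈ H, 1 ≤ d b) :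
    ∃ j : V → ℕ, (∀ b ∈ H, A ≤ j b ∧ j b < A + 4 * #H) ∧
      ∀ b ∈ H, ∀ b' ∈ H, b ≠ b' → Disjoint ({j b, j b + d b} : Finset ℕ) {j b', j b' + d b'} := by
  clear hd
  induction H using Finset.induction_on with
  | empty =>
    exact ⟨fun _ => 0, fun b hb => absurd hb (notMem_empty b),
      fun b hb => absurd hb (notMem_empty b)⟩
  | @insert a H ha ih =>
    obtain ⟨j, h1, h2⟩ := ih
    obtain ⟨W, hW⟩ : ∃ W : Finset ℕ, W = H.biUnion fun b => {j b, j b + d b} := ⟨_, rfl⟩
    have h3 : #W ≤ 2 * #H := by
      rw [hW, mul_comm, ← smul_eq_mul, ← sum_const]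
      exact card_biUnion_le.trans (sum_le_sum fun b _ => card_le_two)
    have h4 : #(W ∪ W.image fun v => v - d a) < #(Ico A (A + 4 * #(insert a H))) := by
      have h5 := card_union_le W (W.image fun v => v - d a)
      have h6 : #(W.image fun v => v - d a) ≤ #W := card_image_le
      rw [Nat.card_Ico, card_insert_of_notMem ha]
      omega
    obtain ⟨x, hx1, hx2⟩ := exists_mem_notMem_of_card_lt_card h4
    rw [mem_Ico] at hx1
    rw [mem_union, not_or] at hx2
    have hx3 : x + d a ∉ W := by
      intro h5
      apply hx2.2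
      exact mem_image.2 ⟨x + d a, h5, Nat.add_sub_cancel x (d a)⟩
    have hdis : ∀ b ∈ H, Disjoint ({x, x + d a} : Finset ℕ) {j b, j b + d b} := by
      intro b hb
      rw [disjoint_left]
      intro v hv hv'
      have h5 : v ∈ W := by
        rw [hW, mem_biUnion]
        exact ⟨b, hb, hv'⟩
      rw [mem_insert, mem_singleton] at hv
      rcases hv with rfl | rfl
      · exact hx2.1 h5
      · exact hx3 h5
    have hne : ∀ b ∈ H, b ≠ a := fun b hb h5 => ha (h5 ▸ hb)
    refine ⟨Function.update j a x, ?_, ?_⟩
    · intro b hb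
      rw [mem_insert] at hb
      rcases hb with rfl | hb
      · rw [Function.update_self]
        exact hx1
      · rw [Function.update_of_ne (hne b hb), card_insert_of_notMem ha]
        have h5 := h1 b hb
        exact ⟨h5.1, by omega⟩
    · intro b hb b' hb' hbb
      rw [mem_insert] at hb hb'
      rcases hb with rfl | hb
      · rcases hb' with rfl | hb'
        · exact absurd rfl hbb
        · rw [Function.update_self, Function.update_of_ne (hne b' hb')]
          exact hdis b' hb'
      · rcases hb' with rfl | hb'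
        · rw [Function.update_self, Function.update_of_ne (hne b hb)]
          exact (hdis b hb).symm
        · rw [Function.update_of_ne (hne b hb), Function.update_of_ne (hne b' hb')]
          exact h2 b hb b' hb' hbb

/-- numbers between given bounds with a given sum -/
theorem exists_sum_eq (H : Finset V) (lo hi : V → ℕ) (M : ℕ) (h : ∀ b ∈ H, lo b ≤ hi b)
    (h1 : ∑ b ∈ H, lo b ≤ M) (h2 : M ≤ ∑ b ∈ H, hi b) :
    ∃ m : V → ℕ, (∀ b ∈ H, lo b ≤ m b ∧ m b ≤ hi b) ∧ ∑ b ∈ H, m b = M := by
  induction H using Finset.induction_on generalizing M with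
  | empty =>
    refine ⟨fun _ => 0, fun b hb => absurd hb (notMem_empty b), ?_⟩
    rw [sum_empty] at h2 ⊢
    omega
  | @insert a H ha ih =>
    rw [sum_insert ha] at h1 h2
    have h3 := h a (mem_insert_self _ _)
    have h4 : ∑ b ∈ H, lo b ≤ ∑ b ∈ H, hi b :=
      sum_le_sum fun b hb => h b (mem_insert_of_mem hb)
    obtain ⟨x, hx1, hx2, hx3, hx4⟩ : ∃ x, lo a ≤ x ∧ x ≤ hi a ∧ ∑ b ∈ H, lo b ≤ M - x ∧
        M - x ≤ ∑ b ∈ H, hi b ∧ x ≤ M := by
      rcases Nat.le_total (hi a) (M - ∑ b ∈ H, lo b) with h5 | h5
      · exact ⟨hi a, by omega, by omega, by omega, by omega, by omega⟩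
      · exact ⟨M - ∑ b ∈ H, lo b, by omega, by omega, by omega, by omega, by omega⟩
    obtain ⟨m, h5, h6⟩ := ih (M - x) (fun b hb => h b (mem_insert_of_mem hb)) hx3 hx4.1
    have hne : ∀ b ∈ H, b ≠ a := fun b hb h5 => ha (h5 ▸ hb)
    refine ⟨Function.update m a x, ?_, ?_⟩
    · intro b hb
      rw [mem_insert] at hb
      rcases hb with rfl | hb
      · rw [Function.update_self]
        exact ⟨hx1, hx2⟩
      · rw [Function.update_of_ne (hne b hb)]
        exact h5 b hb
    · rw [sum_insert ha, Function.update_self,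
        sum_congr rfl fun b hb => Function.update_of_ne (hne b hb) x m, h6]
      omega

end Pool.Agent.H.MP_936c16_co
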