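import Pool.Agent.H.MP_936c16_co.Fil
import Pool.Agent.H.MP_936c16_co.Sel
import Pool.Agent.H.MP_936c16_co.Num

/-!
The parameters for the exact version. `a` is the number of the leaves, `k` the number of the long threads, `t`
the number of the threads of odd length. The weighted degrees of the leaves are in `[R - a + 1, R]`, those of
the vertices which are not in pairs in `[z₀, z₀ + t)`.
-/

set_option autoImplicit false

namespace Pool.Agent.H.MP_936c16_co

open Finset

/-- half of the number of the small dominos -/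
def gM (s a : ℕ) : ℕ := (s - a - 5) / 4

/-- the largest weighted degree of a leaf -/
def gR (s a : ℕ) : ℕ := 4 * gM s a + 1 + a

/-- the number of the large dominos below `z₀` -/
def gJ (s a k t : ℕ) : ℕ := (s - 2 * a - 3 - t - 2 * k) / 2

/-- the smallest weighted degree of a vertex which is not in a pair -/
def gz (s a k t : ℕ) : ℕ := gR s a + 1 + 2 * gJ s a k t + 2 * k

/-- the large dominos -/
def vd (s a k t j : ℕ) : ℕ :=
  gR s a + 1 + 2 * j + (if j < 2 then 0 else 2 * k) + (if j < gJ s a k t then 0 else t)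

theorem vd_lt (s a k t i j : ℕ) (h : i < j) : vd s a k t i + 2 ≤ vd s a k t j := by
  rw [vd, vd]
  split_ifs <;> omega

/-- descending dominos -/
theorem fill_down (st : ℕ → ℕ) {s : ℕ} (C : Finset ℕ) : ∀ w, #C + 1 ≤ w → w ≤ s →
    (∀ j ∈ C, w ≤ st j ∧ st j + 1 + #C ≤ w + s) →
    Fill s (2 * #C) w (dom st C) (w - #C) := by
  induction C using Finset.induction_on with
  | empty =>
    intro w _ _ _
    exact Fill.nil w
  | @insert j C hj ih =>
    intro w hw hws h
    rw [card_insert_of_notMem hj] at hw h ⊢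
    have h1 := h j (mem_insert_self _ _)
    have h2 : dom st (insert j C) = {st j + 1, st j} ∪ dom st C := by
      ext v
      simp only [mem_dom, mem_union, mem_insert, mem_singleton]
      constructor
      · rintro ⟨i, rfl | hi, h3⟩
        · tauto
        · exact Or.inr ⟨i, hi, h3⟩
      · rintro ((h3 | h3) | ⟨i, hi, h3⟩)
        · exact ⟨j, Or.inl rfl, Or.inr h3⟩
        · exact ⟨j, Or.inl rfl, Or.inl h3⟩
        · exact ⟨i, Or.inr hi, h3⟩
    have h4 := ih (w - 1) (by omega) (by omega) fun i hi => by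
      have := h i (mem_insert_of_mem hi)
      omega
    rw [h2, show 2 * (#C + 1) = 2 + 2 * #C by ring, show w - (#C + 1) = w - 1 - #C by omega]
    exact (Fill.pair (by omega) (by omega) (by omega) (by omega) (by omega)).append h4

/-- the numbers: `n` threads, `SP` pairs, `S` of them in short threads or at the lower ends of long threads -/
structure Nun (s a k t n S SP : ℕ) : Prop where
  hk : k ≤ n
  ht : t ≤ n
  hn : n + 3 ≤ 2 * a
  ha : 3 ≤ a
  hs : a + t + 2 * SP + 1 ≤ 2 * s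
  hs' : 2 * s ≤ a + t + 2 * SP + 2
  hC : 69 * a ≤ t + 2 * SP
  hS : S + 4 * k ≤ 6 * n
  hS2 : 2 * k ≤ S
  hk1 : 1 ≤ k

namespace Nun

variable {s a k t n S SP : ℕ} (h : Nun s a k t n S SP)

include h

theorem s_ge : 35 * a + 1 ≤ s := by
  have := h.hs
  have := h.hC
  omega

theorem R_le : s ≤ gR s a + 7 ∧ gR s a + 4 ≤ s := by
  have := h.s_ge
  have := h.ha
  rw [gR, gM]
  omega

theorem J_ge : 13 * a ≤ gJ s a k t + 13 := by
  have := h.s_ge
  have := h.ha
  have := h.hk
  have := h.ht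
  have := h.hn
  rw [gJ]
  omega

theorem vd_eq {j : ℕ} (h1 : 2 ≤ j) (h2 : j < gJ s a k t) :
    vd s a k t j = gR s a + 1 + 2 * j + 2 * k := by
  rw [vd, if_neg (by omega), if_pos h2, add_zero]

theorem vd_ge (j : ℕ) : gR s a + 1 + 2 * j ≤ vd s a k t j := by
  rw [vd]
  omega

theorem vd_small {j β : ℕ} (hj : j + 14 ≤ 13 * a) (hβ : gR s a ≤ β + 2 * a + 2) :
    vd s a k t j + 3 ≤ β + s := by
  have h1 := h.J_ge
  have h2 := h.s_ge
  have h3 := h.hk
  have h4 := h.hn
  have h6 := h.ha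
  have h5 : vd s a k t j ≤ gR s a + 1 + 2 * j + 2 * k := by
    rw [vd, if_pos (show j < gJ s a k t by omega)]
    split_ifs <;> omega
  omega

theorem vd_top {j : ℕ} (hj : j < SP - 2 * gM s a - k) : vd s a k t j + 1 ≤ 2 * s := by
  have h1 := h.hs
  have h2 : vd s a k t j ≤ gR s a + 1 + 2 * j + 2 * k + t := by
    rw [vd]
    split_ifs <;> omega
  have h3 : gR s a = 4 * gM s a + 1 + a := rfl
  omega

theorem vd_big {j : ℕ} (hj : S ≤ j) : s ≤ vd s a k t j := by
  have h1 := h.R_le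
  have h2 := h.hS2
  have h3 := h.hk1
  have h4 : gR s a + 1 + 2 * j + 2 * k ≤ vd s a k t j := by
    rw [vd, if_neg (show ¬ j < 2 by omega)]
    omega
  omega

theorem ld_top {j : ℕ} (hj : j < 2 * gM s a) : ld j + 1 + a ≤ gR s a := by
  have h3 : gR s a = 4 * gM s a + 1 + a := rfl
  rw [ld]
  omega

theorem dh_bd {p β : ℕ} (h1 : gR s a ≤ β + 2 * a + 2) (h2 : β ≤ gR s a) :
    2 ≤ dh s p β ∧ dh s p β ≤ s + 1 - β ∧ 2 * (dh s p β / 2) = dh s p β := by
  have h3 := h.R_le
  have h4 := h.s_ge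
  have h5 := h.ha
  have h6 : bw s p β = β - 1 ∨ bw s p β = β + 1 := by
    rw [bw]
    split_ifs
    · exact Or.inl rfl
    · exact Or.inr rfl
  rw [dh]
  omega

theorem dl_bd {p β f : ℕ} (h2 : β ≤ gR s a) (h3 : gR s a + 5 ≤ f) :
    2 ≤ dl s p β f ∧ dl s p β f + β ≤ f ∧ 2 * (dl s p β f / 2) = dl s p β f := by
  have h5 := h.ha
  have h6 : xw s p β f = f + 1 - β ∨ xw s p β f = f - β := by
    rw [xw]
    split_ifs
    · exact Or.inl rfl
    · exact Or.inr rfl
  rw [dl]
  omega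

/-- a long thread -/
theorem fill_thread {β σ p m f j₁ j₂ : ℕ} {O LS HS : Finset ℕ} (h1 : gR s a ≤ β + 2 * a + 2)
    (h2 : β + 2 * σ ≤ gR s a) (hσ : σ ≤ 1) (hp : 2 * m + 5 ≤ p) (hm : 1 ≤ m) (hf : gR s a + 5 ≤ f)
    (hf' : f ≤ gR s a + 3 + 2 * k) (hO : #O = 2) (hOS : ∀ j ∈ O, j < S) (hj₁ : 1 ≤ j₁)
    (hj₁' : j₁ < 1 + 4 * k) (hj₂ : S ≤ j₂) (hj₂' : j₂ < S + 4 * k) (hLS : #LS = 2 * m - 2)
    (hLS' : ∀ j ∈ LS, j < 2 * gM s a) (hHS : #HS = p - 5 - 2 * m)
    (hHS' : ∀ j ∈ HS, S ≤ j ∧ j < SP - 2 * gM s a - k) :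
    Fill s (2 * p) (β + 2 * σ) (dom (vd s a k t) (O ∪ {j₂, j₂ + dh s p β / 2} ∪ HS) ∪
      dom ld ({j₁, j₁ + dl s p β f / 2} ∪ LS) ∪ {f, f + 1}) (β - p % 2) := by
  have k1 := h.R_le
  have k2 := h.s_ge
  have k3 := h.ha
  have k4 := h.hk
  have k5 := h.hn
  have k6 := h.hS
  have k7 := h.hS2
  have k8 := h.hk1
  have k9 := h.J_ge
  obtain ⟨a1, a2, a3⟩ := h.dh_bd (p := p) h1 (show β ≤ gR s a by omega)
  obtain ⟨b1, b2, b3⟩ := h.dl_bd (p := p) (show β ≤ gR s a by omega) hf
  obtain ⟨Δ, hΔ⟩ : ∃ Δ, Δ = dh s p β := ⟨_, rfl⟩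
  obtain ⟨δ, hδ⟩ : ∃ δ, δ = dl s p β f := ⟨_, rfl⟩
  have e1 : vd s a k t (j₂ + dh s p β / 2) = vd s a k t j₂ + dh s p β := by
    rw [h.vd_eq (by omega) (by omega), h.vd_eq (by omega) (by omega)]
    omega
  have e2 : ld (j₁ + dl s p β f / 2) = ld j₁ + dl s p β f := by
    rw [ld, ld]
    omega
  have c1 : Fill s 4 (β + 2 * σ) (dom (vd s a k t) O) β := by
    rcases (show σ = 0 ∨ σ = 1 by omega) with g | g
    · have c := (fill_alt (vd s a k t) (s := s) (w := β) (by omega) (by omega) O (fun j hj => by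
        have := h.vd_small (j := j) (by have := hOS j hj; omega) h1
        have := h.vd_ge j
        omega)).1
      rw [hO, show β - 2 % 2 = β by omega] at c
      rw [g]
      exact c
    · have c := fill_down (vd s a k t) (s := s) O (β + 2) (by omega) (by omega) (fun j hj => by
        have := h.vd_small (j := j) (by have := hOS j hj; omega) h1
        have := h.vd_ge j
        omega)
      rw [hO, show β + 2 - 2 = β by omega] at c
      rw [g]
      exact c
  have c2 := fill_alt ld (s := s) (w := 2) (by omega) (by omega) LS (fun j hj => by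
    have := h.ld_top (hLS' j hj)
    have e3 : ld j = 2 + 2 * j := rfl
    omega)
  have c3 := fill_alt (vd s a k t) (s := s) (w := s) (by omega) (by omega) HS (fun j hj => by
    have := h.vd_top (hHS' j hj).2
    have := h.vd_big (hHS' j hj).1
    omega)
  rw [hLS] at c2
  rw [hHS] at c3
  have d1 : 2 - (2 * m - 2) % 2 = 2 := by omega
  have d2 : 2 - 1 + (2 * m - 2) % 2 = 1 := by omega
  rw [d1, d2] at c2
  have c4 := fill_long (f := f) (y := ld j₁) (Y := vd s a k t j₂) (p := p)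
    (c := (p - 5 - 2 * m) % 2) (by omega) (by omega) (Fill.nil β) c2.2 c2.1 c3.1 c3.2 (by omega)
    (by omega) (by omega) (by rw [ld]; omega) (by rw [ld]; omega)
    (by have := h.vd_ge j₂; omega) (h.vd_small (by omega) h1)
  have c5 := c1.append c4
  have d4 : 4 + (0 + 2 * (2 * m - 2) + 2 * (p - 5 - 2 * m) + 10) = 2 * p := by omega
  rw [d4] at c5
  rw [dom_union, dom_union, dom_union, dom_pair, dom_pair, e1, e2]
  have e4 : dom (vd s a k t) O ∪ {vd s a k t j₂, vd s a k t j₂ + 1, vd s a k t j₂ + dh s p β,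
      vd s a k t j₂ + dh s p β + 1} ∪ dom (vd s a k t) HS ∪
      ({ld j₁, ld j₁ + 1, ld j₁ + dl s p β f, ld j₁ + dl s p β f + 1} ∪ dom ld LS) ∪ {f, f + 1} =
      dom (vd s a k t) O ∪ (∅ ∪ dom ld LS ∪ dom (vd s a k t) HS ∪ {f, f + 1} ∪
        {ld j₁, ld j₁ + 1, ld j₁ + dl s p β f, ld j₁ + dl s p β f + 1} ∪
        {vd s a k t j₂, vd s a k t j₂ + 1, vd s a k t j₂ + dh s p β,
          vd s a k t j₂ + dh s p β + 1}) := by
    rw [empty_union]
    ac_rfl
  rw [e4]
  exact c5

/-- a short thread -/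
theorem fill_short {β p : ℕ} {O : Finset ℕ} (h1 : gR s a ≤ β + 2 * a)
    (h2 : β ≤ gR s a) (hO : #O = p) (hOS : ∀ j ∈ O, j < S) :
    Fill s (2 * p) β (dom (vd s a k t) O) (β - p % 2) := by
  have k1 := h.R_le
  have k2 := h.s_ge
  have k3 := h.ha
  have k4 := h.hk
  have k5 := h.hn
  have k6 := h.hS
  have c1 := (fill_alt (vd s a k t) (s := s) (w := β) (by omega) (by omega) O (fun j hj => by
    have := h.vd_small (j := j) (by have := hOS j hj; omega) (show gR s a ≤ β + 2 * a + 2 by omega)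
    have := h.vd_ge j
    omega)).1
  rw [hO] at c1
  exact c1

theorem vd_range {j : ℕ} (hj : j < gJ s a k t ∨ j < SP - 2 * gM s a - k) :
    gR s a < vd s a k t j ∧ (vd s a k t j + 1 < gz s a k t ∨
      (gz s a k t + t ≤ vd s a k t j ∧ vd s a k t j + 1 ≤ 2 * s)) := by
  have h1 := h.vd_ge j
  refine ⟨by omega, ?_⟩
  have h2 := h.J_ge
  have h3 := h.ha
  by_cases h4 : j < gJ s a k t
  · left
    rw [vd, if_pos h4, gz]
    split_ifs <;> omega
  · right
    refine ⟨?_, h.vd_top (by omega)⟩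
    rw [vd, if_neg h4, if_neg (show ¬ j < 2 by omega), gz]
    omega

theorem vd_f {j f : ℕ} (hf : gR s a + 5 ≤ f) (hf' : f ≤ gR s a + 3 + 2 * k) :
    vd s a k t j + 1 < f ∨ f + 1 < vd s a k t j := by
  have h2 := h.J_ge
  have h3 := h.ha
  by_cases h4 : j < 2
  · left
    rw [vd, if_pos h4, if_pos (show j < gJ s a k t by omega)]
    omega
  · right
    rw [vd, if_neg h4]
    split_ifs <;> omega

end Nun

end Pool.Agent.H.MP_936c16_co
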