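import Pool.Agent.H.MP_936c16_co.Fil
import Pool.Agent.H.MP_936c16_co.Sel
import Pool.Agent.H.MP_936c16_co.Num2

/-!
The parameters if the weighted degree `s` is used by a leaf and the thread above `q` starts with the weight `s`.
`a - 1` is the number of the other leaves, `k` the number of the long threads, `t` the number of the threads of
odd length. The numbers `s - d, …, s + d` are not used by dominos, `d ≤ 1`. The weighted degrees of the other
leaves are in `[R - a + 2, R]`, those of the vertices which are not in pairs in `[z₀, z₀ + t)`.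
-/

set_option autoImplicit false

namespace Pool.Agent.H.MP_936c16_co

open Finset

/-- the parity -/
def qd (s a : ℕ) : ℕ := (s - a - 1) % 2

/-- half of the number of the small dominos -/
def qM (s a : ℕ) : ℕ := (s - a - 5 - qd s a) / 4

/-- the number of the large dominos below `s`, minus two -/
def qe (s a : ℕ) : ℕ := (s - a - 5 - qd s a) % 4 / 2

/-- the largest weighted degree of another leaf -/
def qR (s a : ℕ) : ℕ := 4 * qM s a + a

/-- the number of the large dominos below `z₀` -/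
def qJ (s a k t : ℕ) : ℕ := (s - 2 * a - 4 - 2 * qd s a - t - 2 * k) / 2

/-- the smallest weighted degree of a vertex which is not in a pair -/
def qz (s a k t : ℕ) : ℕ := qR s a + 2 + 2 * qd s a + 2 * qJ s a k t + 2 * k

/-- the large dominos -/
def qv (s a k t j : ℕ) : ℕ :=
  qR s a + 1 + 2 * j + (if j < 2 + qe s a then 0 else 2 * k + 1 + 2 * qd s a) +
    (if j < qJ s a k t then 0 else t)

theorem qv_lt (s a k t i j : ℕ) (h : i < j) : qv s a k t i + 2 ≤ qv s a k t j := by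
  rw [qv, qv]
  split_ifs <;> omega

/-- the numbers: `n` threads, `SP` pairs, `S` of them in short threads or at the lower ends of long threads -/
structure Qun (s a k t n S SP : ℕ) : Prop where
  hk : k ≤ n
  ht : t ≤ n
  hn : n + 3 ≤ 2 * a
  ha : 3 ≤ a
  hs : a + t + 2 * SP + 2 * qd s a + 1 = 2 * s
  hC : 70 * a ≤ t + 2 * SP
  hS : S + 4 * k ≤ 6 * n + 2
  hS2 : 2 * k + 2 ≤ S
  hk1 : 1 ≤ k

namespace Qun

variable {s a k t n S SP : ℕ} (h : Qun s a k t n S SP)

include h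

theorem s_ge : 35 * a + 2 ≤ s := by
  have := h.hs
  have := h.hC
  have := h.ha
  omega

theorem d_le : qd s a ≤ 1 := by
  rw [qd]
  omega

theorem s_eq : s = qR s a + 5 + 2 * qe s a + qd s a ∧ qd s a ≤ 1 ∧ qe s a ≤ 1 := by
  have := h.s_ge
  have := h.ha
  rw [qR, qM, qe, qd]
  omega

theorem J_ge : 13 * a + 1 ≤ qJ s a k t := by
  have := h.s_ge
  have := h.ha
  have := h.hk
  have := h.ht
  have := h.hn
  have := h.hs
  have := h.hC
  have := h.d_le
  rw [qJ]
  omega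

theorem v_eq {j : ℕ} (h1 : 2 + qe s a ≤ j) (h2 : j < qJ s a k t) :
    qv s a k t j = qR s a + 2 + 2 * j + 2 * k + 2 * qd s a := by
  rw [qv, if_neg (by omega), if_pos h2]
  omega

theorem v_ge (j : ℕ) : qR s a + 1 + 2 * j ≤ qv s a k t j := by
  rw [qv]
  omega

theorem v_small {j β : ℕ} (hj : j + 12 ≤ 13 * a) (hβ : qR s a ≤ β + 2 * a + 2) :
    qv s a k t j + 3 ≤ β + s := by
  have h1 := h.J_ge
  have h2 := h.s_ge
  have h3 := h.hk
  have h4 := h.hn
  have h6 := h.ha
  have h7 := h.s_eq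
  have h8 := h.hs
  have h9 := h.hC
  have h5 : qv s a k t j ≤ qR s a + 2 + 2 * j + 2 * k + 2 * qd s a := by
    rw [qv, if_pos (show j < qJ s a k t by omega)]
    split_ifs <;> omega
  omega

theorem v_top {j : ℕ} (hj : j < SP - 2 * qM s a - k) : qv s a k t j + 1 ≤ 2 * s := by
  have h1 := h.hs
  have h2 : qv s a k t j ≤ qR s a + 2 + 2 * j + 2 * k + 2 * qd s a + t := by
    rw [qv]
    split_ifs <;> omega
  have h3 : qR s a = 4 * qM s a + a := rfl
  omega

theorem v_low {j : ℕ} (hj : j < 2 + qe s a) : qv s a k t j + 2 + qd s a ≤ s := by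
  have h1 := h.s_eq
  have h2 := h.J_ge
  have h3 := h.ha
  rw [qv, if_pos hj, if_pos (by omega)]
  omega

theorem v_big {j : ℕ} (hj : 2 + qe s a ≤ j) : s + qd s a + 1 + 2 * k ≤ qv s a k t j := by
  have h1 := h.s_eq
  rw [qv, if_neg (by omega)]
  omega

theorem ld_top {j : ℕ} (hj : j < 2 * qM s a) : ld j + a ≤ qR s a := by
  have h3 : qR s a = 4 * qM s a + a := rfl
  rw [ld]
  omega

theorem dh_bd {p β : ℕ} (h1 : qR s a ≤ β + 2 * a + 2) (h2 : β ≤ qR s a) :
    2 ≤ dh s p β ∧ dh s p β ≤ s + 1 - β ∧ 2 * (dh s p β / 2) = dh s p β := by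
  have h3 := h.s_eq
  have h4 := h.s_ge
  have h5 := h.ha
  have h6 : bw s p β = β - 1 ∨ bw s p β = β + 1 := by
    rw [bw]
    split_ifs
    · exact Or.inl rfl
    · exact Or.inr rfl
  rw [dh]
  omega

theorem dl_bd {p β f : ℕ} (h2 : β ≤ qR s a) (h3 : qR s a + 5 ≤ f) :
    2 ≤ dl s p β f ∧ dl s p β f + β ≤ f ∧ 2 * (dl s p β f / 2) = dl s p β f := by
  have h5 := h.ha
  have h6 : xw s p β f = f + 1 - β ∨ xw s p β f = f - β := by
    rw [xw]
    split_ifs
    · exact Or.inl rfl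
    · exact Or.inr rfl
  rw [dl]
  omega

/-- a long thread; `SO` is the set of the weighted degrees in its lowest part -/
theorem fill_thread {β p m f j₁ j₂ nO w : ℕ} {SO LS HS : Finset ℕ}
    (h0 : Fill s nO w (SO : Finset ℕ) β) (h1 : qR s a ≤ β + 2 * a + 2)
    (h2 : β ≤ qR s a) (hm : 1 ≤ m) (hf : s + 1 ≤ f)
    (hf' : f ≤ s + 2 * k + 2) (hj₁ : 1 ≤ j₁)
    (hj₁' : j₁ < 1 + 4 * k) (hj₂ : S ≤ j₂) (hj₂' : j₂ < S + 4 * k) (hLS : #LS = 2 * m - 2)
    (hLS' : ∀ j ∈ LS, j < 2 * qM s a) (hp : (p + 1) % 2 = #HS % 2)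
    (hHS' : ∀ j ∈ HS, S ≤ j ∧ j < SP - 2 * qM s a - k) :
    Fill s (nO + 2 * #LS + 2 * #HS + 10) w (SO ∪ dom (qv s a k t) ({j₂, j₂ + dh s p β / 2} ∪ HS) ∪
      dom ld ({j₁, j₁ + dl s p β f / 2} ∪ LS) ∪ {f, f + 1}) (β - p % 2) := by
  have k1 := h.s_eq
  have k2 := h.s_ge
  have k3 := h.ha
  have k4 := h.hk
  have k5 := h.hn
  have k6 := h.hS
  have k7 := h.hS2
  have k8 := h.hk1
  have k9 := h.J_ge
  obtain ⟨a1, a2, a3⟩ := h.dh_bd (p := p) h1 h2
  obtain ⟨b1, b2, b3⟩ := h.dl_bd (p := p) h2 (show qR s a + 5 ≤ f by omega)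
  obtain ⟨Δ, hΔ⟩ : ∃ Δ, Δ = dh s p β := ⟨_, rfl⟩
  obtain ⟨δ, hδ⟩ : ∃ δ, δ = dl s p β f := ⟨_, rfl⟩
  have e1 : qv s a k t (j₂ + dh s p β / 2) = qv s a k t j₂ + dh s p β := by
    rw [h.v_eq (by omega) (by omega), h.v_eq (by omega) (by omega)]
    omega
  have e2 : ld (j₁ + dl s p β f / 2) = ld j₁ + dl s p β f := by
    rw [ld, ld]
    omega
  have c2 := fill_alt ld (s := s) (w := 2) (by omega) (by omega) LS (fun j hj => by
    have := h.ld_top (hLS' j hj)
    have e3 : ld j = 2 + 2 * j := rfl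
    omega)
  have c3 := fill_alt (qv s a k t) (s := s) (w := s) (by omega) (by omega) HS (fun j hj => by
    have := h.v_top (hHS' j hj).2
    have := h.v_big (j := j) (by have := (hHS' j hj).1; omega)
    omega)
  have d1 : 2 - #LS % 2 = 2 := by omega
  have d2 : 2 - 1 + #LS % 2 = 1 := by omega
  rw [d1, d2] at c2
  have c4 := fill_long (f := f) (y := ld j₁) (Y := qv s a k t j₂) (p := p)
    (c := #HS % 2) (by omega) (by omega) (Fill.nil β) c2.2 c2.1 c3.1 c3.2 (by omega)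
    (by omega) (by omega) (by rw [ld]; omega) (by rw [ld]; omega)
    (by have := h.v_ge j₂; omega) (h.v_small (by omega) h1)
  have c5 := h0.append c4
  have d4 : nO + (0 + 2 * #LS + 2 * #HS + 10) = nO + 2 * #LS + 2 * #HS + 10 := by omega
  rw [d4] at c5
  rw [dom_union, dom_union, dom_pair, dom_pair, e1, e2]
  have e4 : SO ∪ ({qv s a k t j₂, qv s a k t j₂ + 1, qv s a k t j₂ + dh s p β,
      qv s a k t j₂ + dh s p β + 1} ∪ dom (qv s a k t) HS) ∪
      ({ld j₁, ld j₁ + 1, ld j₁ + dl s p β f, ld j₁ + dl s p β f + 1} ∪ dom ld LS) ∪ {f, f + 1} =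
      SO ∪ (∅ ∪ dom ld LS ∪ dom (qv s a k t) HS ∪ {f, f + 1} ∪
        {ld j₁, ld j₁ + 1, ld j₁ + dl s p β f, ld j₁ + dl s p β f + 1} ∪
        {qv s a k t j₂, qv s a k t j₂ + 1, qv s a k t j₂ + dh s p β,
          qv s a k t j₂ + dh s p β + 1}) := by
    rw [empty_union]
    ac_rfl
  rw [e4]
  exact c5

/-- a short thread -/
theorem fill_short {β p : ℕ} {O : Finset ℕ} (h1 : qR s a ≤ β + 2 * a + 2)
    (h2 : β ≤ qR s a) (hO : #O = p) (hOS : ∀ j ∈ O, j < S) :
    Fill s (2 * p) β (dom (qv s a k t) O) (β - p % 2) := by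
  have k1 := h.s_eq
  have k2 := h.s_ge
  have k3 := h.ha
  have k4 := h.hk
  have k5 := h.hn
  have k6 := h.hS
  have c1 := (fill_alt (qv s a k t) (s := s) (w := β) (by omega) (by omega) O (fun j hj => by
    have := h.v_small (j := j) (by have := hOS j hj; omega) h1
    have := h.v_ge j
    omega)).1
  rw [hO] at c1
  exact c1

end Qun

end Pool.Agent.H.MP_936c16_co
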