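import Pool.Agent.H.MP_936c16_co.Thr
import Pool.Agent.H.MP_936c16_co.Seq

/-!
The numbers of the pairs in the threads. The root has exactly one child `u₀`.
-/

set_option autoImplicit false

namespace Pool.Agent.H.MP_936c16_co

open Finset

namespace RT

variable {V : Type} [Fintype V] [DecidableEq V] (T : RT V)

/-- the number of the pairs in the thread above `b` -/
noncomputable def pr (u₀ b : V) : ℕ :=
  if b = T.bot u₀ then (T.len b - 1) / 2 else T.len b / 2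

theorem two_pr_le (u₀ b : V) : 2 * T.pr u₀ b ≤ T.len b := by
  rw [pr]
  split_ifs <;> omega

theorem par_u₀ {u₀ : V} (hr : T.ch T.r = {u₀}) : u₀ ≠ T.r ∧ T.par u₀ = T.r := by
  rw [← T.mem_ch, hr]
  exact mem_singleton_self _

theorem r_notMem_D : T.r ∉ T.D := fun h => (T.mem_D.1 h).1 rfl

theorem dn_u₀ {u₀ : V} (hr : T.ch T.r = {u₀}) : T.len (T.bot u₀) ≤ T.dn u₀ := by
  obtain ⟨h1, h2⟩ := T.par_u₀ hr
  by_contra hcon
  have h3 := T.par_mem h1 (not_le.1 hcon)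
  rw [h2] at h3
  exact T.r_notMem_D h3

theorem len_u₀ {u₀ : V} (hr : T.ch T.r = {u₀}) (h : u₀ ∉ T.D) : T.len u₀ = 0 := by
  have h1 := T.dn_u₀ hr
  rw [T.bot_of_notMem h, T.dn_of_notMem h] at h1
  omega

theorem dn_u₀_eq {u₀ : V} (hr : T.ch T.r = {u₀}) (h : u₀ ∈ T.D) :
    T.dn u₀ = T.len (T.bot u₀) := le_antisymm (T.dn_le_len h) (T.dn_u₀ hr)

theorem one_le_dn {v : V} (h : v ∈ T.D) : 1 ≤ T.dn v := by
  rw [T.dn_eq h]
  omega

theorem two_pr_lt {u₀ : V} (hr : T.ch T.r = {u₀}) (h : u₀ ∈ T.D) :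
    2 * T.pr u₀ (T.bot u₀) < T.dn u₀ := by
  have h1 := T.one_le_dn h
  have h2 := T.dn_u₀_eq hr h
  rw [pr, if_pos rfl]
  omega

theorem bot_ne_u₀ {u₀ v : V} (hr : T.ch T.r = {u₀}) (h : v ∈ T.D) : T.bot v ≠ u₀ := by
  intro h1
  have h2 : u₀ ∉ T.D := by
    rw [← h1]
    exact T.bot_notMem v
  have h3 := T.dn_le_len h
  have h4 := T.one_le_dn h
  rw [h1, T.len_u₀ hr h2] at h3
  omega

theorem dn_le {u₀ v : V} (hr : T.ch T.r = {u₀}) (h : v ∈ T.D) (hv : v ≠ u₀) :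
    T.dn v ≤ 2 * T.pr u₀ (T.bot v) + 1 := by
  have h1 := T.dn_le_len h
  by_cases h2 : T.bot v = T.bot u₀
  · rw [pr, if_pos h2]
    by_cases h3 : u₀ ∈ T.D
    · have h4 := T.dn_u₀_eq hr h3
      have h5 : T.dn v ≠ T.dn u₀ := fun h6 => hv (T.dn_bot_inj h h3 h2 h6)
      rw [← h2] at h4
      omega
    · rw [T.bot_of_notMem h3] at h2
      exact absurd h2 (T.bot_ne_u₀ hr h)
  · rw [pr, if_neg h2]
    omega

/-- at the top of a thread all the pairs are below -/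
theorem two_pr_le_dn {u₀ v : V} (hv : v ≠ T.r) (h : T.par v ∉ T.D) :
    2 * T.pr u₀ (T.bot v) ≤ T.dn v := by
  have h1 := T.two_pr_le u₀ (T.bot v)
  by_contra hcon
  exact h (T.par_mem hv (by omega))

theorem exists_num2 (S : Finset V) (A B : V → ℕ) (n : ℕ)
    (h : ∀ b ∈ S, 4 * (B b + 1 - A b) ≤ T.len b) (hS : S = T.N) (hn : #T.D = n) :
    ∃ ι : V → ℕ → ℕ, (∀ b ∈ S, ∀ q, A b ≤ q → q ≤ B b → 4 * ι b q + 4 ≤ n) ∧
      (∀ b ∈ S, ∀ q, A b ≤ q → q ≤ B b → ∀ b' ∈ S, ∀ q', A b' ≤ q' → q' ≤ B b' →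
        ι b q = ι b' q' → b = b' ∧ q = q') := by
  obtain ⟨f, hf1, hf2⟩ := exists_num (S ×ˢ range (S.sup B + 1) |>.filter
    fun x => A x.1 ≤ x.2 ∧ x.2 ≤ B x.1)
  have hmem : ∀ b ∈ S, ∀ q, A b ≤ q → q ≤ B b → (b, q) ∈ (S ×ˢ range (S.sup B + 1) |>.filter
    fun x => A x.1 ≤ x.2 ∧ x.2 ≤ B x.1) := by
    intro b hb q h1 h2
    have h3 := le_sup (f := B) hb
    rw [mem_filter, mem_product, mem_range]
    exact ⟨⟨hb, by simp only; omega⟩, h1, h2⟩
  have hcard : 4 * #(S ×ˢ range (S.sup B + 1) |>.filter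
    fun x => A x.1 ≤ x.2 ∧ x.2 ≤ B x.1) ≤ n := by
    have h1 : #(S ×ˢ range (S.sup B + 1) |>.filter
        fun x => A x.1 ≤ x.2 ∧ x.2 ≤ B x.1) ≤ ∑ b ∈ S, (B b + 1 - A b) := by
      have h2 := card_eq_sum_card_fiberwise (s := (S ×ˢ range (S.sup B + 1) |>.filter
        fun x => A x.1 ≤ x.2 ∧ x.2 ≤ B x.1)) (f := Prod.fst) (t := S) (by
          intro x hx
          rw [mem_coe, mem_filter, mem_product] at hx
          exact hx.1.1)
      rw [h2]
      refine sum_le_sum fun b _ => ?_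
      rw [← Nat.card_Icc]
      refine card_le_card_of_injOn Prod.snd ?_ ?_
      · intro x hx
        rw [mem_coe, mem_filter, mem_filter] at hx
        obtain ⟨⟨-, h3, h4⟩, h5⟩ := hx
        rw [h5] at h3 h4
        rw [mem_coe, mem_Icc]
        exact ⟨h3, h4⟩
      · intro x hx y hy hxy
        rw [mem_coe, mem_filter] at hx hy
        exact Prod.ext (hx.2.trans hy.2.symm) hxy
    have h3 : 4 * ∑ b ∈ S, (B b + 1 - A b) ≤ ∑ b ∈ S, T.len b := by
      rw [mul_sum]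
      exact sum_le_sum h
    have h4 := T.sum_len
    rw [← hS, hn] at h4
    omega
  refine ⟨fun b q => f (b, q), ?_, ?_⟩
  · intro b hb q h1 h2
    have h3 := hf1 _ (hmem b hb q h1 h2)
    simp only
    omega
  · intro b hb q h1 h2 b' hb' q' h1' h2' heq
    have h3 := hf2 _ (hmem b hb q h1 h2) _ (hmem b' hb' q' h1' h2') heq
    exact ⟨congrArg Prod.fst h3, congrArg Prod.snd h3⟩

end RT

end Pool.Agent.H.MP_936c16_co
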