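import Pool.Agent.H.MP_936c16_co.Thr
import Pool.Agent.H.MP_936c16_co.Choice

/-!
The weights above the leaves and above the vertices with at least two children. The root is not in a thread;
a thread leads from a leaf to the root.
-/

set_option autoImplicit false

namespace Pool.Agent.H.MP_936c16_co

open Finset

namespace RT

variable {V : Type} [Fintype V] [DecidableEq V] (T : RT V)

/-- the sum of the weights at the upper ends of the threads below `x`, if the weights at the lower ends are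
given by `β` -/
noncomputable def cs (t : V → ℕ → ℕ) (β : V → ℕ) (x : V) : ℕ :=
  ∑ u ∈ T.ch x, t (T.bot u) (β (T.bot u))

/-- a vertex of a thread whose parent is outside is the last one of the thread -/
theorem dn_of_par {u : V} (hu : u ≠ T.r) (h : T.par u ∉ T.D) : T.dn u = T.len (T.bot u) := by
  have h1 : ¬ T.dn u < T.len (T.bot u) := fun h2 => h (T.par_mem hu h2)
  by_cases h3 : u ∈ T.D
  · have h4 := T.dn_le_len h3
    omega
  · have h4 := T.dn_of_notMem h3
    omega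

/-- the last vertex of a thread is determined by the thread -/
theorem top_inj {u v : V} (hu : u ≠ T.r) (hv : v ≠ T.r) (h1 : T.par u ∉ T.D)
    (h2 : T.par v ∉ T.D) (h : T.bot u = T.bot v) : u = v := by
  have h3 := T.dn_of_par hu h1
  have h4 := T.dn_of_par hv h2
  rw [h, ← h4] at h3
  exact T.dn_bot_inj' _ u v h3 rfl h

theorem r_notMem_D1 : T.r ∉ T.D := fun h => (T.mem_D.1 h).1 rfl

theorem B_notMem_D {b : V} (hb : b ∈ T.B) : b ∉ T.D := by
  intro h
  have h1 := (T.mem_B.1 hb).2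
  have h2 := (T.mem_D.1 h).2
  omega

theorem ht_le_bot (u : V) : T.ht u ≤ T.ht (T.bot u) := by
  have h : ∀ k, T.ht u ≤ T.ht (T.chi^[k] u) := by
    intro k
    induction k with
    | zero => exact le_rfl
    | succ k ih =>
      rw [Function.iterate_succ_apply']
      by_cases h1 : T.chi^[k] u ∈ T.D
      · exact ih.trans (T.ht_chi h1).le
      · rw [chi, dif_neg h1]
        exact ih
  exact h _

/-- if there are vertices with at least two children (except the root) then a thread leads from one of them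
to the root -/
theorem exists_B_top (h : T.B.Nonempty) : ∃ u ∈ T.ch T.r, T.bot u ∈ T.B := by
  obtain ⟨b, hb, hmin⟩ := exists_min_image T.B T.ht h
  have key : ∀ n, ∀ v, T.ht v = n → v ≠ T.r → T.bot v = b → T.ht v ≤ T.ht b →
      ∃ u ∈ T.ch T.r, T.bot u = b := by
    intro n
    induction n using Nat.strong_induction_on with
    | _ n ih =>
      intro v hn hv hvb hvh
      by_cases hp : T.par v = T.r
      · exact ⟨v, T.mem_ch.2 ⟨hv, hp⟩, hvb⟩
      have h1 := T.lt v hv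
      have h2 : v ∈ T.ch (T.par v) := T.mem_ch.2 ⟨hv, rfl⟩
      have h3 : T.par v ∉ T.B := by
        intro h4
        have h5 := hmin _ h4
        omega
      have h4 : 0 < #(T.ch (T.par v)) := card_pos.2 ⟨v, h2⟩
      have h5 : #(T.ch (T.par v)) = 1 := by
        by_contra h6
        exact h3 (T.mem_B.2 ⟨hp, by omega⟩)
      have h6 : T.par v ∈ T.D := T.mem_D.2 ⟨hp, h5⟩
      have h7 : T.chi (T.par v) = v := by
        rw [T.ch_eq h6, mem_singleton] at h2
        exact h2.symm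
      refine ih (T.ht (T.par v)) (by omega) (T.par v) rfl hp ?_ (by omega)
      rw [T.bot_eq h6, h7]
      exact hvb
  obtain ⟨u, hu, hub⟩ := key _ b rfl (T.mem_B.1 hb).1 (T.bot_of_notMem (T.B_notMem_D hb)) le_rfl
  exact ⟨u, hu, hub ▸ hb⟩

theorem cs_update (t : V → ℕ → ℕ) (β : V → ℕ) {v b : V} (z : ℕ)
    (h : ∀ u ∈ T.ch b, T.bot u ≠ v) : T.cs t (Function.update β v z) b = T.cs t β b := by
  refine sum_congr rfl fun u hu => ?_
  rw [Function.update_of_ne (h u hu)]

theorem Ph1_greedy (t : V → ℕ → ℕ) (β₀ : V → ℕ) {R l : ℕ} (hR : 2 * l ≤ R) (k : ℕ) :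
    ∀ P : Finset V, #P = k → k ≤ 2 * l + 1 → ∃ β : V → ℕ, (∀ v, v ∉ P → β v = β₀ v) ∧
      (∀ b ∈ P, R ≤ β b + 2 * l ∧ β b ≤ R) ∧
      ∀ b ∈ P, ∀ b' ∈ P, β b + T.cs t β b = β b' + T.cs t β b' → b = b' := by
  induction k with
  | zero =>
    intro P hP _
    rw [card_eq_zero] at hP
    subst hP
    exact ⟨β₀, fun _ _ => rfl, fun v hv => absurd hv (notMem_empty v),
      fun v hv => absurd hv (notMem_empty v)⟩
  | succ k ih =>
    intro P hP hk
    obtain ⟨v₀, hv₀, hmin⟩ := exists_min_image P T.ht (card_pos.1 (by omega))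
    have hnot : ∀ v ∈ P, ∀ u ∈ T.ch v, T.bot u ≠ v₀ := by
      intro v hv u hu hcon
      have h1 := T.mem_ch.1 hu
      have h2 := T.lt u h1.1
      have h3 := hmin v hv
      have h4 := T.ht_le_bot u
      rw [hcon] at h4
      rw [h1.2] at h2
      omega
    obtain ⟨β', h1, h2, h3⟩ := ih (P.erase v₀) (by rw [card_erase_of_mem hv₀]; omega) (by omega)
    obtain ⟨S, hS⟩ : ∃ S : Finset ℕ, S = (P.erase v₀).image fun b =>
        β' b + T.cs t β' b - T.cs t β' v₀ := ⟨_, rfl⟩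
    have hSc : #S ≤ k := by
      rw [hS]
      refine card_image_le.trans ?_
      rw [card_erase_of_mem hv₀]
      omega
    obtain ⟨z, hz1, hz2, hz3⟩ := exists_free (S := S) (lo := R - 2 * l) (hi := R) (by omega)
    have hz4 : ∀ b ∈ P.erase v₀, β' b + T.cs t β' b ≠ z + T.cs t β' v₀ := by
      intro b hb hcon
      apply hz3
      rw [hS, mem_image]
      exact ⟨b, hb, by omega⟩
    have hcs : ∀ b ∈ P, T.cs t (Function.update β' v₀ z) b = T.cs t β' b := fun b hb =>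
      T.cs_update t β' z (hnot b hb)
    refine ⟨Function.update β' v₀ z, ?_, ?_, ?_⟩
    · intro v hv
      rw [Function.update_of_ne]
      · exact h1 v fun h => hv (mem_of_mem_erase h)
      · rintro rfl
        exact hv hv₀
    · intro b hb
      by_cases hne : b = v₀
      · rw [hne, Function.update_self]
        exact ⟨by omega, hz2⟩
      · rw [Function.update_of_ne hne]
        exact h2 b (mem_erase.2 ⟨hne, hb⟩)
    · intro b hb b' hb' he
      rw [hcs b hb, hcs b' hb'] at he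
      by_cases hne : b = v₀
      · by_cases hne' : b' = v₀
        · rw [hne, hne']
        · exfalso
          rw [hne, Function.update_self, Function.update_of_ne hne'] at he
          exact hz4 b' (mem_erase.2 ⟨hne', hb'⟩) he.symm
      · by_cases hne' : b' = v₀
        · exfalso
          rw [hne', Function.update_self, Function.update_of_ne hne] at he
          exact hz4 b (mem_erase.2 ⟨hne, hb⟩) he
        · rw [Function.update_of_ne hne, Function.update_of_ne hne'] at he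
          exact h3 b (mem_erase.2 ⟨hne, hb⟩) b' (mem_erase.2 ⟨hne', hb'⟩) he

theorem Ph1_num (S : Finset V) : ∃ f : V → ℕ, (∀ x ∈ S, f x < #S) ∧
    ∀ x ∈ S, ∀ y ∈ S, f x = f y → x = y := by
  refine ⟨fun x => if h : x ∈ S then (S.equivFin ⟨x, h⟩ : ℕ) else 0, ?_, ?_⟩
  · intro x hx
    simp only [dif_pos hx]
    exact (S.equivFin ⟨x, hx⟩).2
  · intro x hx y hy h
    simp only [dif_pos hx, dif_pos hy] at h
    have h1 := S.equivFin.injective (Fin.ext h)
    exact congrArg Subtype.val h1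

theorem Ph1_pick {R l c K : ℕ} {t : ℕ → ℕ} (P : Finset V) (w : V → ℕ) (hR : 2 * l ≤ R)
    (hP : #P < l) (ht : (∃ k, K ≠ c + k ∧ ∀ β, R ≤ β + 2 * l → β ≤ R → t β + k = β) ∨
      ∃ k, ∀ β, R ≤ β + 2 * l → β ≤ R → t β + β = k) :
    ∃ x, R ≤ x + 2 * l ∧ x ≤ R ∧ (∀ b ∈ P, x + c ≠ w b) ∧ (∀ b ∈ P, t x + K ≠ w b) ∧
      t x + K ≠ x + c := by
  rcases ht with ⟨k, hk1, hk2⟩ | ⟨k, hk⟩
  · obtain ⟨S, hS⟩ : ∃ S : Finset ℕ, S = (P.image fun b => w b - c) ∪
        P.image fun b => w b - K + k := ⟨_, rfl⟩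
    have hSc : #S ≤ 2 * #P := by
      rw [hS, two_mul]
      exact (card_union_le _ _).trans (Nat.add_le_add card_image_le card_image_le)
    obtain ⟨x, hx1, hx2, hx3⟩ := exists_free (S := S) (lo := R - 2 * l) (hi := R) (by omega)
    rw [hS, mem_union, not_or, mem_image, mem_image] at hx3
    have hx4 := hk2 x (by omega) hx2
    refine ⟨x, by omega, hx2, ?_, ?_, ?_⟩
    · intro b hb h
      exact hx3.1 ⟨b, hb, by omega⟩
    · intro b hb h
      exact hx3.2 ⟨b, hb, by omega⟩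
    · intro h
      omega
  · obtain ⟨S, hS⟩ : ∃ S : Finset ℕ, S = ((P.image fun b => w b - c) ∪
        P.image fun b => k - (w b - K)) ∪ {(k + K - c) / 2} := ⟨_, rfl⟩
    have hSc : #S ≤ 2 * #P + 1 := by
      rw [hS, two_mul]
      refine (card_union_le _ _).trans ?_
      rw [card_singleton]
      exact Nat.add_le_add_right
        ((card_union_le _ _).trans (Nat.add_le_add card_image_le card_image_le)) 1
    obtain ⟨x, hx1, hx2, hx3⟩ := exists_free (S := S) (lo := R - 2 * l) (hi := R) (by omega)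
    rw [hS, mem_union, not_or, mem_union, not_or, mem_image, mem_image, mem_singleton] at hx3
    have hx4 := hk x (by omega) hx2
    refine ⟨x, by omega, hx2, ?_, ?_, ?_⟩
    · intro b hb h
      exact hx3.1.1 ⟨b, hb, by omega⟩
    · intro b hb h
      exact hx3.1.2 ⟨b, hb, by omega⟩
    · intro h
      exact hx3.2 (by omega)

theorem exists_beta (t : V → ℕ → ℕ) (R : ℕ) {u₁ : V} (hu₁ : u₁ ∈ T.ch T.r)
    (hx : T.bot u₁ ∈ T.L) (hB : #T.B + 3 ≤ #T.L) (hR : 2 * #T.L ≤ R)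
    (ht : ∀ b ∈ T.N, (∃ k, ∀ β, R ≤ β + 2 * #T.L → β ≤ R → t b β + k = β) ∨
      (∃ k, ∀ β, R ≤ β + 2 * #T.L → β ≤ R → t b β + β = k)) :
    ∃ β : V → ℕ, (∀ x ∈ T.L, R ≤ β x + #T.L ∧ β x ≤ R) ∧
      (∀ x ∈ T.L, ∀ y ∈ T.L, β x = β y → x = y) ∧
      (∀ b ∈ T.B, R ≤ β b + 2 * #T.L ∧ β b ≤ R) ∧
      (∀ b ∈ T.B, ∀ b' ∈ T.B, β b + T.cs t β b = β b' + T.cs t β b' → b = b') ∧
      (∀ b ∈ T.B, β b + T.cs t β b ≠ T.cs t β T.r) := by
  obtain ⟨l, hl⟩ : ∃ l, l = #T.L := ⟨_, rfl⟩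
  rw [← hl] at hB hR ht ⊢
  rcases T.B.eq_empty_or_nonempty with hemp | hne
  · obtain ⟨f, hf1, hf2⟩ := Ph1_num T.L
    rw [← hl] at hf1
    refine ⟨fun x => R - f x, ?_, ?_, ?_, ?_, ?_⟩
    · intro x hx
      have := hf1 x hx
      show R ≤ R - f x + l ∧ R - f x ≤ R
      omega
    · intro x hx y hy h
      have h1 := hf1 x hx
      have h2 := hf1 y hy
      have h3 : R - f x = R - f y := h
      exact hf2 x hx y hy (by omega)
    · intro b hb
      rw [hemp] at hb
      exact absurd hb (notMem_empty b)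
    · intro b hb
      rw [hemp] at hb
      exact absurd hb (notMem_empty b)
    · intro b hb
      rw [hemp] at hb
      exact absurd hb (notMem_empty b)
  obtain ⟨us, hus, hbs⟩ := T.exists_B_top hne
  obtain ⟨bs, hbsd⟩ : ∃ bs, bs = T.bot us := ⟨_, rfl⟩
  obtain ⟨x₁, hx₁⟩ : ∃ x₁, x₁ = T.bot u₁ := ⟨_, rfl⟩
  rw [← hbsd] at hbs
  rw [← hx₁] at hx
  have hus' := T.mem_ch.1 hus
  have hu₁' := T.mem_ch.1 hu₁
  have hLB : ∀ v, v ∈ T.L → v ∉ T.B := fun v h1 h2 => disjoint_left.1 T.disjoint_L_B h1 h2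
  have hxb : x₁ ≠ bs := fun h => hLB x₁ hx (h ▸ hbs)
  have huu : u₁ ≠ us := by
    intro h
    apply hxb
    rw [hx₁, hbsd, h]
  -- the upper ends
  have htop : ∀ y, y ∈ T.ch T.r → ∀ b, b ∉ T.D → ∀ u ∈ T.ch b, T.bot u = T.bot y → u = y := by
    intro y hy b hb u hu h
    have h1 := T.mem_ch.1 hu
    have h2 := T.mem_ch.1 hy
    refine T.top_inj h1.1 h2.1 ?_ ?_ h
    · rw [h1.2]
      exact hb
    · rw [h2.2]
      exact T.r_notMem_D1
  have hBne : ∀ y, y ∈ T.ch T.r → ∀ b ∈ T.B, ∀ u ∈ T.ch b, T.bot u ≠ T.bot y := by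
    intro y hy b hb u hu h
    have h1 := htop y hy b (T.B_notMem_D hb) u hu h
    have h2 := (T.mem_ch.1 hu).2
    have h3 := (T.mem_ch.1 hy).2
    rw [h1, h3] at h2
    exact (T.mem_B.1 hb).1 h2.symm
  -- the leaves
  obtain ⟨f, hf1, hf2⟩ := Ph1_num (T.L.erase x₁)
  rw [card_erase_of_mem hx, ← hl] at hf1
  -- the greedy choice
  have hPc : #(T.B.erase bs) = #T.B - 1 := card_erase_of_mem hbs
  obtain ⟨β₁, hβ1, hβ2, hβ3⟩ := T.Ph1_greedy t (fun x => R - f x) hR _ (T.B.erase bs) rfl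
    (by rw [hPc]; omega)
  obtain ⟨K₀, hK₀⟩ : ∃ K₀, K₀ = ∑ u ∈ ((T.ch T.r).erase us).erase u₁,
      t (T.bot u) (β₁ (T.bot u)) := ⟨_, rfl⟩
  have hbN : bs ∈ T.N := by
    rw [T.N_eq]
    exact mem_union_right _ hbs
  have hxN : x₁ ∈ T.N := by
    rw [T.N_eq]
    exact mem_union_left _ hx
  have hinj : t x₁ (R - l) ≠ t x₁ (R - l + 1) := by
    intro h
    rcases ht x₁ hxN with ⟨k, hk⟩ | ⟨k, hk⟩
    · have h1 := hk (R - l) (by omega) (by omega)
      have h2 := hk (R - l + 1) (by omega) (by omega)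
      omega
    · have h1 := hk (R - l) (by omega) (by omega)
      have h2 := hk (R - l + 1) (by omega) (by omega)
      omega
  obtain ⟨ρ, hρ1, hρ2⟩ : ∃ ρ, (ρ = R - l ∨ ρ = R - l + 1) ∧
      ((∃ k, K₀ + t x₁ ρ ≠ T.cs t β₁ bs + k ∧ ∀ β, R ≤ β + 2 * l → β ≤ R → t bs β + k = β) ∨
        ∃ k, ∀ β, R ≤ β + 2 * l → β ≤ R → t bs β + β = k) := by
    rcases ht bs hbN with ⟨k, hk⟩ | hk
    · by_cases h1 : K₀ + t x₁ (R - l) = T.cs t β₁ bs + k
      · exact ⟨R - l + 1, Or.inr rfl, Or.inl ⟨k, by omega, hk⟩⟩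
      · exact ⟨R - l, Or.inl rfl, Or.inl ⟨k, h1, hk⟩⟩
    · exact ⟨R - l, Or.inl rfl, Or.inr hk⟩
  obtain ⟨x, hxa, hxR, hxc1, hxc2, hxc3⟩ := Ph1_pick (T.B.erase bs)
    (fun b => β₁ b + T.cs t β₁ b) hR (by rw [hPc]; omega) hρ2
  clear hρ2
  obtain ⟨β, hβ⟩ : ∃ β : V → ℕ, β = Function.update (Function.update β₁ x₁ ρ) bs x := ⟨_, rfl⟩
  have hβb : β bs = x := by rw [hβ, Function.update_self]
  have hβx : β x₁ = ρ := by rw [hβ, Function.update_of_ne hxb, Function.update_self]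
  have hβo : ∀ v, v ≠ x₁ → v ≠ bs → β v = β₁ v := by
    intro v h1 h2
    rw [hβ, Function.update_of_ne h2, Function.update_of_ne h1]
  have hcs : ∀ b ∈ T.B, T.cs t β b = T.cs t β₁ b := by
    intro b hb
    rw [hβ, T.cs_update, T.cs_update]
    · intro u hu
      rw [hx₁]
      exact hBne u₁ hu₁ b hb u hu
    · intro u hu
      rw [hbsd]
      exact hBne us hus b hb u hu
  have hcr : T.cs t β T.r = t bs x + (K₀ + t x₁ ρ) := by
    have h1 : u₁ ∈ (T.ch T.r).erase us := mem_erase.2 ⟨huu, hu₁⟩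
    rw [cs, ← add_sum_erase _ _ hus, ← add_sum_erase _ _ h1, ← hbsd, ← hx₁, hβb, hβx,
      add_comm K₀]
    congr 2
    rw [hK₀]
    refine sum_congr rfl fun u hu => ?_
    rw [mem_erase, mem_erase] at hu
    rw [hβo]
    · intro h
      rw [hx₁] at h
      exact hu.1 (htop u₁ hu₁ T.r T.r_notMem_D1 u hu.2.2 h)
    · intro h
      rw [hbsd] at h
      exact hu.2.1 (htop us hus T.r T.r_notMem_D1 u hu.2.2 h)
  have hleaf : ∀ v ∈ T.L, v ≠ x₁ → β v = R - f v ∧ f v < l - 1 := by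
    intro v hv hne1
    have h1 : v ≠ bs := fun h => hLB v hv (h ▸ hbs)
    have h2 : v ∉ T.B.erase bs := fun h => hLB v hv (mem_of_mem_erase h)
    exact ⟨by rw [hβo v hne1 h1, hβ1 v h2], hf1 v (mem_erase.2 ⟨hne1, hv⟩)⟩
  have hBo : ∀ b ∈ T.B, b ≠ bs → β b = β₁ b := by
    intro b hb h
    refine hβo b ?_ h
    rintro rfl
    exact hLB b hx hb
  refine ⟨β, ?_, ?_, ?_, ?_, ?_⟩
  · intro v hv
    by_cases h1 : v = x₁
    · rw [h1, hβx]
      omega
    · obtain ⟨h2, h3⟩ := hleaf v hv h1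
      omega
  · intro v hv y hy h
    by_cases h1 : v = x₁
    · by_cases h2 : y = x₁
      · rw [h1, h2]
      · exfalso
        obtain ⟨h3, h4⟩ := hleaf y hy h2
        rw [h1, hβx] at h
        omega
    · by_cases h2 : y = x₁
      · exfalso
        obtain ⟨h3, h4⟩ := hleaf v hv h1
        rw [h2, hβx] at h
        omega
      · obtain ⟨h3, h4⟩ := hleaf v hv h1
        obtain ⟨h5, h6⟩ := hleaf y hy h2
        exact hf2 v (mem_erase.2 ⟨h1, hv⟩) y (mem_erase.2 ⟨h2, hy⟩) (by omega)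
  · intro b hb
    by_cases h1 : b = bs
    · rw [h1, hβb]
      exact ⟨hxa, hxR⟩
    · rw [hBo b hb h1]
      exact hβ2 b (mem_erase.2 ⟨h1, hb⟩)
  · intro b hb b' hb' h
    rw [hcs b hb, hcs b' hb'] at h
    by_cases h1 : b = bs
    · by_cases h2 : b' = bs
      · rw [h1, h2]
      · exfalso
        rw [h1, hβb, hBo b' hb' h2] at h
        exact hxc1 b' (mem_erase.2 ⟨h2, hb'⟩) h
    · by_cases h2 : b' = bs
      · exfalso
        rw [h2, hβb, hBo b hb h1] at h
        exact hxc1 b (mem_erase.2 ⟨h1, hb⟩) h.symm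
      · rw [hBo b hb h1, hBo b' hb' h2] at h
        exact hβ3 b (mem_erase.2 ⟨h1, hb⟩) b' (mem_erase.2 ⟨h2, hb'⟩) h
  · intro b hb h
    rw [hcs b hb, hcr] at h
    by_cases h1 : b = bs
    · rw [h1, hβb] at h
      exact hxc3 h.symm
    · rw [hBo b hb h1] at h
      exact hxc2 b (mem_erase.2 ⟨h1, hb⟩) h.symm

end RT

end Pool.Agent.H.MP_936c16_co
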