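import Pool.Agent.H.MP_936c16_co.Ph1

/-!
The weights above the leaves and above the vertices with at least two children. The root is not in a thread.
For the thread which ends with the child `us` of the root there are two possibilities `σ = 0`, `σ = 1`.
The numbers `o v ≤ 1` are added to the weighted degrees.
-/

set_option autoImplicit false

namespace Pool.Agent.H.MP_936c16_co

open Finset

namespace RT

variable {V : Type} [Fintype V] [DecidableEq V] (T : RT V)

theorem Ph2_greedy (t : V → ℕ → ℕ) (o β₀ : V → ℕ) {R l : ℕ} (hR : 2 * l ≤ R) (k : ℕ) :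
    ∀ P : Finset V, #P = k → k ≤ 2 * l + 1 → ∃ β : V → ℕ, (∀ v, v ∉ P → β v = β₀ v) ∧
      (∀ b ∈ P, R ≤ β b + 2 * l ∧ β b ≤ R) ∧
      ∀ b ∈ P, ∀ b' ∈ P, β b + T.cs t β b + o b = β b' + T.cs t β b' + o b' → b = b' := by
  induction k with
  | zero =>
    intro P hP _
    rw [card_eq_zero] at hP
    subst hP
    exact ⟨β₀, fun _ _ => rfl, fun v hv => absurd hv (notMem_empty v),
      fun v hv => absurd hv (notMem_empty v)⟩
  | succ k ih =>
    intro P hP hk
    obtain ⟨v₀, hv₀, hmin⟩ := exists_min_image P T.ht (card_pos.1 (by omega))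
    have hnot : ∀ v ∈ P, ∀ u ∈ T.ch v, T.bot u ≠ v₀ := by
      intro v hv u hu hcon
      have h1 := T.mem_ch.1 hu
      have h2 := T.lt u h1.1
      have h3 := hmin v hv
      have h4 := T.ht_le_bot u
      rw [hcon] at h4
      rw [h1.2] at h2
      omega
    obtain ⟨β', h1, h2, h3⟩ := ih (P.erase v₀) (by rw [card_erase_of_mem hv₀]; omega) (by omega)
    obtain ⟨S, hS⟩ : ∃ S : Finset ℕ, S = (P.erase v₀).image fun b =>
        β' b + T.cs t β' b + o b - T.cs t β' v₀ - o v₀ := ⟨_, rfl⟩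
    have hSc : #S ≤ k := by
      rw [hS]
      refine card_image_le.trans ?_
      rw [card_erase_of_mem hv₀]
      omega
    obtain ⟨z, hz1, hz2, hz3⟩ := exists_free (S := S) (lo := R - 2 * l) (hi := R) (by omega)
    have hz4 : ∀ b ∈ P.erase v₀, β' b + T.cs t β' b + o b ≠ z + T.cs t β' v₀ + o v₀ := by
      intro b hb hcon
      apply hz3
      rw [hS, mem_image]
      exact ⟨b, hb, by omega⟩
    have hcs : ∀ b ∈ P, T.cs t (Function.update β' v₀ z) b = T.cs t β' b := fun b hb =>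
      T.cs_update t β' z (hnot b hb)
    refine ⟨Function.update β' v₀ z, ?_, ?_, ?_⟩
    · intro v hv
      rw [Function.update_of_ne]
      · exact h1 v fun h => hv (mem_of_mem_erase h)
      · rintro rfl
        exact hv hv₀
    · intro b hb
      by_cases hne : b = v₀
      · rw [hne, Function.update_self]
        exact ⟨by omega, hz2⟩
      · rw [Function.update_of_ne hne]
        exact h2 b (mem_erase.2 ⟨hne, hb⟩)
    · intro b hb b' hb' he
      rw [hcs b hb, hcs b' hb'] at he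
      by_cases hne : b = v₀
      · by_cases hne' : b' = v₀
        · rw [hne, hne']
        · exfalso
          rw [hne, Function.update_self, Function.update_of_ne hne'] at he
          exact hz4 b' (mem_erase.2 ⟨hne', hb'⟩) he.symm
      · by_cases hne' : b' = v₀
        · exfalso
          rw [hne', Function.update_self, Function.update_of_ne hne] at he
          exact hz4 b (mem_erase.2 ⟨hne, hb⟩) he
        · rw [Function.update_of_ne hne, Function.update_of_ne hne'] at he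
          exact h3 b (mem_erase.2 ⟨hne, hb⟩) b' (mem_erase.2 ⟨hne', hb'⟩) he

theorem exists_beta2 (t : ℕ → V → ℕ → ℕ) (o : V → ℕ) (ho : ∀ v, o v ≤ 1) (R : ℕ) {us : V}
    (hus : us ∈ T.ch T.r) (hB : #T.B + 3 ≤ #T.L) (hR : 2 * #T.L + 1 ≤ R)
    (ht : ∀ σ, ∀ b ∈ T.N, (∃ k, ∀ β, R ≤ β + 2 * #T.L → β ≤ R → t σ b β + k = β) ∨
      (∃ k, ∀ β, R ≤ β + 2 * #T.L → β ≤ R → t σ b β + β = k))
    (hts : ∀ b ∈ T.N, b ≠ T.bot us → ∀ β, t 1 b β = t 0 b β)
    (hts' : ∀ β, R ≤ β + 2 * #T.L → β ≤ R → t 1 (T.bot us) β ≠ t 0 (T.bot us) β) :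
    ∃ σ, σ ≤ 1 ∧ ∃ β : V → ℕ,
      (∀ x ∈ T.L, R + 1 ≤ β x + o x + #T.L ∧ β x + o x ≤ R) ∧
      (∀ x ∈ T.L, ∀ y ∈ T.L, β x + o x = β y + o y → x = y) ∧
      (∀ b ∈ T.B, R ≤ β b + 2 * #T.L ∧ β b ≤ R) ∧
      (∀ b ∈ T.B, ∀ b' ∈ T.B, β b + T.cs (t σ) β b + o b = β b' + T.cs (t σ) β b' + o b' →
        b = b') ∧
      (∀ b ∈ T.B, β b + T.cs (t σ) β b + o b ≠ T.cs (t σ) β T.r + o T.r) := by
  obtain ⟨l, hl⟩ : ∃ l, l = #T.L := ⟨_, rfl⟩
  rw [← hl] at hB hR ht hts' ⊢
  obtain ⟨f, hf1, hf2⟩ := Ph1_num T.L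
  rw [← hl] at hf1
  rcases T.B.eq_empty_or_nonempty with hemp | hne
  · refine ⟨0, Nat.zero_le _, fun x => R - f x - o x, ?_, ?_, ?_, ?_, ?_⟩
    · intro x hx
      have h1 := hf1 x hx
      have h2 := ho x
      show R + 1 ≤ R - f x - o x + o x + l ∧ R - f x - o x + o x ≤ R
      omega
    · intro x hx y hy h
      have h1 := hf1 x hx
      have h2 := hf1 y hy
      have h4 := ho x
      have h5 := ho y
      have h3 : R - f x - o x + o x = R - f y - o y + o y := h
      exact hf2 x hx y hy (by omega)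
    · intro b hb
      rw [hemp] at hb
      exact absurd hb (notMem_empty b)
    · intro b hb
      rw [hemp] at hb
      exact absurd hb (notMem_empty b)
    · intro b hb
      rw [hemp] at hb
      exact absurd hb (notMem_empty b)
  obtain ⟨ub, hub, hbs⟩ := T.exists_B_top hne
  obtain ⟨bs, hbsd⟩ : ∃ bs, bs = T.bot ub := ⟨_, rfl⟩
  rw [← hbsd] at hbs
  have hus' := T.mem_ch.1 hus
  have hub' := T.mem_ch.1 hub
  have hLB : ∀ v, v ∈ T.L → v ∉ T.B := fun v h1 h2 => disjoint_left.1 T.disjoint_L_B h1 h2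
  -- the upper ends
  have htop : ∀ y, y ∈ T.ch T.r → ∀ b, b ∉ T.D → ∀ u ∈ T.ch b, T.bot u = T.bot y → u = y := by
    intro y hy b hb u hu h
    have h1 := T.mem_ch.1 hu
    have h2 := T.mem_ch.1 hy
    refine T.top_inj h1.1 h2.1 ?_ ?_ h
    · rw [h1.2]
      exact hb
    · rw [h2.2]
      exact T.r_notMem_D1
  have hBne : ∀ y, y ∈ T.ch T.r → ∀ b ∈ T.B, ∀ u ∈ T.ch b, T.bot u ≠ T.bot y := by
    intro y hy b hb u hu h
    have h1 := htop y hy b (T.B_notMem_D hb) u hu h
    have h2 := (T.mem_ch.1 hu).2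
    have h3 := (T.mem_ch.1 hy).2
    rw [h1, h3] at h2
    exact (T.mem_B.1 hb).1 h2.symm
  -- the sums for the vertices with at least two children do not depend on `σ`
  have hcs1 : ∀ b ∈ T.B, ∀ β, T.cs (t 1) β b = T.cs (t 0) β b := by
    intro b hb β
    refine sum_congr rfl fun u hu => ?_
    exact hts _ (T.bot_mem_N (T.mem_ch.1 hu).1) (hBne us hus b hb u hu) _
  have hcsσ : ∀ σ, σ ≤ 1 → ∀ b ∈ T.B, ∀ β, T.cs (t σ) β b = T.cs (t 0) β b := by
    intro σ hσ b hb β
    rcases Nat.le_one_iff_eq_zero_or_eq_one.1 hσ with rfl | rfl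
    · rfl
    · exact hcs1 b hb β
  -- the greedy choice
  have hPc : #(T.B.erase bs) = #T.B - 1 := card_erase_of_mem hbs
  obtain ⟨β₁, hβ1, hβ2, hβ3⟩ := T.Ph2_greedy (t 0) o (fun x => R - f x - o x) (R := R) (l := l)
    (by omega) _ (T.B.erase bs) rfl (by rw [hPc]; omega)
  obtain ⟨K, hK⟩ : ∃ K : ℕ → ℕ, K = fun σ => ∑ u ∈ (T.ch T.r).erase ub,
      t σ (T.bot u) (β₁ (T.bot u)) := ⟨_, rfl⟩
  have hbN : bs ∈ T.N := by
    rw [T.N_eq]
    exact mem_union_right _ hbs
  obtain ⟨c, hc⟩ : ∃ c, c = T.cs (t 0) β₁ bs + o bs := ⟨_, rfl⟩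
  have hK1 : T.bot us = bs → K 1 = K 0 := by
    intro h
    rw [hK]
    refine sum_congr rfl fun u hu => ?_
    have h1 := mem_erase.1 hu
    refine hts _ (T.bot_mem_N (T.mem_ch.1 h1.2).1) ?_ _
    intro h2
    apply h1.1
    refine htop ub hub T.r T.r_notMem_D1 u h1.2 ?_
    rw [h2, h, hbsd]
  have hK2 : T.bot us ≠ bs → K 1 ≠ K 0 := by
    intro h h0
    have h1 : us ∈ (T.ch T.r).erase ub := by
      refine mem_erase.2 ⟨?_, hus⟩
      intro h2
      rw [h2, ← hbsd] at h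
      exact h rfl
    have h2 : ∀ σ, K σ = t σ (T.bot us) (β₁ (T.bot us)) + ∑ u ∈ ((T.ch T.r).erase ub).erase us,
        t σ (T.bot u) (β₁ (T.bot u)) := by
      intro σ
      rw [hK]
      exact (add_sum_erase _ _ h1).symm
    have h3 : ∑ u ∈ ((T.ch T.r).erase ub).erase us, t 1 (T.bot u) (β₁ (T.bot u)) =
        ∑ u ∈ ((T.ch T.r).erase ub).erase us, t 0 (T.bot u) (β₁ (T.bot u)) := by
      refine sum_congr rfl fun u hu => ?_
      have h4 := mem_erase.1 hu
      have h5 := mem_erase.1 h4.2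
      refine hts _ (T.bot_mem_N (T.mem_ch.1 h5.2).1) ?_ _
      intro h6
      exact h4.1 (htop us hus T.r T.r_notMem_D1 u h5.2 h6)
    have h4 := h2 1
    have h5 := h2 0
    have h6 : R ≤ β₁ (T.bot us) + 2 * l ∧ β₁ (T.bot us) ≤ R := by
      have h7 := T.bot_mem_N hus'.1
      rw [T.N_eq, mem_union] at h7
      rcases h7 with h7 | h7
      · have h8 : T.bot us ∉ T.B.erase bs := fun h9 => hLB _ h7 (mem_of_mem_erase h9)
        have h9 := hβ1 _ h8
        have h10 := hf1 _ h7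
        have h11 := ho (T.bot us)
        omega
      · exact hβ2 _ (mem_erase.2 ⟨h, h7⟩)
    exact hts' _ h6.1 h6.2 (by omega)
  obtain ⟨σ, hσ, hpick⟩ : ∃ σ, σ ≤ 1 ∧
      ((∃ k, K σ + o T.r ≠ c + k ∧ ∀ β, R ≤ β + 2 * l → β ≤ R → t σ bs β + k = β) ∨
        ∃ k, ∀ β, R ≤ β + 2 * l → β ≤ R → t σ bs β + β = k) := by
    rcases ht 0 bs hbN with ⟨k, hk⟩ | hk
    · by_cases h1 : K 0 + o T.r = c + k
      · refine ⟨1, le_rfl, ?_⟩
        rcases ht 1 bs hbN with ⟨k', hk'⟩ | hk'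
        · left
          refine ⟨k', ?_, hk'⟩
          by_cases h2 : T.bot us = bs
          · have h3 := hK1 h2
            have h4 := hk R (by omega) le_rfl
            have h5 := hk' R (by omega) le_rfl
            have h6 := hts' R (by omega) le_rfl
            rw [h2] at h6
            omega
          · have h3 := hK2 h2
            have h4 := hk R (by omega) le_rfl
            have h5 := hk' R (by omega) le_rfl
            have h6 := hts bs hbN (fun h => h2 h.symm) R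
            omega
        · exact Or.inr hk'
      · exact ⟨0, Nat.zero_le _, Or.inl ⟨k, h1, hk⟩⟩
    · exact ⟨0, Nat.zero_le _, Or.inr hk⟩
  obtain ⟨x, hxa, hxR, hxc1, hxc2, hxc3⟩ := Ph1_pick (T.B.erase bs)
    (fun b => β₁ b + T.cs (t 0) β₁ b + o b) (by omega) (by rw [hPc]; omega) hpick
  clear hpick
  obtain ⟨β, hβ⟩ : ∃ β : V → ℕ, β = Function.update β₁ bs x := ⟨_, rfl⟩
  have hβb : β bs = x := by rw [hβ, Function.update_self]
  have hβo : ∀ v, v ≠ bs → β v = β₁ v := by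
    intro v h2
    rw [hβ, Function.update_of_ne h2]
  have hcs : ∀ b ∈ T.B, T.cs (t σ) β b = T.cs (t 0) β₁ b := by
    intro b hb
    rw [hcsσ σ hσ b hb, hβ, T.cs_update]
    intro u hu
    rw [hbsd]
    exact hBne ub hub b hb u hu
  have hcr : T.cs (t σ) β T.r = t σ bs x + K σ := by
    rw [cs, ← add_sum_erase _ _ hub, ← hbsd, hβb, hK]
    congr 1
    refine sum_congr rfl fun u hu => ?_
    rw [mem_erase] at hu
    rw [hβo]
    intro h
    rw [hbsd] at h
    exact hu.1 (htop ub hub T.r T.r_notMem_D1 u hu.2 h)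
  have hleaf : ∀ v ∈ T.L, β v = R - f v - o v := by
    intro v hv
    have h1 : v ≠ bs := fun h => hLB v hv (h ▸ hbs)
    have h2 : v ∉ T.B.erase bs := fun h => hLB v hv (mem_of_mem_erase h)
    rw [hβo v h1, hβ1 v h2]
  refine ⟨σ, hσ, β, ?_, ?_, ?_, ?_, ?_⟩
  · intro v hv
    have h1 := hleaf v hv
    have h2 := hf1 v hv
    have h3 := ho v
    omega
  · intro v hv y hy h
    have h1 := hleaf v hv
    have h2 := hleaf y hy
    have h3 := hf1 v hv
    have h4 := hf1 y hy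
    have h5 := ho v
    have h6 := ho y
    exact hf2 v hv y hy (by omega)
  · intro b hb
    by_cases h1 : b = bs
    · rw [h1, hβb]
      exact ⟨hxa, hxR⟩
    · rw [hβo b h1]
      exact hβ2 b (mem_erase.2 ⟨h1, hb⟩)
  · intro b hb b' hb' h
    rw [hcs b hb, hcs b' hb'] at h
    by_cases h1 : b = bs
    · by_cases h2 : b' = bs
      · rw [h1, h2]
      · exfalso
        rw [h1, hβb, hβo b' h2] at h
        exact hxc1 b' (mem_erase.2 ⟨h2, hb'⟩) (by rw [hc]; omega)
    · by_cases h2 : b' = bs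
      · exfalso
        rw [h2, hβb, hβo b h1] at h
        exact hxc1 b (mem_erase.2 ⟨h1, hb⟩) (by rw [hc]; omega)
      · rw [hβo b h1, hβo b' h2] at h
        exact hβ3 b (mem_erase.2 ⟨h1, hb⟩) b' (mem_erase.2 ⟨h2, hb'⟩) h
  · intro b hb h
    rw [hcs b hb, hcr] at h
    by_cases h1 : b = bs
    · rw [h1, hβb] at h
      exact hxc3 (by rw [hc]; omega)
    · rw [hβo b h1] at h
      exact hxc2 b (mem_erase.2 ⟨h1, hb⟩) (by omega)

end RT

end Pool.Agent.H.MP_936c16_co
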