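import Pool.Agent.H.MP_936c16_co.Ph2

/-!
The weights above the vertices with at least two children, except the vertex `q`. The root is not in a thread.
The thread which ends with the child `us` of the root starts at a vertex with at least two children; there are
two possibilities `σ = 0`, `σ = 1` for it. The weights `β₀` at the other vertices are given.
-/

set_option autoImplicit false

namespace Pool.Agent.H.MP_936c16_co

open Finset

namespace RT

variable {V : Type} [Fintype V] [DecidableEq V] (T : RT V)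

theorem exists_beta3 (t : ℕ → V → ℕ → ℕ) (R l : ℕ) (β₀ : V → ℕ) {us q : V}
    (hus : us ∈ T.ch T.r) (hc : T.bot us ∈ T.B) (hcq : T.bot us ≠ q) (hB : #T.B + 2 ≤ l)
    (hR : 2 * l + 1 ≤ R)
    (ht : ∀ σ, ∀ b ∈ T.B.erase q, (∃ k, ∀ β, R ≤ β + 2 * l → β ≤ R → t σ b β + k = β) ∨
      (∃ k, ∀ β, R ≤ β + 2 * l → β ≤ R → t σ b β + β = k))
    (hts : ∀ b ∈ T.N, b ≠ T.bot us → ∀ β, t 1 b β = t 0 b β)
    (hts' : ∀ β, R ≤ β + 2 * l → β ≤ R → t 1 (T.bot us) β ≠ t 0 (T.bot us) β) :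
    ∃ σ, σ ≤ 1 ∧ ∃ β : V → ℕ, (∀ v, v ∉ T.B.erase q → β v = β₀ v) ∧
      (∀ b ∈ T.B.erase q, R ≤ β b + 2 * l ∧ β b ≤ R) ∧
      (∀ b ∈ T.B.erase q, ∀ b' ∈ T.B.erase q,
        β b + T.cs (t σ) β b = β b' + T.cs (t σ) β b' → b = b') ∧
      (∀ b ∈ T.B.erase q, β b + T.cs (t σ) β b ≠ T.cs (t σ) β T.r) := by
  obtain ⟨bs, hbsd⟩ : ∃ bs, bs = T.bot us := ⟨_, rfl⟩
  rw [← hbsd] at hc hcq
  have hus' := T.mem_ch.1 hus
  have hbsq : bs ∈ T.B.erase q := mem_erase.2 ⟨hcq, hc⟩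
  -- the upper ends
  have htop : ∀ y, y ∈ T.ch T.r → ∀ b, b ∉ T.D → ∀ u ∈ T.ch b, T.bot u = T.bot y → u = y := by
    intro y hy b hb u hu h
    have h1 := T.mem_ch.1 hu
    have h2 := T.mem_ch.1 hy
    refine T.top_inj h1.1 h2.1 ?_ ?_ h
    · rw [h1.2]
      exact hb
    · rw [h2.2]
      exact T.r_notMem_D1
  have hBne : ∀ y, y ∈ T.ch T.r → ∀ b ∈ T.B, ∀ u ∈ T.ch b, T.bot u ≠ T.bot y := by
    intro y hy b hb u hu h
    have h1 := htop y hy b (T.B_notMem_D hb) u hu h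
    have h2 := (T.mem_ch.1 hu).2
    have h3 := (T.mem_ch.1 hy).2
    rw [h1, h3] at h2
    exact (T.mem_B.1 hb).1 h2.symm
  -- the sums for the vertices with at least two children do not depend on `σ`
  have hcs1 : ∀ b ∈ T.B, ∀ β, T.cs (t 1) β b = T.cs (t 0) β b := by
    intro b hb β
    refine sum_congr rfl fun u hu => ?_
    exact hts _ (T.bot_mem_N (T.mem_ch.1 hu).1) (hBne us hus b hb u hu) _
  have hcsσ : ∀ σ, σ ≤ 1 → ∀ b ∈ T.B, ∀ β, T.cs (t σ) β b = T.cs (t 0) β b := by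
    intro σ hσ b hb β
    rcases Nat.le_one_iff_eq_zero_or_eq_one.1 hσ with rfl | rfl
    · rfl
    · exact hcs1 b hb β
  -- the greedy choice
  obtain ⟨P, hPd⟩ : ∃ P, P = (T.B.erase q).erase bs := ⟨_, rfl⟩
  have hPc : #P ≤ #T.B := by
    rw [hPd]
    exact card_le_card ((erase_subset _ _).trans (erase_subset _ _))
  have hPB : ∀ b ∈ P, b ∈ T.B := fun b hb => by
    rw [hPd] at hb
    exact mem_of_mem_erase (mem_of_mem_erase hb)
  have hmP : ∀ b ∈ T.B.erase q, b ≠ bs → b ∈ P := fun b hb h => by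
    rw [hPd]
    exact mem_erase.2 ⟨h, hb⟩
  obtain ⟨β₁, hβ1, hβ2, hβ3⟩ := T.Ph2_greedy (t 0) (fun _ => 0) β₀ (R := R) (l := l)
    (by omega) _ P rfl (by omega)
  simp only [add_zero] at hβ3
  obtain ⟨K, hK⟩ : ∃ K : ℕ → ℕ, K = fun σ => ∑ u ∈ (T.ch T.r).erase us,
      t σ (T.bot u) (β₁ (T.bot u)) := ⟨_, rfl⟩
  obtain ⟨c, hcd⟩ : ∃ c, c = T.cs (t 0) β₁ bs := ⟨_, rfl⟩
  have hK1 : K 1 = K 0 := by
    rw [hK]
    refine sum_congr rfl fun u hu => ?_
    have h1 := mem_erase.1 hu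
    refine hts _ (T.bot_mem_N (T.mem_ch.1 h1.2).1) ?_ _
    intro h2
    exact h1.1 (htop us hus T.r T.r_notMem_D1 u h1.2 h2)
  rw [← hbsd] at hts'
  obtain ⟨σ, hσ, hpick⟩ : ∃ σ, σ ≤ 1 ∧
      ((∃ k, K σ ≠ c + k ∧ ∀ β, R ≤ β + 2 * l → β ≤ R → t σ bs β + k = β) ∨
        ∃ k, ∀ β, R ≤ β + 2 * l → β ≤ R → t σ bs β + β = k) := by
    rcases ht 0 bs hbsq with ⟨k, hk⟩ | hk
    · by_cases h1 : K 0 = c + k
      · refine ⟨1, le_rfl, ?_⟩
        rcases ht 1 bs hbsq with ⟨k', hk'⟩ | hk'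
        · left
          refine ⟨k', ?_, hk'⟩
          have h4 := hk R (by omega) le_rfl
          have h5 := hk' R (by omega) le_rfl
          have h6 := hts' R (by omega) le_rfl
          omega
        · exact Or.inr hk'
      · exact ⟨0, Nat.zero_le _, Or.inl ⟨k, h1, hk⟩⟩
    · exact ⟨0, Nat.zero_le _, Or.inr hk⟩
  obtain ⟨x, hxa, hxR, hxc1, hxc2, hxc3⟩ := Ph1_pick P
    (fun b => β₁ b + T.cs (t 0) β₁ b) (by omega) (by omega) hpick
  clear hpick
  obtain ⟨β, hβ⟩ : ∃ β : V → ℕ, β = Function.update β₁ bs x := ⟨_, rfl⟩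
  have hβb : β bs = x := by rw [hβ, Function.update_self]
  have hβo : ∀ v, v ≠ bs → β v = β₁ v := by
    intro v h2
    rw [hβ, Function.update_of_ne h2]
  have hcs : ∀ b ∈ T.B, T.cs (t σ) β b = T.cs (t 0) β₁ b := by
    intro b hb
    rw [hcsσ σ hσ b hb, hβ, T.cs_update]
    intro u hu
    rw [hbsd]
    exact hBne us hus b hb u hu
  have hcr : T.cs (t σ) β T.r = t σ bs x + K σ := by
    rw [cs, ← add_sum_erase _ _ hus, ← hbsd, hβb, hK]
    congr 1
    refine sum_congr rfl fun u hu => ?_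
    rw [mem_erase] at hu
    rw [hβo]
    intro h
    rw [hbsd] at h
    exact hu.1 (htop us hus T.r T.r_notMem_D1 u hu.2 h)
  refine ⟨σ, hσ, β, ?_, ?_, ?_, ?_⟩
  · intro v hv
    rw [hβo v fun h => hv (h ▸ hbsq), hβ1 v]
    intro h
    rw [hPd] at h
    exact hv (mem_of_mem_erase h)
  · intro b hb
    by_cases h1 : b = bs
    · rw [h1, hβb]
      exact ⟨hxa, hxR⟩
    · rw [hβo b h1]
      exact hβ2 b (hmP b hb h1)
  · intro b hb b' hb' h
    rw [hcs b (mem_of_mem_erase hb), hcs b' (mem_of_mem_erase hb')] at h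
    by_cases h1 : b = bs
    · by_cases h2 : b' = bs
      · rw [h1, h2]
      · exfalso
        rw [h1, hβb, hβo b' h2] at h
        exact hxc1 b' (hmP b' hb' h2) (by rw [hcd]; omega)
    · by_cases h2 : b' = bs
      · exfalso
        rw [h2, hβb, hβo b h1] at h
        exact hxc1 b (hmP b hb h1) (by rw [hcd]; omega)
      · rw [hβo b h1, hβo b' h2] at h
        exact hβ3 b (hmP b hb h1) b' (hmP b' hb' h2) h
  · intro b hb h
    rw [hcs b (mem_of_mem_erase hb), hcr] at h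
    by_cases h1 : b = bs
    · rw [h1, hβb] at h
      exact hxc3 (by rw [hcd]; omega)
    · rw [hβo b h1] at h
      exact hxc2 b (hmP b hb h1) (by omega)

end RT

end Pool.Agent.H.MP_936c16_co
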