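import Pool.Agent.H.MP_936c16_co.Root

/-!
The weights of the leaves at the root, if the other leaves leave holes at the numbers `m + i (x + 1)`.
-/

set_option autoImplicit false

namespace Pool.Agent.H.MP_936c16_co

open Finset

/-- the numbers which are not used by the leaves not at the root -/
def avail (M m x : ℕ) : Finset ℕ := (Icc 1 M).filter fun z => z ≤ m ∨ (x + 1) ∣ (z - m)

theorem mem_avail {M m x z : ℕ} :
    z ∈ avail M m x ↔ (1 ≤ z ∧ z ≤ M) ∧ (z ≤ m ∨ (x + 1) ∣ (z - m)) := by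
  rw [avail, mem_filter, mem_Icc]

theorem card_used {M m x g : ℕ} (h : M < m + (g + 1) * (x + 1)) :
    M ≤ #(Ioc m M \ avail M m x) + m + g := by
  have h1 : #((Ioc m M).filter fun z => (x + 1) ∣ (z - m)) ≤ #(Icc 1 g) := by
    refine card_le_card_of_injOn (fun z => (z - m) / (x + 1)) ?_ ?_
    · intro z hz
      rw [mem_coe, mem_filter, mem_Ioc] at hz
      rw [mem_coe, mem_Icc]
      obtain ⟨h1, k, hk⟩ := hz
      have h2 : (z - m) / (x + 1) = k := by
        rw [hk]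
        exact Nat.mul_div_cancel_left _ (by omega)
      show 1 ≤ (z - m) / (x + 1) ∧ (z - m) / (x + 1) ≤ g
      rw [h2]
      constructor
      · rcases Nat.eq_zero_or_pos k with h3 | h3
        · subst h3
          omega
        · exact h3
      · by_contra h3
        rw [not_le] at h3
        have h4 : (x + 1) * (g + 1) ≤ (x + 1) * k := Nat.mul_le_mul_left _ h3
        rw [mul_comm (x + 1) (g + 1)] at h4
        omega
    · intro z hz z' hz' hzz
      rw [mem_coe, mem_filter, mem_Ioc] at hz hz'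
      obtain ⟨h1, k, hk⟩ := hz
      obtain ⟨h1', k', hk'⟩ := hz'
      have h2 : (z - m) / (x + 1) = k := by
        rw [hk]
        exact Nat.mul_div_cancel_left _ (by omega)
      have h2' : (z' - m) / (x + 1) = k' := by
        rw [hk']
        exact Nat.mul_div_cancel_left _ (by omega)
      have h3 : k = k' := by
        rw [← h2, ← h2']
        exact hzz
      rw [h3] at hk
      omega
  have h2 : #(Ioc m M) ≤ #(Ioc m M \ avail M m x) +
      #((Ioc m M).filter fun z => (x + 1) ∣ (z - m)) := by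
    refine (card_le_card ?_).trans (card_union_le _ _)
    intro z hz
    rw [mem_union, mem_sdiff, mem_avail, mem_filter]
    have hz' := mem_Ioc.1 hz
    by_cases h3 : (x + 1) ∣ (z - m)
    · exact Or.inr ⟨hz, h3⟩
    · refine Or.inl ⟨hz, ?_⟩
      rintro ⟨-, h4 | h4⟩
      · omega
      · exact h3 h4
  rw [Nat.card_Icc] at h1
  rw [Nat.card_Ioc] at h2
  omega

/-- the next number which is available or `M + 1` -/
theorem next {M m x z : ℕ} (h1 : m < z) (h2 : z ≤ M + 1) :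
    ∃ h, z ≤ h ∧ h ≤ z + x ∧ (h ∈ avail M m x ∨ h = M + 1) := by
  obtain ⟨i, hi⟩ : ∃ i, i = (z - m + x) / (x + 1) := ⟨_, rfl⟩
  have h3 : (x + 1) * i ≤ z - m + x := by
    rw [hi]
    exact Nat.mul_div_le _ _
  have h4 : z - m + x < (x + 1) * i + (x + 1) := by
    have := Nat.lt_mul_div_succ (z - m + x) (show 0 < x + 1 by omega)
    rw [← hi] at this
    rwa [Nat.mul_add, Nat.mul_one] at this
  rcases le_or_gt (m + (x + 1) * i) M with h5 | h5
  · refine ⟨m + (x + 1) * i, by omega, by omega, Or.inl ?_⟩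
    rw [mem_avail]
    refine ⟨⟨by omega, h5⟩, Or.inr ⟨i, by omega⟩⟩
  · exact ⟨M + 1, h2, by omega, Or.inr rfl⟩

/-- sums of distinct available numbers -/
theorem sums2 {V : Type} [DecidableEq V] (Λ : Finset V) {k x M t h : ℕ} (hk : 1 ≤ k)
    (hΛ : #Λ = k + 1) (hh : h ≤ M) (hM : M < h + (x + 1))
    (hh' : ∃ q, 1 ≤ q ∧ h = x + (k + 1) + (x + 1) * q)
    (h1 : (k + 1) * (k + 2) ≤ 2 * t) (h2 : 2 * t ≤ 2 * h + k * (k + 1) + 2 * (k * (x + 1))) :
    ∃ b : V → ℕ, (∀ v ∈ Λ, 1 ≤ b v ∧ b v ∈ avail M (x + (k + 1)) x) ∧ Set.InjOn b Λ ∧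
      ∑ v ∈ Λ, b v = t := by
  obtain ⟨q, hq1, hq⟩ := hh'
  have e1 : (k + 1) * (k + 1 + 1) = k * k + 3 * k + 2 := by ring
  have e1' : (k + 1) * (k + 2) = k * k + 3 * k + 2 := by ring
  have e2 : (k + 1) * (k + 1 - 1) = k * k + k := by
    rw [Nat.add_sub_cancel]
    ring
  have e3 : (k + 1) * (x + (k + 1)) = k * x + k * k + 2 * k + x + 1 := by ring
  have e4 : k * (x + (k + 1)) = k * x + k * k + k := by ring
  have e5 : k * (k - 1) + k = k * k := by
    rcases k with _ | k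
    · rfl
    · rw [Nat.add_sub_cancel]
      ring
  have e6 : k * (k + 1) = k * k + k := by ring
  have e7 : k * (x + 1) = k * x + k := by ring
  have e8 : x ≤ k * x := Nat.le_mul_of_pos_left x hk
  have e9 : x + 1 ≤ (x + 1) * q := Nat.le_mul_of_pos_right (x + 1) hq1
  have hsmall : ∀ z, 1 ≤ z → z ≤ x + (k + 1) → z ∈ avail M (x + (k + 1)) x := by
    intro z hz hz'
    rw [mem_avail]
    exact ⟨⟨hz, by omega⟩, Or.inl hz'⟩
  rcases le_or_gt (2 * t) (k * k + 3 * k + 2 + 2 * ((k + 1) * x)) with h3 | h3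
  · have e10 : (k + 1) * x = k * x + x := by ring
    obtain ⟨b, hb1, hb2, hb3⟩ := sums Λ (x + (k + 1)) t (by omega)
      (by rw [hΛ, e1]; omega) (by rw [hΛ, e2, e3]; omega)
    exact ⟨b, fun v hv => ⟨(hb1 v hv).1, hsmall _ (hb1 v hv).1 (hb1 v hv).2⟩, hb2, hb3⟩
  · have e10 : (k + 1) * x = k * x + x := by ring
    obtain ⟨t₁, ht₁⟩ : ∃ t₁, k * (k + 1) = 2 * t₁ := by
      obtain ⟨y, hy⟩ := Nat.even_mul_succ_self k
      exact ⟨y, by omega⟩
    -- the hole
    obtain ⟨h', hh1, hh2, hh3, hh4⟩ : ∃ h', h' ∈ avail M (x + (k + 1)) x ∧ x + (k + 1) < h' ∧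
        h' + t₁ ≤ t ∧ t ≤ h' + t₁ + k * (x + 1) := by
      obtain ⟨i, hi⟩ : ∃ i, i = (t - t₁ - (x + (k + 1))) / (x + 1) := ⟨_, rfl⟩
      have h4 : (x + 1) * i ≤ t - t₁ - (x + (k + 1)) := by
        rw [hi]
        exact Nat.mul_div_le _ _
      have h5 : t - t₁ - (x + (k + 1)) < (x + 1) * i + (x + 1) := by
        have := Nat.lt_mul_div_succ (t - t₁ - (x + (k + 1))) (show 0 < x + 1 by omega)
        rw [← hi] at this
        rwa [Nat.mul_add, Nat.mul_one] at this
      have h6 : 1 ≤ i := by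
        rcases Nat.eq_zero_or_pos i with h7 | h7
        · subst h7
          omega
        · exact h7
      have h6' : x + 1 ≤ (x + 1) * i := Nat.le_mul_of_pos_right (x + 1) h6
      rcases le_or_gt (x + (k + 1) + (x + 1) * i) M with h7 | h7
      · refine ⟨x + (k + 1) + (x + 1) * i, ?_, by omega, by omega, by omega⟩
        rw [mem_avail]
        exact ⟨⟨by omega, h7⟩, Or.inr ⟨i, by omega⟩⟩
      · refine ⟨h, ?_, by omega, by omega, by omega⟩
        rw [mem_avail]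
        exact ⟨⟨by omega, hh⟩, Or.inr ⟨q, by omega⟩⟩
    obtain ⟨v₀, hv₀⟩ : Λ.Nonempty := by
      rw [← card_pos]
      omega
    have hc : #(Λ.erase v₀) = k := by
      rw [card_erase_of_mem hv₀]
      omega
    obtain ⟨b, hb1, hb2, hb3⟩ := sums (Λ.erase v₀) (x + (k + 1)) (t - h') (by omega)
      (by rw [hc]; omega) (by rw [hc]; omega)
    have hu : ∀ v ∈ Λ, v ≠ v₀ → v ∈ Λ.erase v₀ := fun v hv h => mem_erase.2 ⟨h, hv⟩
    refine ⟨Function.update b v₀ h', ?_, ?_, ?_⟩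
    · intro v hv
      by_cases h4 : v = v₀
      · rw [h4, Function.update_self]
        exact ⟨by omega, hh1⟩
      · rw [Function.update_of_ne h4]
        have := hb1 v (hu v hv h4)
        exact ⟨this.1, hsmall _ this.1 this.2⟩
    · intro u hu' v hv' huv
      rw [mem_coe] at hu' hv'
      by_cases h4 : u = v₀
      · by_cases h5 : v = v₀
        · rw [h4, h5]
        · rw [h4, Function.update_self, Function.update_of_ne h5] at huv
          have := hb1 v (hu v hv' h5)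
          omega
      · by_cases h5 : v = v₀
        · rw [h5, Function.update_self, Function.update_of_ne h4] at huv
          have := hb1 u (hu u hu' h4)
          omega
        · rw [Function.update_of_ne h4, Function.update_of_ne h5] at huv
          exact hb2 (mem_coe.2 (hu u hu' h4)) (mem_coe.2 (hu v hv' h5)) huv
    · rw [← add_sum_erase Λ _ hv₀, Function.update_self]
      have h5 : ∑ v ∈ Λ.erase v₀, Function.update b v₀ h' v = ∑ v ∈ Λ.erase v₀, b v :=
        sum_congr rfl fun v hv => Function.update_of_ne (ne_of_mem_erase hv) _ _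
      rw [h5, hb3]
      omega

/-- the weights of the leaves at the root -/
theorem pick2 {V : Type} [DecidableEq V] (Λ : Finset V) {M n x g j e : ℕ} (hΛ : #Λ = j)
    (hj : 1 ≤ j) (hjn : j ≤ n) (hM : M = n + x + g) (hn : n ≤ (g + 1) * x + 1) (he : 1 ≤ e)
    (heM : e ≤ M) (O : Finset ℕ) (hO : M + 1 ∉ O) (hc : #O + j ≤ n + x + 1) :
    ∃ b : V → ℕ, (∀ v ∈ Λ, 1 ≤ b v ∧ b v ∈ avail M (x + j) x) ∧ Set.InjOn b Λ ∧
      (e + ∑ v ∈ Λ, b v ∈ avail M (x + j) x ∨
        (M < e + ∑ v ∈ Λ, b v ∧ e + ∑ v ∈ Λ, b v ∉ O)) := by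
  obtain ⟨k, rfl⟩ : ∃ k, j = k + 1 := ⟨j - 1, by omega⟩
  have e1 : (k + 1) * (k + 1 + 1) = k * k + 3 * k + 2 := by ring
  have e1' : (k + 1) * (k + 2) = k * k + 3 * k + 2 := by ring
  have e2 : (k + 1) * (k + 1 - 1) = k * k + k := by
    rw [Nat.add_sub_cancel]
    ring
  have e3 : (k + 1) * (x + (k + 1)) = k * x + k * k + 2 * k + x + 1 := by ring
  have e6 : k * (k + 1) = k * k + k := by ring
  have e7 : k * (x + 1) = k * x + k := by ring
  have hsmall : ∀ z, 1 ≤ z → z ≤ x + (k + 1) → z ∈ avail M (x + (k + 1)) x := by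
    intro z hz hz'
    rw [mem_avail]
    exact ⟨⟨hz, by omega⟩, Or.inl hz'⟩
  obtain ⟨t₀, ht₀⟩ : ∃ t₀, k * k + 3 * k + 2 = 2 * t₀ := by
    obtain ⟨y, hy⟩ := Nat.even_mul_succ_self (k + 1)
    exact ⟨y, by omega⟩
  -- small sums
  have hs : ∀ t, t₀ ≤ t → t ≤ t₀ + (k * x + x) →
      ∃ b : V → ℕ, (∀ v ∈ Λ, 1 ≤ b v ∧ b v ∈ avail M (x + (k + 1)) x) ∧ Set.InjOn b Λ ∧
        ∑ v ∈ Λ, b v = t := by
    intro t h1 h2
    obtain ⟨b, hb1, hb2, hb3⟩ := sums Λ (x + (k + 1)) t (by omega)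
      (by rw [hΛ, e1]; omega) (by rw [hΛ, e2, e3]; omega)
    exact ⟨b, fun v hv => ⟨(hb1 v hv).1, hsmall _ (hb1 v hv).1 (hb1 v hv).2⟩, hb2, hb3⟩
  rcases le_or_gt (e + t₀) (x + (k + 1)) with h1 | h1
  · obtain ⟨b, hb1, hb2, hb3⟩ := hs t₀ le_rfl (by omega)
    refine ⟨b, hb1, hb2, Or.inl ?_⟩
    rw [hb3]
    exact hsmall _ (by omega) h1
  rcases le_or_gt (e + t₀) (M + 1) with h2 | h2
  · obtain ⟨h, hh1, hh2, hh3⟩ := next (M := M) (m := x + (k + 1)) (x := x) h1 h2
    obtain ⟨b, hb1, hb2, hb3⟩ := hs (h - e) (by omega) (by omega)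
    refine ⟨b, hb1, hb2, ?_⟩
    rw [hb3, show e + (h - e) = h by omega]
    rcases hh3 with hh3 | hh3
    · exact Or.inl hh3
    · right
      rw [hh3]
      exact ⟨by omega, hO⟩
  -- now `k ≥ 1`
  have hk : 1 ≤ k := by
    rcases Nat.eq_zero_or_pos k with h3 | h3
    · subst h3
      omega
    · exact h3
  have e8 : x ≤ k * x := Nat.le_mul_of_pos_left x hk
  have key : ∃ T, #O < T + 1 - t₀ ∧ ∀ t, t₀ ≤ t → t ≤ T →
      ∃ b : V → ℕ, (∀ v ∈ Λ, 1 ≤ b v ∧ b v ∈ avail M (x + (k + 1)) x) ∧ Set.InjOn b Λ ∧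
        ∑ v ∈ Λ, b v = t := by
    rcases lt_or_ge M (x + (k + 1) + (x + 1)) with h3 | h3
    · refine ⟨t₀ + (k * x + x), ?_, hs⟩
      rcases Nat.eq_zero_or_pos g with h4 | h4
      · subst h4
        omega
      · omega
    · obtain ⟨q, hq⟩ : ∃ q, q = (M - (x + (k + 1))) / (x + 1) := ⟨_, rfl⟩
      have h4 : (x + 1) * q ≤ M - (x + (k + 1)) := by
        rw [hq]
        exact Nat.mul_div_le _ _
      have h5 : M - (x + (k + 1)) < (x + 1) * q + (x + 1) := by
        have := Nat.lt_mul_div_succ (M - (x + (k + 1))) (show 0 < x + 1 by omega)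
        rw [← hq] at this
        rwa [Nat.mul_add, Nat.mul_one] at this
      have h6 : 1 ≤ q := by
        rcases Nat.eq_zero_or_pos q with h7 | h7
        · subst h7
          omega
        · exact h7
      obtain ⟨h, hh⟩ : ∃ h, h = x + (k + 1) + (x + 1) * q := ⟨_, rfl⟩
      obtain ⟨t₁, ht₁⟩ : ∃ t₁, k * k + k = 2 * t₁ := ⟨t₀ - (k + 1), by omega⟩
      refine ⟨h + t₁ + (k * x + k), by omega, fun t h7 h8 => ?_⟩
      exact sums2 Λ hk hΛ (h := h) (by omega) (by omega) ⟨q, h6, hh⟩ (by omega) (by omega)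
  obtain ⟨T, hT, hT'⟩ := key
  have h6 : ∃ z ∈ Icc (e + t₀) (e + T), z ∉ O := by
    by_contra hcon
    push Not at hcon
    have h7 : #(Icc (e + t₀) (e + T)) ≤ #O := card_le_card hcon
    rw [Nat.card_Icc] at h7
    omega
  obtain ⟨z, hz, hz'⟩ := h6
  rw [mem_Icc] at hz
  obtain ⟨b, hb1, hb2, hb3⟩ := hT' (z - e) (by omega) (by omega)
  refine ⟨b, hb1, hb2, Or.inr ?_⟩
  rw [hb3, show e + (z - e) = z by omega]
  exact ⟨by omega, hz'⟩

end Pool.Agent.H.MP_936c16_co
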