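import Pool.Agent.H.MP_936c16_co.Num2

/-!
Threads with weighted degrees in two intervals `[L, L')` and `[U, U')`, where `U > s` and the lead
`s + L - U` is not small.
-/

set_option autoImplicit false

namespace Pool.Agent.H.MP_936c16_co

open Finset

/-- pairs in the upper interval, the weight alternates -/
theorem ptr_up {s w U p : ℕ} (h1 : 2 ≤ w) (h2 : w ≤ s) (h3 : w ≤ U) (h4 : U + 2 * p ≤ w + s) :
    Fill s (2 * p) w (Ico U (U + 2 * p)) (w - p % 2) := by
  have c := (fill_alt (fun j => U + 2 * j) (s := s) (w := w) h1 h2 (range p) (fun j hj => by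
    have := mem_range.1 hj
    show w ≤ U + 2 * j ∧ U + 2 * j + 1 ≤ w + s
    omega)).1
  rw [card_range] at c
  have e : dom (fun j => U + 2 * j) (range p) = Ico U (U + 2 * p) := by
    ext v
    rw [mem_dom, mem_Ico]
    constructor
    · rintro ⟨j, hj, h⟩
      have := mem_range.1 hj
      omega
    · rintro ⟨g1, g2⟩
      exact ⟨(v - U) / 2, mem_range.2 (by omega), by omega⟩
  rw [e] at c
  exact c

/-- pairs in the two intervals, the weight increases by one for every pair -/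
theorem ptr_bal {s : ℕ} (m : ℕ) : ∀ x L U : ℕ, x + 1 ≤ L → L + 1 ≤ x + s → U ≤ x + s →
    x + 2 ≤ U → x + m ≤ s →
    Fill s (2 * m) x (Ico L (L + 2 * ((m + 1) / 2)) ∪ Ico U (U + 2 * (m / 2))) (x + m) := by
  induction m using Nat.strong_induction_on with
  | _ m ih =>
    intro x L U h1 h2 h3 h4 h5
    rcases Nat.lt_or_ge m 2 with hm | hm
    · rcases (show m = 0 ∨ m = 1 by omega) with rfl | rfl
      · have e : Ico L (L + 2 * ((0 + 1) / 2)) ∪ Ico U (U + 2 * (0 / 2)) = ∅ := by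
          ext v
          simp only [mem_union, mem_Ico, notMem_empty, iff_false]
          omega
        rw [e]
        exact Fill.nil x
      · have c : Fill s 2 x {L, L + 1} (x + 1) :=
          Fill.pair (by omega) (by omega) (by omega) (by omega) (by omega)
        have e : Ico L (L + 2 * ((1 + 1) / 2)) ∪ Ico U (U + 2 * (1 / 2)) = {L, L + 1} := by
          ext v
          simp only [mem_union, mem_Ico, mem_insert, mem_singleton]
          omega
        rw [e]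
        exact c
    · obtain ⟨n, rfl⟩ : ∃ n, m = n + 2 := ⟨m - 2, by omega⟩
      have c1 : Fill s 2 x {L, L + 1} (x + 1) :=
        Fill.pair (by omega) (by omega) (by omega) (by omega) (by omega)
      have c2 : Fill s 2 (x + 1) {U, U + 1} (x + 2) :=
        Fill.pair (by omega) (by omega) (by omega) (by omega) (by omega)
      have c3 := ih n (by omega) (x + 2) (L + 2) (U + 2) (by omega) (by omega) (by omega) (by omega)
        (by omega)
      have c4 := (c1.append c2).append c3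
      have e : {L, L + 1} ∪ {U, U + 1} ∪ (Ico (L + 2) (L + 2 + 2 * ((n + 1) / 2)) ∪
          Ico (U + 2) (U + 2 + 2 * (n / 2))) =
          Ico L (L + 2 * ((n + 2 + 1) / 2)) ∪ Ico U (U + 2 * ((n + 2) / 2)) := by
        ext v
        simp only [mem_union, mem_Ico, mem_insert, mem_singleton]
        omega
      rw [e, show 2 + 2 + 2 * n = 2 * (n + 2) by ring, show x + 2 + n = x + (n + 2) by ring] at c4
      exact c4

/-- the numbers of the pairs, parameters for `ptr_reg` and `ptr_res` -/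
theorem ptr_split (p X D E : ℕ) (hED : E ≤ D) (hX : E ≤ X) : ∃ pA pB m e a c, pA + pB = p ∧
    pB = 2 * m + e ∧ e ≤ 1 ∧ pA = 2 * c + a ∧ a ≤ 1 ∧ 2 * pA + E ≤ X ∧
    (pB = 0 ∨ (X ≤ 2 * pA + D + 1 ∧ (pA = 0 ∨ 2 * pA + D ≤ X))) := by
  rcases Nat.lt_or_ge ((X - D) / 2) p with h | h
  · refine ⟨(X - D) / 2, p - (X - D) / 2, (p - (X - D) / 2) / 2, (p - (X - D) / 2) % 2,
      (X - D) / 2 % 2, (X - D) / 2 / 2, by omega, by omega, by omega, by omega, by omega, by omega,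
      Or.inr ⟨by omega, by omega⟩⟩
  · exact ⟨p, 0, 0, 0, p % 2, p / 2, by omega, by omega, by omega, by omega, by omega, by omega,
      Or.inl rfl⟩

/-- A thread which starts at a leaf with the weight `L`. -/
theorem ptr_reg {s L U D l Lm : ℕ} (hD : 6 ≤ D) (h1 : U + D ≤ s + L + 1) (hU : s < U)
    (hL1 : 2 ≤ L) (hL : L + 1 ≤ Lm) (hLm : Lm + 3 ≤ s)
    (hT : L + U + 1 + l + D + 4 ≤ 2 * Lm + s) :
    ∃ L' U' t, L + 1 ≤ L' ∧ U ≤ U' ∧ L' + U' = L + U + 1 + l ∧ U' + D ≤ s + L' + 1 ∧ L' ≤ Lm ∧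
      (L' = L + 1 ∨ L' + s ≤ U' + D + 4) ∧
      (l ≤ 1 → L' = L + 1) ∧ (2 ≤ l → L + s ≤ U + D + 4 → L' + s ≤ U' + D + 4) ∧ 1 ≤ t ∧ t ≤ s ∧
      Fill s l L (Ico (L + 1) L' ∪ Ico U U') t := by
  obtain ⟨p, q, hl, hq1⟩ : ∃ p q, l = 2 * p + q ∧ q ≤ 1 := ⟨l / 2, l % 2, by omega, by omega⟩
  obtain ⟨X, hX⟩ : ∃ X, X + U = s + L + 1 := ⟨s + L + 1 - U, by omega⟩
  obtain ⟨pA, pB, m, e, a, c, hp, hm, he, hc, ha, hXA, hB⟩ := ptr_split p X D D le_rfl (by omega)
  obtain ⟨x, hx⟩ : ∃ x, x + a = L := ⟨L - a, by omega⟩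
  have e1 : L - pA % 2 = x := by omega
  have e2 : (pB + 1) / 2 = m + e := by omega
  have e3 : pB / 2 = m := by omega
  have c1 := ptr_up (s := s) (w := L) (U := U) (p := pA) (by omega) (by omega) (by omega) (by omega)
  rw [e1] at c1
  have hLe : L + 1 + 2 * (m + e) ≤ Lm := by
    rcases hB with h | ⟨h, -⟩
    · have hm0 : m = 0 := by omega
      have he0 : e = 0 := by omega
      rw [hm0, he0]
      exact hL
    · clear hc hx e1 c1 e2 e3
      omega
  have hxs : x + pB ≤ s := by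
    clear hB hXA hX
    omega
  have c2 := ptr_bal (s := s) pB x (L + 1) (U + 2 * pA) (by omega) (by omega)
    (by clear hB; omega) (by omega) hxs
  rw [e2, e3] at c2
  have c3 := c1.append c2
  obtain ⟨U₁, hU₁⟩ : ∃ U₁, U₁ = U + 2 * pA + 2 * m := ⟨_, rfl⟩
  obtain ⟨L', hL'⟩ : ∃ L', L' = L + 1 + 2 * (m + e) := ⟨_, rfl⟩
  rw [← hL'] at hLe
  rw [← hU₁, ← hL'] at c3
  have hset : Ico U (U + 2 * pA) ∪ (Ico (L + 1) L' ∪ Ico (U + 2 * pA) U₁) =
      Ico (L + 1) L' ∪ Ico U U₁ := by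
    ext v
    simp only [mem_union, mem_Ico]
    have g1 : U + 2 * pA ≤ U₁ := by omega
    clear hB hX hXA hT hLe hxs e1 e2 e3 hp hm hc hx hl hL' hU₁ h1 hD hU hL hLm hL1
    omega
  rw [hset, show 2 * pA + 2 * pB = 2 * p by omega] at c3
  have f1 : L + 1 ≤ L' := by omega
  have f2 : U ≤ U₁ := by omega
  have f3 : L' + U₁ = L + U + 1 + 2 * p := by omega
  have f4 : U₁ + D ≤ s + L' := by omega
  have f5 : L' = L + 1 ∨ L' + s ≤ U₁ + D + 3 := by
    rcases hB with h | ⟨h, -⟩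
    · left
      omega
    · right
      clear hc hx e1 c1 c2 c3 e2 e3 hset
      omega
  have f6 : 1 ≤ p → L + s ≤ U + D + 4 → L' + s ≤ U₁ + D + 4 := by
    intro h2 h3
    rcases hB with h | ⟨h, -⟩
    · clear hc hx e1 c1 c2 c3 e2 e3 hset f5
      omega
    · clear hc hx e1 c1 c2 c3 e2 e3 hset f5
      omega
  have f7 : p = 0 → L' = L + 1 := by
    intro h
    omega
  have f8 : 1 ≤ x + pB := by omega
  have f9 : x + pB < U₁ := by
    clear hB
    omega
  have f10 : U₁ ≤ x + pB + s := by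
    clear hB hT hLe
    omega
  clear hB e1 e2 e3 c1 c2 hset hm hc hx hU₁ hL' hX hXA he ha
  rcases (show q = 0 ∨ q = 1 by omega) with hq0 | hq0
  · refine ⟨L', U₁, x + pB, f1, f2, by omega, by omega, hLe, ?_, fun h => f7 (by omega), ?_, f8,
      hxs, ?_⟩
    · rcases f5 with h | h
      · exact Or.inl h
      · exact Or.inr (by omega)
    · intro h h'
      exact f6 (by omega) h'
    · rw [show l = 2 * p by omega]
      exact c3
  · have c4 : Fill s 1 (x + pB) {U₁} (U₁ - (x + pB)) :=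
      Fill.single (by omega) f10 (by omega)
    have c5 := c3.append c4
    have hset2 : Ico (L + 1) L' ∪ Ico U U₁ ∪ {U₁} = Ico (L + 1) L' ∪ Ico U (U₁ + 1) := by
      ext v
      simp only [mem_union, mem_Ico, mem_singleton]
      clear f1 f3 f4 f5 f6 f7 f8 f9 f10 hLe hxs hT hp h1 hU hL1 hL hLm hl
      omega
    rw [hset2] at c5
    refine ⟨L', U₁ + 1, U₁ - (x + pB), f1, by omega, by omega, by omega, hLe, ?_,
      fun h => f7 (by omega), ?_, by omega, by omega, ?_⟩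
    · rcases f5 with h | h
      · exact Or.inl h
      · exact Or.inr (by omega)
    · intro h h'
      have := f6 (by omega) h'
      omega
    · rw [show l = 2 * p + 1 by omega]
      exact c5

theorem ptr_aux1 {x βA a β UA s : ℕ} (h1 : x + βA = UA) (h2 : βA + a = β) (h3 : β + 4 ≤ s) :
    UA + 1 ≤ x + s := by
  omega

theorem ptr_aux2 {x βA a β UA UB m f δ s A : ℕ} (h1 : x + βA = UA) (h2 : βA + a = β)
    (h3 : UB = UA + 1 + 2 * m) (h4 : δ + a + f = 2) (h5 : s ≤ β + A) (h6 : A + 4 ≤ s) :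
    UB = x + (2 * m + f) + (β + δ - 1) := by
  omega

theorem ptr_aux3 {x L s Lm : ℕ} (h1 : 1 ≤ x) (h2 : L ≤ Lm) (h3 : Lm + 3 ≤ s) :
    L + 1 ≤ x + s := by
  omega

theorem ptr_aux4 {x βA a β UA s A : ℕ} (h1 : x + βA = UA) (h2 : βA + a = β) (h3 : s ≤ β + A)
    (h4 : A + 4 ≤ s) (h5 : a ≤ 1) : x + 2 ≤ UA + 1 := by
  omega

theorem ptr_aux5 {y β δ UB s A : ℕ} (h1 : UB = y + (β + δ - 1)) (h2 : s ≤ β + A)
    (h3 : A + 4 ≤ s) : y + 1 ≤ UB := by
  omega

theorem ptr_aux6 {y β δ UB s : ℕ} (h1 : UB = y + (β + δ - 1)) (h2 : β + 4 ≤ s) (h3 : δ ≤ 2) :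
    UB ≤ y + s := by
  omega

/-- A thread with `2 p` vertices which starts with a weight `β` in `[s - A, s - 4]`. -/
theorem ptr_res {s L U D E A p Lm : ℕ} (hE : A + 6 ≤ E) (hED : E ≤ D) (h1 : U + E ≤ s + L)
    (hU : s < U) (hL1 : 2 ≤ L) (hL : L ≤ Lm) (hLm : Lm + 3 ≤ s) (hA : A + 4 ≤ s)
    (hT : L + U + 2 * p + D + 4 ≤ 2 * Lm + s) :
    ∃ L' U' δ, L ≤ L' ∧ U ≤ U' ∧ L' + U' = L + U + 2 * p ∧ U' + E ≤ s + L' + 2 ∧ L' ≤ Lm ∧
      (L' = L ∨ L' + s ≤ U' + D + 4) ∧ (L + s ≤ U + D + 4 → L' + s ≤ U' + D + 4) ∧ δ ≤ 2 ∧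
      ∀ β, s ≤ β + A → β + 4 ≤ s → Fill s (2 * p) β (Ico L L' ∪ Ico U U') (β + δ - 1) := by
  obtain ⟨X, hX⟩ : ∃ X, X + U = s + L := ⟨s + L - U, by omega⟩
  obtain ⟨pA, pB, m', e', a, c, hp, hm', he', hc, ha, hXA, hB⟩ := ptr_split p X D E hED (by omega)
  have e1 : pA % 2 = a := by omega
  rcases Nat.eq_zero_or_pos pB with hB0 | hB0
  · have hpA : pA = p := by omega
    refine ⟨L, U + 2 * p, 1 - a, le_rfl, by omega, by omega, by omega, hL, Or.inl rfl,
      fun h => by omega, by omega, fun β h2 h3 => ?_⟩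
    have c1 := ptr_up (s := s) (w := β) (U := U) (p := p) (by omega) (by omega) (by omega)
      (by clear hB; omega)
    have e : Ico L L ∪ Ico U (U + 2 * p) = Ico U (U + 2 * p) := by
      rw [Ico_self, empty_union]
    rw [← hpA, e1, hpA] at c1
    rw [e, show β + (1 - a) - 1 = β - a by omega]
    exact c1
  · have hB1 : X ≤ 2 * pA + D + 1 := by
      rcases hB with h | h
      · omega
      · exact h.1
    clear hB
    obtain ⟨m, f, hm, hf⟩ : ∃ m f, pB = 2 * m + f + 1 ∧ f ≤ 1 :=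
      ⟨(pB - 1) / 2, (pB - 1) % 2, by omega, by omega⟩
    clear hm' he' m' e'
    have e2 : (2 * m + f + 1) / 2 = m + f := by omega
    have e3 : (2 * m + f) / 2 = m := by omega
    obtain ⟨L', hL'⟩ : ∃ L', L' = L + 2 * (m + f) := ⟨_, rfl⟩
    obtain ⟨UA, hUA⟩ : ∃ UA, UA = U + 2 * pA := ⟨_, rfl⟩
    obtain ⟨UB, hUB⟩ : ∃ UB, UB = UA + 1 + 2 * m := ⟨_, rfl⟩
    have hLb : L' ≤ Lm := by
      clear hc e1 e2 e3 hXA
      omega
    obtain ⟨δ, hδ⟩ : ∃ δ, δ + a + f = 2 := ⟨2 - a - f, by omega⟩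
    have g1 : L ≤ L' := by omega
    have g2 : U ≤ UB := by omega
    have g3 : L' + (UB + 1) = L + U + 2 * p := by omega
    have g4 : UB + 1 + E ≤ s + L' + 2 := by
      clear hT hLb hc e1 e2 e3
      omega
    have g5 : L' + s ≤ UB + 1 + D + 4 := by
      clear hT hLb hc e1 e2 e3 hXA
      omega
    refine ⟨L', UB + 1, δ, g1, by omega, g3, g4, hLb, Or.inr g5, fun _ => g5, by omega,
      fun β h2 h3 => ?_⟩
    obtain ⟨βA, hβA⟩ : ∃ βA, βA + a = β := ⟨β - a, by omega⟩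
    have c1 := ptr_up (s := s) (w := β) (U := U) (p := pA) (by omega) (by omega) (by omega)
      (by clear hT hLb hc e1 e2 e3 hB1 g3 g4 g5; omega)
    rw [e1, show β - a = βA by omega, ← hUA] at c1
    obtain ⟨x, hx⟩ : ∃ x, x + βA = UA := ⟨UA - βA, by omega⟩
    have k1 : 1 ≤ x := by omega
    have k2 : x + 1 ≤ L := by
      clear hT hLb hc e1 e2 e3 hB1 g3 g4 g5 c1
      omega
    have c2 : Fill s 1 βA {UA} x := Fill.single (by omega) (by omega) (by omega)
    have k3 : x + (2 * m + f) ≤ s := by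
      clear hT hc e1 e2 e3 hB1 g3 g4 g5 c1 c2 hx
      omega
    have c3 := ptr_bal (s := s) (2 * m + f) x L (UA + 1) k2 (ptr_aux3 k1 hL hLm)
      (ptr_aux1 hx hβA h3) (ptr_aux4 hx hβA h2 hA ha) k3
    rw [e2, e3, ← hL', ← hUB] at c3
    have k4 : UB = x + (2 * m + f) + (β + δ - 1) := ptr_aux2 hx hβA hUB hδ h2 hA
    have c4 : Fill s 1 (x + (2 * m + f)) {UB} (β + δ - 1) :=
      Fill.single (ptr_aux5 k4 h2 hA) (ptr_aux6 k4 h3 (by clear hX hXA hT hc e1 e2 e3; omega)) k4.symm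
    have c5 := ((c1.append c2).append c3).append c4
    have e : Ico U UA ∪ {UA} ∪ (Ico L L' ∪ Ico (UA + 1) UB) ∪ {UB} =
        Ico L L' ∪ Ico U (UB + 1) := by
      have q1 : U ≤ UA := by omega
      have q2 : UA + 1 ≤ UB := by omega
      ext v
      simp only [mem_union, mem_Ico, mem_singleton]
      clear hT hc e1 e2 e3 hB1 g3 g4 g5 c1 c2 c3 c4 c5 hx k1 k2 k3 k4 hβA hδ hLb hL' hUA hUB hm hf
        hp hX hXA ha h2 h3 g1 g2 hE hED h1 hU hL1 hL hLm hA hB0
      omega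
    rw [e, show 2 * pA + 1 + 2 * (2 * m + f) + 1 = 2 * p by omega] at c5
    exact c5

end Pool.Agent.H.MP_936c16_co
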