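import Pool.Agent.H.MP_936c16_co.Ptr

/-!
The sets of the weighted degrees in the threads which start at leaves with small weights.
-/

set_option autoImplicit false

namespace Pool.Agent.H.MP_936c16_co

open Finset

variable {V : Type} [DecidableEq V]

/-- the state after the threads in `S` -/
private structure Ptr2Inv (len : V → ℕ) (s D L₀ : ℕ) (S : Finset V) (L U : ℕ) (x : V → ℕ)
    (W : V → Finset ℕ) (t : V → ℕ) : Prop where
  hL : L₀ ≤ L
  hU : s + 1 ≤ U
  sum : L + U = L₀ + s + 1 + #S + ∑ v ∈ S, len v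
  lead : U + D ≤ s + L + 1
  pt : ∀ v ∈ S, L₀ ≤ x v ∧ x v < L ∧ 1 ≤ t v ∧ t v ≤ s ∧ Fill s (len v) (x v) (W v) (t v) ∧
        #(W v) = len v ∧ (∀ w ∈ W v, (L₀ ≤ w ∧ w < L) ∨ (s < w ∧ w < U)) ∧
        ∀ v' ∈ S, x v' ∉ W v
  inj : ∀ v ∈ S, ∀ v' ∈ S, x v = x v' → v = v'
  disj : ∀ v ∈ S, ∀ v' ∈ S, v ≠ v' → Disjoint (W v) (W v')

private theorem Ptr2_step {len : V → ℕ} {s D L₀ Lm : ℕ} (hD : 6 ≤ D) (hL₀ : 2 ≤ L₀)
    (hLm : Lm + 3 ≤ s) {S : Finset V} {L U : ℕ} {x : V → ℕ} {W : V → Finset ℕ} {t : V → ℕ}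
    (h : Ptr2Inv len s D L₀ S L U x W t) {v : V} (hv : v ∉ S) (hl : L + 1 ≤ Lm)
    (hT : L + U + 1 + len v + D + 4 ≤ 2 * Lm + s) :
    ∃ (L' U' : ℕ) (x' : V → ℕ) (W' : V → Finset ℕ) (t' : V → ℕ),
      Ptr2Inv len s D L₀ (insert v S) L' U' x' W' t' ∧ L' ≤ Lm ∧
      (L' = L + 1 ∨ L' + s ≤ U' + D + 4) ∧ (len v ≤ 1 → L' = L + 1) ∧
      (2 ≤ len v → L + s ≤ U + D + 4 → L' + s ≤ U' + D + 4) := by
  have hL := h.hL
  have hU := h.hU
  obtain ⟨L', U', t₀, a1, a2, a3, a4, a5, a6, a7, a8, a9, a10, a11⟩ :=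
    ptr_reg hD h.lead (by omega : s < U) (by omega : 2 ≤ L) hl hLm hT
  have hne : ∀ u ∈ S, u ≠ v := fun u hu e => hv (e ▸ hu)
  have hWm : ∀ w, w ∈ Ico (L + 1) L' ∪ Ico U U' ↔ (L + 1 ≤ w ∧ w < L') ∨ (U ≤ w ∧ w < U') :=
    fun w => by rw [mem_union, mem_Ico, mem_Ico]
  have ex : Function.update x v L v = L := Function.update_self _ _ _
  have eW : Function.update W v (Ico (L + 1) L' ∪ Ico U U') v = Ico (L + 1) L' ∪ Ico U U' :=
    Function.update_self _ _ _
  have et : Function.update t v t₀ v = t₀ := Function.update_self _ _ _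
  have ex' : ∀ u ∈ S, Function.update x v L u = x u := fun u hu =>
    Function.update_of_ne (hne u hu) _ _
  have eW' : ∀ u ∈ S, Function.update W v (Ico (L + 1) L' ∪ Ico U U') u = W u := fun u hu =>
    Function.update_of_ne (hne u hu) _ _
  have et' : ∀ u ∈ S, Function.update t v t₀ u = t u := fun u hu =>
    Function.update_of_ne (hne u hu) _ _
  have hdis : ∀ u ∈ S, Disjoint (W u) (Ico (L + 1) L' ∪ Ico U U') := by
    intro u hu
    rw [disjoint_left]
    intro w hw hw'
    rw [hWm] at hw'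
    obtain ⟨_, _, _, _, _, _, h7, _⟩ := h.pt u hu
    rcases h7 w hw with h8 | h8 <;> rcases hw' with h9 | h9 <;> omega
  refine ⟨L', U', Function.update x v L, Function.update W v (Ico (L + 1) L' ∪ Ico U U'),
    Function.update t v t₀, ⟨by omega, by omega, ?_, by omega, ?_, ?_, ?_⟩, a5, a6, a7, a8⟩
  · rw [card_insert_of_notMem hv, sum_insert hv]
    have := h.sum
    omega
  · intro u hu
    rcases mem_insert.1 hu with rfl | hu
    · rw [ex, eW, et]
      refine ⟨hL, by omega, a9, a10, a11, ?_, ?_, ?_⟩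
      · rw [card_union_of_disjoint, Nat.card_Ico, Nat.card_Ico]
        · omega
        · rw [disjoint_left]
          intro w hw hw'
          rw [mem_Ico] at hw hw'
          omega
      · intro w hw
        rw [hWm] at hw
        rcases hw with hw | hw
        · left; omega
        · right; omega
      · intro v' hv'
        rcases mem_insert.1 hv' with rfl | hv'
        · rw [ex, hWm]
          omega
        · rw [ex' v' hv', hWm]
          have := (h.pt v' hv').2.1
          omega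
    · rw [ex' u hu, eW' u hu, et' u hu]
      obtain ⟨h1, h2, h3, h4, h5, h6, h7, h8⟩ := h.pt u hu
      refine ⟨h1, by omega, h3, h4, h5, h6, ?_, ?_⟩
      · intro w hw
        rcases h7 w hw with h9 | h9
        · left; omega
        · right; omega
      · intro v' hv'
        rcases mem_insert.1 hv' with rfl | hv'
        · rw [ex]
          intro hw
          rcases h7 _ hw with h9 | h9 <;> omega
        · rw [ex' v' hv']
          exact h8 v' hv'
  · intro u hu u' hu' e
    rcases mem_insert.1 hu with k1 | k1 <;> rcases mem_insert.1 hu' with k2 | k2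
    · rw [k1, k2]
    · rw [k1, ex, ex' u' k2] at e
      have := (h.pt u' k2).2.1
      omega
    · rw [k2, ex, ex' u k1] at e
      have := (h.pt u k1).2.1
      omega
    · rw [ex' u k1, ex' u' k2] at e
      exact h.inj u k1 u' k2 e
  · intro u hu u' hu' e
    rcases mem_insert.1 hu with k1 | k1 <;> rcases mem_insert.1 hu' with k2 | k2
    · exact absurd (k1.trans k2.symm) e
    · rw [k1, eW, eW' u' k2]
      exact (hdis u' k2).symm
    · rw [k2, eW, eW' u k1]
      exact hdis u k1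
    · rw [eW' u k1, eW' u' k2]
      exact h.disj u k1 u' k2 e

/-- the threads which start at leaves -/
theorem ptr_regs (X : Finset V) (len : V → ℕ) {s D Lm L₀ : ℕ} (hD : 6 ≤ D) (hL₀ : L₀ = D + 1)
    (hLm : Lm + 3 ≤ s) (h1 : L₀ + #X ≤ Lm)
    (h2 : L₀ + #X + ∑ v ∈ X, len v + 1 + D + 4 ≤ 2 * Lm) :
    ∃ (L U : ℕ) (x : V → ℕ) (W : V → Finset ℕ) (t : V → ℕ), L₀ ≤ L ∧ s + 1 ≤ U ∧
      L + U = L₀ + s + 1 + #X + ∑ v ∈ X, len v ∧ U + D ≤ s + L + 1 ∧ L ≤ Lm ∧
      (L = L₀ + #X ∨ L + s ≤ U + D + 4) ∧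
      (∀ v ∈ X, L₀ ≤ x v ∧ x v < L ∧ 1 ≤ t v ∧ t v ≤ s ∧ Fill s (len v) (x v) (W v) (t v) ∧
        #(W v) = len v ∧ (∀ w ∈ W v, (L₀ ≤ w ∧ w < L) ∨ (s < w ∧ w < U)) ∧
        ∀ v' ∈ X, x v' ∉ W v) ∧
      (∀ v ∈ X, ∀ v' ∈ X, x v = x v' → v = v') ∧
      ∀ v ∈ X, ∀ v' ∈ X, v ≠ v' → Disjoint (W v) (W v') := by
  -- first the short threads, then the long ones
  have hcard : ∀ S, S ⊆ X → #S ≤ #X := fun S hS => card_le_card hS
  have hsum : ∀ S, S ⊆ X → ∑ v ∈ S, len v ≤ ∑ v ∈ X, len v := fun S hS =>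
    sum_le_sum_of_subset hS
  have first : ∀ S, S ⊆ X → (∀ v ∈ S, len v ≤ 1) → ∃ (L U : ℕ) (x : V → ℕ) (W : V → Finset ℕ)
      (t : V → ℕ), Ptr2Inv len s D L₀ S L U x W t ∧ L = L₀ + #S := by
    intro S
    induction S using Finset.induction_on with
    | empty =>
      intro _ _
      refine ⟨L₀, s + 1, fun _ => 0, fun _ => ∅, fun _ => 0, ⟨le_rfl, le_rfl, ?_, ?_, ?_, ?_, ?_⟩, ?_⟩
      · rw [card_empty, sum_empty]
        omega
      · omega
      · intro v hv
        exact absurd hv (notMem_empty v)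
      · intro v hv
        exact absurd hv (notMem_empty v)
      · intro v hv
        exact absurd hv (notMem_empty v)
      · simp
    | insert v S hv ih =>
      intro hS hlen
      have hS' : S ⊆ X := fun u hu => hS (mem_insert_of_mem hu)
      obtain ⟨L, U, x, W, t, hI, hLS⟩ := ih hS' fun u hu => hlen u (mem_insert_of_mem hu)
      have c1 := hcard _ hS
      have c2 := hsum _ hS
      rw [card_insert_of_notMem hv] at c1
      rw [sum_insert hv] at c2
      have c3 := hI.sum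
      obtain ⟨L', U', x', W', t', hI', b1, b2, b3, b4⟩ := Ptr2_step hD (by omega : 2 ≤ L₀) hLm hI hv
        (by omega) (by omega)
      refine ⟨L', U', x', W', t', hI', ?_⟩
      rw [card_insert_of_notMem hv, b3 (hlen v (mem_insert_self v S))]
      omega
  obtain ⟨S₁, hS₁⟩ : ∃ S₁, S₁ = X.filter fun v => len v ≤ 1 := ⟨_, rfl⟩
  have hS₁X : S₁ ⊆ X := by
    rw [hS₁]
    exact filter_subset _ _
  have hS₁l : ∀ v ∈ S₁, len v ≤ 1 := fun v hv => by
    rw [hS₁] at hv
    exact (mem_filter.1 hv).2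
  obtain ⟨L₁, U₁, x₁, W₁, t₁, hI₁, hL₁⟩ := first S₁ hS₁X hS₁l
  have second : ∀ T, T ⊆ X → (∀ v ∈ T, v ∉ S₁) → ∃ (L U : ℕ) (x : V → ℕ) (W : V → Finset ℕ)
      (t : V → ℕ), Ptr2Inv len s D L₀ (T ∪ S₁) L U x W t ∧ L ≤ Lm ∧
        (L = L₀ + #(T ∪ S₁) ∨ L + s ≤ U + D + 4) := by
    intro T
    induction T using Finset.induction_on with
    | empty =>
      intro _ _
      rw [empty_union]
      refine ⟨L₁, U₁, x₁, W₁, t₁, hI₁, ?_, Or.inl hL₁⟩
      have := hcard _ hS₁X
      omega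
    | insert v T hv ih =>
      intro hT hdis
      have hT' : T ⊆ X := fun u hu => hT (mem_insert_of_mem hu)
      obtain ⟨L, U, x, W, t, hI, hLL, hor⟩ := ih hT' fun u hu => hdis u (mem_insert_of_mem hu)
      have hvS : v ∉ S₁ := hdis v (mem_insert_self v T)
      have hvX : v ∈ X := hT (mem_insert_self v T)
      have hvl : 2 ≤ len v := by
        by_contra hc
        apply hvS
        rw [hS₁, mem_filter]
        exact ⟨hvX, by omega⟩
      have hvu : v ∉ T ∪ S₁ := by
        rw [mem_union]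
        rintro (h | h)
        · exact hv h
        · exact hvS h
      have hsub : insert v (T ∪ S₁) ⊆ X := by
        intro u hu
        rcases mem_insert.1 hu with rfl | hu
        · exact hvX
        · rcases mem_union.1 hu with hu | hu
          · exact hT' hu
          · exact hS₁X hu
      have c1 := hcard _ hsub
      have c2 := hsum _ hsub
      rw [card_insert_of_notMem hvu] at c1
      rw [sum_insert hvu] at c2
      have c3 := hI.sum
      obtain ⟨L', U', x', W', t', hI', b1, b2, b3, b4⟩ := Ptr2_step hD (by omega : 2 ≤ L₀) hLm hI hvu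
        (by omega) (by omega)
      rw [insert_union]
      refine ⟨L', U', x', W', t', hI', b1, ?_⟩
      rw [card_insert_of_notMem hvu]
      rcases hor with h | h
      · rcases b2 with h' | h'
        · left; omega
        · right; exact h'
      · right
        exact b4 hvl h
  obtain ⟨L, U, x, W, t, hI, hLL, hor⟩ := second (X \ S₁) sdiff_subset fun v hv =>
    (mem_sdiff.1 hv).2
  rw [sdiff_union_of_subset hS₁X] at hI hor
  exact ⟨L, U, x, W, t, hI.hL, hI.hU, hI.sum, hI.lead, hLL, hor, hI.pt, hI.inj, hI.disj⟩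

end Pool.Agent.H.MP_936c16_co
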