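import Pool.Agent.H.MP_936c16_co.Ptr

/-!
The sets of the weighted degrees in the threads which start with weights near `s`.
-/

set_option autoImplicit false

namespace Pool.Agent.H.MP_936c16_co

open Finset

variable {V : Type} [DecidableEq V]

private theorem Ptr3_aux (len : V → ℕ) {s D A Lm : ℕ} (hLm : Lm + 3 ≤ s) (hA : A + 4 ≤ s)
    (Y : Finset V) : ∀ E : ℕ, E ≤ D → A + 6 + 2 * #Y ≤ E → ∀ L₁ U₁ : ℕ,
    U₁ + E ≤ s + L₁ → s < U₁ → 2 ≤ L₁ → L₁ ≤ Lm →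
    L₁ + U₁ + ∑ v ∈ Y, len v + D + 4 ≤ 2 * Lm + s →
    ∃ (L U : ℕ) (W : V → Finset ℕ) (δ : V → ℕ), L₁ ≤ L ∧ U₁ ≤ U ∧
      L + U ≤ L₁ + U₁ + ∑ v ∈ Y, len v ∧ U + A + 6 ≤ s + L ∧ L ≤ Lm ∧
      (∀ v ∈ Y, δ v ≤ 2 ∧ (∀ β, s ≤ β + A → β + 4 ≤ s →
          Fill s (2 * (len v / 2)) β (W v) (β + δ v - 1)) ∧
        #(W v) = 2 * (len v / 2) ∧ ∀ w ∈ W v, (L₁ ≤ w ∧ w < L) ∨ (U₁ ≤ w ∧ w < U)) ∧
      ∀ v ∈ Y, ∀ v' ∈ Y, v ≠ v' → Disjoint (W v) (W v') := by
  induction Y using Finset.induction_on with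
  | empty =>
    intro E hED hE L₁ U₁ h1 h2 h3 h4 h5
    rw [Finset.card_empty] at hE
    refine ⟨L₁, U₁, fun _ => ∅, fun _ => 0, le_rfl, le_rfl, by simp, by omega, h4, ?_, ?_⟩
    · intro v hv
      exact absurd hv (Finset.notMem_empty v)
    · intro v hv
      exact absurd hv (Finset.notMem_empty v)
  | insert x Y hx ih =>
    intro E hED hE L₁ U₁ h1 h2 h3 h4 h5
    rw [Finset.card_insert_of_notMem hx] at hE
    rw [Finset.sum_insert hx] at h5 ⊢
    have hlen : 2 * (len x / 2) ≤ len x := Nat.mul_div_le _ _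
    obtain ⟨L', U', d, a1, a2, a3, a4, a5, -, -, a6, a7⟩ :=
      ptr_res (s := s) (L := L₁) (U := U₁) (D := D) (E := E) (A := A) (p := len x / 2)
        (Lm := Lm) (by omega) hED h1 h2 h3 h4 hLm hA (by omega)
    obtain ⟨L, U, W, δ, b1, b2, b3, b4, b5, b6, b7⟩ := ih (E - 2) (by omega) (by omega) L' U'
      (by omega) (by omega) (by omega) a5 (by omega)
    have hdj : Disjoint (Ico L₁ L') (Ico U₁ U') := by
      rw [Finset.disjoint_left]
      intro w hw hw'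
      rw [Finset.mem_Ico] at hw hw'
      omega
    have hne : ∀ v ∈ Y, v ≠ x := fun v hv h => hx (h ▸ hv)
    have hout : ∀ v ∈ Y, Disjoint (Ico L₁ L' ∪ Ico U₁ U') (W v) := by
      intro v hv
      rw [Finset.disjoint_left]
      intro w hw hw'
      rw [Finset.mem_union, Finset.mem_Ico, Finset.mem_Ico] at hw
      have h6 := (b6 v hv).2.2.2 w hw'
      omega
    refine ⟨L, U, fun v => if v = x then Ico L₁ L' ∪ Ico U₁ U' else W v,
      fun v => if v = x then d else δ v, by omega, by omega, by omega, b4, b5, ?_, ?_⟩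
    · intro v hv
      rcases Finset.mem_insert.1 hv with rfl | hv
      · beta_reduce
        rw [if_pos rfl, if_pos rfl]
        refine ⟨a6, a7, ?_, ?_⟩
        · rw [Finset.card_union_of_disjoint hdj, Nat.card_Ico, Nat.card_Ico]
          omega
        · intro w hw
          rw [Finset.mem_union, Finset.mem_Ico, Finset.mem_Ico] at hw
          omega
      · beta_reduce
        rw [if_neg (hne v hv), if_neg (hne v hv)]
        obtain ⟨c1, c2, c3, c4⟩ := b6 v hv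
        refine ⟨c1, c2, c3, ?_⟩
        intro w hw
        have h6 := c4 w hw
        omega
    · intro v hv v' hv' hvv
      beta_reduce
      rcases Finset.mem_insert.1 hv with hv1 | hv1
      · rcases Finset.mem_insert.1 hv' with hv2 | hv2
        · exact absurd (hv1.trans hv2.symm) hvv
        · rw [if_pos hv1, if_neg (hne v' hv2)]
          exact hout v' hv2
      · rcases Finset.mem_insert.1 hv' with hv2 | hv2
        · rw [if_pos hv2, if_neg (hne v hv1)]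
          exact (hout v hv1).symm
        · rw [if_neg (hne v hv1), if_neg (hne v' hv2)]
          exact b7 v hv1 v' hv2 hvv

/-- the threads which start with weights near `s` -/
theorem ptr_ress (Y : Finset V) (len : V → ℕ) {s D E A Lm : ℕ} (hED : E ≤ D)
    (hE : A + 6 + 2 * #Y ≤ E) (hLm : Lm + 3 ≤ s) (hA : A + 4 ≤ s) : ∀ L₁ U₁ : ℕ,
    U₁ + E ≤ s + L₁ → s < U₁ → 2 ≤ L₁ → L₁ ≤ Lm →
    L₁ + U₁ + ∑ v ∈ Y, len v + D + 4 ≤ 2 * Lm + s →
    ∃ (L U : ℕ) (W : V → Finset ℕ) (δ : V → ℕ), L₁ ≤ L ∧ U₁ ≤ U ∧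
      L + U ≤ L₁ + U₁ + ∑ v ∈ Y, len v ∧ U + A + 6 ≤ s + L ∧ L ≤ Lm ∧
      (∀ v ∈ Y, δ v ≤ 2 ∧ (∀ β, s ≤ β + A → β + 4 ≤ s →
          Fill s (2 * (len v / 2)) β (W v) (β + δ v - 1)) ∧
        #(W v) = 2 * (len v / 2) ∧ ∀ w ∈ W v, (L₁ ≤ w ∧ w < L) ∨ (U₁ ≤ w ∧ w < U)) ∧
      ∀ v ∈ Y, ∀ v' ∈ Y, v ≠ v' → Disjoint (W v) (W v') := by
  exact Ptr3_aux len hLm hA Y E hED hE

end Pool.Agent.H.MP_936c16_co
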