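import Pool.Agent.H.MP_936c16_co.Ptr2
import Pool.Agent.H.MP_936c16_co.Ptr3
import Pool.Agent.H.MP_936c16_co.Sel

/-!
The sets of the weighted degrees in the threads: threads in `X` start at leaves, those in `Y` start with
weights near `s`.
-/

set_option autoImplicit false

namespace Pool.Agent.H.MP_936c16_co

open Finset

variable {V : Type} [DecidableEq V]

private theorem ptr4_num (Y : Finset V) : ∃ j : V → ℕ, (∀ v ∈ Y, j v < #Y) ∧
    ∀ v ∈ Y, ∀ v' ∈ Y, j v = j v' → v = v' := by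
  refine ⟨fun v => if h : v ∈ Y then (Y.equivFin ⟨v, h⟩).val else 0, fun v hv => ?_,
    fun v hv v' hv' h => ?_⟩
  · show (if h : v ∈ Y then (Y.equivFin ⟨v, h⟩).val else 0) < #Y
    rw [dif_pos hv]
    exact (Y.equivFin ⟨v, hv⟩).isLt
  · have h' : (if h : v ∈ Y then (Y.equivFin ⟨v, h⟩).val else 0) =
      (if h : v' ∈ Y then (Y.equivFin ⟨v', h⟩).val else 0) := h
    rw [dif_pos hv, dif_pos hv'] at h'
    exact congrArg Subtype.val (Y.equivFin.injective (Fin.ext h'))

/-- The sets of the weighted degrees in the threads. -/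
theorem exists_fills4 (X Y : Finset V) (len : V → ℕ) (hXY : Disjoint X Y) {s b : ℕ} (hb : 1 ≤ b)
    (hY : #Y ≤ 3 * b) (h1 : #X + 24 * (b + 1) ≤ s)
    (h2 : #X + ∑ v ∈ X ∪ Y, len v + 48 * (b + 1) ≤ 2 * s) :
    ∃ (x : V → ℕ) (W : V → Finset ℕ) (t : V → ℕ → ℕ),
      (∀ v ∈ X, 2 ≤ x v ∧ x v + (4 * b + 6) ≤ s ∧ 1 ≤ t v (x v) ∧ t v (x v) ≤ s ∧
        Fill s (len v) (x v) (W v) (t v (x v))) ∧
      (∀ v ∈ Y, ∀ β, s ≤ β + (4 * b + 5) → β + 4 ≤ s → Fill s (len v) β (W v) (t v β) ∧
        s ≤ t v β + (7 * b + 9) ∧ t v β ≤ s) ∧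
      (∀ v ∈ Y, ∀ β β', s ≤ β + (4 * b + 5) → β + 4 ≤ s → s ≤ β' + (4 * b + 5) → β' + 4 ≤ s →
        t v β = t v β' → β = β') ∧
      (∀ v ∈ X ∪ Y, #(W v) = len v ∧ ∀ w ∈ W v, 2 ≤ w ∧ w ≤ 2 * s ∧
        (w + (4 * b + 6) ≤ s ∨ s < w) ∧ ∀ v' ∈ X, w ≠ x v') ∧
      (∀ v ∈ X, ∀ v' ∈ X, x v = x v' → v = v') ∧
      ∀ v ∈ X ∪ Y, ∀ v' ∈ X ∪ Y, v ≠ v' → Disjoint (W v) (W v') := by
  rw [sum_union hXY] at h2
  obtain ⟨L, U, x, W, t, a1, a2, a3, a4, a5, -, a6, a7, a8⟩ := ptr_regs X len (s := s)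
    (D := 10 * b + 12) (Lm := s - 4 * b - 5) (L₀ := 10 * b + 13) (by omega) rfl (by omega)
    (by omega) (by omega)
  obtain ⟨L', U', W', δ, c1, c2, c3, c4, c5, c6, c7⟩ := ptr_ress Y len (s := s)
    (D := 10 * b + 12) (E := 10 * b + 11) (A := 4 * b + 5) (Lm := s - 4 * b - 5) (by omega)
    (by omega) (by omega) (by omega) L U (by omega) (by omega) (by omega) a5 (by omega)
  obtain ⟨j, hj1, hj2⟩ := ptr4_num Y
  have hYX : ∀ v ∈ Y, v ∉ X := fun v hv hv' => disjoint_left.1 hXY hv' hv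
  obtain ⟨z, hz⟩ : ∃ z : V → ℕ, z = fun v => 2 * s - (7 * b + 9) + j v := ⟨_, rfl⟩
  obtain ⟨Z, hZ⟩ : ∃ Z : V → Finset ℕ, Z = fun v => if len v % 2 = 1 then {z v} else ∅ :=
    ⟨_, rfl⟩
  have hzv : ∀ v ∈ Y, 2 * s ≤ z v + (7 * b + 9) ∧ z v + (4 * b + 10) ≤ 2 * s := by
    intro v hv
    have e1 := hj1 v hv
    have e2 : z v = 2 * s - (7 * b + 9) + j v := by rw [hz]
    omega
  have hZm : ∀ v w, w ∈ Z v → w = z v := by
    intro v w hw
    rw [hZ] at hw
    dsimp only at hw
    split_ifs at hw with h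
    · exact mem_singleton.1 hw
    · exact absurd hw (notMem_empty w)
  obtain ⟨W₂, hW₂⟩ : ∃ W₂ : V → Finset ℕ, W₂ = fun v => if v ∈ X then W v else W' v ∪ Z v :=
    ⟨_, rfl⟩
  have hWX : ∀ v ∈ X, W₂ v = W v := fun v hv => by
    rw [hW₂]
    exact if_pos hv
  have hWY : ∀ v ∈ Y, W₂ v = W' v ∪ Z v := fun v hv => by
    rw [hW₂]
    exact if_neg (hYX v hv)
  obtain ⟨t₂, ht₂⟩ : ∃ t₂ : V → ℕ → ℕ, t₂ = fun v β => if v ∈ X then t v else
      if len v % 2 = 1 then z v - (β + δ v - 1) else β + δ v - 1 := ⟨_, rfl⟩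
  have htX : ∀ v ∈ X, ∀ β, t₂ v β = t v := fun v hv β => by
    rw [ht₂]
    exact if_pos hv
  have htY : ∀ v ∈ Y, ∀ β, t₂ v β =
      if len v % 2 = 1 then z v - (β + δ v - 1) else β + δ v - 1 := fun v hv β => by
    rw [ht₂]
    exact if_neg (hYX v hv)
  -- the elements of the sets
  have hmX : ∀ v ∈ X, ∀ w ∈ W v, (10 * b + 13 ≤ w ∧ w < L) ∨ (s < w ∧ w < U) :=
    fun v hv => (a6 v hv).2.2.2.2.2.2.1
  have hmY : ∀ v ∈ Y, ∀ w ∈ W' v ∪ Z v, ((L ≤ w ∧ w < L') ∨ (U ≤ w ∧ w < U')) ∨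
      (w = z v ∧ w ∈ Z v) := by
    intro v hv w hw
    rcases mem_union.1 hw with h | h
    · exact Or.inl ((c6 v hv).2.2.2 w h)
    · exact Or.inr ⟨hZm v w h, h⟩
  refine ⟨x, W₂, t₂, ?_, ?_, ?_, ?_, a7, ?_⟩
  · intro v hv
    obtain ⟨e1, e2, e3, e4, e5, -⟩ := a6 v hv
    rw [hWX v hv, htX v hv]
    exact ⟨by omega, by omega, e3, e4, e5⟩
  · intro v hv β hβ hβ'
    obtain ⟨e1, e2, -, -⟩ := c6 v hv
    have e3 := e2 β hβ hβ'
    have e4 := hzv v hv
    rw [hWY v hv, htY v hv]
    by_cases h : len v % 2 = 1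
    · rw [if_pos h]
      have e5 : Z v = {z v} := by
        rw [hZ]
        exact if_pos h
      have e6 : Fill s 1 (β + δ v - 1) {z v} (z v - (β + δ v - 1)) :=
        Fill.single (by omega) (by omega) (by omega)
      have e7 := e3.append e6
      rw [show 2 * (len v / 2) + 1 = len v by omega] at e7
      rw [e5]
      exact ⟨e7, by omega, by omega⟩
    · rw [if_neg h]
      have e5 : Z v = ∅ := by
        rw [hZ]
        exact if_neg h
      rw [show 2 * (len v / 2) = len v by omega] at e3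
      rw [e5, union_empty]
      exact ⟨e3, by omega, by omega⟩
  · intro v hv β β' h3 h4 h5 h6 h7
    have e1 := (c6 v hv).1
    have e4 := hzv v hv
    rw [htY v hv, htY v hv] at h7
    split_ifs at h7 with h <;> omega
  · intro v hv
    rcases mem_union.1 hv with hv | hv
    · rw [hWX v hv]
      obtain ⟨e1, e2, e3, e4, e5, e6, e7, e8⟩ := a6 v hv
      refine ⟨e6, fun w hw => ?_⟩
      have e9 := e7 w hw
      refine ⟨by omega, by omega, by omega, fun v' hv' h => ?_⟩
      exact e8 v' hv' (h ▸ hw)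
    · rw [hWY v hv]
      have e1 := hzv v hv
      refine ⟨?_, fun w hw => ?_⟩
      · have e2 : Disjoint (W' v) (Z v) := by
          rw [disjoint_left]
          intro w hw hw'
          have e3 := (c6 v hv).2.2.2 w hw
          have e4 := hZm v w hw'
          omega
        have e5 : #(Z v) = len v % 2 := by
          rw [hZ]
          dsimp only
          split_ifs with h
          · rw [card_singleton, h]
          · rw [card_empty]
            omega
        rw [card_union_of_disjoint e2, (c6 v hv).2.2.1, e5]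
        omega
      · have e2 := hmY v hv w hw
        refine ⟨by omega, by omega, by omega, fun v' hv' h => ?_⟩
        have e3 := a6 v' hv'
        omega
  · have key : ∀ v ∈ X, ∀ v' ∈ Y, Disjoint (W v) (W' v' ∪ Z v') := by
      intro v hv v' hv'
      rw [disjoint_left]
      intro w hw hw'
      have e1 := hmX v hv w hw
      have e2 := hmY v' hv' w hw'
      have e3 := hzv v' hv'
      omega
    intro v hv v' hv' hne
    rcases mem_union.1 hv with hv | hv
    · rcases mem_union.1 hv' with hv' | hv'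
      · rw [hWX v hv, hWX v' hv']
        exact a8 v hv v' hv' hne
      · rw [hWX v hv, hWY v' hv']
        exact key v hv v' hv'
    · rcases mem_union.1 hv' with hv' | hv'
      · rw [hWY v hv, hWX v' hv']
        exact (key v' hv' v hv).symm
      · rw [hWY v hv, hWY v' hv', disjoint_left]
        intro w hw hw'
        have e1 := hzv v hv
        have e2 := hzv v' hv'
        rcases mem_union.1 hw with h | h
        · rcases mem_union.1 hw' with h' | h'
          · exact disjoint_left.1 (c7 v hv v' hv' hne) h h'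
          · have e3 := (c6 v hv).2.2.2 w h
            have e4 := hZm v' w h'
            omega
        · rcases mem_union.1 hw' with h' | h'
          · have e3 := (c6 v' hv').2.2.2 w h'
            have e4 := hZm v w h
            omega
          · have e3 := hZm v w h
            have e4 := hZm v' w h'
            have e5 : j v = j v' := by
              have e6 : z v = 2 * s - (7 * b + 9) + j v := by rw [hz]
              have e7 : z v' = 2 * s - (7 * b + 9) + j v' := by rw [hz]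
              omega
            exact hne (hj2 v hv v' hv' e5)

end Pool.Agent.H.MP_936c16_co
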