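import Pool.Agent.H.MP_936c16_co.Greedy2

/-!
Stars.
-/

set_option autoImplicit false

namespace Pool.Agent.H.MP_936c16_co

open Finset

/-- an injection into an interval -/
theorem exists_inj {V : Type} [DecidableEq V] (S : Finset V) (m : ℕ) :
    ∃ a : V → ℕ, (∀ v ∈ S, m < a v ∧ a v ≤ m + #S) ∧ Set.InjOn a S := by
  induction S using Finset.induction_on with
  | empty => exact ⟨fun _ => 0, by simp, by simp⟩
  | insert x S hx ih =>
    obtain ⟨a, h1, h2⟩ := ih
    have hne : ∀ v ∈ S, v ≠ x := by
      intro v hv h
      exact hx (by rw [← h]; exact hv)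
    rw [card_insert_of_notMem hx]
    refine ⟨Function.update a x (m + #S + 1), ?_, ?_⟩
    · intro v hv
      rw [mem_insert] at hv
      rcases hv with rfl | hv
      · rw [Function.update_self]
        omega
      · rw [Function.update_of_ne (hne v hv)]
        have := h1 v hv
        omega
    · intro u hu v hv huv
      rw [mem_coe, mem_insert] at hu hv
      rcases hu with hu | hu <;> rcases hv with hv | hv
      · rw [hu, hv]
      · rw [hu, Function.update_self, Function.update_of_ne (hne v hv)] at huv
        have := h1 v hv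
        omega
      · rw [hv, Function.update_self, Function.update_of_ne (hne u hu)] at huv
        have := h1 u hu
        omega
      · rw [Function.update_of_ne (hne u hu), Function.update_of_ne (hne v hv)] at huv
        exact h2 hu hv huv

namespace RT

variable {V : Type} [Fintype V] [DecidableEq V] (T : RT V)

/-- the star -/
theorem star (hr : 2 ≤ #(T.ch T.r)) (hI : T.I = ∅) {M : ℕ} (hM : #T.L ≤ M) :
    ∃ e : V → ℕ, e T.r = 0 ∧ (∀ v, v ≠ T.r → 1 ≤ e v ∧ e v ≤ M) ∧
      Function.Injective (T.w e) := by
  obtain ⟨a, h1, h2⟩ := exists_inj T.L 0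
  have hL : ∀ v, v ≠ T.r → v ∈ T.L := by
    intro v hv
    rw [T.mem_L]
    refine ⟨hv, ?_⟩
    by_contra hcon
    have : v ∈ T.I := T.mem_I.2 ⟨hv, hcon⟩
    rw [hI] at this
    exact absurd this (notMem_empty v)
  have hLr : 2 ≤ #T.L := by
    refine hr.trans (card_le_card fun v hv => hL v (T.mem_ch.1 hv).1)
  have ha : ∀ v, v ≠ T.r → 1 ≤ a v ∧ a v ≤ #T.L := by
    intro v hv
    have := h1 v (hL v hv)
    omega
  refine ⟨Function.update a T.r 0, Function.update_self _ _ _, ?_, ?_⟩
  · intro v hv
    rw [Function.update_of_ne hv]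
    have := ha v hv
    omega
  have hwL : ∀ v, v ≠ T.r → T.w (Function.update a T.r 0) v = a v := by
    intro v hv
    have h3 := (T.mem_L.1 (hL v hv)).2
    rw [w, c, h3, sum_empty, Function.update_of_ne hv, zero_add]
  have hwr : ∀ v, v ≠ T.r → a v < T.w (Function.update a T.r 0) T.r := by
    intro v hv
    have hvr : v ∈ T.ch T.r := by
      rw [T.mem_ch]
      refine ⟨hv, ?_⟩
      by_contra hcon
      have h3 := (T.mem_L.1 (hL _ hcon)).2
      have h4 : v ∈ T.ch (T.par v) := T.mem_ch.2 ⟨hv, rfl⟩
      rw [h3] at h4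
      exact absurd h4 (notMem_empty v)
    obtain ⟨u, hu, huv⟩ := exists_mem_ne (s := T.ch T.r) (by omega) v
    have hur := (T.mem_ch.1 hu).1
    have h5 : ∑ x ∈ {u, v}, Function.update a T.r 0 x ≤ T.c (Function.update a T.r 0) T.r := by
      refine sum_le_sum_of_subset ?_
      intro x hx
      rw [mem_insert, mem_singleton] at hx
      rcases hx with rfl | rfl
      · exact hu
      · exact hvr
    rw [sum_pair huv, Function.update_of_ne hur, Function.update_of_ne hv] at h5
    rw [w]
    have := ha u hur
    omega
  intro u v huv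
  by_cases hu : u = T.r
  · by_cases hv : v = T.r
    · rw [hu, hv]
    · rw [hu, hwL v hv] at huv
      have := hwr v hv
      omega
  · by_cases hv : v = T.r
    · rw [hv, hwL u hu] at huv
      have := hwr u hu
      omega
    · rw [hwL u hu, hwL v hv] at huv
      exact h2 (hL u hu) (hL v hv) huv

end RT

end Pool.Agent.H.MP_936c16_co
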