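import Pool.Agent.H.MP_936c16_co.Pick

/-!
The root stage with holes in the set of the weights of the leaves.
-/

set_option autoImplicit false

namespace Pool.Agent.H.MP_936c16_co

open Finset

/-- an injection into a set of numbers -/
theorem exists_inj2 {V : Type} [DecidableEq V] (S : Finset V) (R : Finset ℕ) (h : #S ≤ #R) :
    ∃ a : V → ℕ, (∀ v ∈ S, a v ∈ R) ∧ Set.InjOn a S := by
  obtain ⟨R', hR', hc⟩ := exists_subset_card_eq h
  obtain ⟨f⟩ : Nonempty (S ≃ R') := ⟨equivOfCardEq hc.symm⟩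
  refine ⟨fun v => if hv : v ∈ S then (f ⟨v, hv⟩ : ℕ) else 0, ?_, ?_⟩
  · intro v hv
    show (if hv : v ∈ S then (f ⟨v, hv⟩ : ℕ) else 0) ∈ R
    rw [dif_pos hv]
    exact hR' (f ⟨v, hv⟩).2
  · intro u hu v hv huv
    rw [mem_coe] at hu hv
    have h1 : (if hv : u ∈ S then (f ⟨u, hv⟩ : ℕ) else 0) =
      if hv : v ∈ S then (f ⟨v, hv⟩ : ℕ) else 0 := huv
    rw [dif_pos hu, dif_pos hv] at h1
    have h2 := f.injective (Subtype.ext h1)
    exact congrArg Subtype.val h2

namespace RT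

variable {V : Type} [Fintype V] [DecidableEq V] (T : RT V)

/-- The root stage. -/
theorem root_stage2 {p : V} (hp : p ∈ T.ch T.r) (hpI : T.ch p ≠ ∅)
    (hΛ : ∀ v ∈ T.ch T.r, v ≠ p → T.ch v = ∅) (hr : 2 ≤ #(T.ch T.r)) {M n x g : ℕ}
    (hM : M = n + x + g) (hLn : #T.L = n) (hn : n ≤ (g + 1) * x + 1) (hD : #T.D ≤ x + 2)
    (hD' : #(T.ch T.r) = 2 → #T.D ≤ x + 1) :
    ∃ e : V → ℕ, e T.r = 0 ∧ (∀ v, v ≠ T.r → 1 ≤ e v ∧ e v ≤ M) ∧
      Function.Injective (T.w e) := by
  obtain ⟨Λ, hΛdef⟩ : ∃ Λ : Finset V, Λ = (T.ch T.r).erase p := ⟨_, rfl⟩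
  have hΛc : #Λ + 1 = #(T.ch T.r) := by
    rw [hΛdef, card_erase_of_mem hp]
    omega
  have hmΛ : ∀ v, v ∈ Λ ↔ v ≠ p ∧ v ≠ T.r ∧ T.par v = T.r := by
    intro v
    rw [hΛdef, mem_erase, T.mem_ch]
  have hΛL : Λ ⊆ T.L := by
    intro v hv
    have h1 := (hmΛ v).1 hv
    rw [T.mem_L]
    exact ⟨h1.2.1, hΛ v (T.mem_ch.2 h1.2) h1.1⟩
  have hpr := T.mem_ch.1 hp
  have hpI' : p ∈ T.I := T.mem_I.2 ⟨hpr.1, hpI⟩
  have hLΛ : ∀ v ∈ T.L, (v ∈ Λ ↔ T.par v = T.r) := by
    intro v hv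
    rw [hmΛ]
    have h1 := T.mem_L.1 hv
    constructor
    · exact fun h => h.2.2
    · intro h
      refine ⟨?_, h1.1, h⟩
      rintro rfl
      exact hpI h1.2
  have hΛn : #Λ ≤ #T.L := card_le_card hΛL
  obtain ⟨j, hj⟩ : ∃ j, #Λ = j := ⟨_, rfl⟩
  have hD2 : #T.D ≤ x + j := by
    by_cases h : j = 1
    · have := hD' (by omega)
      omega
    · omega
  obtain ⟨m, hm⟩ : ∃ m, m = x + j := ⟨_, rfl⟩
  have hMm : M < m + (g + 1) * (x + 1) := by
    have h1 : (g + 1) * (x + 1) = (g + 1) * x + g + 1 := by ring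
    omega
  have hu := card_used (M := M) (m := m) (x := x) (g := g) hMm
  have hcard : #(T.L \ Λ) = #T.L - #Λ := card_sdiff_of_subset hΛL
  obtain ⟨a, ha1, ha2⟩ := exists_inj2 (T.L \ Λ) (Ioc m M \ avail M m x) (by omega)
  have ha1' : ∀ v ∈ T.L \ Λ, (m < a v ∧ a v ≤ M) ∧ a v ∉ avail M m x := by
    intro v hv
    have := ha1 v hv
    rw [mem_sdiff, mem_Ioc] at this
    exact this
  have hmem : ∀ v ∈ T.L, T.par v ≠ T.r → v ∈ T.L \ Λ := by
    intro v hv h
    rw [mem_sdiff, hLΛ v hv]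
    exact ⟨hv, h⟩
  have ha : ∀ v ∈ T.L, T.par v ≠ T.r → m < a v := fun v hv h => (ha1' v (hmem v hv h)).1.1
  have hai : ∀ u ∈ T.L, ∀ v ∈ T.L, T.par u ≠ T.r → T.par v ≠ T.r → a u = a v → u = v := by
    intro u hu v hv h1 h2 h3
    exact ha2 (mem_coe.2 (hmem u hu h1)) (mem_coe.2 (hmem v hv h2)) h3
  have hIc := T.card_I_le
  have hDm : #T.D ≤ m := by omega
  obtain ⟨e, he⟩ := T.greedy (a := a) (M := M) (by omega) ha hai hDm
  have hfree := T.free he (by omega) ha hai hDm
  -- the weights of the leaves at the root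
  have hOc : #(T.I.image (T.w e)) ≤ #T.I := card_image_le
  obtain ⟨b, hb1, hb2, ht3⟩ := pick2 Λ (M := M) (n := n) (x := x) (g := g) (e := e p) hj
    (by omega) (by omega) hM hn (he.pos p hpI') (he.le p hpI') (T.I.image (T.w e))
    (by
      intro h
      rw [mem_image] at h
      obtain ⟨x, hx, hx'⟩ := h
      exact hfree x hx hx')
    (by omega)
  rw [← hm] at hb1 ht3
  obtain ⟨t, hb3⟩ : ∃ t, ∑ v ∈ Λ, b v = t := ⟨_, rfl⟩
  rw [hb3] at ht3
  obtain ⟨f, hf⟩ : ∃ f : V → ℕ, f = fun v => if v = T.r then 0 else if v ∈ Λ then b v else e v :=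
    ⟨_, rfl⟩
  have hfr : f T.r = 0 := by
    rw [hf]
    exact if_pos rfl
  have hfΛ : ∀ v ∈ Λ, f v = b v := by
    intro v hv
    rw [hf]
    simp only
    rw [if_neg ((hmΛ v).1 hv).2.1, if_pos hv]
  have hfe : ∀ v, v ≠ T.r → v ∉ Λ → f v = e v := by
    intro v h1 h2
    rw [hf]
    simp only
    rw [if_neg h1, if_neg h2]
  have hcf : ∀ v, v ≠ T.r → T.c f v = T.c e v := by
    intro v hv
    refine sum_congr rfl fun u hu => ?_
    have hu' := T.mem_ch.1 hu
    refine hfe u hu'.1 fun h => ?_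
    exact hv (hu'.2.symm.trans ((hmΛ u).1 h).2.2)
  have hwI : ∀ v ∈ T.I, T.w f v = T.w e v := by
    intro v hv
    have hv' := T.mem_I.1 hv
    rw [w, w, hcf v hv'.1, hfe v hv'.1]
    intro h
    exact hv'.2 (T.mem_L.1 (hΛL h)).2
  have hwΛ : ∀ v ∈ Λ, T.w f v = b v := by
    intro v hv
    rw [w, c, (T.mem_L.1 (hΛL hv)).2, sum_empty, zero_add, hfΛ v hv]
  have hwL : ∀ v ∈ T.L, v ∉ Λ → T.w f v = a v := by
    intro v hv hv'
    have h1 := T.mem_L.1 hv
    rw [w, c, h1.2, sum_empty, zero_add, hfe v h1.1 hv', he.leaf v hv]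
  have hwr : T.w f T.r = e p + t := by
    rw [w, hfr, add_zero, c, ← add_sum_erase _ _ hp, ← hΛdef, hfe p hpr.1, sum_congr rfl hfΛ, hb3]
    rw [hmΛ]
    exact fun h => h.1 rfl
  have htot : ∀ v, v = T.r ∨ v ∈ T.I ∨ v ∈ Λ ∨ (v ∈ T.L ∧ v ∉ Λ) := by
    intro v
    rw [T.mem_I, T.mem_L]
    by_cases h1 : v = T.r
    · exact Or.inl h1
    · by_cases h2 : T.ch v = ∅
      · by_cases h3 : v ∈ Λ
        · exact Or.inr (Or.inr (Or.inl h3))
        · exact Or.inr (Or.inr (Or.inr ⟨⟨h1, h2⟩, h3⟩))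
      · exact Or.inr (Or.inl ⟨h1, h2⟩)
  have hmem' : ∀ v ∈ T.L, v ∉ Λ → (m < a v ∧ a v ≤ M) ∧ a v ∉ avail M m x := by
    intro v hv hv'
    exact ha1' v (mem_sdiff.2 ⟨hv, hv'⟩)
  have hbS : ∀ v ∈ Λ, b v ≤ M := by
    intro v hv
    exact ((mem_avail.1 (hb1 v hv).2).1).2
  have hep := he.pos p hpI'
  have htb : ∀ v ∈ Λ, b v ≤ t := by
    intro v hv
    rw [← hb3]
    exact single_le_sum (f := b) (fun _ _ => Nat.zero_le _) hv
  refine ⟨f, hfr, ?_, ?_⟩
  · intro v hv
    rcases htot v with h | h | h | h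
    · exact absurd h hv
    · rw [hfe v hv (fun h' => (T.mem_I.1 h).2 (T.mem_L.1 (hΛL h')).2)]
      exact ⟨he.pos v h, he.le v h⟩
    · rw [hfΛ v h]
      exact ⟨(hb1 v h).1, hbS v h⟩
    · rw [hfe v hv h.2, he.leaf v h.1]
      have := (hmem' v h.1 h.2).1
      omega
  · have hIgt : ∀ v ∈ T.I, M < T.w f v := by
      intro v hv
      rw [hwI v hv]
      exact he.gt v hv
    have hrI : ∀ v ∈ T.I, T.w f T.r ≠ T.w f v := by
      intro v hv h0
      rcases ht3 with h | h
      · have h1 := hIgt v hv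
        rw [← h0, hwr] at h1
        have h2 := (mem_avail.1 h).1.2
        omega
      · rw [hwr, hwI v hv] at h0
        exact h.2 (mem_image.2 ⟨v, hv, h0.symm⟩)
    have hrΛ : ∀ v ∈ Λ, T.w f T.r ≠ T.w f v := by
      intro v hv
      rw [hwr, hwΛ v hv]
      have := htb v hv
      omega
    have hrL : ∀ v, v ∈ T.L → v ∉ Λ → T.w f T.r ≠ T.w f v := by
      intro v hv hv' h0
      rw [hwr, hwL v hv hv'] at h0
      have h1 := hmem' v hv hv'
      rcases ht3 with h | h
      · rw [h0] at h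
        exact h1.2 h
      · omega
    have hr_all : ∀ v, v ≠ T.r → T.w f T.r ≠ T.w f v := by
      intro v hv
      rcases htot v with h | h | h | h
      · exact absurd h hv
      · exact hrI v h
      · exact hrΛ v h
      · exact hrL v h.1 h.2
    have hdis : ∀ u ∈ Λ, ∀ v, v ∈ T.L → v ∉ Λ → b u ≠ a v := by
      intro u hu v hv hv' h0
      have h1 := (hmem' v hv hv').2
      rw [← h0] at h1
      exact h1 (hb1 u hu).2
    intro u v huv
    by_cases hu : u = T.r
    · by_cases hv : v = T.r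
      · rw [hu, hv]
      · rw [hu] at huv
        exact absurd huv (hr_all v hv)
    · by_cases hv : v = T.r
      · rw [hv] at huv
        exact absurd huv.symm (hr_all u hu)
      · rcases htot u with h | h | h | h
        · exact absurd h hu
        · rcases htot v with h' | h' | h' | h'
          · exact absurd h' hv
          · rw [hwI u h, hwI v h'] at huv
            exact he.inj h h' huv
          · rw [hwΛ v h'] at huv
            have h1 := hIgt u h
            have h2 := hbS v h'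
            omega
          · rw [hwL v h'.1 h'.2] at huv
            have h1 := hIgt u h
            have h2 := hmem' v h'.1 h'.2
            omega
        · rcases htot v with h' | h' | h' | h'
          · exact absurd h' hv
          · rw [hwΛ u h] at huv
            have h1 := hIgt v h'
            have h2 := hbS u h
            omega
          · rw [hwΛ u h, hwΛ v h'] at huv
            exact hb2 h h' huv
          · rw [hwΛ u h, hwL v h'.1 h'.2] at huv
            exact absurd huv (hdis u h v h'.1 h'.2)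
        · rcases htot v with h' | h' | h' | h'
          · exact absurd h' hv
          · rw [hwL u h.1 h.2] at huv
            have h1 := hIgt v h'
            have h2 := hmem' u h.1 h.2
            omega
          · rw [hwΛ v h', hwL u h.1 h.2] at huv
            exact absurd huv.symm (hdis v h' u h.1 h.2)
          · rw [hwL u h.1 h.2, hwL v h'.1 h'.2] at huv
            exact ha2 (mem_coe.2 (mem_sdiff.2 h)) (mem_coe.2 (mem_sdiff.2 h')) huv

end RT

end Pool.Agent.H.MP_936c16_co
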