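import Pool.Agent.H.MP_936c16_co.Greedy

/-!
The maximal paths of vertices of degree two (threads) of a rooted tree.

`D` is the set of the vertices (except the root) with exactly one child, `chi v` is the child of `v ∈ D`.
Going down from `v` one reaches the first vertex `bot v` outside `D` after `dn v` steps. `len b` is the
number of the vertices of the thread above `b`.
-/

set_option autoImplicit false

namespace Pool.Agent.H.MP_936c16_co

open Finset

namespace RT

variable {V : Type} [Fintype V] [DecidableEq V] (T : RT V)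

/-- the child of a vertex with exactly one child -/
noncomputable def chi (v : V) : V :=
  if h : v ∈ T.D then (card_eq_one.1 (T.mem_D.1 h).2).choose else v

theorem ch_eq {v : V} (h : v ∈ T.D) : T.ch v = {T.chi v} := by
  rw [chi, dif_pos h]
  exact (card_eq_one.1 (T.mem_D.1 h).2).choose_spec

theorem chi_mem {v : V} (h : v ∈ T.D) : T.chi v ∈ T.ch v := by
  rw [T.ch_eq h]
  exact mem_singleton_self _

theorem chi_ne {v : V} (h : v ∈ T.D) : T.chi v ≠ T.r := (T.mem_ch.1 (T.chi_mem h)).1

theorem par_chi {v : V} (h : v ∈ T.D) : T.par (T.chi v) = v := (T.mem_ch.1 (T.chi_mem h)).2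

theorem ht_chi {v : V} (h : v ∈ T.D) : T.ht v < T.ht (T.chi v) := by
  have h1 := T.lt _ (T.chi_ne h)
  rwa [T.par_chi h] at h1

theorem exists_out (v : V) : ∃ k, T.chi^[k] v ∉ T.D := by
  by_contra h
  push Not at h
  have h1 : ∀ k, k ≤ T.ht (T.chi^[k] v) := by
    intro k
    induction k with
    | zero => exact Nat.zero_le _
    | succ k ih =>
      rw [Function.iterate_succ_apply']
      exact ih.trans_lt (T.ht_chi (h k))
  have h2 := h1 (univ.sup T.ht + 1)
  have h3 : T.ht (T.chi^[univ.sup T.ht + 1] v) ≤ univ.sup T.ht := le_sup (mem_univ _)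
  omega

/-- the number of steps down to the first vertex outside `D` -/
noncomputable def dn (v : V) : ℕ := Nat.find (T.exists_out v)

/-- the first vertex outside `D` below `v` -/
noncomputable def bot (v : V) : V := T.chi^[T.dn v] v

theorem bot_notMem (v : V) : T.bot v ∉ T.D := Nat.find_spec (T.exists_out v)

theorem dn_of_notMem {v : V} (h : v ∉ T.D) : T.dn v = 0 :=
  (Nat.find_eq_zero (T.exists_out v)).2 h

theorem mem_of_dn_ne {v : V} (h : T.dn v ≠ 0) : v ∈ T.D := by
  by_contra h1
  exact h (T.dn_of_notMem h1)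

theorem notMem_of_dn {v : V} (h : T.dn v = 0) : v ∉ T.D :=
  (Nat.find_eq_zero (T.exists_out v)).1 h

theorem bot_of_notMem {v : V} (h : v ∉ T.D) : T.bot v = v := by
  rw [bot, T.dn_of_notMem h]
  rfl

theorem dn_eq {v : V} (h : v ∈ T.D) : T.dn v = T.dn (T.chi v) + 1 :=
  Nat.find_comp_succ (T.exists_out v) (T.exists_out (T.chi v)) (not_not.2 h)

theorem bot_eq {v : V} (h : v ∈ T.D) : T.bot v = T.bot (T.chi v) := by
  rw [bot, T.dn_eq h]
  rfl

theorem bot_ne {v : V} (h : v ≠ T.r) : T.bot v ≠ T.r := by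
  have h1 : ∀ k, T.chi^[k] v ≠ T.r := by
    intro k
    induction k with
    | zero => exact h
    | succ k ih =>
      rw [Function.iterate_succ_apply']
      by_cases h2 : T.chi^[k] v ∈ T.D
      · exact T.chi_ne h2
      · rw [chi, dif_neg h2]
        exact ih
  exact h1 _

theorem dn_bot_inj' : ∀ (n : ℕ) (u v : V), T.dn u = n → T.dn v = n → T.bot u = T.bot v →
    u = v := by
  intro n
  induction n with
  | zero =>
    intro u v hu hv h
    rw [T.bot_of_notMem (T.notMem_of_dn hu), T.bot_of_notMem (T.notMem_of_dn hv)] at h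
    exact h
  | succ n ih =>
    intro u v hu hv h
    have h1 : u ∈ T.D := T.mem_of_dn_ne (by omega)
    have h2 : v ∈ T.D := T.mem_of_dn_ne (by omega)
    have h3 := T.dn_eq h1
    have h4 := T.dn_eq h2
    rw [T.bot_eq h1, T.bot_eq h2] at h
    have h5 := ih (T.chi u) (T.chi v) (by omega) (by omega) h
    rw [← T.par_chi h1, h5, T.par_chi h2]

theorem iter_chi (v : V) : ∀ j, j ≤ T.dn v →
    T.dn (T.chi^[j] v) = T.dn v - j ∧ T.bot (T.chi^[j] v) = T.bot v := by
  intro j
  induction j with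
  | zero =>
    intro _
    exact ⟨rfl, rfl⟩
  | succ j ih =>
    intro hj
    obtain ⟨h1, h2⟩ := ih (by omega)
    have h3 : T.chi^[j] v ∈ T.D := T.mem_of_dn_ne (by omega)
    have h4 := T.dn_eq h3
    rw [Function.iterate_succ_apply']
    refine ⟨by omega, ?_⟩
    rw [← T.bot_eq h3]
    exact h2

/-- a vertex of a thread is determined by the thread and its position -/
theorem dn_bot_inj {u v : V} (hu : u ∈ T.D) (hv : v ∈ T.D) (h1 : T.bot u = T.bot v)
    (h2 : T.dn u = T.dn v) : u = v :=
  T.dn_bot_inj' (T.dn v) u v h2 rfl h1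

/-- the number of the vertices of the thread above `b` -/
noncomputable def len (b : V) : ℕ := #(T.D.filter fun v => T.bot v = b)

theorem dn_le_len {v : V} (h : v ∈ T.D) : T.dn v ≤ T.len (T.bot v) := by
  have h1 : #(range (T.dn v)) ≤ #(T.D.filter fun u => T.bot u = T.bot v) := by
    refine card_le_card_of_injOn (fun j => T.chi^[j] v) ?_ ?_
    · intro j hj
      have hj' : j < T.dn v := mem_range.1 (mem_coe.1 hj)
      obtain ⟨h2, h3⟩ := T.iter_chi v j hj'.le
      rw [mem_coe, mem_filter]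
      have h4 : T.dn (T.chi^[j] v) ≠ 0 := by omega
      exact ⟨T.mem_of_dn_ne h4, h3⟩
    · intro j hj i hi hji
      have hj' : j < T.dn v := mem_range.1 (mem_coe.1 hj)
      have hi' : i < T.dn v := mem_range.1 (mem_coe.1 hi)
      have h2 := (T.iter_chi v j hj'.le).1
      have h3 := (T.iter_chi v i hi'.le).1
      have h4 : T.chi^[j] v = T.chi^[i] v := hji
      rw [h4] at h2
      omega
  rw [card_range] at h1
  exact h1

/-- the vertices of the thread above `b` are at the positions `1, …, len b` -/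
theorem exists_pos {b : V} {i : ℕ} (h1 : 1 ≤ i) (h2 : i ≤ T.len b) :
    ∃ v ∈ T.D, T.bot v = b ∧ T.dn v = i := by
  by_contra hcon
  have h3 : #((T.D.filter fun v => T.bot v = b).image T.dn) = T.len b := by
    refine card_image_of_injOn fun u hu v hv huv => ?_
    rw [mem_coe, mem_filter] at hu hv
    exact T.dn_bot_inj hu.1 hv.1 (hu.2.trans hv.2.symm) huv
  have h4 : (T.D.filter fun v => T.bot v = b).image T.dn ⊆ Ioo 0 i := by
    intro m hm
    rw [mem_image] at hm
    obtain ⟨v, hv, rfl⟩ := hm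
    rw [mem_filter] at hv
    rw [mem_Ioo]
    have h5 := T.dn_eq hv.1
    refine ⟨by omega, ?_⟩
    by_contra h6
    apply hcon
    obtain ⟨h7, h8⟩ := T.iter_chi v (T.dn v - i) (Nat.sub_le _ _)
    refine ⟨_, T.mem_of_dn_ne ?_, h8.trans hv.2, ?_⟩
    · rw [h7]
      omega
    · rw [h7]
      omega
  have h5 := card_le_card h4
  rw [h3, Nat.card_Ioo] at h5
  omega

theorem par_mem {v : V} (h : v ≠ T.r) (h1 : T.dn v < T.len (T.bot v)) : T.par v ∈ T.D := by
  obtain ⟨w, hw, h2, h3⟩ := T.exists_pos (b := T.bot v) (i := T.dn v + 1) (by omega) h1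
  have h4 := T.dn_eq hw
  have h5 := T.dn_bot_inj' (T.dn v) (T.chi w) v (by omega) rfl (by rw [← T.bot_eq hw, h2])
  rw [← h5, T.par_chi hw]
  exact hw

/-- the vertices outside `D` except the root -/
def N : Finset V := univ.filter fun v => v ≠ T.r ∧ v ∉ T.D

theorem mem_N {v : V} : v ∈ T.N ↔ v ≠ T.r ∧ v ∉ T.D := by
  simp [N]

theorem bot_mem_N {v : V} (h : v ≠ T.r) : T.bot v ∈ T.N :=
  T.mem_N.2 ⟨T.bot_ne h, T.bot_notMem v⟩

theorem sum_len : ∑ b ∈ T.N, T.len b = #T.D :=
  (card_eq_sum_card_fiberwise fun v hv =>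
    mem_coe.2 (T.bot_mem_N (T.mem_D.1 (mem_coe.1 hv)).1)).symm

/-- the vertices with at least two children except the root -/
def B : Finset V := univ.filter fun v => v ≠ T.r ∧ 2 ≤ #(T.ch v)

theorem mem_B {v : V} : v ∈ T.B ↔ v ≠ T.r ∧ 2 ≤ #(T.ch v) := by
  simp [B]

theorem N_eq : T.N = T.L ∪ T.B := by
  ext v
  rw [mem_union, mem_N, mem_D, mem_L, mem_B, ← card_eq_zero]
  constructor
  · rintro ⟨h1, h2⟩
    have h3 : #(T.ch v) ≠ 1 := fun h => h2 ⟨h1, h⟩
    rcases Nat.lt_or_ge (#(T.ch v)) 2 with h4 | h4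
    · exact Or.inl ⟨h1, by omega⟩
    · exact Or.inr ⟨h1, h4⟩
  · rintro (⟨h1, h2⟩ | ⟨h1, h2⟩)
    · exact ⟨h1, fun h => by have := h.2; omega⟩
    · exact ⟨h1, fun h => by have := h.2; omega⟩

theorem disjoint_L_B : Disjoint T.L T.B := by
  rw [disjoint_left]
  intro v h1 h2
  rw [mem_L, ← card_eq_zero] at h1
  rw [mem_B] at h2
  omega

theorem card_B_le (hr : #(T.ch T.r) = 1) : #T.B + 1 ≤ #T.L := by
  have h1 := T.card_I_le
  have h2 : T.D ∪ T.B ⊆ T.I := by
    intro v hv
    rw [mem_union, mem_D, mem_B] at hv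
    rw [mem_I]
    rcases hv with hv | hv
    · exact ⟨hv.1, fun h => by rw [h, card_empty] at hv; omega⟩
    · exact ⟨hv.1, fun h => by rw [h, card_empty] at hv; omega⟩
  have h3 : Disjoint T.D T.B := by
    rw [disjoint_left]
    intro v h1 h2
    rw [mem_D] at h1
    rw [mem_B] at h2
    omega
  have h4 := card_le_card h2
  rw [card_union_of_disjoint h3] at h4
  omega

theorem card_N_le (hr : #(T.ch T.r) = 1) : #T.N + 1 ≤ 2 * #T.L := by
  have h1 := T.card_B_le hr
  have h2 := card_union_of_disjoint T.disjoint_L_B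
  rw [N_eq]
  omega

end RT

end Pool.Agent.H.MP_936c16_co
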