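import Pool.Agent.H.MP_936c16_co.Pairs
import Pool.Agent.H.MP_936c16_co.Choice

/-!
The weighting of a rooted tree whose root has exactly one child.
-/

set_option autoImplicit false

namespace Pool.Agent.H.MP_936c16_co

open Finset

variable {V : Type} [Fintype V] [DecidableEq V]

/-- the tree, the number `s` and the numberings -/
structure Dat (T : RT V) where
  u₀ : V
  s : ℕ
  iL : V → ℕ
  iN : V → ℕ
  il : V → ℕ → ℕ
  ih : V → ℕ → ℕ
  hr : T.ch T.r = {u₀}
  hu : u₀ ∉ T.L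
  hs : #T.D + 14 * #T.L ≤ 2 * s + 2
  L1 : ∀ x ∈ T.L, iL x < #T.L
  L2 : ∀ x ∈ T.L, ∀ y ∈ T.L, iL x = iL y → x = y
  N1 : ∀ x ∈ T.N, iN x < #T.N
  N2 : ∀ x ∈ T.N, ∀ y ∈ T.N, iN x = iN y → x = y
  l1 : ∀ b ∈ T.N, ∀ q, 1 ≤ q → q ≤ T.pr u₀ b / 2 → 4 * il b q + 4 ≤ #T.D
  l2 : ∀ b ∈ T.N, ∀ q, 1 ≤ q → q ≤ T.pr u₀ b / 2 → ∀ b' ∈ T.N, ∀ q', 1 ≤ q' →
    q' ≤ T.pr u₀ b' / 2 → il b q = il b' q' → b = b' ∧ q = q'
  h1 : ∀ b ∈ T.N, ∀ j, T.pr u₀ b / 2 + 2 ≤ j → j ≤ T.pr u₀ b → 4 * ih b j + 4 ≤ #T.D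
  h2 : ∀ b ∈ T.N, ∀ j, T.pr u₀ b / 2 + 2 ≤ j → j ≤ T.pr u₀ b → ∀ b' ∈ T.N, ∀ j',
    T.pr u₀ b' / 2 + 2 ≤ j' → j' ≤ T.pr u₀ b' → ih b j = ih b' j' → b = b' ∧ j = j'

namespace Dat

variable {T : RT V} (d : Dat T)

/-- the smallest small value -/
def A : ℕ := if d.u₀ ∈ T.D then 6 * #T.L - 1 else 5 * #T.L - 2

def f (b : V) : ℕ := d.s + 1 + 2 * d.iN b

def yl (b : V) (q : ℕ) : ℕ := d.A + 2 * d.il b q

def yh (b : V) (j : ℕ) : ℕ := d.s + 4 * #T.L + 2 * d.ih b j

/-- the number of the pairs of small values in the thread above `b` -/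
noncomputable def m (b : V) : ℕ := T.pr d.u₀ b / 2

/-- the weighted degree of a vertex in a pair -/
noncomputable def val (v : V) : ℕ :=
  Va (d.m (T.bot v)) (d.f (T.bot v)) (d.yl (T.bot v)) (d.yh (T.bot v)) (T.dn v)

/-- the vertices with one child which are not in pairs -/
noncomputable def base : Finset V :=
  T.D.filter fun v => v ≠ d.u₀ ∧ 2 * T.pr d.u₀ (T.bot v) < T.dn v

theorem mem_base {v : V} :
    v ∈ d.base ↔ v ∈ T.D ∧ v ≠ d.u₀ ∧ 2 * T.pr d.u₀ (T.bot v) < T.dn v := by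
  rw [base, mem_filter]

include d in
theorem card_ch : #(T.ch T.r) = 1 := by
  rw [d.hr, card_singleton]

theorem card_base_le : #d.base ≤ #T.N := by
  refine card_le_card_of_injOn T.bot ?_ ?_
  · intro v hv
    rw [mem_coe, mem_base] at hv
    exact T.bot_mem_N (T.mem_D.1 hv.1).1
  · intro u hu v hv huv
    rw [mem_coe, mem_base] at hu hv
    refine T.dn_bot_inj hu.1 hv.1 huv ?_
    have h1 := T.dn_le d.hr hu.1 hu.2.1
    have h2 := T.dn_le d.hr hv.1 hv.2.1
    have h3 := hu.2.2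
    have h4 := hv.2.2
    rw [huv] at h1 h3
    omega

theorem u₀_mem : d.u₀ ∈ T.D ∨ d.u₀ ∈ T.B := by
  have h1 := (T.par_u₀ d.hr).1
  have h2 := d.hu
  rw [T.mem_L] at h2
  rw [T.mem_D, T.mem_B]
  have h3 : T.ch d.u₀ ≠ ∅ := fun h => h2 ⟨h1, h⟩
  have h4 := card_pos.2 (nonempty_iff_ne_empty.2 h3)
  by_cases h5 : #(T.ch d.u₀) = 1
  · exact Or.inl ⟨h1, h5⟩
  · exact Or.inr ⟨h1, by omega⟩

theorem not_D_of_B {v : V} (h : v ∈ T.B) : v ∉ T.D := by
  rw [T.mem_D]
  rw [T.mem_B] at h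
  omega

theorem not_D_of_L {v : V} (h : v ∈ T.L) : v ∉ T.D := by
  rw [T.mem_D]
  rw [T.mem_L] at h
  rw [h.2, card_empty]
  omega

/-- the properties of the weights -/
structure Ok (e : V → ℕ) : Prop where
  root : e T.r = 0
  leaf : ∀ v ∈ T.L, e v = d.s - 1 - d.iL v
  spec : d.u₀ ∈ T.D → e d.u₀ = d.s + 4 * #T.L - 1 - e (T.chi d.u₀)
  blk : ∀ v ∈ T.D, T.dn v ≤ 2 * T.pr d.u₀ (T.bot v) → e v = d.val v - e (T.chi v)
  bas : ∀ v ∈ d.base, d.s + 1 ≤ e v + 2 * #T.L ∧ e v + 1 ≤ d.s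
  br : ∀ v ∈ T.B, v ≠ d.u₀ → d.s ≤ e v + #T.L ∧ e v + 1 ≤ d.s
  bru : d.u₀ ∈ T.B → d.s + 1 ≤ e d.u₀ + 2 * #T.L ∧ e d.u₀ + 1 ≤ d.s ∧
    ∀ x ∈ T.L, e x ≠ e d.u₀
  injD : ∀ u ∈ d.base, ∀ v ∈ d.base, T.w e u = T.w e v → u = v
  injB : ∀ u ∈ T.B, ∀ v ∈ T.B, T.w e u = T.w e v → u = v

theorem c_of_D {e : V → ℕ} {v : V} (h : v ∈ T.D) : T.c e v = e (T.chi v) := by
  rw [RT.c, T.ch_eq h, sum_singleton]

theorem exists_ok : ∃ e, d.Ok e := by
  have hB := T.card_B_le d.card_ch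
  have hN := T.card_N_le d.card_ch
  have hbase := d.card_base_le
  have hs := d.hs
  have hbD : ∀ v ∈ d.base, v ∈ T.D := fun v hv => (d.mem_base.1 hv).1
  have hdis : ∀ v, v ∈ T.B → v ∉ d.base := fun v hv hv' => not_D_of_B hv (hbD v hv')
  obtain ⟨e, h1, h2, h3, h4⟩ := T.exists_greedy (d.base ∪ T.B) (by
      rw [mem_union]
      rintro (h | h)
      · exact T.r_notMem_D (hbD _ h)
      · exact (T.mem_B.1 h).1 rfl)
    (fun v c => if v ∈ T.L then d.s - 1 - d.iL v else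
      if v = d.u₀ then d.s + 4 * #T.L - 1 - c else d.val v - c)
    (fun v => if v ∈ T.D then 1 else 0)
    (fun v => if v = d.u₀ then T.L.image (fun x => d.s - 1 - d.iL x) else ∅)
    (fun v => if v ∈ T.D ∨ v = d.u₀ then d.s + 1 - 2 * #T.L else d.s - #T.L)
    (fun _ => d.s - 1) (by
      intro v hv
      rw [mem_union] at hv
      rcases hv with hv | hv
      · have hvD := hbD v hv
        have hne := (d.mem_base.1 hv).2.1
        simp only [if_pos hvD, if_neg hne, if_pos (Or.inl hvD : v ∈ T.D ∨ v = d.u₀), card_empty,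
          add_zero]
        have h5 : #((d.base ∪ T.B).filter fun x => (if x ∈ T.D then 1 else 0) = 1) ≤ #d.base := by
          refine card_le_card fun x hx => ?_
          rw [mem_filter, mem_union] at hx
          rcases hx.1 with h | h
          · exact h
          · have h6 := hx.2
            rw [if_neg (not_D_of_B h)] at h6
            omega
        omega
      · have hvD := not_D_of_B hv
        have h5 : #((d.base ∪ T.B).filter fun x => (if x ∈ T.D then 1 else 0) = 0) ≤ #T.B := by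
          refine card_le_card fun x hx => ?_
          rw [mem_filter, mem_union] at hx
          rcases hx.1 with h | h
          · have h6 := hx.2
            rw [if_pos (hbD x h)] at h6
            omega
          · exact h
        by_cases hne : v = d.u₀
        · simp only [if_neg hvD, if_pos hne, if_pos (Or.inr hne : v ∈ T.D ∨ v = d.u₀)]
          have h6 : #(T.L.image fun x => d.s - 1 - d.iL x) ≤ #T.L := card_image_le
          omega
        · have h7 : ¬ (v ∈ T.D ∨ v = d.u₀) := by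
            rintro (h | h)
            · exact hvD h
            · exact hne h
          simp only [if_neg hvD, if_neg hne, if_neg h7, card_empty, add_zero]
          omega)
  have hleaf : ∀ v ∈ T.L, e v = d.s - 1 - d.iL v := by
    intro v hv
    rw [h2 v (T.mem_L.1 hv).1, if_pos hv]
    rw [mem_union]
    rintro (h | h)
    · exact not_D_of_L hv (hbD v h)
    · have h5 := (T.mem_L.1 hv).2
      have h6 := (T.mem_B.1 h).2
      rw [h5, card_empty] at h6
      omega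
  refine ⟨e, h1, hleaf, ?_, ?_, ?_, ?_, ?_, ?_, ?_⟩
  · intro hD
    have h5 := h2 d.u₀ (T.mem_D.1 hD).1 (by
      rw [mem_union]
      rintro (h | h)
      · exact (d.mem_base.1 h).2.1 rfl
      · exact not_D_of_B h hD)
    rw [if_neg (fun h => not_D_of_L h hD), if_pos rfl, c_of_D hD] at h5
    exact h5
  · intro v hD hdn
    have hne : v ≠ d.u₀ := by
      rintro rfl
      have := T.two_pr_lt d.hr hD
      omega
    have h5 := h2 v (T.mem_D.1 hD).1 (by
      rw [mem_union]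
      rintro (h | h)
      · have := (d.mem_base.1 h).2.2
        omega
      · exact not_D_of_B h hD)
    rw [if_neg (fun h => not_D_of_L h hD), if_neg hne, c_of_D hD] at h5
    exact h5
  · intro v hv
    obtain ⟨h5, h6, -⟩ := h3 v (mem_union_left _ hv)
    rw [if_pos (Or.inl (hbD v hv))] at h5
    omega
  · intro v hv hne
    obtain ⟨h5, h6, -⟩ := h3 v (mem_union_right _ hv)
    rw [if_neg (by
      rintro (h | h)
      · exact not_D_of_B hv h
      · exact hne h)] at h5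
    omega
  · intro hv
    obtain ⟨h5, h6, h7⟩ := h3 d.u₀ (mem_union_right _ hv)
    rw [if_pos (Or.inr rfl)] at h5
    rw [if_pos rfl] at h7
    refine ⟨by omega, by omega, ?_⟩
    intro x hx hcon
    refine h7 (mem_image.2 ⟨x, hx, ?_⟩)
    rw [← hcon, hleaf x hx]
  · intro u hu v hv
    refine h4 u (mem_union_left _ hu) v (mem_union_left _ hv) ?_
    rw [if_pos (hbD u hu), if_pos (hbD v hv)]
  · intro u hu v hv
    refine h4 u (mem_union_right _ hu) v (mem_union_right _ hv) ?_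
    rw [if_neg (not_D_of_B hu), if_neg (not_D_of_B hv)]

end Dat

end Pool.Agent.H.MP_936c16_co
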