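import Pool.Agent.H.MP_936c16_co.Win

/-!
The weighting of a rooted tree whose root has exactly one child: the bounds of the weights.
-/

set_option autoImplicit false

namespace Pool.Agent.H.MP_936c16_co

open Finset

variable {V : Type} [Fintype V] [DecidableEq V]

namespace Dat

variable {T : RT V} (d : Dat T)

include d in
theorem one_le_l : 1 ≤ #T.L := by
  have h1 := T.card_B_le d.card_ch
  omega

theorem hs' : 7 * #T.L ≤ d.s + 1 := by
  have h1 := d.hs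
  omega

theorem f_le {b : V} (hb : b ∈ T.N) : d.s + 1 ≤ d.f b ∧ d.f b + 3 ≤ d.s + 4 * #T.L := by
  have h1 := d.N1 b hb
  have h2 := T.card_N_le d.card_ch
  rw [f]
  omega

theorem A_cases : (d.u₀ ∈ T.D ∧ d.A = 6 * #T.L - 1) ∨ (d.u₀ ∉ T.D ∧ d.A = 5 * #T.L - 2) := by
  by_cases h : d.u₀ ∈ T.D
  · exact Or.inl ⟨h, if_pos h⟩
  · exact Or.inr ⟨h, if_neg h⟩

theorem yl_le {b : V} (hb : b ∈ T.N) {q : ℕ} (h1 : 1 ≤ q) (h2 : q ≤ d.m b) :
    d.A ≤ d.yl b q ∧ d.yl b q + #T.L + 2 ≤ d.s ∧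
      (d.u₀ ∉ T.D → d.yl b q + 2 * #T.L + 3 ≤ d.s) := by
  have h3 := d.l1 b hb q h1 h2
  have h4 := d.hs
  have h5 := d.one_le_l
  rw [yl]
  rcases d.A_cases with ⟨h6, h7⟩ | ⟨h6, h7⟩
  · refine ⟨by omega, by omega, fun h => absurd h6 h⟩
  · refine ⟨by omega, by omega, fun _ => by omega⟩

theorem yh_le {b : V} (hb : b ∈ T.N) {j : ℕ} (h1 : d.m b + 2 ≤ j) (h2 : j ≤ T.pr d.u₀ b) :
    d.s + 4 * #T.L ≤ d.yh b j ∧ d.yh b j + 3 * #T.L + 1 ≤ 2 * d.s := by
  have h3 := d.h1 b hb j h1 h2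
  have h4 := d.hs
  have h5 := d.one_le_l
  rw [yh]
  omega

variable {d} {e : V → ℕ} (h : d.Ok e)

include h

theorem e_N {b : V} (hb : b ∈ T.N) (hne : b ≠ d.u₀) : d.s ≤ e b + #T.L ∧ e b + 1 ≤ d.s := by
  rw [T.N_eq, mem_union] at hb
  rcases hb with hb | hb
  · have h1 := h.leaf b hb
    have h2 := d.L1 b hb
    have h3 := d.hs'
    have h4 := d.one_le_l
    omega
  · exact h.br b hb hne

theorem e_eq (k : ℕ) : ∀ v, v ≠ T.r → T.dn v = k → T.dn v ≤ 2 * T.pr d.u₀ (T.bot v) →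
    e v = E (d.m (T.bot v)) (d.f (T.bot v)) (e (T.bot v)) (d.yl (T.bot v)) (d.yh (T.bot v))
      (T.dn v) := by
  induction k with
  | zero =>
    intro v hv hk _
    have h1 : v ∉ T.D := by
      intro hD
      have := T.one_le_dn hD
      omega
    rw [hk, E_zero, T.bot_of_notMem h1]
  | succ k ih =>
    intro v hv hk hp
    have hD : v ∈ T.D := by
      by_contra hD
      have := T.dn_of_notMem hD
      omega
    have h1 := T.dn_eq hD
    have h2 := T.bot_eq hD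
    have h3 := ih (T.chi v) (T.chi_ne hD) (by omega) (by rw [← h2]; omega)
    have h4 := h.blk v hD hp
    rw [← h2] at h3
    have hbN := T.bot_mem_N hv
    have hbne := T.bot_ne_u₀ d.hr hD
    have h5 := e_N h hbN hbne
    have h6 := d.f_le hbN
    have h7 := d.hs'
    rw [h4, h3, h1, val, h1]
    refine (E_succ (P := T.pr d.u₀ (T.bot v)) (by omega) ?_ ?_ (by omega)).symm
    · intro q hq1 hq2
      have h8 := d.yl_le hbN hq1 hq2
      rcases d.A_cases with ⟨-, h9⟩ | ⟨-, h9⟩ <;> omega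
    · intro j hj1 hj2
      have h8 := d.yh_le hbN hj1 hj2
      omega

theorem e_pair {v : V} (hv : v ≠ T.r) (hne : v ≠ d.u₀)
    (hp : T.dn v ≤ 2 * T.pr d.u₀ (T.bot v)) : 1 ≤ e v ∧ e v ≤ d.s := by
  have hbN := T.bot_mem_N hv
  have hbne : T.bot v ≠ d.u₀ := by
    by_cases hD : v ∈ T.D
    · exact T.bot_ne_u₀ d.hr hD
    · rwa [T.bot_of_notMem hD]
  rw [e_eq h _ v hv rfl hp]
  have h5 := e_N h hbN hbne
  have h6 := d.f_le hbN
  have h7 := d.hs'
  refine E_mem (P := T.pr d.u₀ (T.bot v)) (l := #T.L) h5.1 h5.2 h6.1 h6.2 h7 ?_ ?_ hp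
  · intro q hq1 hq2
    have h8 := d.yl_le hbN hq1 hq2
    rcases d.A_cases with ⟨-, h9⟩ | ⟨-, h9⟩ <;> omega
  · intro j hj1 hj2
    have h8 := d.yh_le hbN hj1 hj2
    omega

/-- the weight above the last pair -/
theorem e_top {v : V} (hv : v ≠ T.r) (hne : v ≠ d.u₀)
    (hp : T.dn v = 2 * T.pr d.u₀ (T.bot v)) : d.s ≤ e v + #T.L ∧ e v ≤ d.s := by
  have hbN := T.bot_mem_N hv
  have hbne : T.bot v ≠ d.u₀ := by
    by_cases hD : v ∈ T.D
    · exact T.bot_ne_u₀ d.hr hD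
    · rwa [T.bot_of_notMem hD]
  have h5 := e_N h hbN hbne
  have h6 := e_eq h _ v hv rfl hp.le
  rw [hp, E_top (show d.m (T.bot v) = T.pr d.u₀ (T.bot v) / 2 from rfl)] at h6
  omega

theorem e_top' {v : V} (hv : v ≠ T.r) (hne : v ∈ T.D → v ≠ d.u₀)
    (hp : 2 * T.pr d.u₀ (T.bot v) ≤ T.dn v) : d.s + 1 ≤ e v + 2 * #T.L ∧ e v ≤ d.s := by
  have h1 := d.one_le_l
  by_cases hvu : v = d.u₀
  · rcases d.u₀_mem with h2 | h2
    · exact absurd hvu (hne (by rwa [hvu]))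
    · have h3 := h.bru h2
      rw [hvu]
      omega
  · rcases hp.eq_or_lt with h2 | h2
    · have h3 := e_top h hv hvu h2.symm
      omega
    · have hD : v ∈ T.D := by
        by_contra hD
        have := T.dn_of_notMem hD
        omega
      have h3 := h.bas v (d.mem_base.2 ⟨hD, hvu, h2⟩)
      omega

theorem e_chi_u₀ (hD : d.u₀ ∈ T.D) :
    d.s + 1 ≤ e (T.chi d.u₀) + 2 * #T.L ∧ e (T.chi d.u₀) ≤ d.s := by
  refine e_top' h (T.chi_ne hD) ?_ ?_
  · intro _ hcon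
    have h1 := T.ht_chi hD
    rw [hcon] at h1
    exact lt_irrefl _ h1
  · have h1 := T.two_pr_lt d.hr hD
    rw [T.dn_eq hD] at h1
    rw [← T.bot_eq hD]
    omega

theorem e_u₀ (hD : d.u₀ ∈ T.D) :
    4 * #T.L - 1 ≤ e d.u₀ ∧ e d.u₀ ≤ 6 * #T.L - 2 ∧ e d.u₀ + e (T.chi d.u₀) = d.s + 4 * #T.L - 1 := by
  have h1 := e_chi_u₀ h hD
  have h2 := h.spec hD
  have h3 := d.one_le_l
  omega

/-- the bounds of the weights -/
theorem e_mem {v : V} (hv : v ≠ T.r) : 1 ≤ e v ∧ e v ≤ d.s := by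
  have h1 := d.one_le_l
  have h2 := d.hs'
  by_cases hvu : v = d.u₀
  · rw [hvu]
    rcases d.u₀_mem with h3 | h3
    · have h4 := e_u₀ h h3
      omega
    · have h4 := h.bru h3
      omega
  · rcases le_total (T.dn v) (2 * T.pr d.u₀ (T.bot v)) with h3 | h3
    · exact e_pair h hv hvu h3
    · have h4 := e_top' h hv (fun _ => hvu) h3
      omega

theorem w_pair {v : V} (hD : v ∈ T.D) (hp : T.dn v ≤ 2 * T.pr d.u₀ (T.bot v)) :
    T.w e v = d.val v := by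
  have h1 := e_mem h (T.mem_D.1 hD).1
  have h2 := h.blk v hD hp
  rw [RT.w, c_of_D hD]
  omega

theorem w_base {v : V} (hv : v ∈ d.base) :
    2 * d.s + 1 ≤ T.w e v + 3 * #T.L ∧ T.w e v < 2 * d.s := by
  obtain ⟨hD, hne, h1⟩ := d.mem_base.1 hv
  have h2 := T.dn_le d.hr hD hne
  have h3 := h.bas v hv
  have h4 : T.chi v ≠ d.u₀ := by
    intro hcon
    have h5 := T.par_chi hD
    rw [hcon, (T.par_u₀ d.hr).2] at h5
    exact (T.mem_D.1 hD).1 h5.symm
  have h5 := e_top h (T.chi_ne hD) h4 (by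
    have := T.dn_eq hD
    rw [← T.bot_eq hD]
    omega)
  rw [RT.w, c_of_D hD]
  omega

theorem w_u₀ (hD : d.u₀ ∈ T.D) : T.w e d.u₀ = d.s + 4 * #T.L - 1 := by
  have h1 := e_u₀ h hD
  rw [RT.w, c_of_D hD]
  omega

omit h in
theorem w_L {v : V} (hv : v ∈ T.L) : T.w e v = e v := by
  rw [RT.w, RT.c, (T.mem_L.1 hv).2, sum_empty, zero_add]

theorem w_r : T.w e T.r = e d.u₀ := by
  rw [RT.w, RT.c, d.hr, sum_singleton, h.root, add_zero]

theorem w_B {v : V} (hv : v ∈ T.B) : 2 * d.s < T.w e v := by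
  have h1 := T.mem_B.1 hv
  have hnD := not_D_of_B hv
  have key : ∀ u ∈ T.ch v, d.s + 1 - 2 * #T.L ≤ e u := by
    intro u hu
    have h2 := T.mem_ch.1 hu
    have h3 := e_top' h h2.1 (fun _ hcon => by
      rw [hcon, (T.par_u₀ d.hr).2] at h2
      exact h1.1 h2.2.symm) (T.two_pr_le_dn h2.1 (by rwa [h2.2]))
    omega
  have h2 : 2 * (d.s + 1 - 2 * #T.L) ≤ T.c e v := by
    refine (Nat.mul_le_mul_right _ h1.2).trans ?_
    rw [RT.c, ← smul_eq_mul, ← sum_const]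
    exact sum_le_sum key
  have h3 : d.s + 1 ≤ e v + 2 * #T.L := by
    have h5 := d.one_le_l
    by_cases hvu : v = d.u₀
    · rw [hvu] at hv ⊢
      exact (h.bru hv).1
    · have h6 := h.br v hv hvu
      omega
  have h4 := d.hs'
  have h5 := d.one_le_l
  rw [RT.w]
  omega

/-- the weighted degree of a vertex in a pair -/
theorem val_cases {v : V} (hD : v ∈ T.D) (hp : T.dn v ≤ 2 * T.pr d.u₀ (T.bot v)) :
    (∃ ε, ε < 2 ∧ T.w e v = d.s + 1 + 2 * d.iN (T.bot v) + ε ∧ T.w e v + 2 ≤ d.s + 4 * #T.L ∧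
      T.dn v = if ε = 0 then 1 else 2 * d.m (T.bot v) + 2) ∨
    (∃ q ε, 1 ≤ q ∧ q ≤ d.m (T.bot v) ∧ ε < 2 ∧ T.w e v = d.A + 2 * d.il (T.bot v) q + ε ∧
      T.w e v + #T.L + 1 ≤ d.s ∧ (d.u₀ ∉ T.D → T.w e v + 2 * #T.L + 2 ≤ d.s) ∧
      T.dn v = if ε = q % 2 then 2 * q + 1 else 2 * q) ∨
    (∃ j ε, d.m (T.bot v) + 2 ≤ j ∧ j ≤ T.pr d.u₀ (T.bot v) ∧ ε < 2 ∧
      T.w e v = d.s + 4 * #T.L + 2 * d.ih (T.bot v) j + ε ∧
      T.w e v + 3 * #T.L ≤ 2 * d.s ∧
      T.dn v = if ε = j % 2 then 2 * j else 2 * j - 1) := by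
  have hbN := T.bot_mem_N (T.mem_D.1 hD).1
  have h1 := T.one_le_dn hD
  rw [w_pair h hD hp]
  rcases Va_cases (P := T.pr d.u₀ (T.bot v)) (m := d.m (T.bot v)) (f := d.f (T.bot v))
    (yl := d.yl (T.bot v)) (yh := d.yh (T.bot v)) rfl h1 hp with
    ⟨ε, h2, h3, h4⟩ | ⟨q, ε, h5, h6, h2, h3, h4⟩ | ⟨j, ε, h5, h6, h2, h3, h4⟩
  · left
    have h7 := d.f_le hbN
    have h8 : d.val v = d.f (T.bot v) + ε := h3
    refine ⟨ε, h2, h8, ?_, h4⟩
    omega
  · right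
    left
    have h7 := d.yl_le hbN h5 h6
    have h8 : d.val v = d.yl (T.bot v) q + ε := h3
    refine ⟨q, ε, h5, h6, h2, h8, ?_, ?_, h4⟩
    · omega
    · intro h9
      have := h7.2.2 h9
      omega
  · right
    right
    have h7 := d.yh_le hbN h5 h6
    have h8 : d.val v = d.yh (T.bot v) j + ε := h3
    refine ⟨j, ε, h5, h6, h2, h8, ?_, h4⟩
    omega

omit h in
/-- the kinds of the vertices -/
theorem kinds (d : Dat T) {v : V} (hv : v ≠ T.r) : v ∈ T.L ∨ v ∈ T.B ∨ v ∈ d.base ∨ (v = d.u₀ ∧ v ∈ T.D) ∨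
    (v ∈ T.D ∧ T.dn v ≤ 2 * T.pr d.u₀ (T.bot v)) := by
  by_cases hD : v ∈ T.D
  · by_cases h1 : v = d.u₀
    · exact Or.inr (Or.inr (Or.inr (Or.inl ⟨h1, hD⟩)))
    · rcases le_or_gt (T.dn v) (2 * T.pr d.u₀ (T.bot v)) with h2 | h2
      · exact Or.inr (Or.inr (Or.inr (Or.inr ⟨hD, h2⟩)))
      · exact Or.inr (Or.inr (Or.inl (d.mem_base.2 ⟨hD, h1, h2⟩)))
  · have h1 : v ∈ T.N := T.mem_N.2 ⟨hv, hD⟩
    rw [T.N_eq, mem_union] at h1
    rcases h1 with h1 | h1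
    · exact Or.inl h1
    · exact Or.inr (Or.inl h1)

/-- the weighted degree of the root is different from the others -/
theorem w_ne_root {v : V} (hv : v ≠ T.r) : T.w e v ≠ T.w e T.r := by
  rw [w_r h]
  have hl := d.one_le_l
  have hs := d.hs'
  have hu : (d.u₀ ∈ T.D ∧ 4 * #T.L - 1 ≤ e d.u₀ ∧ e d.u₀ ≤ 6 * #T.L - 2 ∧
      d.A = 6 * #T.L - 1) ∨ (d.u₀ ∉ T.D ∧ d.s + 1 ≤ e d.u₀ + 2 * #T.L ∧ e d.u₀ + 1 ≤ d.s ∧
      (∀ x ∈ T.L, e x ≠ e d.u₀)) := by
    rcases d.u₀_mem with h3 | h3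
    · left
      have h4 := e_u₀ h h3
      refine ⟨h3, h4.1, h4.2.1, ?_⟩
      rcases d.A_cases with ⟨-, h5⟩ | ⟨h6, -⟩
      · exact h5
      · exact absurd h3 h6
    · right
      exact ⟨not_D_of_B h3, h.bru h3⟩
  rcases kinds d hv with h1 | h1 | h1 | ⟨h1, h2⟩ | ⟨h1, h2⟩
  · rw [w_L h1]
    rcases hu with hu | hu
    · have h3 := h.leaf v h1
      have h4 := d.L1 v h1
      omega
    · exact hu.2.2.2 v h1
  · have h3 := w_B h h1
    rcases hu with hu | hu <;> omega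
  · have h3 := w_base h h1
    rcases hu with hu | hu <;> omega
  · rw [h1] at h2 ⊢
    have h3 := w_u₀ h h2
    rcases hu with hu | hu <;> omega
  · rcases val_cases h h1 h2 with ⟨ε, h3⟩ | ⟨q, ε, h3⟩ | ⟨j, ε, h3⟩
    · rcases hu with hu | hu <;> omega
    · rcases hu with hu | hu
      · omega
      · have h4 := h3.2.2.2.2.2.1 hu.1
        omega
    · rcases hu with hu | hu <;> omega

theorem w_inj {u v : V} (hu : u ≠ T.r) (hv : v ≠ T.r) (huv : T.w e u = T.w e v) : u = v := by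
  have hl := d.one_le_l
  have hs := d.hs'
  have kL : ∀ x ∈ T.L, T.w e x = d.s - 1 - d.iL x ∧ d.iL x < #T.L := by
    intro x hx
    rw [w_L hx]
    exact ⟨h.leaf x hx, d.L1 x hx⟩
  have kN : ∀ x ∈ T.D, T.bot x ∈ T.N := fun x hx => T.bot_mem_N (T.mem_D.1 hx).1
  rcases kinds d hu with h1 | h1 | h1 | ⟨h1, h2⟩ | ⟨h1, h2⟩
  · have k1 := kL u h1
    rcases kinds d hv with g1 | g1 | g1 | ⟨g1, g2⟩ | ⟨g1, g2⟩
    · have k2 := kL v g1
      exact d.L2 u h1 v g1 (by omega)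
    · have g3 := w_B h g1
      omega
    · have g3 := w_base h g1
      omega
    · rw [g1] at g2 huv
      have g3 := w_u₀ h g2
      omega
    · rcases val_cases h g1 g2 with ⟨ε', g3⟩ | ⟨q', ε', g3⟩ | ⟨j', ε', g3⟩ <;> omega
  · have k1 := w_B h h1
    rcases kinds d hv with g1 | g1 | g1 | ⟨g1, g2⟩ | ⟨g1, g2⟩
    · have k2 := kL v g1
      omega
    · exact h.injB u h1 v g1 huv
    · have g3 := w_base h g1
      omega
    · rw [g1] at g2 huv
      have g3 := w_u₀ h g2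
      omega
    · rcases val_cases h g1 g2 with ⟨ε', g3⟩ | ⟨q', ε', g3⟩ | ⟨j', ε', g3⟩ <;> omega
  · have k1 := w_base h h1
    rcases kinds d hv with g1 | g1 | g1 | ⟨g1, g2⟩ | ⟨g1, g2⟩
    · have k2 := kL v g1
      omega
    · have g3 := w_B h g1
      omega
    · exact h.injD u h1 v g1 huv
    · rw [g1] at g2 huv
      have g3 := w_u₀ h g2
      omega
    · rcases val_cases h g1 g2 with ⟨ε', g3⟩ | ⟨q', ε', g3⟩ | ⟨j', ε', g3⟩ <;> omega
  · have k1 : T.w e u = d.s + 4 * #T.L - 1 := by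
      rw [h1] at h2 ⊢
      exact w_u₀ h h2
    rcases kinds d hv with g1 | g1 | g1 | ⟨g1, g2⟩ | ⟨g1, g2⟩
    · have k2 := kL v g1
      omega
    · have g3 := w_B h g1
      omega
    · have g3 := w_base h g1
      omega
    · rw [h1, g1]
    · rcases val_cases h g1 g2 with ⟨ε', g3⟩ | ⟨q', ε', g3⟩ | ⟨j', ε', g3⟩ <;> omega
  · have k1 := kN u h1
    rcases val_cases h h1 h2 with ⟨ε, h3, h4, h5, h6⟩ | ⟨q, ε, h3, h4, h5, h6, h7, h8, h9⟩ |
      ⟨j, ε, h3, h4, h5, h6, h7, h8⟩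
    · rcases kinds d hv with g1 | g1 | g1 | ⟨g1, g2⟩ | ⟨g1, g2⟩
      · have k2 := kL v g1
        omega
      · have g3 := w_B h g1
        omega
      · have g3 := w_base h g1
        omega
      · rw [g1] at g2 huv
        have g3 := w_u₀ h g2
        omega
      · have k2 := kN v g1
        rcases val_cases h g1 g2 with ⟨ε', g3, g4, g5, g6⟩ | ⟨q', ε', g3⟩ | ⟨j', ε', g3⟩
        · have e1 : ε = ε' := by omega
          have e2 := d.N2 _ k1 _ k2 (by omega)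
          subst e1
          refine T.dn_bot_inj h1 g1 e2 ?_
          rw [h6, g6, e2]
        · omega
        · omega
    · rcases kinds d hv with g1 | g1 | g1 | ⟨g1, g2⟩ | ⟨g1, g2⟩
      · have k2 := kL v g1
        omega
      · have g3 := w_B h g1
        omega
      · have g3 := w_base h g1
        omega
      · rw [g1] at g2 huv
        have g3 := w_u₀ h g2
        omega
      · have k2 := kN v g1
        rcases val_cases h g1 g2 with ⟨ε', g3⟩ | ⟨q', ε', g3, g4, g5, g6, g7, g8, g9⟩ | ⟨j', ε', g3⟩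
        · omega
        · have e1 : ε = ε' := by omega
          obtain ⟨e2, e3⟩ := d.l2 _ k1 q h3 h4 _ k2 q' g3 g4 (by omega)
          subst e1 e3
          refine T.dn_bot_inj h1 g1 e2 ?_
          rw [h9, g9]
        · omega
    · rcases kinds d hv with g1 | g1 | g1 | ⟨g1, g2⟩ | ⟨g1, g2⟩
      · have k2 := kL v g1
        omega
      · have g3 := w_B h g1
        omega
      · have g3 := w_base h g1
        omega
      · rw [g1] at g2 huv
        have g3 := w_u₀ h g2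
        omega
      · have k2 := kN v g1
        rcases val_cases h g1 g2 with ⟨ε', g3⟩ | ⟨q', ε', g3⟩ | ⟨j', ε', g3, g4, g5, g6, g7, g8⟩
        · omega
        · omega
        · have e1 : ε = ε' := by omega
          obtain ⟨e2, e3⟩ := d.h2 _ k1 j h3 h4 _ k2 j' g3 g4 (by omega)
          subst e1 e3
          refine T.dn_bot_inj h1 g1 e2 ?_
          rw [h8, g8]

end Dat

namespace RT

variable (T : RT V)

/-- The weighting of a rooted tree whose root has exactly one child. -/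
theorem exists_win {u₀ : V} (hr : T.ch T.r = {u₀}) (hu : u₀ ∉ T.L) {s : ℕ}
    (hs : #T.D + 14 * #T.L ≤ 2 * s + 2) :
    ∃ e : V → ℕ, e T.r = 0 ∧ (∀ v, v ≠ T.r → 1 ≤ e v ∧ e v ≤ s) ∧
      Function.Injective (T.w e) := by
  obtain ⟨iL, L1, L2⟩ := exists_num T.L
  obtain ⟨iN, N1, N2⟩ := exists_num T.N
  obtain ⟨il, l1, l2⟩ := T.exists_num2 T.N (fun _ => 1) (fun b => T.pr u₀ b / 2) _ (by
    intro b _
    have := T.two_pr_le u₀ b
    omega) rfl rfl
  obtain ⟨ih, h1, h2⟩ := T.exists_num2 T.N (fun b => T.pr u₀ b / 2 + 2) (fun b => T.pr u₀ b) _ (by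
    intro b _
    have := T.two_pr_le u₀ b
    omega) rfl rfl
  obtain ⟨d, hds⟩ : ∃ d : Dat T, d.s = s :=
    ⟨⟨u₀, s, iL, iN, il, ih, hr, hu, hs, L1, L2, N1, N2, l1, l2, h1, h2⟩, rfl⟩
  obtain ⟨e, he⟩ := d.exists_ok
  refine ⟨e, he.root, ?_, ?_⟩
  · intro v hv
    rw [← hds]
    exact Dat.e_mem he hv
  · intro x y hxy
    by_cases hx : x = T.r
    · by_cases hy : y = T.r
      · rw [hx, hy]
      · rw [hx] at hxy
        exact absurd hxy.symm (Dat.w_ne_root he hy)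
    · by_cases hy : y = T.r
      · rw [hy] at hxy
        exact absurd hxy (Dat.w_ne_root he hx)
      · exact Dat.w_inj he hx hy hxy

end RT

end Pool.Agent.H.MP_936c16_co
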